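import Pool.Agent.H63.STAT.Clo
import Pool.Agent.H64.STAT.Fam0
import Pool.Agent.H80.GEN.Chn

/-!
# From chains of two-sided labels to exact closed labels (row N1)

`clo_fam`: chains of two-sided labels for the radii `w₀ + k z`, `k ≤ M`, and the window `w₀` give,
on an event of probability at least a constant, the exact labels `CDat` with the conditions `Cnd`.
-/

set_option autoImplicit false

namespace Pool.STAT

open Finset MvPolynomial
open Pool.Agent.H49.Ent Pool.Agent.H32.Dense Pool.STK Pool.KS3 Pool.KA Pool.KSAT Pool.PB Pool.GEN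
open Pool.K2S

variable {m J : ℕ}

namespace CLO

/-! ### Translation of polynomials along a chain -/

open Classical in
/-- The variables of a chain: the time is the variable `0`, the coordinate `c l` is the variable
`l + 1`. -/
noncomputable def vr (c : ℕ → Fin m) (i : ℕ) : Option (Fin m) → PN
  | none => X 0
  | some j => if h : ∃ l, l < i ∧ c l = j then X (Nat.find h + 1) else 0

/-- The translation of a polynomial. -/
noncomputable def tr (c : ℕ → Fin m) (i : ℕ) (G : MvPolynomial (Option (Fin m)) ℝ) : PN :=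
  bind₁ (vr c i) G

/-- The chain is injective. -/
def Inj (c : ℕ → Fin m) (n : ℕ) : Prop := ∀ l < n, ∀ l' < n, c l = c l' → l = l'

theorem vr_some {c : ℕ → Fin m} {n i l : ℕ} (hc : Inj c n) (hi : i ≤ n) (hl : l < i) :
    vr c i (some (c l)) = X (l + 1) := by
  classical
  have h : ∃ l', l' < i ∧ c l' = c l := ⟨l, hl, rfl⟩
  have h1 : vr c i (some (c l)) = X (Nat.find h + 1) := dif_pos h
  have h2 := Nat.find_spec h
  rw [h1, hc _ (h2.1.trans_le hi) l (hl.trans_le hi) h2.2]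

theorem vr_vars (c : ℕ → Fin m) (i : ℕ) (o : Option (Fin m)) : (vr c i o).vars ⊆ range (i + 1) := by
  classical
  rcases o with _ | j
  · show (X 0 : PN).vars ⊆ _
    exact AdxRow.vars_X_le (Nat.succ_pos i)
  · unfold vr
    simp only
    split_ifs with h
    · exact AdxRow.vars_X_le (Nat.succ_lt_succ (Nat.find_spec h).1)
    · rw [vars_0]
      exact Finset.empty_subset _

theorem vr_deg (c : ℕ → Fin m) (i : ℕ) (o : Option (Fin m)) : (vr c i o).totalDegree ≤ 1 := by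
  classical
  rcases o with _ | j
  · show (X 0 : PN).totalDegree ≤ _
    exact (totalDegree_X _).le
  · unfold vr
    simp only
    split_ifs with h
    · exact (totalDegree_X _).le
    · rw [totalDegree_zero]
      exact Nat.zero_le _

theorem tr_vars (c : ℕ → Fin m) (i : ℕ) (G : MvPolynomial (Option (Fin m)) ℝ) :
    (tr c i G).vars ⊆ range (i + 1) := by
  classical
  unfold tr
  refine (vars_bind₁ _ _).trans ?_
  rw [Finset.biUnion_subset]
  exact fun o _ => vr_vars c i o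

theorem tr_deg (c : ℕ → Fin m) (i : ℕ) (G : MvPolynomial (Option (Fin m)) ℝ) :
    (tr c i G).totalDegree ≤ G.totalDegree := by
  unfold tr
  rw [← aeval_eq_bind₁, aeval_def, eval₂_eq']
  refine totalDegree_finsetSum_le fun d hd => ?_
  refine (totalDegree_mul _ _).trans ?_
  have h0 : (algebraMap ℝ PN (coeff d G)).totalDegree = 0 := by
    rw [algebraMap_eq, totalDegree_C]
  rw [h0, zero_add]
  refine (totalDegree_finsetProd _ _).trans ?_
  have h1 : ∀ i' ∈ (Finset.univ : Finset (Option (Fin m))), ((vr c i i') ^ d i').totalDegree ≤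
      d i' := by
    intro i' _
    refine (totalDegree_pow _ _).trans ?_
    calc d i' * _ ≤ d i' * 1 := Nat.mul_le_mul_left _ (vr_deg c i i')
      _ = d i' := Nat.mul_one _
  refine (Finset.sum_le_sum h1).trans ?_
  have h3 : ∑ i, d i = d.sum fun _ e => e := by
    rw [Finsupp.sum_fintype _ _ fun _ => rfl]
  rw [h3]
  exact le_totalDegree hd

theorem eval_tr {c : ℕ → Fin m} {n i : ℕ} (hc : Inj c n) (hi : i ≤ n)
    {G : MvPolynomial (Option (Fin m)) ℝ} (hG : DepC c i G) {b : ℕ → ℝ}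
    {B : Option (Fin m) → ℝ} (h0 : B none = b 0) (h : ∀ l < i, B (some (c l)) = b (l + 1)) :
    eval b (tr c i G) = eval B G := by
  unfold tr
  rw [AdxRow.evl_bnd]
  refine hG _ _ ?_ fun l hl => ?_
  · show eval b (X 0) = _
    rw [eval_X, h0]
  · show eval b (vr c i (some (c l))) = _
    rw [vr_some hc hi hl, eval_X, h l hl]

/-- The system of a chain. -/
noncomputable def sy (c : ℕ → Fin m) (n : ℕ) (t : ℝ) (G : ℕ → MvPolynomial (Option (Fin m)) ℝ)
    (i : ℕ) : PN :=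
  if i = 0 then MvPolynomial.C t else if i ≤ n then tr c (i - 1) (G (i - 1)) else 0

/-- The precisions of a chain. -/
def gg (a : ℕ) (g : ℕ → ℕ) (i : ℕ) : ℕ := if i = 0 then a else g (i - 1)

section sy

variable {c : ℕ → Fin m} {n : ℕ} {t : ℝ} {G : ℕ → MvPolynomial (Option (Fin m)) ℝ}

theorem sy_zero : sy c n t G 0 = MvPolynomial.C t := if_pos rfl

theorem sy_succ {i : ℕ} (hi : i < n) : sy c n t G (i + 1) = tr c i (G i) := by
  unfold sy
  rw [if_neg (by omega), if_pos (by omega)]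
  rfl

theorem sy_tri : TriN (sy c n t G) := by
  intro i
  unfold sy
  split_ifs with h1 h2
  · rw [vars_C]
    exact Finset.empty_subset _
  · refine (tr_vars _ _ _).trans (Finset.range_mono ?_)
    omega
  · rw [vars_0]
    exact Finset.empty_subset _

theorem sy_deg {K : ℕ} (hK : ∀ i < n, (G i).totalDegree ≤ K) (i : ℕ) :
    (sy c n t G i).totalDegree ≤ K := by
  unfold sy
  split_ifs with h1 h2
  · rw [totalDegree_C]
    exact Nat.zero_le _
  · exact (tr_deg _ _ _).trans (hK _ (by omega))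
  · rw [totalDegree_zero]
    exact Nat.zero_le _

/-- The natural boxes. -/
theorem nbx_of_bxr (hc : Inj c n) (hG : ∀ i, DepC c i (G i)) {a : ℕ} {g : ℕ → ℕ} {i : ℕ}
    (hi : i < n) {b : ℕ → ℝ} (hb : Bxr 1 (gg a g) (sy c n t G) (i + 1) b) :
    NBx c G g a t i (fun o => eval b (vr c i o)) := by
  refine ⟨?_, fun l hl => ?_⟩
  · have h1 := hb 0 (Nat.succ_pos i)
    rw [sy_zero, eval_C] at h1
    show |eval b (X 0) - t| ≤ _
    rw [eval_X]
    exact h1
  · have h1 := hb (l + 1) (Nat.succ_lt_succ hl)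
    rw [sy_succ (hl.trans hi)] at h1
    have h2 : eval b (tr c l (G l)) = eval (fun o => eval b (vr c i o)) (G l) :=
      eval_tr hc (hl.le.trans hi.le) (hG l) (by
        show eval b (X 0) = _
        rw [eval_X]) fun l' hl' => by
        show eval b (vr c i (some (c l'))) = _
        rw [vr_some hc hi.le (hl'.trans hl), eval_X]
    show |eval b (vr c i (some (c l))) - _| ≤ _
    rw [vr_some hc hi.le hl, eval_X, ← h2]
    exact h1

/-- The values of the system at a point. -/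
theorem eval_sy (hc : Inj c n) (hG : ∀ i, DepC c i (G i)) {i : ℕ} (hi : i < n) (b : ℕ → ℝ) :
    eval b (sy c n t G (i + 1)) = eval (fun o => eval b (vr c i o)) (G i) := by
  rw [sy_succ hi]
  refine eval_tr hc hi.le (hG i) ?_ fun l hl => ?_
  · show eval b (X 0) = _
    rw [eval_X]
  · show eval b (vr c i (some (c l))) = _
    rw [vr_some hc hi.le hl, eval_X]

end sy

/-! ### The cell of the time -/

/-- The cell of the time, as a function of the point. -/
noncomputable def tp {F : Fam m J} (a : ℕ) (y : PtT F) : ℝ :=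
  ((y.2.1 / 2 ^ (J - a) : ℕ) : ℝ) / 2 ^ a

/-- The cell of the time, as a function of the line with the window. -/
noncomputable def tl {F : Fam m J} (a : ℕ) (s : LnT F) : ℝ := (s.2.2 : ℝ) / 2 ^ a

theorem tp_eq (F : Fam m J) (a : ℕ) (ω : F.Ω) : tp a (ptr F J ω) = (F.T1 a ω : ℝ) / 2 ^ a := rfl

theorem tl_eq (F : Fam m J) (a : ℕ) (ω : F.Ω) : tl a (slam F a ω) = (F.T1 a ω : ℝ) / 2 ^ a := rfl

theorem t_cell (F : Fam m J) {a : ℕ} (ha : a ≤ J) (ω : F.Ω) :
    |F.t ω - (F.T1 a ω : ℝ) / 2 ^ a| ≤ 1 / 2 ^ a := by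
  have hJ : (2 : ℝ) ^ J = 2 ^ (J - a) * 2 ^ a := by
    rw [← pow_add, Nat.sub_add_cancel ha]
  have h0 : (0 : ℝ) < 2 ^ (J - a) := by positivity
  have h1 : (0 : ℝ) < 2 ^ a := by positivity
  have e1 : ((F.T1 a ω : ℕ) : ℝ) * 2 ^ (J - a) ≤ F.T ω := by
    unfold Fam.T1
    exact_mod_cast Nat.div_mul_le_self (F.T ω) (2 ^ (J - a))
  have e2 : (F.T ω : ℝ) ≤ (F.T1 a ω + 1) * 2 ^ (J - a) := by
    unfold Fam.T1
    have h3 : F.T ω < (F.T ω / 2 ^ (J - a) + 1) * 2 ^ (J - a) := by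
      have := Nat.lt_div_mul_add (a := F.T ω) (b := 2 ^ (J - a)) (by positivity)
      rw [Nat.add_mul, Nat.one_mul]
      exact this
    exact_mod_cast h3.le
  have e3 : F.t ω = (F.T ω / 2 ^ (J - a)) / 2 ^ a := by
    unfold Fam.t
    rw [hJ, div_div]
  rw [e3, ← sub_div, abs_div, abs_of_pos h1]
  refine div_le_div_of_nonneg_right ?_ h1.le
  rw [← le_div_iff₀ h0] at e1
  rw [← div_le_iff₀ h0] at e2
  rw [abs_le]
  constructor <;> linarith

/-- The line with the larger window. -/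
def crs {F : Fam m J} (w w' : ℕ) (s : LnT F) : LnT F := (s.1, s.2.1, s.2.2 / 2 ^ (w' - w))

theorem crs_eq (F : Fam m J) {w w' : ℕ} (h : w ≤ w') (hw : w' ≤ J) (ω : F.Ω) :
    crs w w' (slam F w' ω) = slam F w ω := (Pool.PB.slam_coarse F h hw ω).symm

/-- The point side as a system. -/
noncomputable def Gs {F : Fam m J} (c : ℕ → Fin m) (n a : ℕ)
    (G : PtT F → ℕ → MvPolynomial (Option (Fin m)) ℝ) (y : PtT F) : ℕ → PN :=
  sy c n (tp a y) (G y)

/-- The line side as a system. -/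
noncomputable def Hs {F : Fam m J} (c : ℕ → Fin m) (n : ℕ)
    (H : LnT F → ℕ → MvPolynomial (Option (Fin m)) ℝ) (s : LnT F) : ℕ → PN :=
  sy c n 0 (H s)

section raw

variable {F : Fam m J} {c : ℕ → Fin m} {n : ℕ} {Kv : ℕ → ℕ} {a w₀ e : ℕ} {g : ℕ → ℕ}
  {A : F.Ω → Prop} {G : PtT F → ℕ → MvPolynomial (Option (Fin m)) ℝ}
  {H : LnT F → ℕ → MvPolynomial (Option (Fin m)) ℝ}

/-- The boxes around the cell of the time are in the dilated boxes around the time. -/
theorem bxr_cell (ha : a ≤ J) (ω : F.Ω) {i : ℕ} (hi : i ≤ n + 1) {b : ℕ → ℝ}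
    (hb : Bx (gg a g) (Gs c n a G (ptr F J ω)) i b) :
    Bxr 2 (gg a g) (sy c n (F.t ω) (G (ptr F J ω))) i b := by
  intro j hj
  have h1 := hb j hj
  rcases Nat.eq_zero_or_pos j with rfl | hj0
  · have h2 : Gs c n a G (ptr F J ω) 0 = MvPolynomial.C ((F.T1 a ω : ℝ) / 2 ^ a) := by
      unfold Gs
      rw [sy_zero, tp_eq]
    rw [h2, eval_C] at h1
    rw [sy_zero, eval_C]
    have h3 := t_cell F ha ω
    have h4 : |b 0 - F.t ω| ≤ |b 0 - (F.T1 a ω : ℝ) / 2 ^ a| +
        |F.t ω - (F.T1 a ω : ℝ) / 2 ^ a| := by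
      have := abs_add_le (b 0 - (F.T1 a ω : ℝ) / 2 ^ a) (-(F.t ω - (F.T1 a ω : ℝ) / 2 ^ a))
      rw [abs_neg] at this
      refine le_trans (le_of_eq ?_) this
      congr 1
      ring
    have h5 : gg a g 0 = a := if_pos rfl
    rw [h5] at h1 ⊢
    calc |b 0 - F.t ω| ≤ 1 / 2 ^ a + 1 / 2 ^ a := h4.trans (add_le_add h1 h3)
      _ = 2 / 2 ^ a := by ring
  · obtain ⟨j, rfl⟩ : ∃ j', j = j' + 1 := ⟨j - 1, by omega⟩
    unfold Gs at h1
    rw [sy_succ (by omega)] at h1 ⊢
    exact h1.trans (div_le_div_of_nonneg_right (by norm_num) (by positivity))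

theorem raw_of (n K : ℕ) : ∃ s₀ : ℕ, ∀ (m J : ℕ) (F : Fam m J) (c : ℕ → Fin m) (Kv : ℕ → ℕ)
    (a w₀ e : ℕ) (g : ℕ → ℕ) (A : F.Ω → Prop) (G : PtT F → ℕ → MvPolynomial (Option (Fin m)) ℝ)
    (H : LnT F → ℕ → MvPolynomial (Option (Fin m)) ℝ), w₀ ≤ a → a ≤ J → Inj c n →
    (∀ i < n, Kv i ≤ K) → ChOK F c n Kv a w₀ e g A G H →
    Raw n K (2 ^ s₀) A (ptr F J) (slam F a) (tp a) (tl a) (gg a g) (Gs c n a G)
      (fun s => Hs c n H (crs w₀ a s)) := by
  obtain ⟨C, hC, hdil⟩ := dil n K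
  obtain ⟨K₁, hK₁⟩ : ∃ K₁, K₁ = K * (K + 1) ^ (n + 1) := ⟨_, rfl⟩
  rw [← hK₁] at hdil
  obtain ⟨s₀, hs₀⟩ := pow_unbounded_of_one_lt (C * 2 ^ K₁) (one_lt_two (α := ℝ))
  refine ⟨s₀, ?_⟩
  intro m J F c Kv a w₀ e g A G H hw ha hc hK h
  have hGK : ∀ y, ∀ i < n, (G y i).totalDegree ≤ K := fun y i hi => (h.degG y i).trans (hK i hi)
  have hHK : ∀ s, ∀ i < n, (H s i).totalDegree ≤ K := fun s i hi => (h.degH s i).trans (hK i hi)
  refine ⟨fun y => sy_tri, fun y i => sy_deg (hGK y) i, fun s => sy_tri, fun s i =>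
    sy_deg (hHK _) i, fun y => sy_zero, fun ω _ => by rw [tp_eq, tl_eq], ?_⟩
  intro ω hω i hi1 hi b hb
  obtain ⟨i, rfl⟩ : ∃ i', i = i' + 1 := ⟨i - 1, by omega⟩
  have h1 := bxr_cell ha ω (by omega) hb
  rw [crs_eq F hw ha ω]
  have h2 : gg a g (i + 1) = g i := if_neg (by omega)
  obtain ⟨D, hD⟩ : ∃ D, D = tr c i (G (ptr F J ω) i) - tr c i (H (slam F w₀ ω) i) := ⟨_, rfl⟩
  have h3 : eval b (Gs c n a G (ptr F J ω) (i + 1)) - eval b (Hs c n H (slam F w₀ ω) (i + 1)) =
      eval b D := by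
    unfold Gs Hs
    rw [sy_succ (by omega), sy_succ (by omega), hD, map_sub]
  rw [h3, h2]
  have h4 := hdil (sy c n (F.t ω) (G (ptr F J ω))) (gg a g) D (i + 1) (1 / 2 ^ g i) 2 sy_tri
    (sy_deg (hGK _)) (by omega) (by
      rw [hD]
      exact AdxRow.vars_sub_le (tr_vars _ _ _) (tr_vars _ _ _)) (by
      rw [hD]
      exact (totalDegree_sub _ _).trans (max_le ((tr_deg _ _ _).trans (hGK _ _ (by omega)))
        ((tr_deg _ _ _).trans (hHK _ _ (by omega))))) (by norm_num) (fun b' hb' => by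
      have h5 := nbx_of_bxr hc (h.depG _) (by omega) hb'
      have h6 := h.agr ω hω i (by omega) _ h5
      have h7 : eval b' (tr c i (G (ptr F J ω) i)) =
          eval (fun o => eval b' (vr c i o)) (G (ptr F J ω) i) := by
        rw [← sy_succ (n := n) (t := 0) (by omega)]
        exact eval_sy hc (h.depG _) (by omega) b'
      have h8 : eval b' (tr c i (H (slam F w₀ ω) i)) =
          eval (fun o => eval b' (vr c i o)) (H (slam F w₀ ω) i) := by
        rw [← sy_succ (n := n) (t := 0) (by omega)]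
        exact eval_sy hc (h.depH _) (by omega) b'
      rw [hD, map_sub, h7, h8]
      exact h6) b h1
  refine h4.trans ?_
  rw [mul_one_div, div_mul_eq_mul_div]
  exact div_le_div_of_nonneg_right hs₀.le (by positivity)

/-- The samples are on the point side. -/
theorem pos_of (hc : Inj c n) (h : ChOK F c n Kv a w₀ e g A G H) {ω : F.Ω} (hω : A ω) {i : ℕ}
    (hi1 : 1 ≤ i) (hi : i ≤ n) :
    |cx F (fun i => c (i - 1)) ω i -
      eval (cx F (fun i => c (i - 1)) ω) (Gs c n a G (ptr F J ω) i)| ≤ 1 / 2 ^ gg a g i := by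
  obtain ⟨i, rfl⟩ : ∃ i', i = i' + 1 := ⟨i - 1, by omega⟩
  have h1 : cx F (fun i => c (i - 1)) ω (i + 1) = F.x ω (c i) := if_neg (by omega)
  have h2 : gg a g (i + 1) = g i := if_neg (by omega)
  unfold Gs
  rw [h1, h2, sy_succ (by omega), eval_tr (B := bt F ω) hc (by omega) (h.depG _ i)
    (by
      show F.t ω = _
      exact (if_pos rfl).symm) (fun l hl => by
      show F.x ω (c l) = _
      exact (if_neg (by omega)).symm)]
  exact h.pos ω hω i (by omega)

end raw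

/-- The exact labels. -/
noncomputable def cd (F : Fam m J) (z : ℕ → PtT F → LV) (z' : ℕ → LnT F → LV)
    (P : ℕ → LV → ℕ → PN) (R : LnT F → ℕ → PN) : CDat F where
  V _ := LV
  pt := z
  li := z'
  G := P
  R := R

/-- **From chains to exact labels (row N1).** The event `B` has probability at least a constant
times the probability of `A`; the precisions decrease by `sh` digits. The closed polynomials are
near the point sides of the chains on all dilated natural boxes. -/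
theorem clo_fam (n K : ℕ) : ∃ (sh K' s₀ : ℕ) (C₁ : ℝ), 0 ≤ C₁ ∧ 1 ≤ K' ∧ ∀ (m J M w₀ z : ℕ)
    (F : Fam m J) (c : ℕ → Fin m) (Kv : ℕ → ℕ → ℕ) (e : ℕ → ℕ) (g : ℕ → ℕ → ℕ) (A : F.Ω → Prop)
    (G : ℕ → PtT F → ℕ → MvPolynomial (Option (Fin m)) ℝ)
    (H : ℕ → LnT F → ℕ → MvPolynomial (Option (Fin m)) ℝ), 1 ≤ z → w₀ + M * z ≤ J → Inj c n →
    (∀ k ≤ M, ∀ i < n, Kv k i ≤ K) → (∀ k ≤ M, ∀ i < n, sh ≤ g k i) →
    (∀ k ≤ M, ChOK F c n (Kv k) (w₀ + k * z) w₀ (e k) (g k) A (G k) (H k)) →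
    ∃ (C : CDat F) (B : F.Ω → Prop), Sub B A ∧ Pe F.p A ≤ K' ^ (M + 1) * Pe F.p B ∧
      C.Cnd (fun i => c (i - 1)) n K' w₀ z M (fun k i => g k (i - 1) - sh) C₁ B ∧
      C.R = Hs c n (H M) ∧
      (∀ k ≤ M, ∀ ω, B ω → ∀ i, 1 ≤ i → i ≤ n → ∀ b : ℕ → ℝ,
        Bx (CDat.g0 w₀ z (fun k i => g k (i - 1) - sh) k) (C.Ph w₀ z k ω) i b →
        |eval b (Hs c n (H k) (slam F w₀ ω) i) - eval b (C.Ph w₀ z k ω i)| ≤
          Real.exp (C₁ * z) / 2 ^ (g k (i - 1) - sh)) ∧
      ∀ k ≤ M, ∀ ω, B ω → Nr K' (2 ^ s₀) (gg (w₀ + k * z) (g k)) (C.Ph w₀ z k ω)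
        (Gs c n (w₀ + k * z) (G k) (ptr F J ω)) (n + 1) := by
  classical
  obtain ⟨s₀, hraw⟩ := raw_of n K
  obtain ⟨a, c', hc', hclo⟩ := clo_all n K
  refine ⟨a * (s₀ + 1), max K c', s₀, c' * (s₀ + 1), by positivity, hc'.trans (le_max_right _ _),
    ?_⟩
  intro m J M w₀ z F c Kv e g A G H hz hM hc hKv hg h
  have hak : ∀ k ≤ M, w₀ + k * z ≤ J := fun k hk => by
    have : k * z ≤ M * z := Nat.mul_le_mul_right _ hk
    omega
  obtain ⟨sh, hsh⟩ : ∃ sh, sh = a * (s₀ + 1) := ⟨_, rfl⟩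
  rw [← hsh] at hg ⊢
  obtain ⟨Z, Z', P, B, hB, hPe, hL⟩ := hclo M F.Ω (PtT F) (LnT F) F.p s₀ A (ptr F J)
    (fun k => slam F (w₀ + k * z)) (fun k => tp (w₀ + k * z)) (fun k => tl (w₀ + k * z))
    (fun k => gg (w₀ + k * z) (g k)) (fun k => Gs c n (w₀ + k * z) (G k))
    (fun k s => Hs c n (H k) (crs w₀ (w₀ + k * z) s)) (cx F (fun i => c (i - 1))) F.isLaw
    (fun k hk => hraw m J F c (Kv k) (w₀ + k * z) w₀ (e k) (g k) A (G k) (H k) (by omega)
      (hak k hk) hc (hKv k hk) (h k hk))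
    (fun k hk ω hω => by
      have h1 : cx F (fun i => c (i - 1)) ω 0 = F.t ω := if_pos rfl
      have h2 : gg (w₀ + k * z) (g k) 0 = w₀ + k * z := if_pos rfl
      unfold Gs
      rw [h1, h2, sy_zero, eval_C, tp_eq]
      exact t_cell F (hak k hk) ω)
    (fun k hk ω hω i hi1 hi => (pos_of hc (h k hk) hω hi1 hi).trans
      (div_le_div_of_nonneg_right (one_le_pow₀ (by norm_num)) (by positivity)))
    (fun k hk i hi1 hi => by
      have h1 : gg (w₀ + k * z) (g k) i = g k (i - 1) := if_neg (by omega)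
      rw [h1, ← hsh]
      exact hg k hk (i - 1) (by omega))
  rw [← hsh] at hL
  -- the system of the labels
  have hPh : ∀ k ≤ M, ∀ ω, B ω →
      (cd F Z Z' P (Hs c n (H M))).Ph w₀ z k ω = P k (Z k (ptr F J ω)) := by
    intro k hk ω hω
    obtain ⟨h1, -⟩ := hL k hk
    funext i
    have h2 : Z k (ptr F J ω) = Z' k (slam F (w₀ + k * z) ω) := h1.cls ω hω
    unfold CDat.Ph
    split_ifs with hi
    · rw [hi, h1.zero, h1.fst, tp_eq]
    · rw [h2]
      rfl
  have hgs : ∀ k i, gs sh (gg (w₀ + k * z) (g k)) i =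
      CDat.g0 w₀ z (fun k i => g k (i - 1) - sh) k i := by
    intro k i
    unfold gs CDat.g0
    split_ifs with hi
    · exact if_pos rfl
    · have h1 : gg (w₀ + k * z) (g k) i = g k (i - 1) := if_neg hi
      rw [h1]
  have hgs' : ∀ k, gs sh (gg (w₀ + k * z) (g k)) =
      CDat.g0 w₀ z (fun k i => g k (i - 1) - sh) k := fun k => funext (hgs k)
  have hline : ∀ k ≤ M, ∀ ω, B ω → ∀ i, 1 ≤ i → i ≤ n → ∀ b : ℕ → ℝ,
      Bx (CDat.g0 w₀ z (fun k i => g k (i - 1) - sh) k)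
        ((cd F Z Z' P (Hs c n (H M))).Ph w₀ z k ω) i b →
      |eval b (Hs c n (H k) (slam F w₀ ω) i) -
        eval b ((cd F Z Z' P (Hs c n (H M))).Ph w₀ z k ω i)| ≤
        Real.exp (c' * (s₀ + 1) * z) / 2 ^ (g k (i - 1) - sh) := by
    intro k hk ω hω i hi1 hi b hb
    obtain ⟨h1, -⟩ := hL k hk
    rw [hPh k hk ω hω] at hb ⊢
    rw [← hgs' k] at hb
    have h2 := h1.line ω hω i hi1 hi b hb
    rw [crs_eq F (by omega) (hak k hk) ω, hgs k i] at h2
    have h3 : CDat.g0 w₀ z (fun k i => g k (i - 1) - sh) k i = g k (i - 1) - sh :=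
      if_neg (by omega)
    rw [h3] at h2
    refine h2.trans (div_le_div_of_nonneg_right ?_ (by positivity))
    have h4 : (2 : ℝ) ^ (c' * (s₀ + 1)) ≤ Real.exp (c' * (s₀ + 1)) := by
      have h5 : (2 : ℝ) ≤ Real.exp 1 := by
        have := Real.add_one_le_exp (1 : ℝ)
        linarith
      calc (2 : ℝ) ^ (c' * (s₀ + 1)) ≤ Real.exp 1 ^ (c' * (s₀ + 1)) :=
            pow_le_pow_left₀ (by norm_num) h5 _
        _ = Real.exp (c' * (s₀ + 1)) := by
            rw [← Real.exp_nat_mul]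
            congr 1
            push_cast
            ring
    refine h4.trans (Real.exp_le_exp.2 ?_)
    have h6 : (1 : ℝ) ≤ z := by exact_mod_cast hz
    have h7 : (0 : ℝ) ≤ c' * (s₀ + 1) := by positivity
    nlinarith
  refine ⟨cd F Z Z' P (Hs c n (H M)), B, hB, ?_, ?_, rfl, hline, fun k hk ω hω => ?_⟩
  · refine hPe.trans (mul_le_mul_of_nonneg_right ?_ (Pe_nonneg F.isLaw _))
    refine pow_le_pow_left₀ (Nat.cast_nonneg _) ?_ _
    exact_mod_cast le_max_right K c'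
  · refine ⟨fun k hk v i _ _ => ((hL k hk).1.deg v i).trans (le_max_right _ _),
      fun k hk v i _ _ => (hL k hk).1.tri v i, fun l i _ _ => ?_, fun l i _ _ => sy_tri i,
      fun k hk ω hω => (hL k hk).1.cls ω hω, fun k hk ω hω i hi1 hi => ?_, ?_⟩
    · refine (sy_deg (K := K) (fun i hi => ?_) i).trans (le_max_left _ _)
      exact ((h M le_rfl).degH _ i).trans (hKv M le_rfl i hi)
    · have h1 := (hL k hk).1.hgt ω hω i hi
      rw [hgs k i] at h1
      have h3 : CDat.g0 w₀ z (fun k i => g k (i - 1) - sh) k i = g k (i - 1) - sh :=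
        if_neg (by omega)
      rw [h3] at h1
      have h4 : cx F (fun i => c (i - 1)) ω i = F.x ω (c (i - 1)) := if_neg (by omega)
      rw [hPh k hk ω hω, ← h4]
      exact h1
    · intro ω hω i hi1 hi b hb
      exact hline M le_rfl ω hω i hi1 hi b hb
  · rw [hPh k hk ω hω]
    have h1 : (1 : ℝ) ≤ 2 ^ s₀ := one_le_pow₀ (by norm_num)
    exact ((hL k hk).2 ω hω).mono_c hc' h1 (le_max_right _ _)

end CLO

end Pool.STAT
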