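import Pool.Agent.H63.STAT.Plt
import Pool.Agent.H87.STAT.Nrm
import Pool.Agent.H40.BFL.MKO
import Pool.Agent.H64.STAT.Fit

/-!
# Row 108 FLB: bounds for the vector field of a line
-/

set_option autoImplicit false

namespace Pool.STAT

open Finset MvPolynomial
open Pool.STAT.Adp

namespace FLB

variable {d : ℕ → ℕ}

/-! ### The norm at the scale `1` -/

theorem nrm1 (F : PN) (E : Finset (ℕ →₀ ℕ)) (h : F.support ⊆ E) :
    nrm d 1 F = ∑ k ∈ E, |F.coeff k| := by
  rw [NRM.nrm_eq d 1 F E h]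
  exact Finset.sum_congr rfl fun k _ => by rw [one_pow, mul_one]

theorem coeff_le_nrm (F : PN) (k : ℕ →₀ ℕ) : |F.coeff k| ≤ nrm d 1 F := by
  classical
  rw [nrm1 F (insert k F.support) (Finset.subset_insert _ _)]
  exact Finset.single_le_sum (f := fun k => |F.coeff k|) (fun _ _ => abs_nonneg _)
    (Finset.mem_insert_self _ _)

theorem nrm_pderiv (F : PN) (j : ℕ) {D : ℕ} (h : ∀ k ∈ F.support, k j ≤ D) :
    nrm d 1 (pderiv j F) ≤ D * nrm d 1 F := by
  have h1 : pderiv j F = ∑ k ∈ F.support,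
      monomial (k - Finsupp.single j 1) (coeff k F * (k j : ℝ)) := by
    conv_lhs => rw [F.as_sum]
    rw [map_sum]
    exact Finset.sum_congr rfl fun k _ => pderiv_monomial
  rw [h1]
  refine (NRM.nrm_sum d one_pos _ _).trans ?_
  rw [nrm1 F F.support (Finset.Subset.refl _), Finset.mul_sum]
  refine Finset.sum_le_sum fun k hk => ?_
  rw [NRM.nrm_monomial, one_pow, mul_one, abs_mul, mul_comm, Nat.abs_cast]
  exact mul_le_mul_of_nonneg_right (by exact_mod_cast h k hk) (abs_nonneg _)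

theorem nrm_sub_le (F G : PN) : nrm d 1 (F - G) ≤ nrm d 1 F + nrm d 1 G := by
  rw [sub_eq_add_neg]
  refine (NRM.nrm_add d one_pos _ _).trans ?_
  rw [NRM.nrm_neg]

/-- `lieN` as a finite sum. -/
theorem lieN_eq (ξ : ℕ → PN) {P : PN} {S : Finset ℕ} (h : P.vars ⊆ S) :
    lieN ξ P = ∑ j ∈ S, pderiv j P * ξ j := by
  classical
  have h1 : lieN ξ P = (∑ j ∈ S, ξ j • (pderiv j : Derivation ℝ PN PN)) P := by
    refine derivation_eq_of_forall_mem_vars fun i hi => ?_
    have h2 : ∀ (T : Finset ℕ) (Q : PN), (∑ j ∈ T, ξ j • (pderiv j : Derivation ℝ PN PN)) Q =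
        ∑ j ∈ T, ξ j * pderiv j Q := by
      intro T Q
      induction T using Finset.induction_on with
      | empty => rw [Finset.sum_empty, Finset.sum_empty, Derivation.zero_apply]
      | insert a T ha ih =>
        rw [Finset.sum_insert ha, Finset.sum_insert ha, Derivation.add_apply, ih,
          Derivation.smul_apply, smul_eq_mul]
    rw [lieN, mkDerivation_X, h2, Finset.sum_eq_single i]
    · rw [pderiv_X_self, mul_one]
    · intro b _ hb
      rw [pderiv_X_of_ne (Ne.symm hb), mul_zero]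
    · intro h3
      exact absurd (h hi) h3
  have h2 : ∀ (T : Finset ℕ) (Q : PN), (∑ j ∈ T, ξ j • (pderiv j : Derivation ℝ PN PN)) Q =
      ∑ j ∈ T, ξ j * pderiv j Q := by
    intro T Q
    induction T using Finset.induction_on with
    | empty => rw [Finset.sum_empty, Finset.sum_empty, Derivation.zero_apply]
    | insert a T ha ih =>
      rw [Finset.sum_insert ha, Finset.sum_insert ha, Derivation.add_apply, ih,
        Derivation.smul_apply, smul_eq_mul]
  rw [h1, h2]
  exact Finset.sum_congr rfl fun j _ => mul_comm _ _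

/-- The exponents. -/
noncomputable def ex (n K : ℕ) : Finset (ℕ →₀ ℕ) := (range (n + 1)).finsupp fun _ => range (K + 1)

theorem mem_ex (hd : ∀ i, 1 ≤ d i) {n K : ℕ} {k : ℕ →₀ ℕ} (h1 : k.support ⊆ range (n + 1))
    (h2 : Finsupp.weight d k ≤ K) : k ∈ ex n K := by
  classical
  rw [ex, Finset.mem_finsupp_iff]
  refine ⟨h1, fun i _ => ?_⟩
  rw [Finset.mem_range]
  by_cases h : k i = 0
  · omega
  · have h3 : k i * d i ≤ Finsupp.weight d k := by
      rw [Finsupp.weight_apply, Finsupp.sum]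
      have := Finset.single_le_sum (f := fun i => k i • d i) (s := k.support)
        (fun _ _ => Nat.zero_le _) (Finsupp.mem_support_iff.2 h)
      simpa only [smul_eq_mul] using this
    have h4 : k i ≤ k i * d i := Nat.le_mul_of_pos_right _ (hd i)
    omega

theorem ex_le {n K : ℕ} {k : ℕ →₀ ℕ} (h : k ∈ ex n K) (i : ℕ) : k i ≤ K := by
  classical
  rw [ex, Finset.mem_finsupp_iff] at h
  by_cases hi : i ∈ range (n + 1)
  · have := Finset.mem_range.1 (h.2 i hi)
    omega
  · have : k i = 0 := by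
      by_contra h3
      exact hi (h.1 (Finsupp.mem_support_iff.2 h3))
    omega

/-! ### Families of polynomials -/

/-- A family of polynomials, with coefficients polynomial in `t`, and its derivative. -/
structure Fam (E : Finset (ℕ →₀ ℕ)) (D : ℕ) (R : ℝ) (A A' : ℝ → PN) : Prop where
  sup : ∀ t, (A t).support ⊆ E
  pol : ∀ k, ∃ p : Polynomial ℝ, p.natDegree ≤ D ∧ ∀ t, p.eval t = (A t).coeff k
  der : ∀ t k, HasDerivAt (fun t => (A t).coeff k) ((A' t).coeff k) t
  bd : ∀ t ∈ Set.Icc (0 : ℝ) 1, ∀ k, |(A t).coeff k| ≤ R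

theorem Fam.sup' {E : Finset (ℕ →₀ ℕ)} {D : ℕ} {R : ℝ} {A A' : ℝ → PN} (h : Fam E D R A A')
    (t : ℝ) : (A' t).support ⊆ E := by
  intro k hk
  by_contra hE
  have h1 : (fun t => (A t).coeff k) = fun _ => 0 := by
    funext t
    by_contra h2
    exact hE (h.sup t (mem_support_iff.2 h2))
  have h2 := h.der t k
  rw [h1] at h2
  have h3 := h2.unique (hasDerivAt_const t 0)
  exact (mem_support_iff.1 hk) h3

/-- The bounds of a family. -/
theorem fam_bounds (D : ℕ) : ∃ C : ℝ, 1 ≤ C ∧ ∀ (E : Finset (ℕ →₀ ℕ)) (R : ℝ)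
    (A A' : ℝ → PN), Fam E D R A A' → ∀ t ∈ Set.Icc (0 : ℝ) 1, ∀ t' ∈ Set.Icc (0 : ℝ) 1,
      nrm d 1 (A' t) ≤ E.card * (C * R) ∧
      nrm d 1 (A t' - A t) ≤ E.card * (C * R) * |t' - t| ∧
      nrm d 1 (A' t' - A' t) ≤ E.card * (C * R) * |t' - t| := by
  obtain ⟨C, hC, hC'⟩ := Pool.Agent.H40.BFL.unit_markov D
  refine ⟨C * C, by nlinarith, ?_⟩
  intro E R A A' h t ht t' ht'
  have hR : 0 ≤ R := (abs_nonneg _).trans (h.bd 0 (by simp) 0)
  choose p hp hpe using h.pol
  have hd1 : ∀ k t, (p k).derivative.eval t = (A' t).coeff k := by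
    intro k t
    have h1 := (p k).hasDerivAt t
    have h2 : (fun x => (p k).eval x) = fun t => (A t).coeff k := funext (hpe k)
    rw [h2] at h1
    exact h1.unique (h.der t k)
  have hb1 : ∀ k, ∀ t ∈ Set.Icc (0 : ℝ) 1, |(p k).derivative.eval t| ≤ C * R := fun k =>
    hC' (p k) R (hp k) fun t ht => by
      rw [hpe]
      exact h.bd t ht k
  have hb2 : ∀ k, ∀ t ∈ Set.Icc (0 : ℝ) 1, |(p k).derivative.derivative.eval t| ≤
      C * (C * R) := fun k =>
    hC' (p k).derivative (C * R) ((Polynomial.natDegree_derivative_le _).trans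
      ((Nat.sub_le _ _).trans (hp k))) (hb1 k)
  have hCR : C * R ≤ C * C * R := by nlinarith [mul_nonneg (by linarith : (0 : ℝ) ≤ C) hR]
  have hmv : ∀ (q : Polynomial ℝ) (S : ℝ), (∀ t ∈ Set.Icc (0 : ℝ) 1, |q.derivative.eval t| ≤ S) →
      |q.eval t' - q.eval t| ≤ S * |t' - t| := by
    intro q S hq
    have h1 := Convex.norm_image_sub_le_of_norm_hasDerivWithin_le (f := fun x => q.eval x)
      (f' := fun x => q.derivative.eval x) (C := S) (s := Set.Icc (0 : ℝ) 1) (x := t) (y := t')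
      (fun y _ => (q.hasDerivAt y).hasDerivWithinAt)
      (fun y hy => by rw [Real.norm_eq_abs]; exact hq y hy) (convex_Icc 0 1) ht ht'
    rwa [Real.norm_eq_abs, Real.norm_eq_abs] at h1
  have hsub : ∀ {F G : PN}, F.support ⊆ E → G.support ⊆ E → (F - G).support ⊆ E := by
    intro F G hF hG k hk
    classical
    rcases Finset.mem_union.1 (support_sub ℕ F G hk) with h1 | h1
    · exact hF h1
    · exact hG h1
  refine ⟨?_, ?_, ?_⟩
  · rw [nrm1 _ E (h.sup' t)]
    refine (Finset.sum_le_card_nsmul _ _ (C * C * R) fun k _ => ?_).trans (le_of_eq ?_)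
    · rw [← hd1]
      exact (hb1 k t ht).trans hCR
    · rw [nsmul_eq_mul]
  · rw [nrm1 _ E (hsub (h.sup t') (h.sup t))]
    refine (Finset.sum_le_card_nsmul _ _ (C * C * R * |t' - t|) fun k _ => ?_).trans
      (le_of_eq ?_)
    · rw [coeff_sub, ← hpe, ← hpe]
      exact (hmv (p k) (C * R) (hb1 k)).trans (mul_le_mul_of_nonneg_right hCR (abs_nonneg _))
    · rw [nsmul_eq_mul]
      ring
  · rw [nrm1 _ E (hsub (h.sup' t') (h.sup' t))]
    refine (Finset.sum_le_card_nsmul _ _ (C * C * R * |t' - t|) fun k _ => ?_).trans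
      (le_of_eq ?_)
    · rw [coeff_sub, ← hd1, ← hd1, mul_assoc C C R]
      exact hmv (p k).derivative (C * (C * R)) (hb2 k)
    · rw [nsmul_eq_mul]
      ring

/-! ### The vector field -/

/-- The first bound. -/
noncomputable def G1 (N : ℕ) (C R : ℝ) : ℝ := N * (C * R) + 1

/-- The factor. -/
noncomputable def H1 (n K : ℕ) (R : ℝ) : ℝ := (n + 1) * (2 * K * R) + 1

/-- The second bound. -/
noncomputable def G2 (n K N : ℕ) (C R : ℝ) : ℝ :=
  N * (C * R) + (n + 1) * (K * (N * (C * R)) * (G1 N C R * H1 n K R ^ n))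

theorem pg_G1 (N : ℕ) {C : ℝ} (hC : 0 ≤ C) : PG (G1 N C) :=
  ((pg_const (Nat.cast_nonneg N)).mul ((pg_const hC).mul pg_id)).add (pg_const zero_le_one)

theorem pg_H1 (n K : ℕ) : PG (H1 n K) :=
  ((pg_const (by positivity : (0 : ℝ) ≤ (n : ℝ) + 1)).mul
    ((pg_const (by positivity : (0 : ℝ) ≤ 2 * (K : ℝ))).mul pg_id)).add (pg_const zero_le_one)

theorem pg_G2 (n K N : ℕ) {C : ℝ} (hC : 0 ≤ C) : PG (G2 n K N C) :=
  ((pg_const (Nat.cast_nonneg N)).mul ((pg_const hC).mul pg_id)).add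
    ((pg_const (by positivity : (0 : ℝ) ≤ (n : ℝ) + 1)).mul
      (((pg_const (Nat.cast_nonneg K)).mul
        ((pg_const (Nat.cast_nonneg N)).mul ((pg_const hC).mul pg_id))).mul
          ((pg_G1 N hC).mul ((pg_H1 n K).pow n))))

theorem field_bounds {n K N : ℕ} {C R : ℝ} (hC : 1 ≤ C) (hR : 1 ≤ R)
    {A A' f : ℝ → ℕ → PN} {E : Finset (ℕ →₀ ℕ)} (hEK : ∀ k ∈ E, ∀ i, k i ≤ K)
    (hEX : ∀ i ≤ n, Finsupp.single i 1 ∈ E)
    (hsup : ∀ t, ∀ i ≤ n, (A t i).support ⊆ E)
    (hA : ∀ t, ∀ i ≤ n, (A t i - X i).vars ⊆ range i)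
    (hn : ∀ t ∈ Set.Icc (0 : ℝ) 1, ∀ i ≤ n, nrm d 1 (A t i) ≤ R)
    (hf0 : ∀ t i, A' t i = lieN (f t) (A t i))
    (hb : ∀ t ∈ Set.Icc (0 : ℝ) 1, ∀ t' ∈ Set.Icc (0 : ℝ) 1, ∀ i ≤ n,
      nrm d 1 (A' t i) ≤ N * (C * R) ∧
      nrm d 1 (A t' i - A t i) ≤ N * (C * R) * |t' - t| ∧
      nrm d 1 (A' t' i - A' t i) ≤ N * (C * R) * |t' - t|) :
    ∀ i ≤ n, ∀ t ∈ Set.Icc (0 : ℝ) 1, ∀ t' ∈ Set.Icc (0 : ℝ) 1,
      nrm d 1 (f t i) ≤ G1 N C R * H1 n K R ^ i ∧
      nrm d 1 (f t' i - f t i) ≤ G2 n K N C R * H1 n K R ^ i * |t' - t| := by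
  classical
  have hR0 : (0 : ℝ) ≤ R := by linarith
  have hC0 : (0 : ℝ) ≤ C := by linarith
  have hH1 : 1 ≤ H1 n K R := by
    rw [H1]
    have : (0 : ℝ) ≤ (n + 1) * (2 * K * R) := by positivity
    linarith
  have hH0 : (0 : ℝ) ≤ H1 n K R := by linarith
  have hG1 : (0 : ℝ) ≤ G1 N C R := by rw [G1]; positivity
  have hG2 : (0 : ℝ) ≤ G2 n K N C R := by rw [G2]; positivity
  -- the equation of the field
  have heq : ∀ t, ∀ i ≤ n, f t i = A' t i - ∑ j ∈ range i, pderiv j (A t i - X i) * f t j := by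
    intro t i hi
    have h1 : A t i = X i + (A t i - X i) := by ring
    have h2 : lieN (f t) (A t i) = f t i + lieN (f t) (A t i - X i) := by
      conv_lhs => rw [h1]
      rw [map_add, lieN, mkDerivation_X]
    rw [hf0 t i, h2, lieN_eq (f t) (hA t i hi)]
    ring
  have hsB : ∀ t, ∀ i ≤ n, (A t i - X i).support ⊆ E := by
    intro t i hi k hk
    rcases Finset.mem_union.1 (support_sub ℕ (A t i) (X i) hk) with h1 | h1
    · exact hsup t i hi h1
    · rw [support_X, Finset.mem_singleton] at h1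
      rw [h1]
      exact hEX i hi
  have hB : ∀ t ∈ Set.Icc (0 : ℝ) 1, ∀ i ≤ n, nrm d 1 (A t i - X i) ≤ 2 * R := by
    intro t ht i hi
    refine (nrm_sub_le _ _).trans ?_
    rw [NRM.nrm_X, one_pow]
    have := hn t ht i hi
    linarith
  have hpB : ∀ t ∈ Set.Icc (0 : ℝ) 1, ∀ i ≤ n, ∀ j,
      nrm d 1 (pderiv j (A t i - X i)) ≤ 2 * K * R := by
    intro t ht i hi j
    refine (nrm_pderiv _ j fun k hk => hEK k (hsB t i hi hk) j).trans ?_
    have := mul_le_mul_of_nonneg_left (hB t ht i hi) (Nat.cast_nonneg (α := ℝ) K)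
    linarith
  have hpD : ∀ t ∈ Set.Icc (0 : ℝ) 1, ∀ t' ∈ Set.Icc (0 : ℝ) 1, ∀ i ≤ n, ∀ j,
      nrm d 1 (pderiv j (A t' i - X i) - pderiv j (A t i - X i)) ≤
        K * (N * (C * R)) * |t' - t| := by
    intro t ht t' ht' i hi j
    have h1 : pderiv j (A t' i - X i) - pderiv j (A t i - X i) = pderiv j (A t' i - A t i) := by
      rw [← map_sub]
      congr 1
      ring
    rw [h1]
    refine (nrm_pderiv _ j (D := K) fun k hk => ?_).trans ?_
    · rcases Finset.mem_union.1 (support_sub ℕ (A t' i) (A t i) hk) with h2 | h2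
      · exact hEK k (hsup t' i hi h2) j
      · exact hEK k (hsup t i hi h2) j
    · have := mul_le_mul_of_nonneg_left (hb t ht t' ht' i hi).2.1 (Nat.cast_nonneg (α := ℝ) K)
      rw [← mul_assoc] at this
      exact this
  intro i
  induction i using Nat.strong_induction_on with
  | _ i ih =>
    intro hi t ht t' ht'
    have hpow : ∀ j ∈ range i, H1 n K R ^ j ≤ H1 n K R ^ (i - 1) := fun j hj =>
      pow_le_pow_right₀ hH1 (by have := Finset.mem_range.1 hj; omega)
    have hcard : ((range i).card : ℝ) ≤ n + 1 := by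
      rw [Finset.card_range]
      have : (i : ℝ) ≤ n := by exact_mod_cast hi
      linarith
    have hstep : ∀ G : ℝ, 0 ≤ G → ∀ a : ℝ, 0 ≤ a → a ≤ G → i ≠ 0 →
        a + (n + 1) * (2 * K * R * (G * H1 n K R ^ (i - 1))) ≤ G * H1 n K R ^ i := by
      intro G hG a _ haG hi0
      have h1 : H1 n K R ^ i = H1 n K R ^ (i - 1) * H1 n K R := by
        rw [← pow_succ]
        congr 1
        omega
      have h2 : 1 ≤ H1 n K R ^ (i - 1) := one_le_pow₀ hH1
      have h3 : G * H1 n K R ^ i = (n + 1) * (2 * K * R * (G * H1 n K R ^ (i - 1))) +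
          G * H1 n K R ^ (i - 1) := by
        rw [h1]
        conv_lhs => rw [H1]
        rw [show H1 n K R = (n + 1) * (2 * K * R) + 1 from rfl]
        ring
      rw [h3]
      nlinarith
    by_cases hi0 : i = 0
    · subst hi0
      have h1 : ∀ t, f t 0 = A' t 0 := fun t => by
        rw [heq t 0 (Nat.zero_le _), Finset.range_zero, Finset.sum_empty, sub_zero]
      rw [h1 t, h1 t', pow_zero, mul_one, mul_one]
      have h2 := hb t ht t' ht' 0 (Nat.zero_le _)
      refine ⟨h2.1.trans ?_, h2.2.2.trans ?_⟩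
      · rw [G1]
        linarith
      · refine mul_le_mul_of_nonneg_right ?_ (abs_nonneg _)
        rw [G2]
        have : (0 : ℝ) ≤ (n + 1) * (K * (N * (C * R)) * (G1 N C R * H1 n K R ^ n)) := by
          positivity
        linarith
    · have e1 : nrm d 1 (f t i) ≤ G1 N C R * H1 n K R ^ i := by
        rw [heq t i hi]
        refine (nrm_sub_le _ _).trans ?_
        have h1 : nrm d 1 (∑ j ∈ range i, pderiv j (A t i - X i) * f t j) ≤
            (n + 1) * (2 * K * R * (G1 N C R * H1 n K R ^ (i - 1))) := by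
          refine (NRM.nrm_sum d one_pos _ _).trans ?_
          refine (Finset.sum_le_card_nsmul _ _ (2 * K * R * (G1 N C R * H1 n K R ^ (i - 1)))
            fun j hj => ?_).trans ?_
          · refine (NRM.nrm_mul d one_pos _ _).trans ?_
            refine mul_le_mul (hpB t ht i hi j) ?_ (NRM.nrm_nonneg d one_pos _) (by positivity)
            have hj' := Finset.mem_range.1 hj
            exact (ih j hj' (by omega) t ht t' ht').1.trans
              (mul_le_mul_of_nonneg_left (hpow j hj) hG1)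
          · rw [nsmul_eq_mul]
            exact mul_le_mul_of_nonneg_right hcard (by positivity)
        have h2 := hstep (G1 N C R) hG1 (N * (C * R)) (by positivity) (by rw [G1]; linarith) hi0
        have h3 := (hb t ht t' ht' i hi).1
        linarith
      refine ⟨e1, ?_⟩
      have h0 : f t' i - f t i = (A' t' i - A' t i) -
          ∑ j ∈ range i, ((pderiv j (A t' i - X i) - pderiv j (A t i - X i)) * f t j +
            pderiv j (A t' i - X i) * (f t' j - f t j)) := by
        rw [heq t' i hi, heq t i hi]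
        have h1 : ∑ j ∈ range i, ((pderiv j (A t' i - X i) - pderiv j (A t i - X i)) * f t j +
            pderiv j (A t' i - X i) * (f t' j - f t j)) =
            (∑ j ∈ range i, pderiv j (A t' i - X i) * f t' j) -
            ∑ j ∈ range i, pderiv j (A t i - X i) * f t j := by
          rw [← Finset.sum_sub_distrib]
          exact Finset.sum_congr rfl fun j _ => by ring
        rw [h1]
        ring
      rw [h0]
      refine (nrm_sub_le _ _).trans ?_
      have hi1 : i - 1 ≤ n := by omega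
      have hmn : H1 n K R ^ (i - 1) ≤ H1 n K R ^ n := pow_le_pow_right₀ hH1 hi1
      have ht0 : 0 ≤ |t' - t| := abs_nonneg _
      have h1 : nrm d 1 (∑ j ∈ range i,
          ((pderiv j (A t' i - X i) - pderiv j (A t i - X i)) * f t j +
            pderiv j (A t' i - X i) * (f t' j - f t j))) ≤
          (n + 1) * ((K * (N * (C * R)) * (G1 N C R * H1 n K R ^ n) +
            2 * K * R * (G2 n K N C R * H1 n K R ^ (i - 1))) * |t' - t|) := by
        refine (NRM.nrm_sum d one_pos _ _).trans ?_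
        refine (Finset.sum_le_card_nsmul _ _ ((K * (N * (C * R)) * (G1 N C R * H1 n K R ^ n) +
            2 * K * R * (G2 n K N C R * H1 n K R ^ (i - 1))) * |t' - t|) fun j hj => ?_).trans ?_
        · have hj' := Finset.mem_range.1 hj
          have q := ih j hj' (by omega) t ht t' ht'
          refine (NRM.nrm_add d one_pos _ _).trans ?_
          have h2 : nrm d 1 ((pderiv j (A t' i - X i) - pderiv j (A t i - X i)) * f t j) ≤
              K * (N * (C * R)) * |t' - t| * (G1 N C R * H1 n K R ^ n) := by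
            refine (NRM.nrm_mul d one_pos _ _).trans ?_
            refine mul_le_mul (hpD t ht t' ht' i hi j) ?_ (NRM.nrm_nonneg d one_pos _)
              (by positivity)
            exact q.1.trans (mul_le_mul_of_nonneg_left ((hpow j hj).trans hmn) hG1)
          have h3 : nrm d 1 (pderiv j (A t' i - X i) * (f t' j - f t j)) ≤
              2 * K * R * (G2 n K N C R * H1 n K R ^ (i - 1) * |t' - t|) := by
            refine (NRM.nrm_mul d one_pos _ _).trans ?_
            refine mul_le_mul (hpB t' ht' i hi j) ?_ (NRM.nrm_nonneg d one_pos _) (by positivity)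
            refine q.2.trans (mul_le_mul_of_nonneg_right ?_ ht0)
            exact mul_le_mul_of_nonneg_left (hpow j hj) hG2
          refine (add_le_add h2 h3).trans (le_of_eq ?_)
          ring
        · rw [nsmul_eq_mul]
          exact mul_le_mul_of_nonneg_right hcard (by positivity)
      have h2 := hstep (G2 n K N C R) hG2 (G2 n K N C R) hG2 le_rfl hi0
      have h3 := (hb t ht t' ht' i hi).2.2
      have h4 : N * (C * R) * |t' - t| + (n + 1) * ((K * (N * (C * R)) *
          (G1 N C R * H1 n K R ^ n) + 2 * K * R * (G2 n K N C R * H1 n K R ^ (i - 1))) *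
          |t' - t|) = (G2 n K N C R + (n + 1) *
          (2 * K * R * (G2 n K N C R * H1 n K R ^ (i - 1)))) * |t' - t| := by
        conv_rhs => rw [show G2 n K N C R + (n + 1) * (2 * K * R * (G2 n K N C R *
          H1 n K R ^ (i - 1))) = (N * (C * R) + (n + 1) * (K * (N * (C * R)) *
          (G1 N C R * H1 n K R ^ n))) + (n + 1) *
          (2 * K * R * (G2 n K N C R * H1 n K R ^ (i - 1))) from rfl]
        ring
      calc nrm d 1 (A' t' i - A' t i) + _ ≤ N * (C * R) * |t' - t| + (n + 1) *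
            ((K * (N * (C * R)) * (G1 N C R * H1 n K R ^ n) +
            2 * K * R * (G2 n K N C R * H1 n K R ^ (i - 1))) * |t' - t|) := add_le_add h3 h1
        _ = (G2 n K N C R + (n + 1) *
          (2 * K * R * (G2 n K N C R * H1 n K R ^ (i - 1)))) * |t' - t| := h4
        _ ≤ G2 n K N C R * H1 n K R ^ i * |t' - t| := mul_le_mul_of_nonneg_right h2 ht0

end FLB

/-- **Row 108 FLB.** -/
theorem flb_of (hA : AdxStmt) (hO : OdeStmt) : FlbStmt := by
  classical
  intro n K d hd0 hd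
  obtain ⟨K₁, hK₁⟩ := plt_of hA n K d hd0 hd
  obtain ⟨C, hC, hfam⟩ := FLB.fam_bounds (d := d) (K₁ + 1)
  obtain ⟨k1, hk1⟩ := (FLB.pg_G1 (FLB.ex n (K₁ + 1)).card (by linarith : 0 ≤ C)).mul
    ((FLB.pg_H1 n (K₁ + 1)).pow n)
  obtain ⟨k2, hk2⟩ := (FLB.pg_G2 n (K₁ + 1) (FLB.ex n (K₁ + 1)).card
    (by linarith : 0 ≤ C)).mul ((FLB.pg_H1 n (K₁ + 1)).pow n)
  refine ⟨k1 + k2, ?_⟩
  intro Φ R hT hdeg hR hn
  have hR0 : (0 : ℝ) ≤ R := by linarith
  have hsup : ∀ t, ∀ i ≤ n, (adp d (atT t Φ) i).support ⊆ FLB.ex n (K₁ + 1) := by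
    intro t i hi k hk
    have h1 := (hK₁ Φ hT hdeg i hi k).2 ⟨t, mem_support_iff.1 hk⟩
    refine FLB.mem_ex hd (h1.1.trans ?_) (h1.2.trans (Nat.le_succ _))
    exact Finset.range_subset_range.2 (by omega)
  have hX : ∀ i ≤ n, (Finsupp.single i 1 : ℕ →₀ ℕ) ∈ FLB.ex n (K₁ + 1) := by
    intro i hi
    rw [FLB.ex, Finset.mem_finsupp_iff]
    refine ⟨?_, fun j _ => ?_⟩
    · refine Finsupp.support_single_subset.trans ?_
      rw [Finset.singleton_subset_iff, Finset.mem_range]
      omega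
    · rw [Finset.mem_range, Finsupp.single_apply]
      split_ifs <;> omega
  have hfm : ∀ i ≤ n, FLB.Fam (FLB.ex n (K₁ + 1)) (K₁ + 1) R (fun t => adp d (atT t Φ) i)
      fun t => lieN (fld d (atT t Φ)) (adp d (atT t Φ) i) := by
    intro i hi
    refine ⟨fun t => hsup t i hi, fun k => ?_, fun t k => ?_, fun t ht k => ?_⟩
    · obtain ⟨p, hp, hpe⟩ := (hK₁ Φ hT hdeg i hi k).1
      exact ⟨p, hp.trans (Nat.le_succ _), hpe⟩
    · exact (hO d Φ hd0 hd hT).1 t i k
    · exact (FLB.coeff_le_nrm _ k).trans (hn t ht i hi)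
  have key := FLB.field_bounds (d := d) (n := n) (K := K₁ + 1)
    (N := (FLB.ex n (K₁ + 1)).card) hC hR
    (A := fun t => adp d (atT t Φ)) (A' := fun t i => lieN (fld d (atT t Φ)) (adp d (atT t Φ) i))
    (f := fun t => fld d (atT t Φ)) (E := FLB.ex n (K₁ + 1))
    (fun k hk i => FLB.ex_le hk i) hX hsup
    (fun t i _ => (hA.2 d (atT t Φ) hd0 hd (PLT.tri_atT hT t)).2.1 i) hn (fun t i => rfl)
    (fun t ht t' ht' i hi => hfam _ R _ _ (hfm i hi) t ht t' ht')
  have hH : 1 ≤ FLB.H1 n (K₁ + 1) R := by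
    rw [FLB.H1]
    have : (0 : ℝ) ≤ (n + 1) * (2 * ((K₁ + 1 : ℕ) : ℝ) * R) := by positivity
    linarith
  have hpowi : ∀ i ≤ n, FLB.H1 n (K₁ + 1) R ^ i ≤ FLB.H1 n (K₁ + 1) R ^ n := fun i hi =>
    pow_le_pow_right₀ hH hi
  have hkk1 : (k1 : ℝ) * R ^ k1 ≤ ((k1 + k2 : ℕ) : ℝ) * R ^ (k1 + k2) := by
    refine mul_le_mul ?_ (pow_le_pow_right₀ hR (by omega)) (by positivity) (by positivity)
    exact_mod_cast Nat.le_add_right k1 k2
  have hkk2 : (k2 : ℝ) * R ^ k2 ≤ ((k1 + k2 : ℕ) : ℝ) * R ^ (k1 + k2) := by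
    refine mul_le_mul ?_ (pow_le_pow_right₀ hR (by omega)) (by positivity) (by positivity)
    exact_mod_cast Nat.le_add_left k2 k1
  have hg1 : 0 ≤ FLB.G1 (FLB.ex n (K₁ + 1)).card C R := by
    rw [FLB.G1]
    have : 0 ≤ C := by linarith
    positivity
  have hg2 : 0 ≤ FLB.G2 n (K₁ + 1) (FLB.ex n (K₁ + 1)).card C R := by
    have h0 : 0 ≤ C := by linarith
    have h1 : 0 ≤ FLB.H1 n (K₁ + 1) R := by linarith
    rw [FLB.G2]
    positivity
  refine ⟨fun t ht i hi => ?_, fun t ht t' ht' i hi => ?_⟩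
  · have h1 := (key i hi t ht t ht).1
    refine h1.trans ((mul_le_mul_of_nonneg_left (hpowi i hi) hg1).trans ?_)
    exact (hk1 R hR).2.trans hkk1
  · have h1 := (key i hi t ht t' ht').2
    refine h1.trans (mul_le_mul_of_nonneg_right ?_ (abs_nonneg _))
    exact (mul_le_mul_of_nonneg_left (hpowi i hi) hg2).trans ((hk2 R hR).2.trans hkk2)

end Pool.STAT
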