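import Mathlib

/-!
# A finite path in a dense set

`path_ex`: a dense subset of an interval `[0, W]` which contains `0` contains a decreasing finite
sequence with small steps from a number which is at least `W / 2` to `0`.
-/

set_option autoImplicit false

namespace Pool.STAT

/-- **A finite path in a dense set.** -/
theorem path_ex {Q : Set ℝ} {W μ : ℝ} (hW : 0 < W) (hμ : 0 < μ) (h0 : (0 : ℝ) ∈ Q)
    (hQ : ∀ x y : ℝ, 0 ≤ x → x < y → y ≤ W → ∃ κ ∈ Q, x < κ ∧ κ < y) :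
    ∃ (N : ℕ) (κ : ℕ → ℝ), (∀ k ≤ N, κ k ∈ Q ∧ 0 ≤ κ k ∧ κ k ≤ W) ∧ κ N = 0 ∧ W / 2 ≤ κ 0 ∧
      (∀ k < N, κ (k + 1) ≤ κ k ∧ κ k ≤ κ (k + 1) + μ) := by
  obtain ⟨M, hM⟩ := exists_nat_ge (2 * W / μ)
  obtain ⟨N, hN⟩ : ∃ N, N = max M 1 := ⟨_, rfl⟩
  have hN1 : 1 ≤ N := by rw [hN]; exact le_max_right _ _
  have hNr : (1 : ℝ) ≤ N := by exact_mod_cast hN1
  have hNM : 2 * W / μ ≤ N := hM.trans (by
    rw [hN]
    exact_mod_cast le_max_left _ _)
  rw [div_le_iff₀ hμ] at hNM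
  obtain ⟨d, hd⟩ : ∃ d : ℝ, d = W / (N + 1) := ⟨_, rfl⟩
  have hN0 : (0 : ℝ) < N + 1 := by linarith
  have hd0 : 0 < d := by rw [hd]; positivity
  have hdW : d * (N + 1) = W := by
    rw [hd]
    field_simp
  have hdμ : 2 * d ≤ μ := by
    rw [hd, ← mul_div_assoc, div_le_iff₀ hN0]
    nlinarith
  have key : ∀ i : ℕ, ∃ κ : ℝ, i ≤ N → κ ∈ Q ∧ i * d ≤ κ ∧ κ ≤ (i + 1) * d ∧ (i = 0 → κ = 0) := by
    intro i
    rcases Nat.eq_zero_or_pos i with rfl | hi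
    · exact ⟨0, fun _ => ⟨h0, by simp, by simpa using hd0.le, fun _ => rfl⟩⟩
    · by_cases hiN : i ≤ N
      · have hir : (i : ℝ) ≤ N := by exact_mod_cast hiN
        obtain ⟨κ, h1, h2, h3⟩ := hQ (i * d) ((i + 1) * d) (by positivity) (by nlinarith)
          (by rw [← hdW]; nlinarith)
        exact ⟨κ, fun _ => ⟨h1, h2.le, h3.le, fun h => by omega⟩⟩
      · exact ⟨0, fun h => absurd h hiN⟩
  choose x hx using key
  refine ⟨N, fun k => x (N - k), fun k hk => ?_, ?_, ?_, fun k hk => ?_⟩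
  · obtain ⟨h1, h2, h3, -⟩ := hx (N - k) (Nat.sub_le _ _)
    refine ⟨h1, le_trans (by positivity) h2, h3.trans ?_⟩
    have h4 : ((N - k : ℕ) : ℝ) ≤ N := by exact_mod_cast Nat.sub_le _ _
    rw [← hdW]
    nlinarith
  · show x (N - N) = 0
    rw [Nat.sub_self]
    exact (hx 0 (Nat.zero_le _)).2.2.2 rfl
  · show W / 2 ≤ x (N - 0)
    rw [Nat.sub_zero]
    obtain ⟨-, h2, -, -⟩ := hx N le_rfl
    refine le_trans ?_ h2
    rw [← hdW]
    nlinarith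
  · show x (N - (k + 1)) ≤ x (N - k) ∧ x (N - k) ≤ x (N - (k + 1)) + μ
    obtain ⟨i, hi⟩ : ∃ i, i = N - (k + 1) := ⟨_, rfl⟩
    have hi1 : N - k = i + 1 := by omega
    rw [← hi, hi1]
    obtain ⟨-, h2, h3, -⟩ := hx i (by omega)
    obtain ⟨-, h5, h6, -⟩ := hx (i + 1) (by omega)
    push_cast at h5 h6
    constructor
    · linarith
    · nlinarith

end Pool.STAT
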