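import Pool.Agent.H63.STAT.Lab2F
import Pool.Agent.H63.STAT.Path
import Pool.Agent.H2.GEN.AttH
import Pool.Agent.H31.STAT.TimeF

/-!
# Chains of universal degree at one point of a class

`lab2`: let `(a, w)` be a point of a class, and suppose that along the points
`(a - κ, w - κ)`, `κ ≤ w - v`, the order of the coordinates is greedy and the precisions decrease
at most with the slope `S` in `κ`. Then there are chains of two-sided labels with the radius `a`,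
the window `w` and the precisions of the thresholds, up to small increasing defects, whose degree
depends on the number of coordinates and on `S` only.
-/

set_option autoImplicit false

namespace Pool.STAT

open Finset MvPolynomial
open Pool.Agent.H49.Ent Pool.Agent.H32.Dense Pool.STK Pool.KS3 Pool.KA Pool.KSAT Pool.PB Pool.GEN
open Pool.K2S Pool.S6C
open Pool.LBT (ThrOf)
open Pool.CHT (chsys bet Pts Csl TmH jatt bas_ev MCh fl_add big tau)
open Pool.TRC31 (timeF)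

namespace CLO

/-- Floors of two sums. -/
theorem fl2 {x y z t : ℝ} (hx : 0 ≤ x) (hy : 0 ≤ y) (h : x + y ≤ z + t) :
    ⌊x⌋₊ + ⌊y⌋₊ ≤ ⌊z⌋₊ + ⌊t⌋₊ + 1 := by
  have h1 := Nat.floor_le hx
  have h2 := Nat.floor_le hy
  have h3 := Nat.lt_floor_add_one z
  have h4 := Nat.lt_floor_add_one t
  have h5 : ((⌊x⌋₊ + ⌊y⌋₊ : ℕ) : ℝ) < ((⌊z⌋₊ + ⌊t⌋₊ + 2 : ℕ) : ℝ) := by
    push_cast
    linarith
  have h6 : ⌊x⌋₊ + ⌊y⌋₊ < ⌊z⌋₊ + ⌊t⌋₊ + 2 := by exact_mod_cast h5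
  omega

/-- The points of a path. -/
theorem pts_path {m : ℕ} {Sc : PCl m} {P : List (Fin m) × Fin m → ℝ → ℝ → ℝ} {θ : ℝ}
    {c : ℕ → Fin m} {r N : ℕ} {a w vs e₀ : ℝ} {κ : ℕ → ℝ}
    (h : ∀ k < N, Pts Sc P θ c r 1 (fun _ => a - κ k) (fun _ => w - κ k) vs e₀) :
    Pts Sc P θ c r N (fun k => a - κ k) (fun k => w - κ k) vs e₀ where
  pos k hk := (h k hk).pos 0 one_pos
  wa k hk := (h k hk).wa 0 one_pos
  lt k hk := (h k hk).lt 0 one_pos
  rc k hk := (h k hk).rc 0 one_pos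
  vis k hk := (h k hk).vis 0 one_pos
  gre k hk := (h k hk).gre 0 one_pos
  srt k hk := (h k hk).srt 0 one_pos
  rel k hk := (h k hk).rel 0 one_pos

/-! ### Numbers -/

/-- The slope condition for floors. -/
theorem slp_num {S u : ℕ} {x y A B r : ℝ} (hx : 0 ≤ x) (hA : 0 ≤ A)
    (h : x + S * A ≤ y + S * B + r) (hu : r + S + 1 ≤ u) :
    ⌊x⌋₊ + S * ⌊A⌋₊ ≤ ⌊y⌋₊ + S * ⌊B⌋₊ + u := by
  have h1 := Nat.floor_le hx
  have hS : (0 : ℝ) ≤ S := Nat.cast_nonneg S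
  have h2 := mul_le_mul_of_nonneg_left (Nat.floor_le hA) hS
  have h3 := (Nat.lt_floor_add_one y).le
  have h4 := mul_le_mul_of_nonneg_left (Nat.lt_floor_add_one B).le hS
  have h5 : ((⌊x⌋₊ + S * ⌊A⌋₊ : ℕ) : ℝ) ≤ ((⌊y⌋₊ + S * ⌊B⌋₊ + u : ℕ) : ℝ) := by
    push_cast
    have e1 : (S : ℝ) * (⌊B⌋₊ + 1) = S * ⌊B⌋₊ + S := by ring
    rw [e1] at h4
    linarith
  exact_mod_cast h5

/-- Two floors. -/
theorem le_num {u : ℕ} {A y r : ℝ} (hA : 0 ≤ A) (h : A ≤ y + r) (hu : r + 1 ≤ u) :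
    ⌊A⌋₊ ≤ ⌊y⌋₊ + u := by
  have h1 := Nat.floor_le hA
  have h3 := (Nat.lt_floor_add_one y).le
  have h5 : ((⌊A⌋₊ : ℕ) : ℝ) ≤ ((⌊y⌋₊ + u : ℕ) : ℝ) := by
    push_cast
    linarith
  exact_mod_cast h5

/-- The constants. -/
theorem lab_consts {c₀ : ℕ} (hc₀ : 1 ≤ c₀) {de₀ ε v : ℝ} (h0 : 0 < de₀) (hε : 0 ≤ ε) (hv : 0 < v)
    (h : (2 * (c₀ : ℝ) ^ 2 + 2 * c₀) * ε < de₀) : ∃ σ x φ μ : ℝ, 0 < σ ∧ c₀ * σ = de₀ / 2 ∧
      0 < x ∧ σ = x + c₀ * ε ∧ 0 < φ ∧ c₀ * φ ≤ x / 8 ∧ φ ≤ de₀ / 8 ∧ φ ≤ v / 2 ∧ 0 < μ ∧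
      c₀ * μ = x / 8 := by
  have hc1 : (1 : ℝ) ≤ c₀ := by exact_mod_cast hc₀
  have hc0 : (0 : ℝ) < c₀ := by linarith
  obtain ⟨σ, hσ⟩ : ∃ σ : ℝ, σ = de₀ / (2 * c₀) := ⟨_, rfl⟩
  have hσc : (c₀ : ℝ) * σ = de₀ / 2 := by
    rw [hσ]
    field_simp
  have hσ0 : 0 < σ := by rw [hσ]; positivity
  obtain ⟨x, hx⟩ : ∃ x : ℝ, x = σ - c₀ * ε := ⟨_, rfl⟩
  have hx0 : 0 < x := by
    have e1 : 0 ≤ 2 * (c₀ : ℝ) * ε := by positivity
    have h2 : (c₀ : ℝ) * (c₀ * ε) < c₀ * σ := by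
      rw [hσc]
      nlinarith
    have h3 := lt_of_mul_lt_mul_left h2 hc0.le
    rw [hx]
    linarith
  refine ⟨σ, x, min (x / (8 * c₀)) (min (de₀ / 8) (v / 2)), x / (8 * c₀), hσ0, hσc, hx0, by
    rw [hx]
    ring, lt_min (by positivity) (lt_min (by positivity) (by positivity)), ?_,
    (min_le_right _ _).trans (min_le_left _ _), (min_le_right _ _).trans (min_le_right _ _),
    by positivity, by field_simp⟩
  have h2 := mul_le_mul_of_nonneg_left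
    (min_le_left (x / (8 * c₀)) (min (de₀ / 8) (v / 2))) hc0.le
  have h3 : (c₀ : ℝ) * (x / (8 * c₀)) = x / 8 := by field_simp
  linarith

/-- The defects increase. -/
theorem de_mono {n : ℕ} {C : ℝ} (hC : 1 ≤ C) {de : ℕ → ℝ} (h0 : 0 < de 0)
    (h : ∀ l, l + 1 < n → C * de l < de (l + 1)) : ∀ i j, i ≤ j → j < n → de i ≤ de j := by
  have hs : ∀ l, l + 1 < n → de l ≤ de (l + 1) ∧ 0 < de l := by
    intro l
    induction l with
    | zero =>
      intro h'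
      have h1 := h 0 h'
      exact ⟨by nlinarith, h0⟩
    | succ l ih =>
      intro h'
      obtain ⟨h1, h2⟩ := ih (by omega)
      have h3 := h (l + 1) h'
      have h4 : 0 < de (l + 1) := h2.trans_le h1
      exact ⟨by nlinarith, h4⟩
  intro i j hij
  induction j with
  | zero =>
    intro _
    have : i = 0 := by omega
    rw [this]
  | succ j ih =>
    intro hj
    rcases Nat.lt_or_ge i (j + 1) with h1 | h1
    · exact (ih (by omega) (by omega)).trans (hs j hj).1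
    · have : i = j + 1 := by omega
      rw [this]

/-- Small multiples. -/
theorem eta_ex {C : ℕ} {x y : ℝ} (hx : 0 < x) (hy : 0 < y) :
    ∃ η : ℝ, 0 < η ∧ C * η ≤ x / 4 ∧ C * η ≤ y / 2 := by
  have hC : (0 : ℝ) ≤ C := Nat.cast_nonneg C
  have hC1 : (0 : ℝ) < C + 1 := by linarith
  refine ⟨min (x / (4 * (C + 1))) (y / (2 * (C + 1))), lt_min (by positivity) (by positivity),
    ?_, ?_⟩
  · have h2 := mul_le_mul_of_nonneg_left
      (min_le_left (x / (4 * ((C : ℝ) + 1))) (y / (2 * (C + 1)))) hC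
    have h3 : ((C : ℝ) + 1) * (x / (4 * (C + 1))) = x / 4 := by field_simp
    have h4 : 0 < x / (4 * ((C : ℝ) + 1)) := by positivity
    linarith
  · have h2 := mul_le_mul_of_nonneg_left
      (min_le_right (x / (4 * ((C : ℝ) + 1))) (y / (2 * (C + 1)))) hC
    have h3 : ((C : ℝ) + 1) * (y / (2 * (C + 1))) = y / 2 := by field_simp
    have h4 : 0 < y / (2 * ((C : ℝ) + 1)) := by positivity
    linarith

/-- The loss of the truncation. -/
theorem loss_num {c₀ C' S J : ℕ} {φ ε μ x σ η : ℝ} (hφ : 0 ≤ φ) (hε : 0 ≤ ε) (hμ0 : 0 ≤ μ)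
    (hσ : σ = x + c₀ * ε) (hφ1 : c₀ * φ ≤ x / 8) (hμ1 : c₀ * μ = x / 8)
    (hη : C' * η ≤ x / 4) (hJ : (c₀ : ℝ) * (S + 3 + C') + C' + 1 ≤ x / 2 * J) :
    (c₀ : ℝ) * ((⌊μ * J⌋₊ + 1 : ℕ) + (⌊(φ + ε) * J⌋₊ + S + 2 + C' : ℕ)) + C' * (η * J + 1) ≤
      (⌊σ * J⌋₊ : ℕ) := by
  have hJ0 : (0 : ℝ) ≤ J := Nat.cast_nonneg J
  have hc : (0 : ℝ) ≤ c₀ := Nat.cast_nonneg c₀
  have h1 := Nat.floor_le (mul_nonneg (add_nonneg hφ hε) hJ0)
  have h2 := Nat.floor_le (mul_nonneg hμ0 hJ0)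
  have h3 := mul_le_mul_of_nonneg_right hη hJ0
  have h4 : (c₀ : ℝ) * (μ * J) = x / 8 * J := by rw [← mul_assoc, hμ1]
  have h5 := mul_le_mul_of_nonneg_right hφ1 hJ0
  have h6 : σ * J = x * J + c₀ * (ε * J) := by
    rw [hσ]
    ring
  have h7 := mul_le_mul_of_nonneg_left h2 hc
  have h8 := mul_le_mul_of_nonneg_left h1 hc
  have h9 : (c₀ : ℝ) * ((φ + ε) * J) = c₀ * φ * J + c₀ * (ε * J) := by ring
  have h10 := (Nat.lt_floor_add_one (σ * J)).le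
  push_cast
  have h11 : (c₀ : ℝ) * ((⌊μ * J⌋₊ : ℕ) + 1 + ((⌊(φ + ε) * J⌋₊ : ℕ) + S + 2 + C')) =
      c₀ * (⌊μ * J⌋₊ : ℕ) + c₀ * (⌊(φ + ε) * J⌋₊ : ℕ) + c₀ * (S + 3 + C') := by ring
  have h12 : (C' : ℝ) * (η * J + 1) = C' * η * J + C' := by ring
  rw [h11, h12]
  linarith

/-- The first loss. -/
theorem loss_zero {c₀ J : ℕ} {de₀ d φ σ ℓ s : ℝ} (hc1 : (1 : ℝ) ≤ c₀) (hσc : c₀ * σ = de₀ / 2)
    (hs : s ≤ σ * J) (hℓ : (de₀ - d) * J - 1 ≤ ℓ) (hd : d ≤ φ) (hφ : φ ≤ de₀ / 8)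
    (hJ : (c₀ : ℝ) * 4 + 2 ≤ de₀ / 4 * J) : (c₀ : ℝ) * (s + 1) ≤ ℓ := by
  have hJ0 : (0 : ℝ) ≤ J := Nat.cast_nonneg J
  have h4 : (c₀ : ℝ) * s ≤ de₀ / 2 * J := by
    calc (c₀ : ℝ) * s ≤ c₀ * (σ * J) := mul_le_mul_of_nonneg_left hs (by linarith)
      _ = de₀ / 2 * J := by rw [← mul_assoc, hσc]
  have h5 : d * J ≤ de₀ / 8 * J := mul_le_mul_of_nonneg_right (hd.trans hφ) hJ0
  linarith

/-- The other losses. -/
theorem loss_succ {c₀ J : ℕ} {C de₀ de de' d d' φ σ ℓ ℓ' s : ℝ} (hc1 : (1 : ℝ) ≤ c₀)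
    (hσc : c₀ * σ = de₀ / 2) (hs : s ≤ σ * J) (hℓ' : (de' - d') * J - 1 ≤ ℓ')
    (hℓ : ℓ ≤ (de - d) * J + 1) (hd0 : 0 ≤ d) (hd : d' ≤ φ) (hφ : φ ≤ de₀ / 8) (h0 : 0 < de₀)
    (h1 : de₀ ≤ de) (hC : (c₀ : ℝ) + 1 ≤ C) (h2 : C * de < de')
    (hJ : (c₀ : ℝ) * 4 + 2 ≤ de₀ / 4 * J) : (c₀ : ℝ) * (ℓ + s + 1) ≤ ℓ' := by
  have hJ0 : (0 : ℝ) ≤ J := Nat.cast_nonneg J
  have hc : (0 : ℝ) ≤ c₀ := by linarith
  have h4 : (c₀ : ℝ) * s ≤ de₀ / 2 * J := by
    calc (c₀ : ℝ) * s ≤ c₀ * (σ * J) := mul_le_mul_of_nonneg_left hs hc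
      _ = de₀ / 2 * J := by rw [← mul_assoc, hσc]
  have h5 : d * J ≥ 0 := mul_nonneg hd0 hJ0
  have h9 : (c₀ : ℝ) * ℓ ≤ c₀ * (de * J + 1) := by
    refine mul_le_mul_of_nonneg_left (hℓ.trans ?_) hc
    linarith
  have h10 : (c₀ : ℝ) * de + de₀ ≤ de' := by
    have h11 : ((c₀ : ℝ) + 1) * de ≤ C * de := mul_le_mul_of_nonneg_right hC (by linarith)
    linarith
  have h12 := mul_le_mul_of_nonneg_right h10 hJ0
  have h13 : d' * J ≤ de₀ / 8 * J := mul_le_mul_of_nonneg_right (hd.trans hφ) hJ0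
  have h14 : (0 : ℝ) ≤ de₀ * J := by positivity
  linarith

/-- The gradient. -/
theorem grad_num {c₀ C' J L s : ℕ} {C de₀ de e σ : ℝ} (hc1 : (1 : ℝ) ≤ c₀)
    (hσc : c₀ * σ = de₀ / 2) (hs : (s : ℝ) ≤ σ * J) (hL : (L : ℝ) ≤ de * J + 1) (h0 : 0 < de₀)
    (h1 : de₀ ≤ de) (hC : (c₀ : ℝ) + 1 ≤ C) (he : 0 ≤ e)
    (hJ : (c₀ : ℝ) * 4 + C' + 2 ≤ de₀ / 4 * J) :
    ⌊e * J⌋₊ + c₀ * (L + s + 1) + C' ≤ ⌊(e + C * de) * J⌋₊ := by
  have hJ0 : (0 : ℝ) ≤ J := Nat.cast_nonneg J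
  have hc : (0 : ℝ) ≤ c₀ := by linarith
  refine Nat.le_floor ?_
  push_cast
  have h2 := Nat.floor_le (mul_nonneg he hJ0)
  have h3 : (c₀ : ℝ) * L ≤ c₀ * (de * J + 1) := mul_le_mul_of_nonneg_left hL hc
  have h4 : (c₀ : ℝ) * s ≤ de₀ / 2 * J := by
    calc (c₀ : ℝ) * s ≤ c₀ * (σ * J) := mul_le_mul_of_nonneg_left hs hc
      _ = de₀ / 2 * J := by rw [← mul_assoc, hσc]
  have h6 : ((c₀ : ℝ) + 1) * (de * J) ≤ C * (de * J) :=
    mul_le_mul_of_nonneg_right hC (mul_nonneg (by linarith) hJ0)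
  have h7 : de₀ * J ≤ de * J := mul_le_mul_of_nonneg_right h1 hJ0
  linarith

/-- **Chains of universal degree at one point of a class.** -/
theorem lab2 (n S : ℕ) (hn : 1 ≤ n) (hS : 1 ≤ S) : ∃ (D : ℕ) (C : ℝ), 1 ≤ C ∧
    ∀ {m : ℕ} {Sc : PCl m} {P : List (Fin m) × Fin m → ℝ → ℝ → ℝ} {θ : ℝ} {c : ℕ → Fin m}
    {a w v vs e₀ ε : ℝ} {Q : Set ℝ}, ThrOf (chsys m θ) Sc P → 0 < θ → TmH Sc →
    Set.InjOn c (Set.Iio n) → 0 < v → v < w → w ≤ a → a < 1 → 0 ≤ vs → 0 ≤ ε → (0 : ℝ) ∈ Q →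
    (∀ x y : ℝ, 0 ≤ x → x < y → y ≤ w - v → ∃ κ ∈ Q, x < κ ∧ κ < y) →
    (∀ κ ∈ Q, 0 ≤ κ → κ ≤ w - v →
      Pts Sc P θ c n 1 (fun _ => a - κ) (fun _ => w - κ) vs e₀ ∧
      ∀ l < n, bet P c l a w ≤ bet P c l (a - κ) (w - κ) + S * κ + ε) → 2 ≤ S * (w - v) →
    ∀ de : ℕ → ℝ, 0 < de 0 → C * ε < de 0 → (∀ l, l + 1 < n → C * de l < de (l + 1)) →
    (∀ l < n, de l < a) → ∀ e : ℝ, Csl n n * vs < e → e ≤ e₀ →
    ∃ K₁ : ℝ, 0 < K₁ ∧ Bas Sc (fun J F A => ∃ B : F.Ω → Prop, Sub B A ∧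
      Pe F.p A ≤ K₁ * Pe F.p B ∧
      Chn c n (fun _ => D) a w (e + C * de (n - 1)) (fun l => bet P c l a w - de l) J F B) := by
  classical
  obtain ⟨D, c₀, hc₀, hfam⟩ := lab2_fam n S hS
  have hc1 : (1 : ℝ) ≤ c₀ := by exact_mod_cast hc₀
  refine ⟨D, 2 * c₀ ^ 2 + 2 * c₀, by nlinarith, ?_⟩
  intro m Sc P θ c a w v vs e₀ ε Q hP hθ hSc hinj hv0 hvw hwa ha hvs hε h0Q hQ hpts hSv de hde0
    hdeε hdes hdea e hevs hee
  obtain ⟨σ, x, φ, μ, hσ0, hσc, hx0, hσx, hφ0, hφ1, hφ2, hφ3, hμ0, hμ1⟩ :=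
    lab_consts hc₀ hde0 hε hv0 hdeε
  obtain ⟨C, hC⟩ : ∃ C : ℝ, C = 2 * c₀ ^ 2 + 2 * c₀ := ⟨_, rfl⟩
  rw [← hC] at hdeε hdes ⊢
  have hCc : (c₀ : ℝ) + 1 ≤ C := by
    rw [hC]
    nlinarith
  have hSr : (1 : ℝ) ≤ S := by exact_mod_cast hS
  have hdmono := de_mono (by linarith : (1 : ℝ) ≤ C) hde0 hdes
  have hd0 : ∀ l < n, de 0 ≤ de l := fun l hl => hdmono 0 l (Nat.zero_le _) hl
  have hdn : ∀ l < n, de l ≤ de (n - 1) := fun l hl => hdmono l (n - 1) (by omega) (by omega)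
  -- the path
  obtain ⟨N, κ, hκ, hκN, hκ0, hκs⟩ := path_ex (Q := Q) (W := w - v) (μ := μ) (by linarith) hμ0 h0Q
    hQ
  have hκm : ∀ k j, k ≤ j → j ≤ N → κ j ≤ κ k := by
    intro k j hkj
    induction j with
    | zero =>
      intro _
      have : k = 0 := by omega
      rw [this]
    | succ j ih =>
      intro hj
      rcases Nat.lt_or_ge k (j + 1) with h1 | h1
      · exact (hκs j (by omega)).1.trans (ih (by omega) (by omega))
      · have : k = j + 1 := by omega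
        rw [this]
  have hPk : ∀ k < N + 1, Pts Sc P θ c n 1 (fun _ => a - κ k) (fun _ => w - κ k) vs e₀ :=
    fun k hk => by
      obtain ⟨h1, h2, h3⟩ := hκ k (by omega)
      exact (hpts _ h1 h2 h3).1
  have hPts := pts_path hPk
  obtain ⟨b, hb⟩ : ∃ b : ℕ → ℕ → ℝ, b = fun k l => bet P c l (a - κ k) (w - κ k) := ⟨_, rfl⟩
  have hbN : ∀ l, b N l = bet P c l a w := by
    intro l
    rw [hb]
    show bet P c l (a - κ N) (w - κ N) = _
    rw [hκN, sub_zero, sub_zero]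
  have hbsl : ∀ k ≤ N, ∀ l < n, b N l ≤ b k l + S * κ k + ε := by
    intro k hk l hl
    obtain ⟨h1, h2, h3⟩ := hκ k hk
    rw [hbN, hb]
    exact (hpts _ h1 h2 h3).2 l hl
  have hw0 : ∀ k ≤ N, v ≤ w - κ k := fun k hk => by
    have := (hκ k hk).2.2
    linarith
  have ha1 : ∀ k ≤ N, a - κ k ≤ 1 := fun k hk => by
    have := (hκ k hk).2.1
    linarith
  have hwk : ∀ k ≤ N, w - κ k ≤ a - κ k := fun k _ => by linarith
  have hblow : ∀ k ≤ N, ∀ l, a - κ k ≤ b k l := fun k hk l => by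
    rw [hb]
    exact hP.low _ _ _ (by linarith [hw0 k hk]) (hwk k hk) (ha1 k hk)
  have hbup : ∀ k ≤ N, ∀ l, b k l ≤ 1 := fun k hk l => by
    rw [hb]
    exact hP.up _ _ _ (by linarith [hw0 k hk]) (hwk k hk) (ha1 k hk)
  have hblt : ∀ k ≤ N, ∀ l < n, b k l < 1 := by
    intro k hk l hl
    have h1 := hPts.vis k (by omega) l hl l le_rfl
    have h2 := hw0 k hk
    have h3 : 0 < θ * (w - κ k) := mul_pos hθ (by linarith)
    rw [hb]
    show bet P c l (a - κ k) (w - κ k) < 1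
    have h4 : tau P c l l (a - κ k) (w - κ k) = bet P c l (a - κ k) (w - κ k) := rfl
    rw [h4] at h1
    linarith
  have hbmono : ∀ k ≤ N, ∀ k' ≤ k, ∀ l < n, b k' l + (κ k' - κ k) ≤ b k l := by
    intro k hk k' hk' l hl
    have h1 := hκm k' k hk' hk
    have hw1 := hw0 k hk
    have hw2 := hw0 k' (hk'.trans hk)
    have h2 := (hP.law ((List.range l).map c, c l)).slope (a - κ k') (w - κ k') (κ k' - κ k)
      (by linarith) (hwk k' (hk'.trans hk)) (by linarith) (by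
        have := ha1 k hk
        linarith)
    have h3 := (hP.law ((List.range l).map c, c l)).mono_w (a - κ k) (w - κ k') (w - κ k)
      (by linarith) (by linarith) (hwk k hk) (ha1 k hk)
    have e1 : a - κ k' + (κ k' - κ k) = a - κ k := by ring
    rw [e1] at h2
    have h4 := hblt k hk l hl
    rw [hb] at h4 ⊢
    change P ((List.range l).map c, c l) (a - κ k) (w - κ k) < 1 at h4
    show P ((List.range l).map c, c l) (a - κ k') (w - κ k') + (κ k' - κ k) ≤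
      P ((List.range l).map c, c l) (a - κ k) (w - κ k)
    rcases min_le_iff.1 (h2.trans h3) with h5 | h5
    · linarith
    · exact h5
  -- the labels
  obtain ⟨K, d, δ, K₁, hK₁, hK1, hd, hδ, hbas⟩ := jatt hP hθ hSc hinj hvs hPts n le_rfl
    (fun _ _ => φ) (fun _ _ => hφ0) e hevs hee
  obtain ⟨Kx, hKx⟩ : ∃ Kx, Kx = ∑ l ∈ range n, K l := ⟨_, rfl⟩
  have hKl : ∀ l < n, K l ≤ Kx := fun l hl => by
    rw [hKx]
    exact Finset.single_le_sum (f := K) (fun _ _ => Nat.zero_le _) (mem_range.2 hl)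
  obtain ⟨C', hfam⟩ := hfam Kx N
  have hC'0 : (0 : ℝ) ≤ C' := Nat.cast_nonneg C'
  have hw1 : w < 1 := hwa.trans_lt ha
  obtain ⟨η, hη0, hη1, hη2⟩ := eta_ex (C := C') hx0 (by linarith : 0 < 1 - w)
  have htmb := bas_ev (hSc.2 η hη0) (inv_pos.2 hK₁)
  obtain ⟨J₁, hJ₁⟩ := big (C' + 1 : ℝ) (show 0 < v / 2 by positivity)
  obtain ⟨J₂, hJ₂⟩ := big (C' : ℝ) (show 0 < (1 - w) / 2 by linarith)
  obtain ⟨J₃, hJ₃⟩ := big ((c₀ : ℝ) * (S + 3 + C') + C' + 1) (show 0 < x / 2 by positivity)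
  obtain ⟨J₄, hJ₄⟩ := big ((c₀ : ℝ) * 4 + C' + 2) (show 0 < de 0 / 4 by positivity)
  refine ⟨K₁ * 2, by positivity, ?_⟩
  have hposb : Bas Sc (fun _ F A => 0 < Pe F.p A) := ⟨1, one_pos, 0, fun J _ F A hA =>
    hSc.1 1 J F A hA⟩
  refine Bas.mono (max (max J₁ J₂) (max J₃ J₄)) ((hbas.and htmb).and hposb) ?_
  rintro J hJ F A ⟨⟨⟨B, G, H, hBA, hPe, hM⟩, htm⟩, hA⟩
  have hJ0 : (0 : ℝ) ≤ J := Nat.cast_nonneg J
  have b1 := hJ₁ J (((le_max_left _ _).trans (le_max_left _ _)).trans hJ)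
  have b2 := hJ₂ J (((le_max_right _ _).trans (le_max_left _ _)).trans hJ)
  have b3 := hJ₃ J (((le_max_left _ _).trans (le_max_right _ _)).trans hJ)
  have b4 := hJ₄ J (((le_max_right _ _).trans (le_max_right _ _)).trans hJ)
  have b4' : (c₀ : ℝ) * 4 + 2 ≤ de 0 / 4 * J := by linarith
  have hB : 0 < Pe F.p B := by
    by_contra h
    push Not at h
    have := mul_nonpos_of_nonneg_of_nonpos hK₁.le h
    linarith
  have hTm := htm B hBA (by
    rw [inv_mul_le_iff₀ hK₁]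
    exact hPe) hB
  obtain ⟨G', H', hM'⟩ := Pool.CHT.MCh.congr (K' := fun _ => Kx)
    (g' := fun k l => ⌊(bet P c l (a - κ k) (w - κ k) - d l) * J⌋₊)
    (δ' := fun l => ⌊δ l * J⌋₊) hM hKl (fun _ _ _ => rfl) (fun _ _ => rfl)
  obtain ⟨al, hal⟩ : ∃ al : ℕ → ℕ, al = fun k => ⌊(a - κ k) * J⌋₊ := ⟨_, rfl⟩
  obtain ⟨om, hom⟩ : ∃ om : ℕ → ℕ, om = fun k => ⌊(w - κ k) * J⌋₊ := ⟨_, rfl⟩
  obtain ⟨g, hg⟩ : ∃ g : ℕ → ℕ → ℕ, g = fun k l => ⌊(b k l - d l) * J⌋₊ := ⟨_, rfl⟩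
  have hJat := Pool.TRC.jat_of_mch hM' (N' := N + 1) (idx := fun k => k) (fun k hk => hk)
    (fun k' hk' k hk => by
      have := hκm k k' hk.le (by omega)
      exact ⟨by linarith, by linarith⟩) (u := ⌊φ * J⌋₊) (fun l hl =>
      Nat.floor_le_floor (mul_le_mul_of_nonneg_right (hδ l hl).2 hJ0))
  have hJat' : Pool.TRC.Jat F c n Kx (N + 1) al om ⌊e * J⌋₊ g ⌊φ * J⌋₊ B G' H' := by
    rw [hal, hom, hg, hb]
    exact hJat
  have hd1 : ∀ l < n, d l ≤ φ := fun l hl => (hd l hl).2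
  have hd2 : ∀ l < n, 0 < d l := fun l hl => (hd l hl).1
  have hbd : ∀ k ≤ N, ∀ l < n, v / 2 ≤ b k l - d l := by
    intro k hk l hl
    have h1 := hblow k hk l
    have h2 := hw0 k hk
    have h3 := hd1 l hl
    have h4 := hwk k hk
    linarith
  have fle : ∀ y : ℝ, 0 ≤ y → ((⌊y * J⌋₊ : ℕ) : ℝ) ≤ y * J := fun y hy =>
    Nat.floor_le (mul_nonneg hy hJ0)
  have fge : ∀ y : ℝ, y * J < ((⌊y * J⌋₊ : ℕ) : ℝ) + 1 := fun y => Nat.lt_floor_add_one _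
  obtain ⟨u, hu⟩ : ∃ u, u = ⌊(φ + ε) * J⌋₊ + S + 2 + C' := ⟨_, rfl⟩
  have hur : (φ + ε) * J ≤ ⌊(φ + ε) * J⌋₊ + 1 := (fge _).le
  have hεJ0 : 0 ≤ ε * (J : ℝ) := mul_nonneg hε hJ0
  have hSκ : (1 : ℝ) * J ≤ S * κ 0 * J := by
    refine mul_le_mul_of_nonneg_right ?_ hJ0
    have h1 := mul_le_mul_of_nonneg_left hκ0 (by linarith : (0 : ℝ) ≤ S)
    linarith
  have hu' : (u : ℝ) = (⌊(φ + ε) * J⌋₊ : ℕ) + S + 2 + C' := by
    rw [hu]
    push_cast
    ring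
  have hφJ : φ * (J : ℝ) ≤ (φ + ε) * J := mul_le_mul_of_nonneg_right (by linarith) hJ0
  have hεJ : ε * (J : ℝ) ≤ (φ + ε) * J := mul_le_mul_of_nonneg_right (by linarith) hJ0
  have hur1 : φ * (J : ℝ) + 1 ≤ u := by
    rw [hu']
    linarith
  have hur2 : ε * (J : ℝ) + S + 1 ≤ u := by
    rw [hu']
    linarith
  obtain ⟨ℓ, hℓ⟩ : ∃ ℓ : ℕ → ℕ, ℓ = fun l => g N l - ⌊(bet P c l a w - de l) * J⌋₊ := ⟨_, rfl⟩
  have hdede : ∀ l < n, d l ≤ de l := fun l hl => by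
    have h1 := hd1 l hl
    have h2 := hd0 l hl
    linarith
  have hx1 : ∀ l < n, ⌊(bet P c l a w - de l) * J⌋₊ ≤ g N l := by
    intro l hl
    rw [hg]
    show _ ≤ ⌊(b N l - d l) * J⌋₊
    rw [hbN]
    have := hdede l hl
    exact Nat.floor_le_floor (mul_le_mul_of_nonneg_right (by linarith) hJ0)
  have hba : ∀ l, a ≤ bet P c l a w := fun l => by
    have h1 := hblow N le_rfl l
    rw [hbN, hκN] at h1
    linarith
  have hℓr : ∀ l < n, (de l - d l) * J - 1 ≤ ℓ l ∧ (ℓ l : ℝ) ≤ (de l - d l) * J + 1 := by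
    intro l hl
    have h1 : (ℓ l : ℝ) = (⌊(bet P c l a w - d l) * J⌋₊ : ℕ) -
        (⌊(bet P c l a w - de l) * J⌋₊ : ℕ) := by
      have h2 := hx1 l hl
      rw [hℓ]
      show ((g N l - ⌊(bet P c l a w - de l) * J⌋₊ : ℕ) : ℝ) = _
      rw [Nat.cast_sub h2, hg]
      show ((⌊(b N l - d l) * J⌋₊ : ℕ) : ℝ) - _ = _
      rw [hbN]
    have h3 := fle (bet P c l a w - d l) (by
      have := hbd N le_rfl l hl
      rw [hbN] at this
      linarith)
    have h4 := fge (bet P c l a w - d l)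
    have h5 := fle (bet P c l a w - de l) (by
      have := hdea l hl
      have := hba l
      linarith)
    have h6 := fge (bet P c l a w - de l)
    rw [h1]
    constructor <;> linarith
  obtain ⟨L, hL⟩ : ∃ L, L = ⌊de (n - 1) * J + 1⌋₊ := ⟨_, rfl⟩
  have hden : 0 < de (n - 1) := hde0.trans_le (hd0 (n - 1) (by omega))
  have hLr : (L : ℝ) ≤ de (n - 1) * J + 1 := by
    rw [hL]
    exact Nat.floor_le (by positivity)
  obtain ⟨s, hs⟩ : ∃ s, s = ⌊σ * J⌋₊ := ⟨_, rfl⟩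
  have hsr : (s : ℝ) ≤ σ * J := by
    rw [hs]
    exact fle σ hσ0.le
  have hsr' : σ * J < s + 1 := by
    rw [hs]
    exact fge σ
  have haN : al N = ⌊a * J⌋₊ := by
    rw [hal]
    show ⌊(a - κ N) * J⌋₊ = _
    rw [hκN, sub_zero]
  have hoN : om N = ⌊w * J⌋₊ := by
    rw [hom]
    show ⌊(w - κ N) * J⌋₊ = _
    rw [hκN, sub_zero]
  have hoNJ : om N ≤ J := by
    rw [hoN]
    exact Pool.LBT.fl_le' hw1.le J
  have homm : ∀ k ≤ N, om k ≤ om N := by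
    intro k hk
    rw [hom]
    refine Nat.floor_le_floor (mul_le_mul_of_nonneg_right ?_ hJ0)
    have := hκm k N hk le_rfl
    linarith
  obtain ⟨B', Gt, R, k1, k2, k3, k4⟩ := hfam m J F c al om ⌊e * J⌋₊ g ⌊φ * J⌋₊ (⌊μ * J⌋₊ + 1) u
    s ℓ L B G' H' (η * J) hJat' (fun i hi j hj h => hinj (Set.mem_Iio.2 hi) (Set.mem_Iio.2 hj) h)
    (by
      rw [haN]
      exact Pool.LBT.fl_le' ha.le J)
    (fun k hk => by
      rw [hom, hal]
      exact Nat.floor_le_floor (mul_le_mul_of_nonneg_right (hwk k hk) hJ0))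
    (fun k hk => by
      obtain ⟨h1, h2⟩ := hκs k hk
      rw [hom]
      refine ⟨Nat.floor_le_floor (mul_le_mul_of_nonneg_right (by linarith) hJ0), ?_⟩
      refine fl_add ?_
      have h3 := mul_le_mul_of_nonneg_right h2 hJ0
      linarith)
    (fun k hk => by
      obtain ⟨h1, h2⟩ := hκs k hk
      rw [hal]
      refine ⟨Nat.floor_le_floor (mul_le_mul_of_nonneg_right (by linarith) hJ0), ?_⟩
      refine fl_add ?_
      have h3 := mul_le_mul_of_nonneg_right h2 hJ0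
      linarith)
    (fun k hk k' hk' l hl => by
      have h1 := hbmono k hk k' hk' l hl
      have h2 := hbd k' (hk'.trans hk) l hl
      have h3 := hw0 k hk
      have h4 := hwk k hk
      have h5 := hκm k' k hk' hk
      have hu1 : 1 ≤ u := by rw [hu]; omega
      have h7 := mul_le_mul_of_nonneg_right h1 hJ0
      refine ⟨?_, ?_, ?_⟩
      · have h6 := fl2 (x := (b k' l - d l) * J) (y := (a - κ k) * J) (z := (b k l - d l) * J)
          (t := (a - κ k') * J) (mul_nonneg (by linarith) hJ0) (mul_nonneg (by linarith) hJ0)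
          (by linarith)
        rw [hg, hal]
        show ⌊(b k' l - d l) * J⌋₊ + ⌊(a - κ k) * J⌋₊ ≤ ⌊(b k l - d l) * J⌋₊ +
          ⌊(a - κ k') * J⌋₊ + u
        omega
      · have h6 := fl2 (x := (b k' l - d l) * J) (y := (w - κ k) * J) (z := (b k l - d l) * J)
          (t := (w - κ k') * J) (mul_nonneg (by linarith) hJ0) (mul_nonneg (by linarith) hJ0)
          (by linarith)
        rw [hg, hom]
        show ⌊(b k' l - d l) * J⌋₊ + ⌊(w - κ k) * J⌋₊ ≤ ⌊(b k l - d l) * J⌋₊ +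
          ⌊(w - κ k') * J⌋₊ + u
        omega
      · rw [hg]
        exact Nat.floor_le_floor (mul_le_mul_of_nonneg_right (by linarith) hJ0))
    (fun k hk l hl => by
      have h1 := mul_le_mul_of_nonneg_right (hblow k hk l) hJ0
      have h2 := mul_le_mul_of_nonneg_right (hd1 l hl) hJ0
      have h3 := hw0 k hk
      have h4 := hwk k hk
      rw [hal, hg]
      refine le_num (r := φ * J) (mul_nonneg (by linarith) hJ0) ?_ hur1
      linarith)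
    (fun k hk l hl => by
      have h1 := mul_le_mul_of_nonneg_right (hbsl k hk l hl) hJ0
      have h2 := hbd N le_rfl l hl
      have h3 := hw0 k hk
      have h4 := hwk k hk
      rw [hal, hom, hg]
      constructor
      · refine slp_num (r := ε * J) (mul_nonneg (by linarith) hJ0)
          (mul_nonneg (by linarith) hJ0) ?_ hur2
        rw [hκN]
        linarith
      · refine slp_num (r := ε * J) (mul_nonneg (by linarith) hJ0)
          (mul_nonneg (by linarith) hJ0) ?_ hur2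
        rw [hκN]
        linarith)
    (fun l hl => by
      have h1 := hbup N le_rfl l
      have h2 := hbd N le_rfl l hl
      have h3 := hd2 l hl
      have h4 := hw0 0 (Nat.zero_le _)
      have h5 := hwk 0 (Nat.zero_le _)
      have h10 : (b N l - d l) * J ≤ 1 * J := mul_le_mul_of_nonneg_right (by linarith) hJ0
      have h6 := hεJ0
      rw [hal, hom, hg]
      constructor
      · have h7 := slp_num (S := S) (u := u) (x := (b N l - d l) * J) (y := 0)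
          (A := (a - κ 0) * J) (B := (a - κ N) * J) (r := ε * J) (mul_nonneg (by linarith) hJ0)
          (mul_nonneg (by linarith) hJ0) (by
            rw [hκN]
            linarith) hur2
        rw [Nat.floor_zero, Nat.zero_add] at h7
        exact h7
      · have h7 := slp_num (S := S) (u := u) (x := (b N l - d l) * J) (y := 0)
          (A := (w - κ 0) * J) (B := (w - κ N) * J) (r := ε * J) (mul_nonneg (by linarith) hJ0)
          (mul_nonneg (by linarith) hJ0) (by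
            rw [hκN]
            linarith) hur2
        rw [Nat.floor_zero, Nat.zero_add] at h7
        exact h7)
    (fun k hk l hl => by
      have h1 := hbd k hk l hl
      have h2 := fge (b k l - d l)
      have h3 : v / 2 * J ≤ (b k l - d l) * J := mul_le_mul_of_nonneg_right h1 hJ0
      have h5 : ((C' : ℕ) : ℝ) < ((g k l + 1 : ℕ) : ℝ) := by
        rw [hg]
        push_cast
        linarith
      have h6 : C' < g k l + 1 := by exact_mod_cast h5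
      omega)
    (by
      have h1 : ⌊φ * J⌋₊ ≤ ⌊(φ + ε) * J⌋₊ := Nat.floor_le_floor hφJ
      omega)
    hB (by positivity)
    (fun k hk => by
      have h1 := homm k hk
      exact timeF hB hTm (by omega))
    (by
      rw [Nat.cast_sub hoNJ, hoN]
      have h1 := fle w (by linarith)
      have h2 : C' * (η * J) ≤ (1 - w) / 2 * J := by
        rw [← mul_assoc]
        exact mul_le_mul_of_nonneg_right hη2 hJ0
      linarith)
    (by
      rw [hs, hu]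
      exact loss_num hφ0.le hε hμ0.le hσx hφ1 hμ1 hη1 b3)
    (fun i hi => by
      rw [hℓ]
      exact Nat.sub_le _ _)
    (fun i hi => by
      rw [hL]
      refine Nat.le_floor ?_
      have h1 := (hℓr i hi).2
      have h2 := mul_nonneg (hd2 i hi).le hJ0
      have h3 := mul_le_mul_of_nonneg_right (hdn i hi) hJ0
      linarith)
    (by
      have h3 := loss_zero hc1 hσc hsr (hℓr 0 (by omega)).1 (hd1 0 (by omega)) hφ2 b4'
      exact_mod_cast h3)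
    (fun i hi => by
      have h3 := loss_succ hc1 hσc hsr (hℓr (i + 1) hi).1 (hℓr i (by omega)).2
        (hd2 i (by omega)).le (hd1 (i + 1) hi) hφ2 hde0 (hd0 i (by omega)) hCc (hdes i hi) b4'
      exact_mod_cast h3)
  refine ⟨B', fun ω h => hBA ω (k1 ω h), ?_, ?_⟩
  · calc Pe F.p A ≤ K₁ * Pe F.p B := hPe
      _ ≤ K₁ * (2 * Pe F.p B') := mul_le_mul_of_nonneg_left k2 hK₁.le
      _ = _ := by ring
  · have hE : ⌊e * J⌋₊ + c₀ * (L + s + 1) + C' ≤ ⌊(e + C * de (n - 1)) * J⌋₊ := by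
      have he0 : 0 ≤ e := by
        have h1 : (0 : ℝ) ≤ Csl n n * vs := mul_nonneg (Nat.cast_nonneg _) hvs
        linarith
      exact grad_num hc1 hσc hsr hLr hde0 (hd0 (n - 1) (by omega)) hCc he0 b4
    have h1 : ChN F c n (fun _ => D) ⌊a * J⌋₊ ⌊w * J⌋₊ ⌊(e + C * de (n - 1)) * J⌋₊
        (fun i => g N i - ℓ i) B' := by
      rw [haN, hoN] at k3
      exact ⟨_, _, k3.mono le_rfl (fun _ => le_rfl) le_rfl hE⟩
    refine Pool.CHT.ChN.congr h1 (fun _ _ => rfl) (fun l hl => ?_)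
    have h2 := hx1 l hl
    rw [hℓ]
    show g N l - (g N l - ⌊(bet P c l a w - de l) * J⌋₊) = ⌊(bet P c l a w - de l) * J⌋₊
    omega

end CLO

end Pool.STAT
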