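import Pool.Agent.H64.STAT.Cb
import Pool.Agent.H64.STAT.Rows

/-!
# Row FLW4: the flow is Lipschitz on boxes
-/

set_option autoImplicit false

namespace Pool.STAT

open Finset MvPolynomial
open Pool.BFL (Pl CB)

namespace F4

variable {c : ℕ}

/-! ### Degrees -/

theorem deg_le {d : Fin c → ℕ} (hd : ∀ i, 1 ≤ d i) {P : Pl c} {n : ℕ}
    (hP : P.IsWeightedHomogeneous d n) : P.totalDegree ≤ n := by
  rw [totalDegree]
  refine Finset.sup_le fun e he => ?_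
  have h1 : Finsupp.weight d e = n := hP (mem_support_iff.1 he)
  rw [← h1, Finsupp.weight_apply, Finsupp.sum, Finsupp.sum]
  refine Finset.sum_le_sum fun i _ => ?_
  rw [smul_eq_mul]
  exact Nat.le_mul_of_pos_right _ (hd i)

theorem sum_der (D : Fin c → Derivation ℝ (Pl c) (Pl c)) (P : Pl c) :
    (∑ i, D i) P = ∑ i, D i P := by
  have h1 := map_sum (Derivation.coeFnAddMonoidHom (R := ℝ) (A := Pl c) (M := Pl c)) D univ
  have h2 : ((∑ i, D i : Derivation ℝ (Pl c) (Pl c)) : Pl c → Pl c) = ∑ i, (D i : Pl c → Pl c) := h1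
  rw [h2, Finset.sum_apply]

theorem lie_eq (ξ : Fin c → Pl c) (P : Pl c) : lie ξ P = ∑ i, pderiv i P * ξ i := by
  have h : lie ξ = ∑ i, ξ i • (pderiv i : Derivation ℝ (Pl c) (Pl c)) := by
    refine derivation_ext fun k => ?_
    rw [lie, mkDerivation_X, sum_der, Finset.sum_eq_single k]
    · rw [Derivation.smul_apply, pderiv_X_self, smul_eq_mul, mul_one]
    · intro i _ hi
      rw [Derivation.smul_apply, pderiv_X_of_ne hi.symm, smul_zero]
    · intro h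
      exact absurd (mem_univ k) h
  rw [h, sum_der]
  exact Finset.sum_congr rfl fun i _ => by
    rw [Derivation.smul_apply, smul_eq_mul, mul_comm]

/-! ### The class `PB` -/

theorem pb_X {R : ℝ} (hR : 1 ≤ R) (i : Fin c) : PB 1 R (X i : Pl c) := by
  classical
  refine ⟨by rw [totalDegree_X], fun k => ?_⟩
  rw [MvPolynomial.coeff_X]
  split_ifs
  · rw [abs_one]
    simpa using hR
  · rw [abs_zero]
    positivity

theorem pb_C_mul {K : ℕ} {R a : ℝ} {P : Pl c} (hR : 1 ≤ R) (ha : |a| ≤ 1) (h : PB K R P) :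
    PB K R (C a * P) := by
  refine ⟨?_, cb_mono (cb_C_mul a h.2) ?_⟩
  · refine (totalDegree_mul _ _).trans ?_
    rw [totalDegree_C, zero_add]
    exact h.1
  · calc |a| * ((K : ℝ) * R ^ K) ≤ 1 * (K * R ^ K) :=
        mul_le_mul_of_nonneg_right ha (kr_nonneg K hR)
      _ = _ := one_mul _

theorem lie_pb (c K₀ K : ℕ) : ∃ K' : ℕ, ∀ R : ℝ, 1 ≤ R → ∀ (ξ : Fin c → Pl c) (P : Pl c),
    (∀ i, PB K₀ R (ξ i)) → PB K R P → PB K' R (lie ξ P) := by
  refine ⟨c * ((K * K + K + 1) ^ c * ((K * K + K) * K₀) + ((K * K + K) + K₀)) +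
    ((K * K + K + 1) ^ c * ((K * K + K) * K₀) + ((K * K + K) + K₀)), fun R hR ξ P hξ hP => ?_⟩
  rw [lie_eq]
  exact PB.sum hR _ fun i => PB.mul hR (PB.pderiv hR hP i) (hξ i)

theorem iter_pb (c K₀ K r : ℕ) : ∃ K' : ℕ, ∀ R : ℝ, 1 ≤ R → ∀ (ξ : Fin c → Pl c) (P : Pl c),
    (∀ i, PB K₀ R (ξ i)) → PB K R P → PB K' R ((lie ξ)^[r] P) := by
  induction r with
  | zero => exact ⟨K, fun R _ ξ P _ hP => hP⟩
  | succ r ih =>
    obtain ⟨K₁, h₁⟩ := ih
    obtain ⟨K₂, h₂⟩ := lie_pb c K₀ K₁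
    refine ⟨K₂, fun R hR ξ P hξ hP => ?_⟩
    rw [Function.iterate_succ_apply']
    exact h₂ R hR ξ _ hξ (h₁ R hR ξ P hξ hP)

theorem zero_pb {R : ℝ} : PB 0 R (0 : Pl c) :=
  ⟨by rw [totalDegree_zero], cb_zero (by simp)⟩

theorem ser_pb (c K₀ K n : ℕ) : ∃ K' : ℕ, ∀ R : ℝ, 1 ≤ R → ∀ (a : ℕ → ℝ), (∀ r, |a r| ≤ 1) →
    ∀ (ξ : Fin c → Pl c) (P : Pl c), (∀ i, PB K₀ R (ξ i)) → PB K R P →
    PB K' R (∑ r ∈ range n, C (a r) * (lie ξ)^[r] P) := by
  induction n with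
  | zero =>
    refine ⟨0, fun R _ a _ ξ P _ _ => ?_⟩
    rw [range_zero, sum_empty]
    exact zero_pb
  | succ n ih =>
    obtain ⟨K₁, h₁⟩ := ih
    obtain ⟨K₂, h₂⟩ := iter_pb c K₀ K n
    refine ⟨K₁ + K₂, fun R hR a ha ξ P hξ hP => ?_⟩
    rw [sum_range_succ]
    exact PB.add hR (h₁ R hR a ha ξ P hξ hP) (pb_C_mul hR (ha n) (h₂ R hR ξ P hξ hP))

/-! ### Values on boxes -/

theorem pow_lip {x y R δ : ℝ} (hR : 1 ≤ R) (hx : |x| ≤ R) (hy : |y| ≤ R) (h : |x - y| ≤ δ)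
    (n : ℕ) : |x ^ n - y ^ n| ≤ n * R ^ n * δ := by
  have hδ : 0 ≤ δ := (abs_nonneg _).trans h
  have hR0 : 0 ≤ R := by linarith
  induction n with
  | zero => simp
  | succ n ih =>
    have e : x ^ (n + 1) - y ^ (n + 1) = x * (x ^ n - y ^ n) + (x - y) * y ^ n := by ring
    rw [e]
    have h1 : |x * (x ^ n - y ^ n)| ≤ R * (n * R ^ n * δ) := by
      rw [abs_mul]
      exact mul_le_mul hx ih (abs_nonneg _) hR0
    have h2 : |(x - y) * y ^ n| ≤ δ * R ^ n := by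
      rw [abs_mul, abs_pow]
      exact mul_le_mul h (pow_le_pow_left₀ (abs_nonneg _) hy n) (by positivity) hδ
    have h3 : R ^ n ≤ R ^ (n + 1) := pow_le_pow_right₀ hR (Nat.le_succ n)
    have h4 : δ * R ^ n ≤ δ * R ^ (n + 1) := mul_le_mul_of_nonneg_left h3 hδ
    calc |x * (x ^ n - y ^ n) + (x - y) * y ^ n|
        ≤ R * (n * R ^ n * δ) + δ * R ^ n := (abs_add_le _ _).trans (add_le_add h1 h2)
      _ ≤ R * (n * R ^ n * δ) + δ * R ^ (n + 1) := by linarith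
      _ = ((n + 1 : ℕ) : ℝ) * R ^ (n + 1) * δ := by
          push_cast
          ring

theorem prod_lip {ι : Type*} [DecidableEq ι] (s : Finset ι) (e : ι → ℕ) (u v : ι → ℝ) {R δ : ℝ}
    (hR : 1 ≤ R) (hu : ∀ i, |u i| ≤ R) (hv : ∀ i, |v i| ≤ R) (hδ : 0 ≤ δ)
    (h : ∀ i, |u i - v i| ≤ δ) :
    |∏ i ∈ s, u i ^ e i| ≤ R ^ (∑ i ∈ s, e i) ∧
    |∏ i ∈ s, u i ^ e i - ∏ i ∈ s, v i ^ e i| ≤
      ((∑ i ∈ s, e i : ℕ) : ℝ) * R ^ (∑ i ∈ s, e i) * δ := by
  have hR0 : 0 ≤ R := by linarith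
  have habs : ∀ w : ι → ℝ, (∀ i, |w i| ≤ R) → ∀ s : Finset ι,
      |∏ i ∈ s, w i ^ e i| ≤ R ^ (∑ i ∈ s, e i) := by
    intro w hw s
    rw [Finset.abs_prod, ← Finset.prod_pow_eq_pow_sum]
    refine Finset.prod_le_prod (fun i _ => abs_nonneg _) fun i _ => ?_
    rw [abs_pow]
    exact pow_le_pow_left₀ (abs_nonneg _) (hw i) _
  refine ⟨habs u hu s, ?_⟩
  induction s using Finset.induction_on with
  | empty => simp
  | insert a s ha ih =>
    rw [Finset.prod_insert ha, Finset.prod_insert ha, Finset.sum_insert ha]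
    have e1 : u a ^ e a * ∏ i ∈ s, u i ^ e i - v a ^ e a * ∏ i ∈ s, v i ^ e i =
        (u a ^ e a - v a ^ e a) * ∏ i ∈ s, u i ^ e i +
          v a ^ e a * (∏ i ∈ s, u i ^ e i - ∏ i ∈ s, v i ^ e i) := by ring
    rw [e1]
    have h1 : |(u a ^ e a - v a ^ e a) * ∏ i ∈ s, u i ^ e i| ≤
        (e a * R ^ e a * δ) * R ^ (∑ i ∈ s, e i) := by
      rw [abs_mul]
      exact mul_le_mul (pow_lip hR (hu a) (hv a) (h a) _) (habs u hu s) (abs_nonneg _)
        (by positivity)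
    have h2 : |v a ^ e a * (∏ i ∈ s, u i ^ e i - ∏ i ∈ s, v i ^ e i)| ≤
        R ^ e a * (((∑ i ∈ s, e i : ℕ) : ℝ) * R ^ (∑ i ∈ s, e i) * δ) := by
      rw [abs_mul, abs_pow]
      exact mul_le_mul (pow_le_pow_left₀ (abs_nonneg _) (hv a) _) ih (abs_nonneg _)
        (by positivity)
    refine (abs_add_le _ _).trans ((add_le_add h1 h2).trans (le_of_eq ?_))
    rw [pow_add]
    push_cast
    ring

theorem eval_box {K : ℕ} {R δ : ℝ} {P : Pl c} {u v : Fin c → ℝ} (hR : 1 ≤ R) (h : PB K R P)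
    (hu : ∀ i, |u i| ≤ R) (hv : ∀ i, |v i| ≤ R) (hδ : 0 ≤ δ) (huv : ∀ i, |u i - v i| ≤ δ) :
    |eval u P| ≤ (((K + 1) ^ c * (K * K + K) + 2 * K : ℕ) : ℝ) *
      R ^ ((K + 1) ^ c * (K * K + K) + 2 * K) ∧
    |eval u P - eval v P| ≤ (((K + 1) ^ c * (K * K + K) + 2 * K : ℕ) : ℝ) *
      R ^ ((K + 1) ^ c * (K * K + K) + 2 * K) * δ := by
  classical
  obtain ⟨K', hK'⟩ : ∃ K' : ℕ, K' = (K + 1) ^ c * (K * K + K) + 2 * K := ⟨_, rfl⟩
  rw [← hK']
  have hR0 : 0 ≤ R := by linarith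
  have hcard : (P.support.card : ℝ) ≤ ((K : ℝ) + 1) ^ c := by
    have := card_support_le h.1
    exact_mod_cast this
  have hdeg : ∀ e ∈ P.support, (∑ i, e i) ≤ K := fun e he => by
    have h1 : (e.sum fun _ x => x) ≤ P.totalDegree := le_totalDegree he
    have h2 : (e.sum fun _ x => x) = ∑ i, e i := Finsupp.sum_fintype _ _ fun _ => rfl
    rw [← h2]
    exact h1.trans h.1
  have hpow : R ^ (K + K) ≤ R ^ K' := pow_le_pow_right₀ hR (by rw [hK']; omega)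
  have hcoef : ((K : ℝ) + 1) ^ c * (K * K + K) ≤ K' := by
    rw [hK']
    push_cast
    have : (0 : ℝ) ≤ 2 * K := by positivity
    linarith
  have hbig : ∀ t : ℝ, 0 ≤ t → ((K : ℝ) + 1) ^ c * ((K * R ^ K) * ((K + 1) * R ^ K * t)) ≤
      K' * R ^ K' * t := by
    intro t ht
    calc ((K : ℝ) + 1) ^ c * ((K * R ^ K) * ((K + 1) * R ^ K * t))
        = (((K : ℝ) + 1) ^ c * (K * K + K)) * R ^ (K + K) * t := by
          rw [pow_add]
          ring
      _ ≤ K' * R ^ K' * t := by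
          refine mul_le_mul_of_nonneg_right ?_ ht
          exact mul_le_mul hcoef hpow (by positivity) (by positivity)
  have hsum : ∀ w : Fin c → ℝ, eval w P = ∑ e ∈ P.support, coeff e P * ∏ i, w i ^ e i := fun w => by
    rw [eval_eq']
  constructor
  · rw [hsum]
    have h1 : ∀ e ∈ P.support, |coeff e P * ∏ i, u i ^ e i| ≤
        (K * R ^ K) * ((K + 1) * R ^ K * 1) := by
      intro e he
      rw [abs_mul]
      refine mul_le_mul (h.2 e) ?_ (abs_nonneg _) (by positivity)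
      refine (prod_lip univ (fun i => e i) u v hR hu hv hδ huv).1.trans ?_
      have h2 : R ^ (∑ i, e i) ≤ R ^ K := pow_le_pow_right₀ hR (hdeg e he)
      have h3 : (0 : ℝ) ≤ K * R ^ K := by positivity
      rw [mul_one]
      linarith
    refine (Finset.abs_sum_le_sum_abs _ _).trans ((Finset.sum_le_card_nsmul _ _ _ h1).trans ?_)
    rw [nsmul_eq_mul]
    have := hbig 1 zero_le_one
    rw [mul_one (↑K' * R ^ K')] at this
    refine le_trans ?_ this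
    exact mul_le_mul_of_nonneg_right hcard (by positivity)
  · rw [hsum, hsum, ← Finset.sum_sub_distrib]
    have h1 : ∀ e ∈ P.support, |coeff e P * ∏ i, u i ^ e i - coeff e P * ∏ i, v i ^ e i| ≤
        (K * R ^ K) * ((K + 1) * R ^ K * δ) := by
      intro e he
      rw [← mul_sub, abs_mul]
      refine mul_le_mul (h.2 e) ?_ (abs_nonneg _) (by positivity)
      refine (prod_lip univ (fun i => e i) u v hR hu hv hδ huv).2.trans ?_
      refine mul_le_mul_of_nonneg_right ?_ hδ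
      have h2 : R ^ (∑ i, e i) ≤ R ^ K := pow_le_pow_right₀ hR (hdeg e he)
      have h3 : ((∑ i, e i : ℕ) : ℝ) ≤ K + 1 := by
        have : ((∑ i, e i : ℕ) : ℝ) ≤ K := by exact_mod_cast hdeg e he
        linarith
      exact mul_le_mul h3 h2 (by positivity) (by positivity)
    refine (Finset.abs_sum_le_sum_abs _ _).trans ((Finset.sum_le_card_nsmul _ _ _ h1).trans ?_)
    rw [nsmul_eq_mul]
    refine le_trans ?_ (hbig δ hδ)
    exact mul_le_mul_of_nonneg_right hcard (by positivity)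

theorem coef_le {s : ℝ} (hs : |s| ≤ 1) (r k : ℕ) : |s ^ k / (r.factorial : ℝ)| ≤ 1 := by
  have h1 : (1 : ℝ) ≤ r.factorial := by exact_mod_cast Nat.one_le_iff_ne_zero.2 r.factorial_ne_zero
  rw [abs_div, abs_pow, abs_of_pos (by linarith : (0 : ℝ) < r.factorial), div_le_one (by linarith)]
  exact (pow_le_one₀ (abs_nonneg _) hs).trans h1

end F4

open F4 in
theorem flw4_thm : Flw4Stmt := by
  intro c j d hd hj
  obtain ⟨D, hD⟩ : ∃ D : ℕ, D = (∑ i, d i) + j + 1 := ⟨_, rfl⟩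
  have hdD : ∀ i, d i ≤ D := fun i => by
    have : d i ≤ ∑ i, d i := Finset.single_le_sum (fun _ _ => Nat.zero_le _) (mem_univ i)
    omega
  have hfl : ∀ i : Fin c, ∃ K' : ℕ, ∀ R : ℝ, 1 ≤ R → ∀ (a : ℕ → ℝ), (∀ r, |a r| ≤ 1) →
      ∀ (ξ : Fin c → Pl c) (P : Pl c), (∀ i, PB D R (ξ i)) → PB 1 R P →
      PB K' R (∑ r ∈ range (d i + 1), C (a r) * (lie ξ)^[r] P) := fun i => ser_pb c D 1 (d i + 1)
  choose Kf hKf using hfl
  obtain ⟨Kh, hKh⟩ := ser_pb c D D j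
  obtain ⟨K, hK⟩ : ∃ K : ℕ, K = (∑ i, Kf i) + Kh := ⟨_, rfl⟩
  have hKfK : ∀ i, Kf i ≤ K := fun i => by
    have : Kf i ≤ ∑ i, Kf i := Finset.single_le_sum (fun _ _ => Nat.zero_le _) (mem_univ i)
    omega
  refine ⟨(K + 1) ^ c * (K * K + K) + 2 * K, fun R δ s hR hδ hs ξ b u v hξ hb hξR hbR hu hv huv =>
    ?_⟩
  have hD1 : (1 : ℝ) ≤ D := by
    have : 1 ≤ D := by omega
    exact_mod_cast this
  have hRD : R ≤ D * R ^ D := by
    have h1 : R ^ 1 ≤ R ^ D := pow_le_pow_right₀ hR (by omega)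
    rw [pow_one] at h1
    have h2 : (0 : ℝ) ≤ R ^ D := by positivity
    nlinarith
  have hξP : ∀ i, PB D R (ξ i) := fun i =>
    ⟨(deg_le hd (hξ i)).trans (by have := hdD i; omega), cb_mono (hξR i) hRD⟩
  have hbP : PB D R b := ⟨(deg_le hd hb).trans (by omega), cb_mono hbR hRD⟩
  have hF : ∀ i, PB K R (flow d ξ s i) := fun i =>
    PB.mono (hKf i R hR (fun r => s ^ r / (r.factorial : ℝ)) (fun r => coef_le hs r r) ξ (X i) hξP
      (pb_X hR i)) (hKfK i) hR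
  have hH : PB K R (hfl j ξ b s) :=
    PB.mono (hKh R hR (fun r => s ^ (r + 1) / ((r + 1).factorial : ℝ))
      (fun r => coef_le hs (r + 1) (r + 1)) ξ b hξP hbP) (by omega) hR
  exact ⟨fun i => (eval_box hR (hF i) hu hv hδ huv).1,
    fun i => (eval_box hR (hF i) hu hv hδ huv).2, (eval_box hR hH hu hv hδ huv).2⟩

end Pool.STAT
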