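import Pool.Agent.H64.STAT.Cb
import Pool.Agent.H64.STAT.Rows

/-!
# Adapted coordinates: algebra

Sheets `Q i`, `i : Fin n`, polynomials in the coordinates `< i`. The adapted coordinates `e` at the
point of the sheets are given by `z = χ e`, where `χ i = X i + (Q i ∘ χ)_(weights < d i)`.
-/

set_option autoImplicit false

namespace Pool.STAT.Adp

open Finset MvPolynomial
open Pool.BFL (Pl CB)

/-! ### Weights -/

section W

variable {σ τ : Type*}

/-- All weights of `P` are at most `s`. -/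
def WLe (D : σ → ℕ) (s : ℕ) (P : MvPolynomial σ ℝ) : Prop :=
  ∀ m ∈ P.support, Finsupp.weight D m ≤ s

theorem WLe.mono {D : σ → ℕ} {s t : ℕ} {P : MvPolynomial σ ℝ} (h : WLe D s P) (hst : s ≤ t) :
    WLe D t P := fun m hm => (h m hm).trans hst

theorem WLe.zero {D : σ → ℕ} {s : ℕ} : WLe D s (0 : MvPolynomial σ ℝ) := fun m hm => by
  rw [support_zero] at hm
  exact absurd hm (Finset.notMem_empty m)

theorem WLe.add {D : σ → ℕ} {s : ℕ} {P Q : MvPolynomial σ ℝ} (h : WLe D s P) (h' : WLe D s Q) :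
    WLe D s (P + Q) := fun m hm => by
  classical
  rcases Finset.mem_union.1 (support_add hm) with h1 | h1
  · exact h m h1
  · exact h' m h1

theorem wle_C (D : σ → ℕ) (s : ℕ) (a : ℝ) : WLe D s (C a : MvPolynomial σ ℝ) := fun m hm => by
  classical
  have h1 : m = 0 := by
    by_contra h
    rw [mem_support_iff, coeff_C, if_neg (Ne.symm h)] at hm
    exact hm rfl
  rw [h1, map_zero]
  exact Nat.zero_le s

theorem wle_X (D : σ → ℕ) (i : σ) : WLe D (D i) (X i : MvPolynomial σ ℝ) := fun m hm => by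
  classical
  rw [support_X, Finset.mem_singleton] at hm
  rw [hm, Finsupp.weight_single, one_smul]

theorem WLe.mul {D : σ → ℕ} {s t : ℕ} {P Q : MvPolynomial σ ℝ} (h : WLe D s P)
    (h' : WLe D t Q) : WLe D (s + t) (P * Q) := fun m hm => by
  classical
  obtain ⟨a, ha, b, hb, rfl⟩ := Finset.mem_add.1 (support_mul P Q hm)
  rw [map_add]
  exact add_le_add (h a ha) (h' b hb)

theorem WLe.pow {D : σ → ℕ} {s : ℕ} {P : MvPolynomial σ ℝ} (h : WLe D s P) (k : ℕ) :
    WLe D (k * s) (P ^ k) := by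
  induction k with
  | zero => rw [pow_zero, zero_mul]; exact wle_C D 0 1
  | succ k ih => rw [pow_succ, Nat.succ_mul]; exact ih.mul h

theorem WLe.prod {ι : Type*} {D : σ → ℕ} (S : Finset ι) (P : ι → MvPolynomial σ ℝ) (s : ι → ℕ)
    (h : ∀ i ∈ S, WLe D (s i) (P i)) : WLe D (∑ i ∈ S, s i) (∏ i ∈ S, P i) := by
  classical
  induction S using Finset.induction_on with
  | empty => rw [Finset.sum_empty, Finset.prod_empty]; exact wle_C D 0 1
  | insert a S ha ih =>
    rw [Finset.sum_insert ha, Finset.prod_insert ha]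
    exact (h a (Finset.mem_insert_self a S)).mul (ih fun i hi => h i (Finset.mem_insert_of_mem hi))

theorem WLe.sum {ι : Type*} {D : σ → ℕ} {s : ℕ} (S : Finset ι) (P : ι → MvPolynomial σ ℝ)
    (h : ∀ i ∈ S, WLe D s (P i)) : WLe D s (∑ i ∈ S, P i) := by
  classical
  induction S using Finset.induction_on with
  | empty => rw [Finset.sum_empty]; exact WLe.zero
  | insert a S ha ih =>
    rw [Finset.sum_insert ha]
    exact (h a (Finset.mem_insert_self a S)).add (ih fun i hi => h i (Finset.mem_insert_of_mem hi))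

theorem wle_bind_monomial {D : τ → ℕ} {d : σ → ℕ} {g : σ → MvPolynomial τ ℝ}
    (hg : ∀ i, WLe D (d i) (g i)) (m : σ →₀ ℕ) (a : ℝ) :
    WLe D (Finsupp.weight d m) (bind₁ g (monomial m a)) := by
  rw [bind₁_monomial]
  have h1 : WLe D (∑ i ∈ m.support, m i * d i) (∏ i ∈ m.support, g i ^ m i) :=
    WLe.prod _ _ _ fun i _ => (hg i).pow (m i)
  have h2 : (∑ i ∈ m.support, m i * d i) = Finsupp.weight d m := by
    rw [Finsupp.weight_apply, Finsupp.sum]
    exact Finset.sum_congr rfl fun i _ => by rw [smul_eq_mul]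
  rw [← h2]
  have h3 := (wle_C D 0 a).mul h1
  rwa [zero_add] at h3

theorem WLe.bind {D : τ → ℕ} {d : σ → ℕ} {g : σ → MvPolynomial τ ℝ}
    (hg : ∀ i, WLe D (d i) (g i)) {P : MvPolynomial σ ℝ} {s : ℕ} (hP : WLe d s P) :
    WLe D s (bind₁ g P) := by
  have h1 : bind₁ g P = ∑ m ∈ P.support, bind₁ g (monomial m (coeff m P)) := by
    conv_lhs => rw [P.as_sum]
    rw [map_sum]
  rw [h1]
  exact WLe.sum _ _ fun m hm => (wle_bind_monomial hg m _).mono (hP m hm)

/-! ### The part of low weight -/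

/-- The part of the weights `< s`. -/
noncomputable def lo (D : σ → ℕ) (s : ℕ) (P : MvPolynomial σ ℝ) : MvPolynomial σ ℝ :=
  ∑ r ∈ range s, weightedHomogeneousComponent D r P

theorem coeff_lo (D : σ → ℕ) (s : ℕ) (P : MvPolynomial σ ℝ) (m : σ →₀ ℕ) :
    (lo D s P).coeff m = if Finsupp.weight D m < s then P.coeff m else 0 := by
  rw [lo, coeff_sum]
  rw [Finset.sum_congr rfl fun r _ => coeff_weightedHomogeneousComponent (w := D) r P m]
  rw [Finset.sum_ite_eq]
  simp only [Finset.mem_range]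

theorem lo_add (D : σ → ℕ) (s : ℕ) (P Q : MvPolynomial σ ℝ) :
    lo D s (P + Q) = lo D s P + lo D s Q := by
  rw [lo, lo, lo, ← Finset.sum_add_distrib]
  exact Finset.sum_congr rfl fun r _ => map_add _ _ _

theorem lo_sub (D : σ → ℕ) (s : ℕ) (P Q : MvPolynomial σ ℝ) :
    lo D s (P - Q) = lo D s P - lo D s Q := by
  rw [lo, lo, lo, ← Finset.sum_sub_distrib]
  exact Finset.sum_congr rfl fun r _ => map_sub _ _ _

theorem lo_C_mul (D : σ → ℕ) (s : ℕ) (a : ℝ) (P : MvPolynomial σ ℝ) :
    lo D s (C a * P) = C a * lo D s P := by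
  ext m
  rw [coeff_lo, coeff_C_mul, coeff_C_mul, coeff_lo]
  split_ifs
  · rfl
  · rw [mul_zero]

theorem lo_wle (D : σ → ℕ) (s : ℕ) (P : MvPolynomial σ ℝ) : WLe D (s - 1) (lo D s P) :=
  fun m hm => by
    rw [mem_support_iff, coeff_lo] at hm
    have h1 : Finsupp.weight D m < s := by
      by_contra h
      rw [if_neg h] at hm
      exact hm rfl
    omega

theorem lo_eq_self {D : σ → ℕ} {s : ℕ} (hs : 1 ≤ s) {P : MvPolynomial σ ℝ}
    (h : WLe D (s - 1) P) : lo D s P = P := by
  ext m
  rw [coeff_lo]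
  split_ifs with h1
  · rfl
  · by_contra h2
    have h3 := h m (mem_support_iff.2 (Ne.symm h2))
    omega

theorem lo_zero_fun (D : σ → ℕ) (P : MvPolynomial σ ℝ) : lo D 0 P = 0 := by
  rw [lo, Finset.range_zero, Finset.sum_empty]

theorem lo_support (D : σ → ℕ) (s : ℕ) (P : MvPolynomial σ ℝ) :
    (lo D s P).support ⊆ P.support := fun m hm => by
  rw [mem_support_iff, coeff_lo] at hm
  rw [mem_support_iff]
  intro h
  apply hm
  rw [h, ite_self]

theorem lo_vars (D : σ → ℕ) (s : ℕ) (P : MvPolynomial σ ℝ) : (lo D s P).vars ⊆ P.vars :=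
  fun i hi => by
    obtain ⟨m, hm, hi⟩ := (mem_vars_iff_mem_support i).1 hi
    exact (mem_vars_iff_mem_support i).2 ⟨m, lo_support D s P hm, hi⟩

/-- The homogeneous parts of a polynomial of homogeneous polynomials. -/
theorem whc_bind {D : σ → ℕ} {D' : τ → ℕ} {g : σ → MvPolynomial τ ℝ}
    (hg : ∀ i, (g i).IsWeightedHomogeneous D' (D i)) (P : MvPolynomial σ ℝ) (j : ℕ) :
    weightedHomogeneousComponent D' j (bind₁ g P) =
      bind₁ g (weightedHomogeneousComponent D j P) := by
  have key : ∀ (e : σ →₀ ℕ) (a : ℝ), weightedHomogeneousComponent D' j (bind₁ g (monomial e a)) =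
      bind₁ g (weightedHomogeneousComponent D j (monomial e a)) := by
    intro e a
    have h1 : (bind₁ g (monomial e a)).IsWeightedHomogeneous D' (Finsupp.weight D e) := by
      rw [bind₁_monomial]
      have h1 : (∏ i ∈ e.support, g i ^ e i).IsWeightedHomogeneous D'
          (∑ i ∈ e.support, e i • D i) :=
        IsWeightedHomogeneous.prod _ _ _ fun i _ => (hg i).pow (e i)
      have h2 : (∑ i ∈ e.support, e i • D i) = Finsupp.weight D e := by
        rw [Finsupp.weight_apply, Finsupp.sum]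
      rw [← h2]
      exact h1.C_mul a
    have h2 : (monomial e a : MvPolynomial σ ℝ).IsWeightedHomogeneous D (Finsupp.weight D e) :=
      isWeightedHomogeneous_monomial _ _ _ rfl
    rw [weightedHomogeneousComponent_of_mem h1, weightedHomogeneousComponent_of_mem h2]
    split_ifs
    · rfl
    · rw [map_zero]
  conv_lhs => rw [P.as_sum]
  conv_rhs => rw [P.as_sum]
  rw [map_sum, map_sum, map_sum, map_sum]
  exact Finset.sum_congr rfl fun e _ => key e _

theorem lo_bind {D : σ → ℕ} {D' : τ → ℕ} {g : σ → MvPolynomial τ ℝ}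
    (hg : ∀ i, (g i).IsWeightedHomogeneous D' (D i)) (P : MvPolynomial σ ℝ) (s : ℕ) :
    lo D' s (bind₁ g P) = bind₁ g (lo D s P) := by
  rw [lo, lo, map_sum]
  exact Finset.sum_congr rfl fun r _ => whc_bind hg P r

theorem bind_congr {g g' : σ → MvPolynomial τ ℝ} {P : MvPolynomial σ ℝ}
    (h : ∀ k ∈ P.vars, g k = g' k) : bind₁ g P = bind₁ g' P :=
  eval₂Hom_congr' rfl (fun i hi _ => h i hi) rfl

theorem eval_congr {u u' : σ → ℝ} {P : MvPolynomial σ ℝ}
    (h : ∀ k ∈ P.vars, u k = u' k) : eval u P = eval u' P :=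
  eval₂Hom_congr' rfl (fun i hi _ => h i hi) rfl

end W

/-! ### The adapted map -/

variable {n : ℕ}

/-- `Q i` is a polynomial in the coordinates `< i`. -/
def Tri (Q : Fin n → Pl n) : Prop := ∀ i, ∀ k ∈ (Q i).vars, k < i

section Chi

variable {σ : Type*}

/-- Iteration for the adapted map. -/
noncomputable def chiN (D : σ → ℕ) (d : Fin n → ℕ) (x : Fin n → MvPolynomial σ ℝ)
    (Q : Fin n → Pl n) : ℕ → Fin n → MvPolynomial σ ℝ
  | 0 => x
  | k + 1 => fun i => x i + lo D (d i) (bind₁ (chiN D d x Q k) (Q i))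

/-- The adapted map. -/
noncomputable def chi (D : σ → ℕ) (d : Fin n → ℕ) (x : Fin n → MvPolynomial σ ℝ)
    (Q : Fin n → Pl n) : Fin n → MvPolynomial σ ℝ := chiN D d x Q n

variable {D : σ → ℕ} {d : Fin n → ℕ} {x : Fin n → MvPolynomial σ ℝ} {Q : Fin n → Pl n}

theorem chiN_stable (hQ : Tri Q) (k : ℕ) : ∀ i : Fin n, (i : ℕ) < k →
    chiN D d x Q (k + 1) i = chiN D d x Q k i := by
  induction k with
  | zero => exact fun i hi => absurd hi (Nat.not_lt_zero _)
  | succ k ih =>
    intro i hi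
    have h1 : bind₁ (chiN D d x Q (k + 1)) (Q i) = bind₁ (chiN D d x Q k) (Q i) :=
      bind_congr fun j hj => ih j (by
        have := hQ i j hj
        rw [Fin.lt_def] at this
        omega)
    have h2 : ∀ l, chiN D d x Q (l + 1) i = x i + lo D (d i) (bind₁ (chiN D d x Q l) (Q i)) :=
      fun l => rfl
    rw [h2 (k + 1), h2 k, h1]

theorem chi_eq (hQ : Tri Q) (i : Fin n) :
    chi D d x Q i = x i + lo D (d i) (bind₁ (chi D d x Q) (Q i)) :=
  (chiN_stable hQ n i i.2).symm

theorem chi_uniq (hQ : Tri Q) {g : Fin n → MvPolynomial σ ℝ}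
    (hg : ∀ i, g i = x i + lo D (d i) (bind₁ g (Q i))) : g = chi D d x Q := by
  have key : ∀ k : ℕ, ∀ i : Fin n, (i : ℕ) < k → g i = chi D d x Q i := by
    intro k
    induction k with
    | zero => exact fun i hi => absurd hi (Nat.not_lt_zero _)
    | succ k ih =>
      intro i hi
      rw [hg i, chi_eq hQ i, bind_congr fun j hj => ih j (by
        have := hQ i j hj
        rw [Fin.lt_def] at this
        omega)]
  funext i
  exact key n i i.2

/-- Induction along the chain. -/
theorem chain_ind {p : Fin n → Prop} (h : ∀ i, (∀ j, j < i → p j) → p i) (i : Fin n) : p i := by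
  have key : ∀ k : ℕ, ∀ i : Fin n, (i : ℕ) < k → p i := by
    intro k
    induction k with
    | zero => exact fun i hi => absurd hi (Nat.not_lt_zero _)
    | succ k ih =>
      intro i hi
      refine h i fun j hj => ih j ?_
      rw [Fin.lt_def] at hj
      omega
  exact key n i i.2

theorem chi_wle (hQ : Tri Q) (hx : ∀ i, WLe D (d i) (x i)) (i : Fin n) :
    WLe D (d i) (chi D d x Q i) := by
  rw [chi_eq hQ i]
  exact (hx i).add ((lo_wle D (d i) _).mono (Nat.sub_le _ _))

end Chi

/-- The adapted map of the sheets `Q`. -/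
noncomputable abbrev ad (d : Fin n → ℕ) (Q : Fin n → Pl n) : Fin n → Pl n := chi d d X Q

variable {d : Fin n → ℕ} {Q Q' : Fin n → Pl n}

theorem ad_vars (hQ : Tri Q) (i : Fin n) : ∀ k ∈ (ad d Q i).vars, k ≤ i := by
  classical
  refine chain_ind (p := fun i => ∀ k ∈ (ad d Q i).vars, k ≤ i) (fun i ih => ?_) i
  intro k hk
  rw [ad, chi_eq hQ i] at hk
  rcases Finset.mem_union.1 (vars_add_subset _ _ hk) with h1 | h1
  · rw [vars_X, Finset.mem_singleton] at h1
    exact h1.le
  · obtain ⟨j, hj, hk⟩ := mem_vars_bind₁ _ _ (lo_vars _ _ _ h1)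
    exact (ih j (hQ i j hj) k hk).trans (hQ i j hj).le

/-- The sheets `Q'` in the adapted coordinates of `Q`. -/
noncomputable def rel (d : Fin n → ℕ) (Q Q' : Fin n → Pl n) (i : Fin n) : Pl n :=
  bind₁ (ad d Q) (Q' i) - lo d (d i) (bind₁ (ad d Q) (Q i))

theorem rel_tri (hQ : Tri Q) (hQ' : Tri Q') : Tri (rel d Q Q') := by
  classical
  intro i k hk
  rw [rel] at hk
  rcases Finset.mem_union.1 (vars_sub_subset _ hk) with h1 | h1
  · obtain ⟨j, hj, hk⟩ := mem_vars_bind₁ _ _ h1
    exact (ad_vars hQ j k hk).trans_lt (hQ' i j hj)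
  · obtain ⟨j, hj, hk⟩ := mem_vars_bind₁ _ _ (lo_vars _ _ _ h1)
    exact (ad_vars hQ j k hk).trans_lt (hQ i j hj)

/-- Composition: adapted coordinates do not depend on the reference. -/
theorem ad_comp (hd : ∀ i, 1 ≤ d i) (hQ : Tri Q) (hQ' : Tri Q') (i : Fin n) :
    ad d Q' i = bind₁ (ad d (rel d Q Q')) (ad d Q i) := by
  have hr := rel_tri (d := d) hQ hQ'
  have key : (fun i => bind₁ (ad d (rel d Q Q')) (ad d Q i)) = ad d Q' := by
    refine chi_uniq hQ' fun i => ?_
    have h1 : ad d Q i = X i + lo d (d i) (bind₁ (ad d Q) (Q i)) := chi_eq hQ i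
    have h2 : ad d (rel d Q Q') i =
        X i + lo d (d i) (bind₁ (ad d (rel d Q Q')) (rel d Q Q' i)) := chi_eq hr i
    have h3 : WLe d (d i - 1) (bind₁ (ad d (rel d Q Q')) (lo d (d i) (bind₁ (ad d Q) (Q i)))) :=
      WLe.bind (fun k => chi_wle hr (fun k => wle_X d k) k) (lo_wle d (d i) _)
    have h4 : bind₁ (ad d (rel d Q Q')) (bind₁ (ad d Q) (Q' i)) =
        bind₁ (fun i => bind₁ (ad d (rel d Q Q')) (ad d Q i)) (Q' i) := bind₁_bind₁ _ _ _
    show bind₁ (ad d (rel d Q Q')) (ad d Q i) = _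
    conv_lhs => rw [h1]
    rw [map_add, bind₁_X_right, h2, add_assoc, ← lo_eq_self (hd i) h3, ← lo_add, rel, map_sub,
      sub_add_cancel, h4]
  exact (congrFun key i).symm

/-! ### Scaling -/

/-- The maps `Q` in the units of the scale `l`. -/
noncomputable def scl (d : Fin n → ℕ) (l : ℝ) (Q : Fin n → Pl n) (i : Fin n) : Pl n :=
  C (l ^ d i) * bind₁ (fun k => C (l⁻¹ ^ d k) * X k) (Q i)

theorem scl_tri (hQ : Tri Q) (l : ℝ) : Tri (scl d l Q) := by
  classical
  intro i k hk
  rw [scl] at hk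
  rcases Finset.mem_union.1 (vars_mul _ _ hk) with h1 | h1
  · rw [vars_C] at h1
    exact absurd h1 (Finset.notMem_empty _)
  · obtain ⟨j, hj, hk⟩ := mem_vars_bind₁ _ _ h1
    rcases Finset.mem_union.1 (vars_mul _ _ hk) with h2 | h2
    · rw [vars_C] at h2
      exact absurd h2 (Finset.notMem_empty _)
    · rw [vars_X, Finset.mem_singleton] at h2
      rw [h2]
      exact hQ i j hj

theorem dil_hom (d : Fin n → ℕ) (l : ℝ) (k : Fin n) :
    (C (l ^ d k) * X k : Pl n).IsWeightedHomogeneous d (d k) :=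
  (isWeightedHomogeneous_X ℝ d k).C_mul _

theorem ad_scl (hQ : Tri Q) {l : ℝ} (hl : l ≠ 0) (i : Fin n) :
    ad d (scl d l Q) i = scl d l (ad d Q) i := by
  have key : scl d l (ad d Q) = ad d (scl d l Q) := by
    refine chi_uniq (scl_tri hQ l) fun i => ?_
    have h1 : ad d Q i = X i + lo d (d i) (bind₁ (ad d Q) (Q i)) := chi_eq hQ i
    have h2 : lo d (d i) (bind₁ (fun k => C (l⁻¹ ^ d k) * X k) (bind₁ (ad d Q) (Q i))) =
        bind₁ (fun k => C (l⁻¹ ^ d k) * X k) (lo d (d i) (bind₁ (ad d Q) (Q i))) :=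
      lo_bind (fun k => dil_hom d l⁻¹ k) _ _
    have h3 : bind₁ (scl d l (ad d Q)) (scl d l Q i) =
        C (l ^ d i) * bind₁ (fun k => C (l⁻¹ ^ d k) * X k) (bind₁ (ad d Q) (Q i)) := by
      rw [scl, map_mul, bind₁_C_right, bind₁_bind₁, bind₁_bind₁]
      refine congrArg (fun f => C (l ^ d i) * bind₁ f (Q i)) ?_
      funext k
      rw [map_mul, bind₁_C_right, bind₁_X_right, scl, ← mul_assoc, ← C_mul, ← mul_pow,
        inv_mul_cancel₀ hl, one_pow, C_1, one_mul]
    rw [h3, lo_C_mul, h2, scl]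
    conv_lhs => rw [h1]
    rw [map_add, mul_add, bind₁_X_right, ← mul_assoc, ← C_mul, ← mul_pow, mul_inv_cancel₀ hl,
      one_pow, C_1, one_mul]
  exact (congrFun key i).symm

/-! ### Sheets moving with the time -/

/-- The weights, with the parameter (the last variable) of weight `0`. -/
def dT (d : Fin n → ℕ) : Fin (n + 1) → ℕ := Fin.snoc (α := fun _ => ℕ) d 0

theorem dT_castSucc (d : Fin n → ℕ) (i : Fin n) : dT d i.castSucc = d i := by
  rw [dT, Fin.snoc_castSucc]

theorem dT_last (d : Fin n → ℕ) : dT d (Fin.last n) = 0 := by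
  rw [dT, Fin.snoc_last]

/-- The base point, with the parameter `T`: `X i + e i * T`. -/
noncomputable def xT (e : Fin n → ℝ) (i : Fin n) : Pl (n + 1) :=
  X i.castSucc + C (e i) * X (Fin.last n)

/-- The adapted map at the point of parameter `T`. -/
noncomputable def adT (d : Fin n → ℕ) (e : Fin n → ℝ) (Q : Fin n → Pl n) :
    Fin n → Pl (n + 1) := chi (dT d) d (xT e) Q

/-- The vector field. -/
noncomputable def xiT (d : Fin n → ℕ) (e : Fin n → ℝ) (Q : Fin n → Pl n) (i : Fin n) :
    Pl (n + 1) :=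
  C (e i) + pderiv (Fin.last n) (weightedHomogeneousComponent (dT d) (d i - 1)
    (bind₁ (adT d e Q) (Q i)))

/-- The vector field, as a field on all variables (constant parameter). -/
noncomputable def xiS (d : Fin n → ℕ) (e : Fin n → ℝ) (Q : Fin n → Pl n) :
    Fin (n + 1) → Pl (n + 1) :=
  Fin.snoc (α := fun _ => Pl (n + 1)) (xiT d e Q) 0

theorem xiS_castSucc (d : Fin n → ℕ) (e : Fin n → ℝ) (Q : Fin n → Pl n) (i : Fin n) :
    xiS d e Q i.castSucc = xiT d e Q i := by
  rw [xiS, Fin.snoc_castSucc]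

theorem xiS_last (d : Fin n → ℕ) (e : Fin n → ℝ) (Q : Fin n → Pl n) :
    xiS d e Q (Fin.last n) = 0 := by
  rw [xiS, Fin.snoc_last]

theorem der_bind {M N : ℕ} (δ : Derivation ℝ (Pl N) (Pl N)) (g : Fin M → Pl N) (G : Pl M) :
    δ (bind₁ g G) = ∑ k, bind₁ g (pderiv k G) * δ (g k) := by
  induction G using MvPolynomial.induction_on with
  | C a =>
    rw [bind₁_C_right, ← algebraMap_eq, Derivation.map_algebraMap]
    refine (Finset.sum_eq_zero fun k _ => ?_).symm
    rw [pderiv_C, map_zero, zero_mul]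
  | add p q hp hq =>
    rw [map_add, map_add, hp, hq, ← Finset.sum_add_distrib]
    exact Finset.sum_congr rfl fun k _ => by rw [map_add, map_add, add_mul]
  | mul_X p i hp =>
    rw [map_mul, bind₁_X_right, Derivation.leibniz, hp, smul_eq_mul, smul_eq_mul]
    have h1 : ∀ k, bind₁ g (pderiv k (p * X i)) * δ (g k) =
        bind₁ g p * (if i = k then δ (g k) else 0) + g i * (bind₁ g (pderiv k p) * δ (g k)) := by
      intro k
      rw [Derivation.leibniz, smul_eq_mul, smul_eq_mul, map_add, map_mul, map_mul, bind₁_X_right]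
      split_ifs with h
      · rw [h, pderiv_X_self, map_one]
        ring
      · rw [pderiv_X_of_ne h, map_zero]
        ring
    rw [Finset.sum_congr rfl fun k _ => h1 k, Finset.sum_add_distrib, ← Finset.mul_sum,
      ← Finset.mul_sum, Finset.sum_ite_eq, if_pos (Finset.mem_univ i)]

theorem der_X {N : ℕ} (δ : Derivation ℝ (Pl N) (Pl N)) (P : Pl N) :
    δ P = ∑ k, pderiv k P * δ (X k) := by
  have h1 := der_bind δ X P
  simpa only [bind₁_X_left, AlgHom.id_apply] using h1

theorem lie_eq0 {c : ℕ} (ξ : Fin c → Pl c) (P : Pl c) : lie ξ P = ∑ i, pderiv i P * ξ i := by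
  have h1 := der_X (lie ξ) P
  rw [h1]
  exact Finset.sum_congr rfl fun k _ => by rw [lie, mkDerivation_X]

section Time

variable {e : Fin n → ℝ}

theorem whc_pT (r : ℕ) (P : Pl (n + 1)) :
    weightedHomogeneousComponent (dT d) r (pderiv (Fin.last n) P) =
      pderiv (Fin.last n) (weightedHomogeneousComponent (dT d) r P) := by
  have key : ∀ (m : Fin (n + 1) →₀ ℕ) (a : ℝ),
      weightedHomogeneousComponent (dT d) r (pderiv (Fin.last n) (monomial m a)) =
      pderiv (Fin.last n) (weightedHomogeneousComponent (dT d) r (monomial m a)) := by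
    intro m a
    have h1 : (monomial m a : Pl (n + 1)).IsWeightedHomogeneous (dT d)
        (Finsupp.weight (dT d) m) := isWeightedHomogeneous_monomial _ _ _ rfl
    have h2 : (pderiv (Fin.last n) (monomial m a : Pl (n + 1))).IsWeightedHomogeneous (dT d)
        (Finsupp.weight (dT d) m) := h1.pderiv (by rw [dT_last, add_zero])
    rw [weightedHomogeneousComponent_of_mem h1, weightedHomogeneousComponent_of_mem h2]
    split_ifs
    · rfl
    · rw [map_zero]
  conv_lhs => rw [P.as_sum]
  conv_rhs => rw [P.as_sum]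
  rw [map_sum, map_sum, map_sum, map_sum]
  exact Finset.sum_congr rfl fun m _ => key m _

theorem whc_hom {σ : Type*} (D : σ → ℕ) (r : ℕ) (P : MvPolynomial σ ℝ) :
    (weightedHomogeneousComponent D r P).IsWeightedHomogeneous D r :=
  weightedHomogeneousComponent_isWeightedHomogeneous r P

theorem xiT_hom (he : ∀ i, e i ≠ 0 → d i = 1) (i : Fin n) :
    (xiT d e Q i).IsWeightedHomogeneous (dT d) (d i - 1) := by
  rw [xiT]
  refine IsWeightedHomogeneous.add ?_ ?_
  · by_cases h : e i = 0
    · rw [h, C_0]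
      exact isWeightedHomogeneous_zero _ _ _
    · rw [he i h]
      exact isWeightedHomogeneous_C _ _
  · exact (whc_hom (dT d) (d i - 1) _).pderiv (by rw [dT_last, add_zero])

/-- `lie` of the field lowers the weight by `1`. -/
theorem lie_hom (hd : ∀ i, 1 ≤ d i) (he : ∀ i, e i ≠ 0 → d i = 1) {P : Pl (n + 1)} {r : ℕ}
    (hP : P.IsWeightedHomogeneous (dT d) r) :
    (r = 0 → lie (xiS d e Q) P = 0) ∧
      (lie (xiS d e Q) P).IsWeightedHomogeneous (dT d) (r - 1) := by
  have h0 : ∀ i : Fin n, r < d i → pderiv i.castSucc P = 0 := by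
    intro i hi
    refine pderiv_eq_zero_of_notMem_vars fun h => ?_
    obtain ⟨m, hm, hi'⟩ := (mem_vars_iff_mem_support _).1 h
    have h1 := hP (mem_support_iff.1 hm)
    have h2 := Finsupp.le_weight_of_ne_zero' (dT d) (Finsupp.mem_support_iff.1 hi')
    rw [h1, dT_castSucc] at h2
    omega
  have h1 : lie (xiS d e Q) P = ∑ i : Fin n, pderiv i.castSucc P * xiT d e Q i := by
    rw [lie_eq0, Fin.sum_univ_castSucc, xiS_last, mul_zero, add_zero]
    exact Finset.sum_congr rfl fun i _ => by rw [xiS_castSucc]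
  refine ⟨fun hr => ?_, ?_⟩
  · rw [h1]
    refine Finset.sum_eq_zero fun i _ => ?_
    rw [h0 i (by have := hd i; omega), zero_mul]
  · rw [h1]
    refine IsWeightedHomogeneous.sum _ _ _ fun i _ => ?_
    by_cases hi : r < d i
    · rw [h0 i hi, zero_mul]
      exact isWeightedHomogeneous_zero _ _ _
    · have h2 : (pderiv i.castSucc P).IsWeightedHomogeneous (dT d) (r - d i) :=
        hP.pderiv (by rw [dT_castSucc]; omega)
      have h3 := h2.mul (xiT_hom (Q := Q) he i)
      have h4 : r - d i + (d i - 1) = r - 1 := by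
        have := hd i
        omega
      rwa [h4] at h3

theorem whc_lie (hd : ∀ i, 1 ≤ d i) (he : ∀ i, e i ≠ 0 → d i = 1) (r : ℕ) (P : Pl (n + 1)) :
    weightedHomogeneousComponent (dT d) r (lie (xiS d e Q) P) =
      lie (xiS d e Q) (weightedHomogeneousComponent (dT d) (r + 1) P) := by
  have key : ∀ (m : Fin (n + 1) →₀ ℕ) (a : ℝ),
      weightedHomogeneousComponent (dT d) r (lie (xiS d e Q) (monomial m a)) =
      lie (xiS d e Q) (weightedHomogeneousComponent (dT d) (r + 1) (monomial m a)) := by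
    intro m a
    have h1 : (monomial m a : Pl (n + 1)).IsWeightedHomogeneous (dT d)
        (Finsupp.weight (dT d) m) := isWeightedHomogeneous_monomial _ _ _ rfl
    have h2 := lie_hom (Q := Q) hd he h1
    by_cases h0 : Finsupp.weight (dT d) m = 0
    · rw [h2.1 h0, map_zero, weightedHomogeneousComponent_of_mem h1, h0, if_neg (by omega),
        map_zero]
    · rw [weightedHomogeneousComponent_of_mem h1, weightedHomogeneousComponent_of_mem h2.2]
      by_cases h3 : r + 1 = Finsupp.weight (dT d) m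
      · rw [if_pos h3, if_pos (by omega)]
      · rw [if_neg h3, if_neg (by omega), map_zero]
  conv_lhs => rw [P.as_sum]
  conv_rhs => rw [P.as_sum]
  rw [map_sum, map_sum, map_sum, map_sum]
  exact Finset.sum_congr rfl fun m _ => key m _

/-- The derivative of the adapted map in the parameter. -/
theorem adT_der (hd : ∀ i, 1 ≤ d i) (he : ∀ i, e i ≠ 0 → d i = 1) (hQ : Tri Q) (i : Fin n) :
    pderiv (Fin.last n) (adT d e Q i) = lie (xiS d e Q) (adT d e Q i) := by
  refine chain_ind (p := fun i => pderiv (Fin.last n) (adT d e Q i) =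
    lie (xiS d e Q) (adT d e Q i)) (fun i ih => ?_) i
  have hG : pderiv (Fin.last n) (bind₁ (adT d e Q) (Q i)) =
      lie (xiS d e Q) (bind₁ (adT d e Q) (Q i)) := by
    rw [der_bind, der_bind]
    refine Finset.sum_congr rfl fun k _ => ?_
    by_cases hk : k ∈ (Q i).vars
    · rw [ih k (hQ i k hk)]
    · rw [pderiv_eq_zero_of_notMem_vars hk, map_zero, zero_mul, zero_mul]
  have hstep : ∀ r, pderiv (Fin.last n) (weightedHomogeneousComponent (dT d) r
      (bind₁ (adT d e Q) (Q i))) = lie (xiS d e Q) (weightedHomogeneousComponent (dT d) (r + 1)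
      (bind₁ (adT d e Q) (Q i))) := fun r => by
    rw [← whc_pT, hG, whc_lie hd he]
  have h0 : lie (xiS d e Q) (weightedHomogeneousComponent (dT d) 0
      (bind₁ (adT d e Q) (Q i))) = 0 :=
    (lie_hom hd he (whc_hom (dT d) 0 _)).1 rfl
  have hx : pderiv (Fin.last n) (xT e i) = C (e i) := by
    rw [xT, map_add, pderiv_X_of_ne (Fin.castSucc_lt_last i).ne, zero_add, Derivation.leibniz,
      pderiv_C, pderiv_X_self, smul_zero, add_zero, smul_eq_mul, mul_one]
  have hx' : lie (xiS d e Q) (xT e i) = xiT d e Q i := by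
    rw [xT, map_add, lie, mkDerivation_X, xiS_castSucc, Derivation.leibniz, mkDerivation_X,
      xiS_last, smul_zero, zero_add, ← algebraMap_eq, Derivation.map_algebraMap, smul_zero,
      add_zero]
  have h1 : adT d e Q i = xT e i + lo (dT d) (d i) (bind₁ (adT d e Q) (Q i)) := chi_eq hQ i
  rw [h1, map_add, map_add, hx, hx', lo, map_sum, map_sum, Finset.sum_congr rfl fun r _ => hstep r]
  obtain ⟨s, hs⟩ : ∃ s, d i = s + 1 := ⟨d i - 1, by have := hd i; omega⟩
  have h2 : xiT d e Q i = C (e i) + pderiv (Fin.last n) (weightedHomogeneousComponent (dT d) s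
      (bind₁ (adT d e Q) (Q i))) := by
    rw [xiT, hs, Nat.add_sub_cancel]
  rw [h2, hstep s, hs, Finset.sum_range_succ, Finset.sum_range_succ', h0, add_zero]
  ring

end Time

end Pool.STAT.Adp
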