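import Pool.Agent.H19.STAT.Sys
import Pool.Agent.H65.STAT.Flw3
import Pool.Agent.H64.STAT.Fit
import Pool.Agent.H63.STAT.Adp

/-!
# Row FRZ: comparison with the frozen flow
-/

set_option autoImplicit false

namespace Pool.STAT

open Finset MvPolynomial
open Pool.BFL (Pl CB)

namespace FZ

variable {c : ℕ} {d : Fin c → ℕ}

/-! ### Polynomials of bounded weight -/

theorem vars_weight {P : Pl c} {n : ℕ} (hP : P.IsWeightedHomogeneous d n) :
    ∀ k ∈ P.vars, d k ≤ n := by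
  intro k hk
  obtain ⟨m, hm, hk⟩ := (mem_vars_iff_mem_support k).1 hk
  have h1 := hP (mem_support_iff.1 hm)
  rw [← h1]
  exact Finsupp.le_weight_of_ne_zero' d (Finsupp.mem_support_iff.1 hk)

/-- The coordinates of weight at most `w`. -/
noncomputable def cut (d : Fin c → ℕ) (w : ℕ) (u : Fin c → ℝ) (k : Fin c) : ℝ :=
  if d k ≤ w then u k else 0

theorem eval_cut {P : Pl c} {w : ℕ} (hP : P.IsWeightedHomogeneous d w) (u : Fin c → ℝ) :
    eval u P = eval (cut d w u) P :=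
  Adp.eval_congr fun k hk => by rw [cut, if_pos (vars_weight hP k hk)]

theorem low_bd (hd : ∀ i, 1 ≤ d i) {P : Pl c} {w : ℕ} (hP : P.IsWeightedHomogeneous d w)
    {r S : ℝ} (hS : 1 ≤ S) (hr : 0 ≤ r) (h : CB P r) {u : Fin c → ℝ}
    (hu : ∀ k, d k ≤ w → |u k| ≤ S) : |eval u P| ≤ (w + 1 : ℝ) ^ c * (r * S ^ w) := by
  rw [eval_cut hP]
  refine eval_bd hS hr (td_of_wh hd hP) h fun k => ?_
  rw [cut]
  split_ifs with hk
  · exact hu k hk
  · rw [abs_zero]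
    linarith

theorem low_lip (hd : ∀ i, 1 ≤ d i) {P : Pl c} {w : ℕ} (hP : P.IsWeightedHomogeneous d w)
    {r S δ : ℝ} (hS : 1 ≤ S) (hr : 0 ≤ r) (hδ : 0 ≤ δ) (h : CB P r) {u v : Fin c → ℝ}
    (hu : ∀ k, d k ≤ w → |u k| ≤ S) (hv : ∀ k, d k ≤ w → |v k| ≤ S)
    (huv : ∀ k, d k ≤ w → |u k - v k| ≤ δ) :
    |eval u P - eval v P| ≤ (w + 1 : ℝ) ^ c * (r * (w * S ^ w * δ)) := by
  rw [eval_cut hP u, eval_cut hP v]
  refine eval_lip hS hr (td_of_wh hd hP) h (fun k => ?_) (fun k => ?_) hδ fun k => ?_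
  · rw [cut]
    split_ifs with hk
    · exact hu k hk
    · rw [abs_zero]
      linarith
  · rw [cut]
    split_ifs with hk
    · exact hv k hk
    · rw [abs_zero]
      linarith
  · rw [cut, cut]
    split_ifs with hk
    · exact huv k hk
    · rw [sub_zero, abs_zero]
      exact hδ

/-! ### Derivatives -/

theorem fac_step (r : ℕ) (s : ℝ) :
    ((r + 1 : ℕ) : ℝ) * s ^ r / ((r + 1).factorial : ℝ) = s ^ r / (r.factorial : ℝ) := by
  have h1 : (r.factorial : ℝ) ≠ 0 := by exact_mod_cast r.factorial_ne_zero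
  rw [Nat.factorial_succ]
  push_cast
  have h2 : ((r : ℝ) + 1) ≠ 0 := by positivity
  field_simp

theorem ev_deriv {ξ : Fin c → Pl c} (u : Fin c → ℝ) {P : Pl c} {N : ℕ}
    (h : ∀ r, N ≤ r → (lie ξ)^[r] P = 0) (s : ℝ) :
    HasDerivAt (fun s => F3.ev ξ s u P) (F3.ev ξ s u (lie ξ P)) s := by
  have h1 : (fun s => F3.ev ξ s u P) = fun s => ∑ r ∈ range (N + 1),
      s ^ r / (r.factorial : ℝ) * eval u ((lie ξ)^[r] P) := by
    funext s
    exact F3.ev_eq fun r hr => h r (by omega)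
  have h2 : F3.ev ξ s u (lie ξ P) = ∑ r ∈ range N,
      s ^ r / (r.factorial : ℝ) * eval u ((lie ξ)^[r] (lie ξ P)) :=
    F3.ev_eq fun r hr => by
      rw [← Function.iterate_succ_apply]
      exact h _ (by omega)
  have h3 : HasDerivAt (fun s => ∑ r ∈ range (N + 1),
      s ^ r / (r.factorial : ℝ) * eval u ((lie ξ)^[r] P))
      (∑ r ∈ range (N + 1), ((r : ℝ) * s ^ (r - 1) / (r.factorial : ℝ)) *
        eval u ((lie ξ)^[r] P)) s := by
    have := HasDerivAt.fun_sum (u := range (N + 1))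
      (A := fun r s => s ^ r / (r.factorial : ℝ) * eval u ((lie ξ)^[r] P))
      (A' := fun r => ((r : ℝ) * s ^ (r - 1) / (r.factorial : ℝ)) * eval u ((lie ξ)^[r] P))
      (x := s) fun r _ => ((hasDerivAt_pow r s).div_const _).mul_const _
    exact this
  rw [h1, h2]
  have h4 : (∑ r ∈ range (N + 1), ((r : ℝ) * s ^ (r - 1) / (r.factorial : ℝ)) *
      eval u ((lie ξ)^[r] P)) = ∑ r ∈ range N,
      s ^ r / (r.factorial : ℝ) * eval u ((lie ξ)^[r] (lie ξ P)) := by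
    rw [Finset.sum_range_succ', Nat.cast_zero, zero_mul, zero_div, zero_mul, add_zero]
    refine Finset.sum_congr rfl fun r _ => ?_
    rw [Nat.add_sub_cancel, fac_step, Function.iterate_succ_apply]
  rw [← h4]
  exact h3

theorem flow_deriv (hd : ∀ i, 1 ≤ d i) {ξ : Fin c → Pl c} (hξ : VF d ξ) (u : Fin c → ℝ)
    (i : Fin c) (x : ℝ) : HasDerivAt (fun x => eval u (flow d ξ (-x) i))
      (-eval (fun k => eval u (flow d ξ (-x) k)) (ξ i)) x := by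
  have h1 : (fun x => eval u (flow d ξ (-x) i)) = fun x => F3.ev ξ (-x) u (X i) := by
    funext x
    exact (F3.ev_X hd hξ (-x) u i).symm
  have h2 := ev_deriv (ξ := ξ) u (P := X i) (N := d i + 1)
    (fun r hr => F3.lie_iter_zero hd hξ (isWeightedHomogeneous_X ℝ d i) (by omega)) (-x)
  have h3 := h2.comp x (hasDerivAt_neg x)
  rw [h1, F3.eval_flow hd hξ]
  have h4 : lie ξ (X i) = ξ i := by rw [lie, mkDerivation_X]
  rw [h4, mul_neg, mul_one] at h3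
  exact h3

theorem hfl_deriv (hd : ∀ i, 1 ≤ d i) {ξ : Fin c → Pl c} (hξ : VF d ξ) {j : ℕ} (hj : 1 ≤ j)
    {b : Pl c} (hb : b.IsWeightedHomogeneous d (j - 1)) (u : Fin c → ℝ) (x : ℝ) :
    HasDerivAt (fun x => eval u (hfl j ξ b (-x)))
      (-eval (fun k => eval u (flow d ξ (-x) k)) b) x := by
  have h0 : ∀ s, eval u (hfl j ξ b s) = ∑ r ∈ range j,
      s ^ (r + 1) / ((r + 1).factorial : ℝ) * eval u ((lie ξ)^[r] b) := fun s => by
    rw [hfl, map_sum]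
    exact Finset.sum_congr rfl fun r _ => by rw [map_mul, eval_C]
  have h1 : ∀ s, HasDerivAt (fun s => eval u (hfl j ξ b s)) (F3.ev ξ s u b) s := by
    intro s
    have h2 : F3.ev ξ s u b = ∑ r ∈ range j,
        s ^ r / (r.factorial : ℝ) * eval u ((lie ξ)^[r] b) :=
      F3.ev_eq fun r hr => F3.lie_iter_zero hd hξ hb (by omega)
    have h3 := HasDerivAt.fun_sum (u := range j)
      (A := fun r s => s ^ (r + 1) / ((r + 1).factorial : ℝ) * eval u ((lie ξ)^[r] b))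
      (A' := fun r => (((r + 1 : ℕ) : ℝ) * s ^ (r + 1 - 1) / ((r + 1).factorial : ℝ)) *
        eval u ((lie ξ)^[r] b))
      (x := s) fun r _ => ((hasDerivAt_pow (r + 1) s).div_const _).mul_const _
    rw [funext h0, h2]
    refine h3.congr_deriv ?_
    refine Finset.sum_congr rfl fun r _ => ?_
    rw [Nat.add_sub_cancel, fac_step]
  have h5 := (h1 (-x)).comp x (hasDerivAt_neg x)
  rw [mul_neg, mul_one] at h5
  rw [F3.eval_flow hd hξ]
  exact h5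

theorem mvt {g g' : ℝ → ℝ} {s M : ℝ} (hs : |s| ≤ 1) (hM : 0 ≤ M)
    (h : ∀ x ∈ Set.uIcc 0 s, HasDerivAt g (g' x) x) (h' : ∀ x ∈ Set.uIcc 0 s, |g' x| ≤ M) :
    ∀ x ∈ Set.uIcc 0 s, |g x - g 0| ≤ M := by
  intro x hx
  have h1 := Convex.norm_image_sub_le_of_norm_hasDerivWithin_le (f := g) (f' := g') (C := M)
    (s := Set.uIcc 0 s) (x := 0) (y := x) (fun y hy => (h y hy).hasDerivWithinAt)
    (fun y hy => by rw [Real.norm_eq_abs]; exact h' y hy) (convex_uIcc 0 s) Set.left_mem_uIcc hx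
  rw [Real.norm_eq_abs, Real.norm_eq_abs, sub_zero] at h1
  have h2 : |x| ≤ 1 := by
    rw [abs_le] at hs ⊢
    rcases Set.mem_uIcc.1 hx with h3 | h3
    · constructor <;> linarith [h3.1, h3.2, hs.1, hs.2]
    · constructor <;> linarith [h3.1, h3.2, hs.1, hs.2]
  calc |g x - g 0| ≤ M * |x| := h1
    _ ≤ M * 1 := mul_le_mul_of_nonneg_left h2 hM
    _ = M := mul_one M

/-! ### The comparison -/

/-- The data of the comparison. -/
structure Cmp (d : Fin c → ℕ) (R ε : ℝ) (ξ : ℝ → Fin c → Pl c) (ξ₀ : Fin c → Pl c)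
    (u : ℝ → Fin c → ℝ) (s : ℝ) : Prop where
  hR : 1 ≤ R
  hε : 0 ≤ ε
  hε1 : ε ≤ 1
  hs : |s| ≤ 1
  v0 : VF d ξ₀
  c0 : ∀ i, CB (ξ₀ i) R
  u0 : ∀ i, |u 0 i| ≤ R
  v : ∀ x ∈ Set.uIcc 0 s, VF d (ξ x)
  cb : ∀ x ∈ Set.uIcc 0 s, ∀ i, CB (ξ x i - ξ₀ i) ε
  der : ∀ x ∈ Set.uIcc 0 s, ∀ i, HasDerivAt (fun x => u x i) (-eval (u x) (ξ x i)) x

/-- The scale of a stage. -/
noncomputable def Sc (k : ℕ) (R : ℝ) : ℝ := ((k : ℝ) + 1) * R ^ k

theorem one_le_Sc (k : ℕ) {R : ℝ} (hR : 1 ≤ R) : 1 ≤ Sc k R := by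
  have h1 : (1 : ℝ) ≤ R ^ k := one_le_pow₀ hR
  have h2 : (0 : ℝ) ≤ k := Nat.cast_nonneg k
  rw [Sc]
  nlinarith

theorem le_Sc (k : ℕ) {R : ℝ} (hR : 1 ≤ R) : k * R ^ k ≤ Sc k R := by
  have h1 : (1 : ℝ) ≤ R ^ k := one_le_pow₀ hR
  rw [Sc]
  linarith

/-- The bound of a stage. -/
noncomputable def Bd (c w k : ℕ) (R : ℝ) : ℝ :=
  R + ((w : ℝ) + 1) ^ c * (2 * R * Sc k R ^ w) +
    ((w : ℝ) + 1) ^ c * (Sc k R ^ w + R * (w * Sc k R ^ w * (k * R ^ k)))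

theorem pg_Sc (k : ℕ) : PG (Sc k) :=
  (pg_const (by positivity : (0 : ℝ) ≤ (k : ℝ) + 1)).mul (pg_id.pow k)

theorem pg_Bd (c w k : ℕ) : PG (Bd c w k) := by
  have h1 := (pg_const (by positivity : (0 : ℝ) ≤ ((w : ℝ) + 1) ^ c))
  have h2 := (pg_const (by positivity : (0 : ℝ) ≤ (2 : ℝ))).mul pg_id
  have h3 := (pg_Sc k).pow w
  have h4 := (pg_const (by positivity : (0 : ℝ) ≤ (w : ℝ))).mul h3
  have h5 := (pg_const (by positivity : (0 : ℝ) ≤ (k : ℝ))).mul (pg_id.pow k)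
  exact (pg_id.add (h1.mul (h2.mul h3))).add (h1.mul (h3.add (pg_id.mul (h4.mul h5))))

theorem pow_w {a S : ℝ} (hS : 1 ≤ S) {w' w : ℕ} (hw : w' ≤ w) (ha : 0 ≤ a) :
    ((w' : ℝ) + 1) ^ c * (a * S ^ w') ≤ ((w : ℝ) + 1) ^ c * (a * S ^ w) := by
  have h1 : ((w' : ℝ) + 1) ^ c ≤ ((w : ℝ) + 1) ^ c := by
    have : (w' : ℝ) ≤ w := by exact_mod_cast hw
    exact pow_le_pow_left₀ (by positivity) (by linarith) c
  exact mul_le_mul h1 (mul_le_mul_of_nonneg_left (pow_le_pow_right₀ hS hw) ha) (by positivity)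
    (by positivity)

theorem pow_w2 {a S δ : ℝ} (hS : 1 ≤ S) {w' w : ℕ} (hw : w' ≤ w) (ha : 0 ≤ a) (hδ : 0 ≤ δ) :
    ((w' : ℝ) + 1) ^ c * (a * (w' * S ^ w' * δ)) ≤
      ((w : ℝ) + 1) ^ c * (a * (w * S ^ w * δ)) := by
  have hw' : (w' : ℝ) ≤ w := by exact_mod_cast hw
  have h1 : ((w' : ℝ) + 1) ^ c ≤ ((w : ℝ) + 1) ^ c :=
    pow_le_pow_left₀ (by positivity) (by linarith) c
  have h2 : (w' : ℝ) * S ^ w' ≤ w * S ^ w :=
    mul_le_mul hw' (pow_le_pow_right₀ hS hw) (by positivity) (by positivity)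
  exact mul_le_mul h1 (mul_le_mul_of_nonneg_left (mul_le_mul_of_nonneg_right h2 hδ) ha)
    (by positivity) (by positivity)

/-- One stage of the comparison. -/
theorem stage (hd : ∀ i, 1 ≤ d i) {R ε : ℝ} {ξ : ℝ → Fin c → Pl c} {ξ₀ : Fin c → Pl c}
    {u : ℝ → Fin c → ℝ} {s : ℝ} (H : Cmp d R ε ξ ξ₀ u s) {w k : ℕ}
    (ih : ∀ i, d i ≤ w → ∀ x ∈ Set.uIcc 0 s, |u x i| ≤ k * R ^ k ∧
      |eval (u 0) (flow d ξ₀ (-x) i)| ≤ k * R ^ k ∧
      |u x i - eval (u 0) (flow d ξ₀ (-x) i)| ≤ k * R ^ k * ε) (i : Fin c) (hi : d i ≤ w + 1) :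
    ∀ x ∈ Set.uIcc 0 s, |u x i| ≤ Bd c w k R ∧
      |eval (u 0) (flow d ξ₀ (-x) i)| ≤ Bd c w k R ∧
      |u x i - eval (u 0) (flow d ξ₀ (-x) i)| ≤ Bd c w k R * ε := by
  have hR := H.hR
  have hR0 : (0 : ℝ) ≤ R := by linarith
  have hε := H.hε
  have hS := one_le_Sc k hR
  have hS0 : (0 : ℝ) ≤ Sc k R := by linarith
  have hkS := le_Sc k hR
  have hw : d i - 1 ≤ w := by omega
  have hlow : ∀ l, d l ≤ d i - 1 → d l ≤ w := fun l hl => hl.trans hw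
  have hxi : ∀ x ∈ Set.uIcc 0 s, CB (ξ x i) (2 * R) := by
    intro x hx m
    have h1 := H.cb x hx i m
    have h2 := H.c0 i m
    rw [coeff_sub] at h1
    have h3 : |(ξ x i).coeff m| ≤ |(ξ x i).coeff m - (ξ₀ i).coeff m| + |(ξ₀ i).coeff m| := by
      have := abs_add_le ((ξ x i).coeff m - (ξ₀ i).coeff m) ((ξ₀ i).coeff m)
      rwa [sub_add_cancel] at this
    have := H.hε1
    linarith
  have hflow0 : eval (u 0) (flow d ξ₀ (-(0 : ℝ)) i) = u 0 i := by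
    rw [neg_zero, flow_zero, eval_X]
  -- bound of the first velocity
  have hA : (0 : ℝ) ≤ ((w : ℝ) + 1) ^ c * (2 * R * Sc k R ^ w) := by positivity
  have hB : (0 : ℝ) ≤ ((w : ℝ) + 1) ^ c * (Sc k R ^ w + R * (w * Sc k R ^ w * (k * R ^ k))) := by
    positivity
  have b1 : ∀ x ∈ Set.uIcc 0 s, |-eval (u x) (ξ x i)| ≤
      ((w : ℝ) + 1) ^ c * (2 * R * Sc k R ^ w) := by
    intro x hx
    rw [abs_neg]
    refine (low_bd hd (H.v x hx i) hS (by positivity) (hxi x hx) fun l hl => ?_).trans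
      (pow_w hS hw (by positivity))
    exact (ih l (hlow l hl) x hx).1.trans hkS
  have b2 : ∀ x ∈ Set.uIcc 0 s, |-eval (fun l => eval (u 0) (flow d ξ₀ (-x) l)) (ξ₀ i)| ≤
      ((w : ℝ) + 1) ^ c * (2 * R * Sc k R ^ w) := by
    intro x hx
    rw [abs_neg]
    have h1 : CB (ξ₀ i) (2 * R) := fun m => (H.c0 i m).trans (by linarith)
    refine (low_bd hd (H.v0 i) hS (by positivity) h1 fun l hl => ?_).trans
      (pow_w hS hw (by positivity))
    exact (ih l (hlow l hl) x hx).2.1.trans hkS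
  have b3 : ∀ x ∈ Set.uIcc 0 s, |-eval (u x) (ξ x i) -
      -eval (fun l => eval (u 0) (flow d ξ₀ (-x) l)) (ξ₀ i)| ≤
      ((w : ℝ) + 1) ^ c * (Sc k R ^ w + R * (w * Sc k R ^ w * (k * R ^ k))) * ε := by
    intro x hx
    have hδ : (0 : ℝ) ≤ k * R ^ k * ε := by positivity
    have h1 : |eval (u x) (ξ x i - ξ₀ i)| ≤ ((w : ℝ) + 1) ^ c * (ε * Sc k R ^ w) := by
      refine (low_bd hd ((H.v x hx i).sub (H.v0 i)) hS hε (H.cb x hx i) fun l hl => ?_).trans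
        (pow_w hS hw hε)
      exact (ih l (hlow l hl) x hx).1.trans hkS
    have h2 : |eval (u x) (ξ₀ i) - eval (fun l => eval (u 0) (flow d ξ₀ (-x) l)) (ξ₀ i)| ≤
        ((w : ℝ) + 1) ^ c * (R * (w * Sc k R ^ w * (k * R ^ k * ε))) := by
      refine (low_lip hd (H.v0 i) hS hR0 hδ (H.c0 i) (fun l hl => ?_) (fun l hl => ?_)
        fun l hl => ?_).trans (pow_w2 hS hw hR0 hδ)
      · exact (ih l (hlow l hl) x hx).1.trans hkS
      · exact (ih l (hlow l hl) x hx).2.1.trans hkS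
      · exact (ih l (hlow l hl) x hx).2.2
    have h3 : -eval (u x) (ξ x i) - -eval (fun l => eval (u 0) (flow d ξ₀ (-x) l)) (ξ₀ i) =
        -(eval (u x) (ξ x i - ξ₀ i)) -
        (eval (u x) (ξ₀ i) - eval (fun l => eval (u 0) (flow d ξ₀ (-x) l)) (ξ₀ i)) := by
      rw [map_sub]
      ring
    rw [h3]
    refine (abs_sub _ _).trans ?_
    rw [abs_neg]
    refine (add_le_add h1 h2).trans (le_of_eq ?_)
    ring
  have m1 := mvt H.hs hA (fun x hx => H.der x hx i) b1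
  have m2 := mvt H.hs hA (fun x _ => flow_deriv hd H.v0 (u 0) i x) b2
  have m3 := mvt H.hs (mul_nonneg hB hε)
    (fun x hx => (H.der x hx i).sub (flow_deriv hd H.v0 (u 0) i x)) b3
  intro x hx
  have hBd1 : R + ((w : ℝ) + 1) ^ c * (2 * R * Sc k R ^ w) ≤ Bd c w k R := by
    rw [Bd]
    linarith
  have hBd2 : ((w : ℝ) + 1) ^ c * (Sc k R ^ w + R * (w * Sc k R ^ w * (k * R ^ k))) ≤
      Bd c w k R := by
    rw [Bd]
    linarith
  refine ⟨?_, ?_, ?_⟩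
  · have h1 := m1 x hx
    have h2 := H.u0 i
    have h3 := abs_add_le (u x i - u 0 i) (u 0 i)
    rw [sub_add_cancel] at h3
    linarith
  · have h1 := m2 x hx
    have h2 := H.u0 i
    have h3 := abs_add_le (eval (u 0) (flow d ξ₀ (-x) i) - eval (u 0) (flow d ξ₀ (-(0 : ℝ)) i))
      (eval (u 0) (flow d ξ₀ (-(0 : ℝ)) i))
    rw [sub_add_cancel] at h3
    rw [hflow0] at h3 h1
    linarith
  · have h1 := m3 x hx
    have h2 : u 0 i - eval (u 0) (flow d ξ₀ (-(0 : ℝ)) i) = 0 := by rw [hflow0, sub_self]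
    have h3 : (u x i - eval (u 0) (flow d ξ₀ (-x) i)) -
        (u 0 i - eval (u 0) (flow d ξ₀ (-(0 : ℝ)) i)) = u x i - eval (u 0) (flow d ξ₀ (-x) i) := by
      rw [h2, sub_zero]
    have h4 : |u x i - eval (u 0) (flow d ξ₀ (-x) i)| ≤
        ((w : ℝ) + 1) ^ c * (Sc k R ^ w + R * (w * Sc k R ^ w * (k * R ^ k))) * ε := by
      rw [← h3]
      exact h1
    exact h4.trans (mul_le_mul_of_nonneg_right hBd2 hε)

theorem stages (hd : ∀ i, 1 ≤ d i) (w : ℕ) : ∃ k : ℕ, ∀ (R ε : ℝ) (ξ : ℝ → Fin c → Pl c)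
    (ξ₀ : Fin c → Pl c) (u : ℝ → Fin c → ℝ) (s : ℝ), Cmp d R ε ξ ξ₀ u s →
    ∀ i, d i ≤ w → ∀ x ∈ Set.uIcc 0 s, |u x i| ≤ k * R ^ k ∧
      |eval (u 0) (flow d ξ₀ (-x) i)| ≤ k * R ^ k ∧
      |u x i - eval (u 0) (flow d ξ₀ (-x) i)| ≤ k * R ^ k * ε := by
  induction w with
  | zero =>
    refine ⟨0, fun R ε ξ ξ₀ u s _ i hi => ?_⟩
    have := hd i
    omega
  | succ w ih =>
    obtain ⟨k, hk⟩ := ih
    obtain ⟨K, hK⟩ := pg_Bd c w k
    refine ⟨K, fun R ε ξ ξ₀ u s H i hi x hx => ?_⟩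
    have h1 := stage hd H (hk R ε ξ ξ₀ u s H) i hi x hx
    have h2 := (hK R H.hR).2
    exact ⟨h1.1.trans h2, h1.2.1.trans h2, h1.2.2.trans (mul_le_mul_of_nonneg_right h2 H.hε)⟩

end FZ

/-- **Row FRZ.** -/
theorem frz_thm : FrzStmt := by
  intro c j d hd hj
  obtain ⟨k, hk⟩ := FZ.stages hd (univ.sup d)
  obtain ⟨K, hK⟩ := FZ.pg_Bd c (j - 1) k
  refine ⟨k + K, ?_⟩
  intro R ε hR hε hε1 ξ b ξ₀ b₀ u h s hs v0 hb0 c0 cb0 u0 hξ hb hu hh
  have H : FZ.Cmp d R ε ξ ξ₀ u s :=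
    ⟨hR, hε, hε1, hs, v0, c0, u0, fun x hx => (hξ x hx).1, fun x hx => (hξ x hx).2, hu⟩
  have hS := FZ.one_le_Sc k hR
  have hS0 : (0 : ℝ) ≤ FZ.Sc k R := by linarith
  have hkS := FZ.le_Sc k hR
  have hR0 : (0 : ℝ) ≤ R := by linarith
  have st : ∀ i, ∀ x ∈ Set.uIcc 0 s, |u x i| ≤ k * R ^ k ∧
      |eval (u 0) (flow d ξ₀ (-x) i)| ≤ k * R ^ k ∧
      |u x i - eval (u 0) (flow d ξ₀ (-x) i)| ≤ k * R ^ k * ε := fun i x hx =>
    hk R ε ξ ξ₀ u s H i (Finset.le_sup (f := d) (mem_univ i)) x hx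
  have hsx : s ∈ Set.uIcc (0 : ℝ) s := Set.right_mem_uIcc
  have hk1 : (k : ℝ) * R ^ k ≤ ((k + K : ℕ) : ℝ) * R ^ (k + K) := by
    refine mul_le_mul ?_ (pow_le_pow_right₀ hR (by omega)) (by positivity) (by positivity)
    exact_mod_cast Nat.le_add_right k K
  have hK1 : (K : ℝ) * R ^ K ≤ ((k + K : ℕ) : ℝ) * R ^ (k + K) := by
    refine mul_le_mul ?_ (pow_le_pow_right₀ hR (by omega)) (by positivity) (by positivity)
    exact_mod_cast Nat.le_add_left K k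
  refine ⟨fun i => (st i s hsx).2.2.trans (mul_le_mul_of_nonneg_right hk1 hε), ?_⟩
  have b3 : ∀ x ∈ Set.uIcc 0 s, |eval (u x) (b x) +
      -eval (fun l => eval (u 0) (flow d ξ₀ (-x) l)) b₀| ≤ FZ.Bd c (j - 1) k R * ε := by
    intro x hx
    have hδ : (0 : ℝ) ≤ k * R ^ k * ε := by positivity
    have h1 : |eval (u x) (b x - b₀)| ≤
        (((j - 1 : ℕ) : ℝ) + 1) ^ c * (ε * FZ.Sc k R ^ (j - 1)) :=
      FZ.low_bd hd ((hb x hx).1.sub hb0) hS hε (hb x hx).2 fun l _ => (st l x hx).1.trans hkS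
    have h2 : |eval (u x) b₀ - eval (fun l => eval (u 0) (flow d ξ₀ (-x) l)) b₀| ≤
        (((j - 1 : ℕ) : ℝ) + 1) ^ c *
          (R * (((j - 1 : ℕ) : ℝ) * FZ.Sc k R ^ (j - 1) * (k * R ^ k * ε))) :=
      FZ.low_lip hd hb0 hS hR0 hδ cb0 (fun l _ => (st l x hx).1.trans hkS)
        (fun l _ => (st l x hx).2.1.trans hkS) fun l _ => (st l x hx).2.2
    have h3 : eval (u x) (b x) + -eval (fun l => eval (u 0) (flow d ξ₀ (-x) l)) b₀ =
        eval (u x) (b x - b₀) +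
        (eval (u x) b₀ - eval (fun l => eval (u 0) (flow d ξ₀ (-x) l)) b₀) := by
      rw [map_sub]
      ring
    rw [h3]
    refine (abs_add_le _ _).trans ((add_le_add h1 h2).trans ?_)
    rw [FZ.Bd]
    have h4 : (0 : ℝ) ≤ R * ε := mul_nonneg hR0 hε
    have h5 : (0 : ℝ) ≤ (((j - 1 : ℕ) : ℝ) + 1) ^ c * (2 * R * FZ.Sc k R ^ (j - 1)) * ε := by
      positivity
    nlinarith [h4, h5]
  have m3 := FZ.mvt hs (mul_nonneg (hK R hR).1 hε)
    (fun x hx => (hh x hx).add (FZ.hfl_deriv hd v0 hj hb0 (u 0) x)) b3 s hsx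
  have h1 : eval (u 0) (hfl j ξ₀ b₀ (-(0 : ℝ))) = 0 := by
    rw [neg_zero, hfl_zero, map_zero]
  have h2 : (h s + eval (u 0) (hfl j ξ₀ b₀ (-s))) - (h 0 + eval (u 0) (hfl j ξ₀ b₀ (-(0 : ℝ)))) =
      h s - h 0 + eval (u 0) (hfl j ξ₀ b₀ (-s)) := by
    rw [h1]
    ring
  have h3 : |h s - h 0 + eval (u 0) (hfl j ξ₀ b₀ (-s))| ≤ FZ.Bd c (j - 1) k R * ε := by
    rw [← h2]
    exact m3
  exact h3.trans (mul_le_mul_of_nonneg_right ((hK R hR).2.trans hK1) hε)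

end Pool.STAT
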