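import Pool.Agent.H19.STAT.Sys
import Pool.Agent.H63.STAT.Adp

/-!
# Row 104 PLT: the coefficients of the adapted coordinates are polynomials in the time
-/

set_option autoImplicit false

namespace Pool.STAT

open Finset MvPolynomial
open Pool.STAT.Adp

namespace PLT

/-- All coefficients are polynomials in `t` of degree `≤ D`. -/
def PT (D : ℕ) (F : ℝ → PN) : Prop :=
  ∀ k : ℕ →₀ ℕ, ∃ p : Polynomial ℝ, p.natDegree ≤ D ∧ ∀ t, p.eval t = (F t).coeff k

theorem PT.mono {D D' : ℕ} {F : ℝ → PN} (h : PT D F) (hD : D ≤ D') : PT D' F := fun k => by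
  obtain ⟨p, hp, he⟩ := h k
  exact ⟨p, hp.trans hD, he⟩

theorem pt_const (F : PN) : PT 0 fun _ => F := fun k =>
  ⟨Polynomial.C (F.coeff k), by rw [Polynomial.natDegree_C], fun t => by rw [Polynomial.eval_C]⟩

theorem pt_CT : PT 1 fun t => (C t : PN) := fun k => by
  classical
  by_cases hk : k = 0
  · refine ⟨Polynomial.X, Polynomial.natDegree_X_le, fun t => ?_⟩
    rw [Polynomial.eval_X, hk, coeff_C, if_pos rfl]
  · refine ⟨0, by rw [Polynomial.natDegree_zero]; exact Nat.zero_le _, fun t => ?_⟩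
    rw [Polynomial.eval_zero, coeff_C, if_neg (Ne.symm hk)]

theorem PT.add {D : ℕ} {F G : ℝ → PN} (hF : PT D F) (hG : PT D G) :
    PT D fun t => F t + G t := fun k => by
  obtain ⟨p, hp, hpe⟩ := hF k
  obtain ⟨q, hq, hqe⟩ := hG k
  refine ⟨p + q, (Polynomial.natDegree_add_le _ _).trans (max_le hp hq), fun t => ?_⟩
  rw [Polynomial.eval_add, coeff_add, hpe, hqe]

theorem PT.sum {ι : Type*} {D : ℕ} (S : Finset ι) (F : ι → ℝ → PN)
    (h : ∀ i ∈ S, PT D (F i)) : PT D fun t => ∑ i ∈ S, F i t := by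
  classical
  induction S using Finset.induction_on with
  | empty =>
    refine PT.mono (D := 0) ?_ (Nat.zero_le _)
    have := pt_const 0
    simpa only [Finset.sum_empty] using this
  | insert a S ha ih =>
    have h1 := (h a (Finset.mem_insert_self a S)).add
      (ih fun i hi => h i (Finset.mem_insert_of_mem hi))
    simpa only [Finset.sum_insert ha] using h1

theorem PT.mul {D E : ℕ} {F G : ℝ → PN} (hF : PT D F) (hG : PT E G) :
    PT (D + E) fun t => F t * G t := fun k => by
  classical
  choose p hp hpe using hF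
  choose q hq hqe using hG
  refine ⟨∑ x ∈ antidiagonal k, p x.1 * q x.2, ?_, fun t => ?_⟩
  · refine Polynomial.natDegree_sum_le_of_forall_le _ _ fun x _ => ?_
    exact Polynomial.natDegree_mul_le.trans (add_le_add (hp _) (hq _))
  · rw [Polynomial.eval_finsetSum, coeff_mul]
    exact Finset.sum_congr rfl fun x _ => by rw [Polynomial.eval_mul, hpe, hqe]

theorem PT.pow {D : ℕ} {F : ℝ → PN} (hF : PT D F) (m : ℕ) : PT (m * D) fun t => F t ^ m := by
  induction m with
  | zero =>
    rw [zero_mul]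
    have := pt_const 1
    simpa only [pow_zero] using this
  | succ m ih =>
    have := ih.mul hF
    rw [Nat.succ_mul]
    simpa only [pow_succ] using this

theorem PT.prod {ι : Type*} (S : Finset ι) (D : ι → ℕ) (F : ι → ℝ → PN)
    (h : ∀ i ∈ S, PT (D i) (F i)) : PT (∑ i ∈ S, D i) fun t => ∏ i ∈ S, F i t := by
  classical
  induction S using Finset.induction_on with
  | empty =>
    rw [Finset.sum_empty]
    have := pt_const 1
    simpa only [Finset.prod_empty] using this
  | insert a S ha ih =>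
    have h1 := (h a (Finset.mem_insert_self a S)).mul
      (ih fun i hi => h i (Finset.mem_insert_of_mem hi))
    rw [Finset.sum_insert ha]
    simpa only [Finset.prod_insert ha] using h1

theorem PT.trw {D : ℕ} {F : ℝ → PN} (hF : PT D F) (d : ℕ → ℕ) (r : ℕ) :
    PT D fun t => Pool.STAT.trw d r (F t) := fun k => by
  obtain ⟨p, hp, hpe⟩ := hF k
  have h1 : ∀ t, (Pool.STAT.trw d r (F t)).coeff k =
      if Finsupp.weight d k < r then (F t).coeff k else 0 := fun t => coeff_lo d r (F t) k
  by_cases h : Finsupp.weight d k < r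
  · exact ⟨p, hp, fun t => by rw [h1, if_pos h, hpe]⟩
  · exact ⟨0, by rw [Polynomial.natDegree_zero]; exact Nat.zero_le _,
      fun t => by rw [h1, if_neg h, Polynomial.eval_zero]⟩

theorem PT.bind {K D : ℕ} {χ : ℝ → ℕ → PN} {P : PN} (hP : P.totalDegree ≤ K)
    (h : ∀ j ∈ P.vars, PT D fun t => χ t j) : PT (K * D) fun t => bind₁ (χ t) P := by
  have h1 : (fun t => bind₁ (χ t) P) = fun t => ∑ m ∈ P.support,
      C (coeff m P) * ∏ j ∈ m.support, χ t j ^ m j := by
    funext t
    conv_lhs => rw [P.as_sum]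
    rw [map_sum]
    exact Finset.sum_congr rfl fun m _ => bind₁_monomial _ _ _
  rw [h1]
  refine PT.sum _ _ fun m hm => ?_
  have h2 : PT (∑ j ∈ m.support, m j * D) fun t => ∏ j ∈ m.support, χ t j ^ m j :=
    PT.prod _ _ _ fun j hj => (h j ((mem_vars_iff_mem_support j).2 ⟨m, hm, hj⟩)).pow (m j)
  have h3 := (pt_const (C (coeff m P))).mul h2
  refine h3.mono ?_
  rw [zero_add, ← Finset.sum_mul]
  refine Nat.mul_le_mul_right D ?_
  have h4 : (m.sum fun _ e => e) ≤ P.totalDegree := le_totalDegree hm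
  exact h4.trans hP

theorem tri_atT {Φ : ℕ → PN} (h : TriN (atT 0 Φ)) (t : ℝ) : TriN (atT t Φ) := by
  intro i
  by_cases hi : i = 0
  · rw [hi, atT, Function.update_self, vars_C]
    exact Finset.empty_subset _
  · have h1 := h i
    rw [atT, Function.update_of_ne hi] at h1 ⊢
    exact h1

theorem atT_ne {Φ : ℕ → PN} {i : ℕ} (hi : i ≠ 0) (t : ℝ) : atT t Φ i = Φ i := by
  rw [atT, Function.update_of_ne hi]

/-- The adapted coordinates at the time `t` are polynomials in `t`. -/
theorem pt_adp (hA : AdxStmt) {n K : ℕ} {d : ℕ → ℕ} (hd0 : d 0 = 1) (hd : ∀ i, 1 ≤ d i)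
    {Φ : ℕ → PN} (hT : TriN (atT 0 Φ)) (hK : ∀ i ≤ n, (atT 0 Φ i).totalDegree ≤ K) (i : ℕ)
    (hi : i ≤ n) : PT ((K + 1) ^ i) fun t => adp d (atT t Φ) i := by
  induction i using Nat.strong_induction_on with
  | _ i ih =>
    have heq : ∀ t, adp d (atT t Φ) i =
        X i + Pool.STAT.trw d (d i) (bind₁ (adp d (atT t Φ)) (atT t Φ i)) := fun t =>
      (hA.2 d (atT t Φ) hd0 hd (tri_atT hT t)).1 i
    by_cases h0 : i = 0
    · have h1 : (fun t => adp d (atT t Φ) i) = fun t => X i + Pool.STAT.trw d (d i) (C t) := by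
        funext t
        rw [heq t, h0, atT, Function.update_self, bind₁_C_right]
      rw [h1]
      exact ((pt_const (X i)).mono (Nat.zero_le _)).add
        ((pt_CT.trw d (d i)).mono (Nat.one_le_pow _ _ (Nat.succ_pos K)))
    · have h1 : (fun t => adp d (atT t Φ) i) = fun t => X i +
          Pool.STAT.trw d (d i) (bind₁ (adp d (atT t Φ)) (Φ i)) := by
        funext t
        rw [heq t, atT_ne h0]
      rw [h1]
      have hKi := hK i hi
      have hTi := hT i
      rw [atT_ne h0] at hKi hTi
      have h2 : PT (K * (K + 1) ^ (i - 1)) fun t => bind₁ (adp d (atT t Φ)) (Φ i) := by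
        refine PT.bind hKi fun j hj => ?_
        have hj' := Finset.mem_range.1 (hTi hj)
        exact (ih j hj' (by omega)).mono (Nat.pow_le_pow_right (Nat.succ_pos K) (by omega))
      refine ((pt_const (X i)).mono (Nat.zero_le _)).add ((h2.trw d (d i)).mono ?_)
      calc K * (K + 1) ^ (i - 1) ≤ (K + 1) * (K + 1) ^ (i - 1) :=
            Nat.mul_le_mul_right _ (Nat.le_succ K)
        _ = (K + 1) ^ i := by
            rw [← pow_succ']
            congr 1
            omega

end PLT

/-- **Row 104 PLT.** -/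
theorem plt_of (hA : AdxStmt) : PltStmt := by
  intro n K d hd0 hd
  refine ⟨(K + 1) ^ n + ∑ i ∈ range (n + 1), d i, ?_⟩
  intro Φ hT hK i hi k
  refine ⟨?_, ?_⟩
  · obtain ⟨p, hp, hpe⟩ := PLT.pt_adp hA hd0 hd hT hK i hi k
    refine ⟨p, hp.trans ?_, hpe⟩
    exact (Nat.pow_le_pow_right (Nat.succ_pos K) hi).trans (Nat.le_add_right _ _)
  · rintro ⟨t, ht⟩
    have hT' := PLT.tri_atT hT t
    have hX := hA.2 d (atT t Φ) hd0 hd hT'
    have hm : k ∈ (adp d (atT t Φ) i).support := mem_support_iff.2 ht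
    constructor
    · intro j hj
      have h1 : j ∈ (adp d (atT t Φ) i).vars := (mem_vars_iff_mem_support j).2 ⟨k, hm, hj⟩
      have h2 : adp d (atT t Φ) i = (adp d (atT t Φ) i - X i) + X i := by rw [sub_add_cancel]
      rw [h2] at h1
      rcases Finset.mem_union.1 (vars_add_subset _ _ h1) with h3 | h3
      · have := Finset.mem_range.1 (hX.2.1 i h3)
        rw [Finset.mem_range]
        omega
      · rw [vars_X, Finset.mem_singleton] at h3
        rw [h3, Finset.mem_range]
        omega
    · have h1 : WLe d (d i) (adp d (atT t Φ) i) := by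
        rw [hX.1 i]
        exact (wle_X d i).add ((lo_wle d (d i) _).mono (Nat.sub_le _ _))
      refine (h1 k hm).trans ?_
      have h2 : d i ≤ ∑ i ∈ range (n + 1), d i :=
        Finset.single_le_sum (f := d) (fun _ _ => Nat.zero_le _)
          (Finset.mem_range.2 (by omega))
      exact h2.trans (Nat.le_add_left _ _)

end Pool.STAT
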