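import Pool.Agent.H63.STAT.CloG

/-!
# The variation of polynomials near a chain

`var_raw`: polynomials which differ from the point side of a chain by `2 ^ lam` natural units on
the natural boxes vary by at most one unit of `y` more digits in small cells.
-/

set_option autoImplicit false

namespace Pool.STAT

open Finset MvPolynomial
open Pool.Agent.H49.Ent Pool.Agent.H32.Dense Pool.STK Pool.KS3 Pool.KA Pool.KSAT Pool.PB Pool.GEN
open Pool.K2S

variable {m J : ℕ}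

namespace CLO

/-- **The variation of polynomials near the point side of a chain.** The loss is linear in
`lam`. -/
theorem var_raw (n K : ℕ) : ∃ s₁ : ℕ, ∀ (m J a w e lam y : ℕ) (F : Fam m J) (c : ℕ → Fin m)
    (Kv : ℕ → ℕ) (g : ℕ → ℕ) (A : F.Ω → Prop) (G : PtT F → ℕ → MvPolynomial (Option (Fin m)) ℝ)
    (H : LnT F → ℕ → MvPolynomial (Option (Fin m)) ℝ) (Gt : PtT F → ℕ → PN), a ≤ J → Inj c n →
    (∀ i < n, Kv i ≤ K) → ChOK F c n Kv a w e g A G H →
    (∀ x i, 1 ≤ i → i ≤ n → (Gt x i).vars ⊆ range i) →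
    (∀ x i, 1 ≤ i → i ≤ n → (Gt x i).totalDegree ≤ K) →
    (∀ ω, A ω → ∀ i, 1 ≤ i → i ≤ n → ∀ b : ℕ → ℝ,
      Bx (gg a g) (Gs c n a G (ptr F J ω)) i b →
      |eval b (Gs c n a G (ptr F J ω) i) - eval b (Gt (ptr F J ω) i)| ≤ 2 ^ lam / 2 ^ g (i - 1)) →
    (∀ i < n, g i + y + lam + (e + nlp g 0 i) + s₁ ≤ J) →
    ∀ ω, A ω → ∀ i, 1 ≤ i → i ≤ n → ∀ b : ℕ → ℝ, b 0 = F.t ω →
      (∀ j, 1 ≤ j → j < i → |b j - cx F (fun i => c (i - 1)) ω j| ≤ 1 / 2 ^ J) →
      |eval b (Gt (ptr F J ω) i) -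
        eval (cx F (fun i => c (i - 1)) ω) (Gt (ptr F J ω) i)| ≤ 1 / 2 ^ (g (i - 1) + y) := by
  obtain ⟨L, hL, hnear⟩ := NEAR.near n K (S := 0) le_rfl
  obtain ⟨C₂, hC₂, hbox⟩ := n1_of_box n K
  obtain ⟨K₁, hK₁⟩ : ∃ K₁, K₁ = K * (K + 1) ^ (n + 1) := ⟨_, rfl⟩
  obtain ⟨R, hR⟩ : ∃ R : ℝ, R = 2 + L := ⟨_, rfl⟩
  have hR1 : 1 ≤ R := by rw [hR]; linarith
  have hL0 : 0 ≤ L := by linarith
  obtain ⟨W, hW⟩ : ∃ W : ℝ, W = n * (K₁ * C₂ * R ^ K₁ * (1 + L)) := ⟨_, rfl⟩
  have hW0 : 0 ≤ W := by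
    rw [hW]
    have : 0 ≤ C₂ := by linarith
    positivity
  obtain ⟨s₁, hs₁⟩ := pow_unbounded_of_one_lt (L + W) (one_lt_two (α := ℝ))
  refine ⟨s₁, ?_⟩
  intro m J a w e lam y F c Kv g A G H Gt ha hc hKv h hGtv hGtd hdif hJ ω hω i hi1 hi b hb0 hb
  obtain ⟨x, hx⟩ : ∃ x, x = cx F (fun i => c (i - 1)) ω := ⟨_, rfl⟩
  rw [← hx] at hb ⊢
  have hGK : ∀ y, ∀ i < n, (G y i).totalDegree ≤ K := fun y i hi => (h.degG y i).trans (hKv i hi)
  obtain ⟨P, hP⟩ : ∃ P, P = sy c n (F.t ω) (G (ptr F J ω)) := ⟨_, rfl⟩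
  have hPt : TriN P := by
    rw [hP]
    exact sy_tri
  have hPd : ∀ i, (P i).totalDegree ≤ K := by
    rw [hP]
    exact sy_deg (hGK _)
  have hP0 : P 0 = MvPolynomial.C (F.t ω) := by
    rw [hP, sy_zero]
  have hg0 : gg a g 0 = a := if_pos rfl
  have hgj : ∀ i, 1 ≤ i → gg a g i = g (i - 1) := fun i hi => if_neg (by omega)
  have hx0 : x 0 = F.t ω := by
    rw [hx]
    exact if_pos rfl
  have hGs0 : Gs c n a G (ptr F J ω) 0 = MvPolynomial.C ((F.T1 a ω : ℝ) / 2 ^ a) := by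
    unfold Gs
    rw [sy_zero, tp_eq]
  have hGsj : ∀ j, 1 ≤ j → j ≤ n → Gs c n a G (ptr F J ω) j = P j := by
    intro j h1 h2
    obtain ⟨j, rfl⟩ : ∃ j', j = j' + 1 := ⟨j - 1, by omega⟩
    rw [hP]
    unfold Gs
    rw [sy_succ (by omega), sy_succ (by omega)]
  have hfit : ∀ j, 1 ≤ j → j ≤ n → |x j - eval x (P j)| ≤ 1 / 2 ^ gg a g j := by
    intro j h1 h2
    have h3 := pos_of (a := a) hc h hω h1 h2
    rw [hGsj j h1 h2, ← hx] at h3
    exact h3
  -- the variation of the chain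
  have hdat : NEAR.Dat n K 0 P P (gg a g) x (fun j => e + nlp g 0 (j - 1)) J (y + lam + s₁) := by
    refine ⟨hPt, hPd, fun j _ _ => hPt j, fun j _ _ => hPd j, ?_, hfit, fun j _ _ b _ => ?_,
      fun j hj1 hj b hb l hl1 hl => ?_, fun j hj1 hj => ?_⟩
    · rw [hP0, hx0]
    · rw [sub_self, abs_zero, zero_div]
    · obtain ⟨j, rfl⟩ : ∃ j', j = j' + 1 := ⟨j - 1, by omega⟩
      obtain ⟨l, rfl⟩ : ∃ l', l = l' + 1 := ⟨l - 1, by omega⟩
      rw [hP] at hb ⊢
      rw [sy_succ (by omega)]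
      have h5 := nbx_of_bxr hc (h.depG _) (by omega) hb
      rw [pd_trL hc (by omega) (by omega) (h.depG _ j)]
      refine (h.lip ω hω j (by omega) _ h5 l (by omega)).trans ?_
      refine pow_le_pow_right₀ (by norm_num) (Nat.add_le_add_left ?_ _)
      unfold nlp
      rw [Nat.add_sub_cancel]
      exact Nat.sub_le_sub_right (Finset.sup_mono (Finset.Icc_subset_Icc (Nat.zero_le _) le_rfl)) _
    · rw [hgj j hj1]
      have h1 := hJ (j - 1) (by omega)
      show g (j - 1) + (y + lam + s₁) + (e + nlp g 0 (j - 1)) ≤ J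
      omega
  obtain ⟨b', hb'⟩ : ∃ b' : ℕ → ℝ, b' = fun j => if j < i then b j else x j := ⟨_, rfl⟩
  have hb'0 : b' 0 = x 0 := by
    rw [hb', hx0, ← hb0]
    exact if_pos (by omega)
  have hb'j : ∀ j ≤ n, |b' j - x j| ≤ 1 / 2 ^ J := by
    intro j hj
    rcases Nat.eq_zero_or_pos j with rfl | hj1
    · rw [hb'0, sub_self, abs_zero]
      positivity
    · rw [hb']
      show |(if j < i then b j else x j) - x j| ≤ _
      split_ifs with h1
      · exact hb j hj1 h1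
      · rw [sub_self, abs_zero]
        positivity
  have hv := hnear P P (gg a g) x _ J (y + lam + s₁) hdat b' hb'0 hb'j
  have hev : ∀ Q : PN, Q.vars ⊆ range i → eval b' Q = eval b Q := by
    intro Q hQ
    refine AdxRow.evl_congr fun j hj => ?_
    rw [hb']
    exact if_pos (mem_range.1 (hQ hj))
  -- the difference
  obtain ⟨D, hD⟩ : ∃ D, D = P i - Gt (ptr F J ω) i := ⟨_, rfl⟩
  have hDv : D.vars ⊆ range i := by
    rw [hD]
    exact AdxRow.vars_sub_le (hPt i) (hGtv _ i hi1 hi)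
  have hDd : D.totalDegree ≤ K := by
    rw [hD]
    exact (totalDegree_sub _ _).trans (max_le (hPd i) (hGtd _ i hi1 hi))
  obtain ⟨Φ, hΦ⟩ : ∃ Φ, Φ = Gs c n a G (ptr F J ω) := ⟨_, rfl⟩
  have hΦt : TriN Φ := by
    rw [hΦ]
    exact sy_tri
  have hΦd : ∀ i, (Φ i).totalDegree ≤ K := by
    rw [hΦ]
    exact sy_deg (hGK _)
  rw [← hΦ] at hGs0
  have hΦj : ∀ j, 1 ≤ j → j ≤ n → Φ j = P j := by
    rw [hΦ]
    exact hGsj
  obtain ⟨f1, f2⟩ := nat_deg hΦt hΦd (gg a g) hi hDv hDd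
  rw [← hK₁] at f2
  have f3 : n1 (bind₁ (nuc (gg a g) Φ) D) ≤ C₂ * (2 ^ lam / 2 ^ g (i - 1)) := by
    refine hbox Φ (gg a g) D i _ hΦt hΦd hi hDv hDd fun b hb => ?_
    rw [hD, map_sub, ← hΦj i hi1 hi, hΦ]
    rw [hΦ] at hb
    exact hdif ω hω i hi1 hi b hb
  have h2J : ∀ j, 1 ≤ j → j ≤ n → (1 : ℝ) / 2 ^ J ≤ 1 / 2 ^ (g (j - 1) + (y + lam + s₁)) := by
    intro j h1 h2
    refine one_div_le_one_div_of_le (by positivity) (pow_le_pow_right₀ (by norm_num) ?_)
    have := hJ (j - 1) (by omega)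
    omega
  have hcell : |F.t ω - (F.T1 a ω : ℝ) / 2 ^ a| ≤ 1 / 2 ^ a := t_cell F ha ω
  have f4 : ∀ l < i, |nc (gg a g) Φ b' l - nc (gg a g) Φ x l| ≤
      (1 + L) / 2 ^ (y + lam + s₁) := by
    intro l hl
    unfold nc
    rcases Nat.eq_zero_or_pos l with rfl | l0
    · rw [hGs0, eval_C, eval_C, hb'0, sub_self, abs_zero]
      positivity
    · rw [hΦj l l0 (by omega), hgj l l0]
      have pg : (0 : ℝ) < 2 ^ g (l - 1) := by positivity
      have e1 := (hb'j l (by omega)).trans (h2J l l0 (by omega))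
      have e3 := hv l (by omega)
      rw [hgj l l0] at e3
      have e6 : (2 : ℝ) ^ g (l - 1) * (b' l - eval b' (P l)) -
          2 ^ g (l - 1) * (x l - eval x (P l)) =
          2 ^ g (l - 1) * ((b' l - x l) - (eval b' (P l) - eval x (P l))) := by ring
      rw [e6, abs_mul, abs_of_pos pg]
      have e7 : |(b' l - x l) - (eval b' (P l) - eval x (P l))| ≤
          (1 + L) / 2 ^ (g (l - 1) + (y + lam + s₁)) := by
        have e8 : (1 + L) / 2 ^ (g (l - 1) + (y + lam + s₁)) =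
            1 / 2 ^ (g (l - 1) + (y + lam + s₁)) + L / 2 ^ (g (l - 1) + (y + lam + s₁)) := by
          ring
        rw [e8]
        rw [abs_le] at e1 e3 ⊢
        constructor <;> linarith [e1.1, e1.2, e3.1, e3.2]
      refine (mul_le_mul_of_nonneg_left e7 pg.le).trans (le_of_eq ?_)
      rw [pow_add 2 (g (l - 1))]
      field_simp
  have f5 : ∀ l < i, |nc (gg a g) Φ x l| ≤ 1 := by
    intro l hl
    rw [nc_le]
    rcases Nat.eq_zero_or_pos l with rfl | l0
    · rw [hGs0, eval_C, hx0, hg0]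
      exact hcell
    · rw [hΦj l l0 (by omega)]
      exact hfit l l0 (by omega)
  have f6 : ∀ l < i, |nc (gg a g) Φ b' l| ≤ R := by
    intro l hl
    have h1 := f4 l hl
    have h2 := f5 l hl
    have h3 : (1 + L) / 2 ^ (y + lam + s₁) ≤ 1 + L :=
      div_le_self (by linarith) (one_le_pow₀ (by norm_num))
    rw [hR]
    rw [abs_le] at h1 h2 ⊢
    constructor <;> linarith [h1.1, h1.2, h2.1, h2.2]
  have hdD : |eval b' D - eval x D| ≤ W / 2 ^ (g (i - 1) + (y + s₁)) := by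
    rw [eval_nat hΦt (gg a g) b', eval_nat hΦt (gg a g) x]
    refine (NEAR.var_le hR1 f1 f2 (fun l hl => (f5 l hl).trans hR1) f6 f4).trans ?_
    have h1 : (0 : ℝ) ≤ C₂ := by linarith
    calc (i : ℝ) * (K₁ * n1 (bind₁ (nuc (gg a g) Φ) D) * R ^ K₁ *
          ((1 + L) / 2 ^ (y + lam + s₁))) ≤
          n * (K₁ * (C₂ * (2 ^ lam / 2 ^ g (i - 1))) * R ^ K₁ *
            ((1 + L) / 2 ^ (y + lam + s₁))) := by
            refine mul_le_mul (by exact_mod_cast hi) ?_ ?_ (Nat.cast_nonneg n)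
            · refine mul_le_mul_of_nonneg_right ?_ (by positivity)
              refine mul_le_mul_of_nonneg_right ?_ (by positivity)
              exact mul_le_mul_of_nonneg_left f3 (Nat.cast_nonneg K₁)
            · have := n1_nonneg (bind₁ (nuc (gg a g) Φ) D)
              positivity
      _ = W / 2 ^ (g (i - 1) + (y + s₁)) := by
          rw [hW]
          have e1 : (2 : ℝ) ^ (y + lam + s₁) = 2 ^ lam * 2 ^ (y + s₁) := by
            rw [← pow_add]
            congr 1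
            ring
          rw [e1, pow_add 2 (g (i - 1))]
          have e2 : (2 : ℝ) ^ lam ≠ 0 := by positivity
          field_simp
  have hdP : |eval b' (P i) - eval x (P i)| ≤ L / 2 ^ (g (i - 1) + (y + s₁)) := by
    have h1 := hv i hi
    rw [hgj i hi1] at h1
    refine h1.trans (div_le_div_of_nonneg_left hL0 (by positivity)
      (pow_le_pow_right₀ (by norm_num) (by omega)))
  have tot : eval b (Gt (ptr F J ω) i) - eval x (Gt (ptr F J ω) i) =
      (eval b' (P i) - eval x (P i)) - (eval b' D - eval x D) := by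
    rw [hev D hDv, hev (P i) (hPt i), hD, map_sub, map_sub]
    ring
  rw [tot]
  refine (abs_sub _ _).trans ((add_le_add hdP hdD).trans ?_)
  rw [← add_div, div_le_div_iff₀ (by positivity) (by positivity), one_mul]
  have h3 : (2 : ℝ) ^ (g (i - 1) + (y + s₁)) = 2 ^ s₁ * 2 ^ (g (i - 1) + y) := by
    rw [← pow_add]
    congr 1
    ring
  rw [h3]
  exact mul_le_mul_of_nonneg_right hs₁.le (by positivity)

end CLO

end Pool.STAT
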