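import Pool.Agent.H35.SYS.Base
import Pool.Agent.H90.STAT.Adx
import Pool.Agent.H36.STAT.Dgb
import Pool.Agent.H99.FLF.PIG

/-!
# Exact closed labels from two-sided labels

The polynomials `G y` are functions of the point, the polynomials `R s` are functions of the line;
they agree on the natural boxes of the samples. On an event of probability at least a constant
there are exact labels: functions `z` of the point and `z'` of the line with `z = z'`, and
polynomials `P` of the label, near `G` and `R` on the natural boxes.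
-/

set_option autoImplicit false

namespace Pool.STAT

open Finset MvPolynomial
open Pool.Agent.H49.Ent Pool.Agent.H32.Dense Pool.STK Pool.KA Pool.K2S

namespace CLO

/-- The dilated natural box. -/
def Bxr (ρ : ℝ) (g : ℕ → ℕ) (Φ : ℕ → PN) (n : ℕ) (b : ℕ → ℝ) : Prop :=
  ∀ i < n, |b i - eval b (Φ i)| ≤ ρ / 2 ^ g i

/-- The natural coordinates of a point. -/
noncomputable def nc (g : ℕ → ℕ) (Φ : ℕ → PN) (b : ℕ → ℝ) (j : ℕ) : ℝ :=
  (2 : ℝ) ^ g j * (b j - eval b (Φ j))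

theorem nc_le {ρ : ℝ} {g : ℕ → ℕ} {Φ : ℕ → PN} {b : ℕ → ℝ} {j : ℕ} :
    |nc g Φ b j| ≤ ρ ↔ |b j - eval b (Φ j)| ≤ ρ / 2 ^ g j := by
  unfold nc
  have h : (0 : ℝ) < 2 ^ g j := by positivity
  rw [abs_mul, abs_of_pos h, le_div_iff₀ h, mul_comm]

theorem Bxr_one {g : ℕ → ℕ} {Φ : ℕ → PN} {n : ℕ} {b : ℕ → ℝ} :
    Bxr 1 g Φ n b ↔ Bx g Φ n b := Iff.rfl

theorem Bxr.mono {ρ ρ' : ℝ} {g : ℕ → ℕ} {Φ : ℕ → PN} {n n' : ℕ} {b : ℕ → ℝ}
    (h : Bxr ρ g Φ n b) (hρ : ρ ≤ ρ') (hn : n' ≤ n) : Bxr ρ' g Φ n' b := fun i hi =>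
  (h i (hi.trans_le hn)).trans (div_le_div_of_nonneg_right hρ (by positivity))

section nat

variable {Φ : ℕ → PN} (hΦ : TriN Φ)

include hΦ

theorem eval_nat (g : ℕ → ℕ) (b : ℕ → ℝ) (F : PN) :
    eval b F = eval (nc g Φ b) (bind₁ (nuc g Φ) F) := by
  rw [Pool.SYS35.eval_bind]
  congr 2
  exact (funext fun i => AdxRow.nuc_eval hΦ g b i).symm

theorem nc_nuc (g : ℕ → ℕ) (y : ℕ → ℝ) : nc g Φ (fun j => eval y (nuc g Φ j)) = y := by
  funext j
  unfold nc
  have h : (0 : ℝ) < 2 ^ g j := by positivity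
  have h1 : eval y (nuc g Φ j) = eval y (bind₁ (nuc g Φ) (Φ j)) + 1 / 2 ^ g j * y j := by
    rw [AdxRow.nuc_eq hΦ g j, map_add, map_mul, eval_C, eval_X]
  rw [Pool.SYS35.eval_bind] at h1
  show (2 : ℝ) ^ g j * (eval y (nuc g Φ j) - eval (fun j => eval y (nuc g Φ j)) (Φ j)) = y j
  rw [h1]
  field_simp
  ring

theorem box_nuc (g : ℕ → ℕ) (y : ℕ → ℝ) {ρ : ℝ} {n : ℕ} (h : ∀ j < n, |y j| ≤ ρ) :
    Bxr ρ g Φ n (fun j => eval y (nuc g Φ j)) := by
  intro j hj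
  have h1 := nc_le (ρ := ρ) (g := g) (Φ := Φ) (b := fun j => eval y (nuc g Φ j)) (j := j)
  rw [nc_nuc hΦ] at h1
  exact h1.1 (h j hj)

end nat

/-- The sum of the coefficients. -/
noncomputable def n1 (F : PN) : ℝ := nrm (fun _ => 1) 1 F

theorem n1_nonneg (F : PN) : 0 ≤ n1 F := Pool.SYS35.nrm_nonneg' _ (by norm_num) F

theorem n1_eq (F : PN) : n1 F = ∑ k ∈ F.support, |F.coeff k| := by
  unfold n1 nrm
  refine Finset.sum_congr rfl fun k _ => ?_
  rw [one_pow, mul_one]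

theorem coeff_le (F : PN) (k : ℕ →₀ ℕ) : |F.coeff k| ≤ n1 F := by
  rw [n1_eq]
  by_cases hk : k ∈ F.support
  · exact Finset.single_le_sum (f := fun k => |F.coeff k|) (fun _ _ => abs_nonneg _) hk
  · rw [notMem_support_iff.1 hk, abs_zero]
    exact Finset.sum_nonneg fun _ _ => abs_nonneg _

/-- The exponents of the polynomials of degree at most `K` in the variables before `i`. -/
noncomputable def ex (i K : ℕ) : Finset (ℕ →₀ ℕ) :=
  ((range i).finsupp fun _ => range (K + 1)).filter fun k => (k.sum fun _ e => e) ≤ K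

theorem mem_ex {i K : ℕ} {k : ℕ →₀ ℕ} :
    k ∈ ex i K ↔ k.support ⊆ range i ∧ (k.sum fun _ e => e) ≤ K := by
  unfold ex
  rw [mem_filter, Finset.mem_finsupp_iff]
  constructor
  · rintro ⟨⟨h1, -⟩, h2⟩
    exact ⟨h1, h2⟩
  · rintro ⟨h1, h2⟩
    refine ⟨⟨h1, fun j _ => ?_⟩, h2⟩
    rw [mem_range]
    by_cases hj : j ∈ k.support
    · have h3 : k j ≤ k.sum fun _ e => e :=
        Finset.single_le_sum (f := fun j => k j) (fun _ _ => Nat.zero_le _) hj
      omega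
    · rw [Finsupp.notMem_support_iff.1 hj]
      omega

theorem ex_mono {i i' K : ℕ} (h : i ≤ i') : ex i K ⊆ ex i' K := fun k hk => by
  rw [mem_ex] at hk ⊢
  exact ⟨hk.1.trans (Finset.range_mono h), hk.2⟩

theorem ex_monoK {i K K' : ℕ} (h : K ≤ K') : ex i K ⊆ ex i K' := fun k hk => by
  rw [mem_ex] at hk ⊢
  exact ⟨hk.1, hk.2.trans h⟩

theorem supp_ex {F : PN} {i K : ℕ} (hv : F.vars ⊆ range i) (hK : F.totalDegree ≤ K) :
    F.support ⊆ ex i K := fun _ hk =>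
  mem_ex.2 ⟨fun _ hj => hv ((mem_vars_iff_mem_support _).2 ⟨_, hk, hj⟩), (le_totalDegree hk).trans hK⟩

theorem n1_le {F : PN} {E : Finset (ℕ →₀ ℕ)} {S : ℝ} (hE : F.support ⊆ E)
    (hS : ∀ k ∈ E, |F.coeff k| ≤ S) : n1 F ≤ E.card * S := by
  rw [n1_eq]
  calc ∑ k ∈ F.support, |F.coeff k| ≤ ∑ k ∈ E, |F.coeff k| :=
        Finset.sum_le_sum_of_subset_of_nonneg hE fun _ _ _ => abs_nonneg _
    _ ≤ ∑ _k ∈ E, S := Finset.sum_le_sum hS
    _ = E.card * S := by rw [Finset.sum_const, nsmul_eq_mul]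

/-- The value at a point of the dilated cube. -/
theorem eval_le {F : PN} {i K : ℕ} {ρ : ℝ} {y : ℕ → ℝ} (hρ : 1 ≤ ρ) (hv : F.vars ⊆ range i)
    (hK : F.totalDegree ≤ K) (hy : ∀ j < i, |y j| ≤ ρ) : |eval y F| ≤ n1 F * ρ ^ K := by
  rw [eval_eq, n1_eq, Finset.sum_mul]
  refine (Finset.abs_sum_le_sum_abs _ _).trans (Finset.sum_le_sum fun k hk => ?_)
  rw [abs_mul]
  refine mul_le_mul_of_nonneg_left ?_ (abs_nonneg _)
  have h1 := mem_ex.1 (supp_ex hv hK hk)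
  rw [Finset.abs_prod]
  calc ∏ j ∈ k.support, |y j ^ k j| ≤ ∏ j ∈ k.support, ρ ^ k j := by
        refine Finset.prod_le_prod (fun _ _ => abs_nonneg _) fun j hj => ?_
        rw [abs_pow]
        exact pow_le_pow_left₀ (abs_nonneg _) (hy j (mem_range.1 (h1.1 hj))) _
    _ = ρ ^ ∑ j ∈ k.support, k j := by rw [Finset.prod_pow_eq_pow_sum]
    _ ≤ ρ ^ K := pow_le_pow_right₀ hρ h1.2

/-- From the unit cube to the coefficients. -/
theorem n1_of_cube (i K : ℕ) : ∃ C : ℝ, 1 ≤ C ∧ ∀ (F : PN) (S : ℝ), F.vars ⊆ range i →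
    F.totalDegree ≤ K → (∀ y : ℕ → ℝ, (∀ j < i, |y j| ≤ 1) → |eval y F| ≤ S) → n1 F ≤ C * S := by
  obtain ⟨C, hC, h⟩ := Pool.SYS35.nrm_of_sup i K
  refine ⟨C, hC, fun F S hv hK hS => h (fun _ => 1) 1 F S one_pos hv hK fun b hb => hS b ?_⟩
  intro j hj
  have := hb j hj
  rwa [one_pow] at this

/-- Degree and variables in natural coordinates. -/
theorem nat_deg {Φ : ℕ → PN} (hΦ : TriN Φ) {K n i : ℕ} (hK : ∀ j, (Φ j).totalDegree ≤ K)
    (g : ℕ → ℕ) {F : PN} (hi : i ≤ n) (hv : F.vars ⊆ range i) (hF : F.totalDegree ≤ K) :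
    (bind₁ (nuc g Φ) F).vars ⊆ range i ∧
      (bind₁ (nuc g Φ) F).totalDegree ≤ K * (K + 1) ^ (n + 1) := by
  constructor
  · exact AdxRow.vars_bnd hv fun k hk => (AdxRow.nuc_vars hΦ g k).trans
      (Finset.range_mono (by omega))
  · refine (Dgb.deg_bind (B := (K + 1) ^ (n + 1)) fun k hk => ?_).trans
      (Nat.mul_le_mul_right _ hF)
    have hk' := mem_range.1 (hv hk)
    refine (Dgb.deg_nuc (n := n) hΦ (fun j _ => hK j) g k (by omega)).trans ?_
    exact Nat.pow_le_pow_right (Nat.succ_pos _) (by omega)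

/-- **Natural boxes and natural coefficients.** -/
theorem n1_of_box (n K : ℕ) : ∃ C : ℝ, 1 ≤ C ∧ ∀ (Φ : ℕ → PN) (g : ℕ → ℕ) (F : PN) (i : ℕ)
    (S : ℝ), TriN Φ → (∀ j, (Φ j).totalDegree ≤ K) → i ≤ n → F.vars ⊆ range i →
    F.totalDegree ≤ K → (∀ b : ℕ → ℝ, Bxr 1 g Φ i b → |eval b F| ≤ S) →
    n1 (bind₁ (nuc g Φ) F) ≤ C * S := by
  obtain ⟨C, hC⟩ : ∃ C : ℕ → ℝ, ∀ i, 1 ≤ C i ∧ ∀ (F : PN) (S : ℝ), F.vars ⊆ range i →
      F.totalDegree ≤ K * (K + 1) ^ (n + 1) →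
      (∀ y : ℕ → ℝ, (∀ j < i, |y j| ≤ 1) → |eval y F| ≤ S) → n1 F ≤ C i * S := by
    choose C hC using fun i => n1_of_cube i (K * (K + 1) ^ (n + 1))
    exact ⟨C, hC⟩
  have h1 : ∀ i ≤ n, C i ≤ ∑ j ∈ range (n + 1), C j := fun i hi =>
    Finset.single_le_sum (f := C) (fun j _ => zero_le_one.trans (hC j).1)
      (mem_range.2 (by omega))
  refine ⟨∑ j ∈ range (n + 1), C j, (hC 0).1.trans (h1 0 (Nat.zero_le _)), ?_⟩
  intro Φ g F i S hΦ hK hi hv hF hS
  obtain ⟨h2, h3⟩ := nat_deg hΦ hK g hi hv hF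
  have hS0 : 0 ≤ S := (abs_nonneg _).trans (hS _ (box_nuc hΦ g (fun _ => (0 : ℝ))
    (ρ := 1) fun j _ => by
      rw [abs_zero]
      exact zero_le_one))
  refine ((hC i).2 _ S h2 h3 fun y hy => ?_).trans
    (mul_le_mul_of_nonneg_right (h1 i hi) hS0)
  rw [Pool.SYS35.eval_bind]
  exact hS _ (box_nuc hΦ g y hy)

/-- **Dilation** of the natural box. -/
theorem dil (n K : ℕ) : ∃ C : ℝ, 1 ≤ C ∧ ∀ (Φ : ℕ → PN) (g : ℕ → ℕ) (F : PN) (i : ℕ)
    (S ρ : ℝ), TriN Φ → (∀ j, (Φ j).totalDegree ≤ K) → i ≤ n → F.vars ⊆ range i →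
    F.totalDegree ≤ K → 1 ≤ ρ → (∀ b : ℕ → ℝ, Bxr 1 g Φ i b → |eval b F| ≤ S) →
    ∀ b : ℕ → ℝ, Bxr ρ g Φ i b → |eval b F| ≤ C * S * ρ ^ (K * (K + 1) ^ (n + 1)) := by
  obtain ⟨C, hC, h⟩ := n1_of_box n K
  refine ⟨C, hC, fun Φ g F i S ρ hΦ hK hi hv hF hρ hS b hb => ?_⟩
  obtain ⟨h2, h3⟩ := nat_deg hΦ hK g hi hv hF
  rw [eval_nat hΦ g b F]
  refine (eval_le hρ h2 h3 fun j hj => nc_le.2 (hb j hj)).trans ?_
  exact mul_le_mul_of_nonneg_right (h Φ g F i S hΦ hK hi hv hF hS) (by positivity)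

/-! ### Rounding -/

/-- Two real vectors at distance at most `D`: the difference of the roundings is constant on an
event of probability at least a constant. -/
theorem round {Ω : Type} [Fintype Ω] {p : Ω → ℝ} (hp : IsLaw p) (A : Ω → Prop)
    (E : Finset (ℕ →₀ ℕ)) {D : ℝ} (hD : 0 < D) (α β : Ω → (ℕ →₀ ℕ) → ℝ)
    (h : ∀ ω, A ω → ∀ k ∈ E, |α ω k - β ω k| ≤ D) :
    ∃ (v : (ℕ →₀ ℕ) → ℤ) (B : Ω → Prop), (∀ ω, B ω → A ω) ∧ Pe p A ≤ 5 ^ E.card * Pe p B ∧
      ∀ ω, B ω → ∀ k ∈ E, ⌊α ω k / D⌋ = ⌊β ω k / D⌋ + v k := by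
  classical
  obtain ⟨S, hS⟩ : ∃ S : Finset ((k : ↥E) → ℤ), S = Fintype.piFinset fun _ =>
    Finset.Icc (-2 : ℤ) 2 := ⟨_, rfl⟩
  have hcard : S.card = 5 ^ E.card := by
    rw [hS, Fintype.card_piFinset]
    simp
  have hne : S.Nonempty := by
    rw [← Finset.card_pos, hcard]
    positivity
  obtain ⟨v, -, hv⟩ := Pool.FLF.pigeon hp (A := A)
    (fun ω (k : ↥E) => ⌊α ω k.1 / D⌋ - ⌊β ω k.1 / D⌋) S hne (by
      intro ω hω
      rw [hS, Fintype.mem_piFinset]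
      intro k
      have h1 := h ω hω k.1 k.2
      have h2 : |α ω k.1 / D - β ω k.1 / D| ≤ 1 := by
        rw [← sub_div, abs_div, abs_of_pos hD, div_le_one hD]
        exact h1
      rw [abs_le] at h2
      have e1 := Int.floor_le (α ω k.1 / D)
      have e2 := Int.lt_floor_add_one (α ω k.1 / D)
      have e3 := Int.floor_le (β ω k.1 / D)
      have e4 := Int.lt_floor_add_one (β ω k.1 / D)
      have e5 : (⌊α ω k.1 / D⌋ : ℝ) - ⌊β ω k.1 / D⌋ < 2 := by linarith [h2.2]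
      have e6 : (-2 : ℝ) < (⌊α ω k.1 / D⌋ : ℝ) - ⌊β ω k.1 / D⌋ := by linarith [h2.1]
      have e7 : ⌊α ω k.1 / D⌋ - ⌊β ω k.1 / D⌋ < 2 := by exact_mod_cast e5
      have e8 : -2 < ⌊α ω k.1 / D⌋ - ⌊β ω k.1 / D⌋ := by exact_mod_cast e6
      rw [Finset.mem_Icc]
      omega)
  refine ⟨fun k => if hk : k ∈ E then v ⟨k, hk⟩ else 0, fun ω => A ω ∧
    (fun (k : ↥E) => ⌊α ω k.1 / D⌋ - ⌊β ω k.1 / D⌋) = v, fun ω hω => hω.1, ?_, ?_⟩
  · rw [hcard] at hv
    have h5 : (0 : ℝ) < ((5 ^ E.card : ℕ) : ℝ) := by positivity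
    rw [div_le_iff₀ h5] at hv
    push_cast at hv
    linarith
  · intro ω hω k hk
    have h1 : ⌊α ω k / D⌋ - ⌊β ω k / D⌋ = v ⟨k, hk⟩ := congrFun hω.2 ⟨k, hk⟩
    show ⌊α ω k / D⌋ = ⌊β ω k / D⌋ + if hk : k ∈ E then v ⟨k, hk⟩ else 0
    rw [dif_pos hk]
    omega

/-- The polynomial with the given rounded coefficients. -/
noncomputable def rp (E : Finset (ℕ →₀ ℕ)) (D : ℝ) (x : (ℕ →₀ ℕ) → ℤ) : PN :=
  ∑ k ∈ E, monomial k (D * x k)

theorem coeff_rp (E : Finset (ℕ →₀ ℕ)) (D : ℝ) (x : (ℕ →₀ ℕ) → ℤ) (k : ℕ →₀ ℕ) :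
    (rp E D x).coeff k = if k ∈ E then D * x k else 0 := by
  classical
  unfold rp
  rw [coeff_sum]
  simp only [coeff_monomial]
  rw [Finset.sum_ite_eq' E k]

theorem rp_supp (E : Finset (ℕ →₀ ℕ)) (D : ℝ) (x : (ℕ →₀ ℕ) → ℤ) : (rp E D x).support ⊆ E := by
  intro k hk
  rw [mem_support_iff, coeff_rp] at hk
  by_contra h
  exact hk (if_neg h)

theorem rp_deg {i K : ℕ} (D : ℝ) (x : (ℕ →₀ ℕ) → ℤ) : (rp (ex i K) D x).totalDegree ≤ K := by
  rw [totalDegree, Finset.sup_le_iff]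
  exact fun k hk => (mem_ex.1 (rp_supp _ D x hk)).2

theorem rp_vars {i K : ℕ} (D : ℝ) (x : (ℕ →₀ ℕ) → ℤ) : (rp (ex i K) D x).vars ⊆ range i := by
  intro j hj
  obtain ⟨k, hk, hj'⟩ := (mem_vars_iff_mem_support _).1 hj
  exact (mem_ex.1 (rp_supp _ D x hk)).1 hj'

/-- The rounded polynomial is near. -/
theorem rp_near {i K : ℕ} {D : ℝ} (hD : 0 < D) {F : PN} (hv : F.vars ⊆ range i)
    (hK : F.totalDegree ≤ K) : n1 (rp (ex i K) D (fun k => ⌊F.coeff k / D⌋) - F) ≤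
      (ex i K).card * D := by
  refine n1_le ?_ fun k hk => ?_
  · intro k hk
    by_contra h
    rw [mem_support_iff, coeff_sub, coeff_rp, if_neg h, zero_sub, neg_ne_zero] at hk
    exact h (supp_ex hv hK (mem_support_iff.2 hk))
  · rw [coeff_sub, coeff_rp, if_pos hk]
    have e1 := Int.floor_le (F.coeff k / D)
    have e2 := Int.lt_floor_add_one (F.coeff k / D)
    rw [le_div_iff₀ hD] at e1
    rw [div_lt_iff₀ hD] at e2
    rw [abs_le]
    constructor <;> nlinarith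

/-! ### Boxes of near systems -/

/-- The exponents of the radii. -/
def cc (c : ℕ) : ℕ → ℕ
  | 0 => 1
  | j + 1 => c * (1 + cc c j)

theorem pow_sum_le {c : ℕ} (hc : 1 ≤ c) {x r : ℝ} (hx : 1 ≤ x) (hr : 1 ≤ r) :
    r + x ^ c ≤ (2 * x * r) ^ c := by
  have h1 : 1 ≤ x ^ c := one_le_pow₀ hx
  have h2 : r ≤ r ^ c := le_self_pow₀ hr (by omega)
  have h3 : (2 : ℝ) ≤ 2 ^ c := le_self_pow₀ (by norm_num) (by omega)
  have h4 : r + x ^ c ≤ 2 * (x ^ c * r) := by nlinarith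
  calc r + x ^ c ≤ 2 * (x ^ c * r) := h4
    _ ≤ 2 ^ c * (x ^ c * r ^ c) := by
        refine mul_le_mul h3 ?_ (by positivity) (by positivity)
        exact mul_le_mul_of_nonneg_left h2 (by positivity)
    _ = (2 * x * r) ^ c := by rw [mul_pow, mul_pow]; ring

section box

variable {c : ℕ} {S : ℝ} {g : ℕ → ℕ} {Φ Ψ : ℕ → PN} {i : ℕ}

/-- The systems `Φ` and `Ψ` are near on the boxes of `Ψ`, coordinates `< i`. -/
def Nr (c : ℕ) (S : ℝ) (g : ℕ → ℕ) (Φ Ψ : ℕ → PN) (i : ℕ) : Prop :=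
  Φ 0 = Ψ 0 ∧ ∀ j, 1 ≤ j → j < i → ∀ ρ : ℝ, 1 ≤ ρ → ∀ b : ℕ → ℝ, Bxr ρ g Ψ j b →
    |eval b (Φ j) - eval b (Ψ j)| ≤ (c * S * ρ) ^ c / 2 ^ g j

theorem Nr.all (hc : 1 ≤ c) (hS : 1 ≤ S) (h : Nr c S g Φ Ψ i) {j : ℕ} (hj : j < i) {ρ : ℝ}
    (hρ : 1 ≤ ρ) {b : ℕ → ℝ} (hb : Bxr ρ g Ψ j b) :
    |eval b (Φ j) - eval b (Ψ j)| ≤ (c * S * ρ) ^ c / 2 ^ g j := by
  rcases Nat.eq_zero_or_pos j with rfl | h1
  · rw [h.1, sub_self, abs_zero]
    have : (0 : ℝ) ≤ c * S * ρ := by positivity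
    positivity
  · exact h.2 j h1 hj ρ hρ b hb

theorem Nr.mono {i' : ℕ} (h : Nr c S g Φ Ψ i) (hi : i' ≤ i) : Nr c S g Φ Ψ i' :=
  ⟨h.1, fun j h1 h2 => h.2 j h1 (by omega)⟩

theorem Nr.mono_c {c' : ℕ} (hc : 1 ≤ c) (hS : 1 ≤ S) (h : Nr c S g Φ Ψ i) (hcc : c ≤ c') :
    Nr c' S g Φ Ψ i := by
  refine ⟨h.1, fun j h1 h2 ρ hρ b hb => (h.2 j h1 h2 ρ hρ b hb).trans
    (div_le_div_of_nonneg_right ?_ (by positivity))⟩
  have e1 : (1 : ℝ) ≤ c := by exact_mod_cast hc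
  have e2 : (c : ℝ) ≤ c' := by exact_mod_cast hcc
  have e3 : (1 : ℝ) ≤ c * S * ρ := by
    have : (1 : ℝ) ≤ c * S := by nlinarith
    nlinarith
  have e4 : (c : ℝ) * S * ρ ≤ c' * S * ρ := by gcongr
  exact (pow_le_pow_right₀ e3 hcc).trans (pow_le_pow_left₀ (by positivity) e4 _)

/-- From the boxes of `Φ` to the boxes of `Ψ`. -/
theorem Nr.box (hc : 1 ≤ c) (hS : 1 ≤ S) (h : Nr c S g Φ Ψ i) {r : ℝ} (hr : 1 ≤ r) {b : ℕ → ℝ}
    (hb : Bxr r g Φ i b) : ∀ j ≤ i, Bxr ((2 * c * S * r) ^ cc c j) g Ψ j b := by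
  have hc' : (1 : ℝ) ≤ c := by exact_mod_cast hc
  have hcS : (1 : ℝ) ≤ c * S := by nlinarith
  obtain ⟨Θ, hΘ⟩ : ∃ Θ, Θ = 2 * c * S * r := ⟨_, rfl⟩
  have hΘ1 : 1 ≤ Θ := by
    rw [hΘ]
    nlinarith
  rw [← hΘ]
  intro j
  induction j with
  | zero => exact fun _ i hi => absurd hi (Nat.not_lt_zero _)
  | succ j ih =>
    intro hj
    have ih := ih (by omega)
    have hcc : cc c j ≤ cc c (j + 1) := by
      show cc c j ≤ c * (1 + cc c j)
      nlinarith
    intro l hl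
    rcases Nat.lt_succ_iff_lt_or_eq.1 hl with h1 | rfl
    · exact (ih l h1).trans (div_le_div_of_nonneg_right (pow_le_pow_right₀ hΘ1 hcc)
        (by positivity))
    · have hΘj : 1 ≤ Θ ^ cc c l := one_le_pow₀ hΘ1
      have h2 := h.all hc hS (by omega) hΘj ih
      have h3 := hb l (by omega)
      have h4 : |b l - eval b (Ψ l)| ≤ |b l - eval b (Φ l)| + |eval b (Φ l) - eval b (Ψ l)| := by
        have := abs_add_le (b l - eval b (Φ l)) (eval b (Φ l) - eval b (Ψ l))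
        rwa [sub_add_sub_cancel] at this
      refine (h4.trans (add_le_add h3 h2)).trans ?_
      rw [← add_div]
      refine div_le_div_of_nonneg_right ?_ (by positivity)
      refine (pow_sum_le hc (x := c * S * Θ ^ cc c l) (by nlinarith) hr).trans (le_of_eq ?_)
      show _ = Θ ^ (c * (1 + cc c l))
      rw [mul_comm c, pow_mul, pow_add, pow_one]
      congr 1
      rw [hΘ]
      ring

/-- From the boxes of `Ψ` to the boxes of `Φ`. -/
theorem Nr.box' (hc : 1 ≤ c) (hS : 1 ≤ S) (h : Nr c S g Φ Ψ i) {ρ : ℝ} (hρ : 1 ≤ ρ) {b : ℕ → ℝ}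
    (hb : Bxr ρ g Ψ i b) : Bxr ((2 * c * S * ρ) ^ c) g Φ i b := by
  have hc' : (1 : ℝ) ≤ c := by exact_mod_cast hc
  have hcS : (1 : ℝ) ≤ c * S := by nlinarith
  intro j hj
  have h2 := h.all hc hS hj hρ (hb.mono le_rfl hj.le)
  have h3 := hb j hj
  have h4 : |b j - eval b (Φ j)| ≤ |b j - eval b (Ψ j)| + |eval b (Φ j) - eval b (Ψ j)| := by
    have := abs_add_le (b j - eval b (Ψ j)) (-(eval b (Φ j) - eval b (Ψ j)))
    rw [abs_neg] at this
    refine le_trans (le_of_eq ?_) this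
    congr 1
    ring
  refine (h4.trans (add_le_add h3 h2)).trans ?_
  rw [← add_div]
  refine div_le_div_of_nonneg_right ?_ (by positivity)
  calc ρ + (c * S * ρ) ^ c ≤ (c * S * ρ) ^ c + (c * S * ρ) ^ c := by
        refine add_le_add_left ?_ _
        have h5 : ρ ≤ c * S * ρ := by nlinarith
        exact h5.trans (le_self_pow₀ (by nlinarith) (by omega))
    _ = 2 * (c * S * ρ) ^ c := by ring
    _ ≤ 2 ^ c * (c * S * ρ) ^ c := by
        refine mul_le_mul_of_nonneg_right ?_ (by positivity)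
        exact le_self_pow₀ (by norm_num) (by omega)
    _ = (2 * c * S * ρ) ^ c := by rw [← mul_pow]; congr 1; ring

end box

/-! ### The construction -/

/-- The type of the labels: the time cell and the rounded coefficients. -/
abbrev LV : Type := ℝ × (ℕ → (ℕ →₀ ℕ) → ℤ)

/-- **The two-sided data** of one level. -/
structure Raw {Ω Y Λ : Type} (n K : ℕ) (S : ℝ) (A : Ω → Prop) (pt : Ω → Y) (ln : Ω → Λ)
    (τ : Y → ℝ) (τ' : Λ → ℝ) (g : ℕ → ℕ) (G : Y → ℕ → PN) (R : Λ → ℕ → PN) : Prop where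
  G_tri : ∀ y, TriN (G y)
  G_deg : ∀ y i, (G y i).totalDegree ≤ K
  R_tri : ∀ s, TriN (R s)
  R_deg : ∀ s i, (R s i).totalDegree ≤ K
  G_zero : ∀ y, G y 0 = MvPolynomial.C (τ y)
  time : ∀ ω, A ω → τ (pt ω) = τ' (ln ω)
  near : ∀ ω, A ω → ∀ i, 1 ≤ i → i ≤ n → ∀ b : ℕ → ℝ, Bx g (G (pt ω)) i b →
    |eval b (G (pt ω) i) - eval b (R (ln ω) i)| ≤ S / 2 ^ g i

/-- **The exact closed labels**, coordinates `< i`. -/
structure Cld {Ω Y Λ : Type} (i c : ℕ) (S : ℝ) (B : Ω → Prop) (pt : Ω → Y) (ln : Ω → Λ)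
    (τ : Y → ℝ) (τ' : Λ → ℝ) (g : ℕ → ℕ) (G : Y → ℕ → PN) (z : Y → LV) (z' : Λ → LV)
    (P : LV → ℕ → PN) : Prop where
  tri : ∀ v, TriN (P v)
  deg : ∀ v j, (P v j).totalDegree ≤ c
  zero : ∀ v, P v 0 = MvPolynomial.C v.1
  fst : ∀ y, (z y).1 = τ y
  fst' : ∀ s, (z' s).1 = τ' s
  loc : ∀ v v' : LV, v.1 = v'.1 → (∀ j < i, v.2 j = v'.2 j) → P v = P v'
  cls : ∀ ω, B ω → z (pt ω) = z' (ln ω)
  near : ∀ ω, B ω → Nr c S g (P (z (pt ω))) (G (pt ω)) i
  supp : ∀ y j k, (k ∉ ex j c ∨ j = 0 ∨ i ≤ j) → (z y).2 j k = 0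
  sep : ∀ y y', (z y).1 = (z y').1 → ∀ j < i, (∀ k < j, (z y).2 k = (z y').2 k) →
    ∀ S' : ℝ, 0 ≤ S' → (∀ b : ℕ → ℝ, Bx g (P (z y)) j b →
      |eval b (P (z y) j) - eval b (P (z y') j)| ≤ S' / 2 ^ g j) →
    ∀ k, |(((z y).2 j k - (z y').2 j k : ℤ) : ℝ)| ≤ c * S'

theorem pow_le_of {a b : ℝ} {p q : ℕ} (ha : 1 ≤ a) (hab : a ≤ b) (hpq : p ≤ q) : a ^ p ≤ b ^ q :=
  (pow_le_pow_right₀ ha hpq).trans (pow_le_pow_left₀ (by linarith) hab _)

theorem core (n K : ℕ) : ∀ i ≤ n + 1, ∃ c : ℕ, 1 ≤ c ∧ ∀ (Ω Y Λ : Type) [Fintype Ω]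
    (p : Ω → ℝ) (S : ℝ) (A : Ω → Prop) (pt : Ω → Y) (ln : Ω → Λ) (τ : Y → ℝ) (τ' : Λ → ℝ)
    (g : ℕ → ℕ) (G : Y → ℕ → PN) (R : Λ → ℕ → PN), IsLaw p → 1 ≤ S →
    Raw n K S A pt ln τ τ' g G R → ∃ (z : Y → LV) (z' : Λ → LV) (P : LV → ℕ → PN)
      (B : Ω → Prop), (∀ ω, B ω → A ω) ∧ Pe p A ≤ c * Pe p B ∧
      Cld i c S B pt ln τ τ' g G z z' P := by
  classical
  intro i
  induction i with
  | zero =>
    intro _
    refine ⟨1, le_rfl, ?_⟩
    intro Ω Y Λ _ p S A pt ln τ τ' g G R hp hS hR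
    refine ⟨fun y => (τ y, fun _ _ => 0), fun s => (τ' s, fun _ _ => 0),
      fun v j => if j = 0 then MvPolynomial.C v.1 else 0, A, fun _ h => h, ?_, ?_⟩
    · rw [Nat.cast_one, one_mul]
    · refine ⟨fun v j => ?_, fun v j => ?_, fun v => if_pos rfl, fun _ => rfl, fun _ => rfl,
        fun v v' h _ => by simp only [h], fun ω hω => ?_, fun ω hω => ⟨?_, fun j _ hj =>
        absurd hj (Nat.not_lt_zero _)⟩, fun _ _ _ _ => rfl, fun y y' _ j hj =>
        absurd hj (Nat.not_lt_zero _)⟩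
      · show (if j = 0 then MvPolynomial.C v.1 else (0 : PN)).vars ⊆ range j
        split_ifs
        · rw [vars_C]
          exact Finset.empty_subset _
        · rw [vars_0]
          exact Finset.empty_subset _
      · show (if j = 0 then MvPolynomial.C v.1 else (0 : PN)).totalDegree ≤ 1
        split_ifs
        · rw [totalDegree_C]
          exact Nat.zero_le _
        · rw [totalDegree_zero]
          exact Nat.zero_le _
      · show (τ (pt ω), fun _ _ => (0 : ℤ)) = (τ' (ln ω), fun _ _ => (0 : ℤ))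
        rw [hR.time ω hω]
      · show (if (0 : ℕ) = 0 then MvPolynomial.C (τ (pt ω)) else (0 : PN)) = _
        rw [if_pos rfl, hR.G_zero]
  | succ l ih =>
    intro hl
    obtain ⟨c₀, hc₀, ih⟩ := ih (by omega)
    rcases Nat.eq_zero_or_pos l with rfl | hl1
    · refine ⟨c₀, hc₀, ?_⟩
      intro Ω Y Λ _ p S A pt ln τ τ' g G R hp hS hR
      obtain ⟨z, z', P, B, hB, hPe, h⟩ := ih Ω Y Λ p S A pt ln τ τ' g G R hp hS hR
      refine ⟨z, z', P, B, hB, hPe, h.tri, h.deg, h.zero, h.fst, h.fst', fun v v' h1 _ =>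
        h.loc v v' h1 fun j hj => absurd hj (Nat.not_lt_zero _), h.cls, fun ω hω => ?_,
        fun y j k _ => h.supp y j k (Or.inr (Or.inr (Nat.zero_le _))),
        fun y y' _ j hj _ S' hS' _ k => ?_⟩
      · exact ⟨(h.near ω hω).1, fun j h1 hj => by omega⟩
      · have h0 : ∀ y, (z y).2 j k = 0 := fun y =>
          h.supp y j k (Or.inr (Or.inr (Nat.zero_le _)))
        rw [h0, h0, sub_self, Int.cast_zero, abs_zero]
        positivity
    obtain ⟨C₁, hC₁, hdil⟩ := dil n K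
    obtain ⟨C₂, hC₂, hbox⟩ := n1_of_box n (max K c₀)
    obtain ⟨K₁, hK₁⟩ : ∃ K₁, K₁ = K * (K + 1) ^ (n + 1) := ⟨_, rfl⟩
    obtain ⟨K₂, hK₂⟩ : ∃ K₂, K₂ = max K c₀ * (max K c₀ + 1) ^ (n + 1) := ⟨_, rfl⟩
    rw [← hK₁] at hdil
    obtain ⟨E, hE⟩ : ∃ E, E = ex l K₂ := ⟨_, rfl⟩
    obtain ⟨e, he⟩ := pow_unbounded_of_one_lt (E.card * C₂ * C₁) (one_lt_two (α := ℝ))
    obtain ⟨N, hN⟩ : ∃ N, N = e + 1 + cc c₀ l * K₁ + c₀ * K₂ := ⟨_, rfl⟩
    obtain ⟨C₃, hC₃, hcube⟩ := n1_of_cube l K₂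
    obtain ⟨N₃, hN₃⟩ := exists_nat_ge C₃
    refine ⟨2 * c₀ + N + c₀ * 5 ^ E.card + K₂ * c₀ + (N₃ + K₂), by omega, ?_⟩
    obtain ⟨c, hc⟩ : ∃ c, c = 2 * c₀ + N + c₀ * 5 ^ E.card + K₂ * c₀ + (N₃ + K₂) := ⟨_, rfl⟩
    rw [← hc]
    have hcc₀ : c₀ ≤ c := by
      rw [hc]
      nlinarith [Nat.zero_le N, Nat.zero_le (c₀ * 5 ^ E.card), Nat.zero_le (K₂ * c₀)]
    have hcK₂ : K₂ ≤ c := by
      rw [hc]
      omega
    have hcC₃ : C₃ ≤ c := by
      refine hN₃.trans ?_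
      rw [hc]
      push_cast
      have : (0 : ℝ) ≤ N := Nat.cast_nonneg _
      have : (0 : ℝ) ≤ K₂ := Nat.cast_nonneg _
      have : (0 : ℝ) ≤ K₂ * c₀ := by positivity
      have : (0 : ℝ) ≤ c₀ := Nat.cast_nonneg _
      have : (0 : ℝ) ≤ c₀ * 5 ^ E.card := by positivity
      linarith
    intro Ω Y Λ _ p S A pt ln τ τ' g G R hp hS hR
    obtain ⟨z, z', P, B, hB, hPe, h⟩ := ih Ω Y Λ p S A pt ln τ τ' g G R hp hS hR
    have hc₀' : (1 : ℝ) ≤ c₀ := by exact_mod_cast hc₀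
    have hcS : (1 : ℝ) ≤ c₀ * S := by nlinarith
    have hC₁0 : 0 ≤ C₁ := by linarith
    have hC₂0 : 0 ≤ C₂ := by linarith
    have hPd : ∀ v j, (P v j).totalDegree ≤ max K c₀ := fun v j =>
      (h.deg v j).trans (le_max_right _ _)
    -- the size of the difference
    obtain ⟨Θ₀, hΘ₀⟩ : ∃ Θ₀, Θ₀ = 2 * c₀ * S := ⟨_, rfl⟩
    have hΘ₀1 : 1 ≤ Θ₀ := by
      rw [hΘ₀]
      nlinarith
    obtain ⟨D, hD⟩ : ∃ D, D = C₂ * (C₁ * (S / 2 ^ g l) * (Θ₀ ^ cc c₀ l) ^ K₁) := ⟨_, rfl⟩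
    have hD0 : 0 < D := by
      rw [hD]
      positivity
    have hdif : ∀ ω, B ω → n1 (bind₁ (nuc g (P (z (pt ω)))) (G (pt ω) l - R (ln ω) l)) ≤ D := by
      intro ω hω
      rw [hD]
      refine hbox (P (z (pt ω))) g _ l _ (h.tri _) (hPd _) (by omega) ?_ ?_ fun b hb => ?_
      · exact AdxRow.vars_sub_le (hR.G_tri _ l) (hR.R_tri _ l)
      · exact (totalDegree_sub _ _).trans (max_le ((hR.G_deg _ _).trans (le_max_left _ _))
          ((hR.R_deg _ _).trans (le_max_left _ _)))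
      · refine hdil (G (pt ω)) g _ l (S / 2 ^ g l) (Θ₀ ^ cc c₀ l) (hR.G_tri _) (hR.G_deg _)
          (by omega) (AdxRow.vars_sub_le (hR.G_tri _ l) (hR.R_tri _ l))
          ((totalDegree_sub _ _).trans (max_le (hR.G_deg _ _) (hR.R_deg _ _)))
          (one_le_pow₀ hΘ₀1) (fun b hb => ?_) b ?_
        · rw [map_sub]
          exact hR.near ω (hB ω hω) l hl1 (by omega) b hb
        · have h1 := (h.near ω hω).box hc₀ hS le_rfl hb l le_rfl
          rwa [mul_one, ← hΘ₀] at h1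
    -- the natural polynomials
    obtain ⟨f, hf⟩ : ∃ f : Y → PN, f = fun y => bind₁ (nuc g (P (z y))) (G y l) := ⟨_, rfl⟩
    obtain ⟨f', hf'⟩ : ∃ f' : Λ → PN, f' = fun s => bind₁ (nuc g (P (z' s))) (R s l) := ⟨_, rfl⟩
    have hfd : ∀ y, (f y).vars ⊆ range l ∧ (f y).totalDegree ≤ K₂ := by
      intro y
      rw [hf, hK₂]
      exact nat_deg (h.tri _) (hPd _) g (by omega) (hR.G_tri _ l)
        ((hR.G_deg _ _).trans (le_max_left _ _))
    have hfd' : ∀ s, (f' s).vars ⊆ range l ∧ (f' s).totalDegree ≤ K₂ := by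
      intro s
      rw [hf', hK₂]
      exact nat_deg (h.tri _) (hPd _) g (by omega) (hR.R_tri _ l)
        ((hR.R_deg _ _).trans (le_max_left _ _))
    have hff : ∀ ω, B ω → n1 (f (pt ω) - f' (ln ω)) ≤ D := by
      intro ω hω
      have h1 : f (pt ω) - f' (ln ω) =
          bind₁ (nuc g (P (z (pt ω)))) (G (pt ω) l - R (ln ω) l) := by
        rw [hf, hf']
        show bind₁ (nuc g (P (z (pt ω)))) (G (pt ω) l) - bind₁ (nuc g (P (z' (ln ω)))) (R (ln ω) l) = _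
        rw [← h.cls ω hω, map_sub]
      rw [h1]
      exact hdif ω hω
    obtain ⟨v, B', hB', hPe', hround⟩ := round hp B E hD0 (fun ω k => (f (pt ω)).coeff k)
      (fun ω k => (f' (ln ω)).coeff k) (fun ω hω k _ => by
        rw [← coeff_sub]
        exact (coeff_le _ k).trans (hff ω hω))
    -- the new labels
    obtain ⟨x, hx⟩ : ∃ x : Y → (ℕ →₀ ℕ) → ℤ, x = fun y k => if k ∈ E then
      ⌊(f y).coeff k / D⌋ else 0 := ⟨_, rfl⟩
    obtain ⟨x', hx'⟩ : ∃ x' : Λ → (ℕ →₀ ℕ) → ℤ, x' = fun s k => if k ∈ E then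
      ⌊(f' s).coeff k / D⌋ + v k else 0 := ⟨_, rfl⟩
    have hxx : ∀ ω, B' ω → x (pt ω) = x' (ln ω) := by
      intro ω hω
      rw [hx, hx']
      funext k
      show (if k ∈ E then ⌊(f (pt ω)).coeff k / D⌋ else 0) =
        if k ∈ E then ⌊(f' (ln ω)).coeff k / D⌋ + v k else 0
      by_cases hk : k ∈ E
      · rw [if_pos hk, if_pos hk]
        exact hround ω hω k hk
      · rw [if_neg hk, if_neg hk]
    have hrp : ∀ y, rp E D (x y) = rp E D (fun k => ⌊(f y).coeff k / D⌋) := by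
      intro y
      unfold rp
      refine Finset.sum_congr rfl fun k hk => ?_
      rw [hx]
      show monomial k (D * ((if k ∈ E then ⌊(f y).coeff k / D⌋ else 0 : ℤ) : ℝ)) = _
      rw [if_pos hk]
    obtain ⟨Q, hQ⟩ : ∃ Q : LV → ℕ → PN, Q = fun w j => if j = l then
      bind₁ (fun m => MvPolynomial.C ((2 : ℝ) ^ g m) * (X m - P w m)) (rp E D (w.2 l))
      else P w j := ⟨_, rfl⟩
    have hQl : ∀ w, Q w l = bind₁ (fun m => MvPolynomial.C ((2 : ℝ) ^ g m) * (X m - P w m))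
        (rp E D (w.2 l)) := fun w => by
      rw [hQ]
      exact if_pos rfl
    have hQj : ∀ w j, j ≠ l → Q w j = P w j := fun w j hj => by
      rw [hQ]
      exact if_neg hj
    obtain ⟨y₁, hy₁⟩ : ∃ y₁ : Y → LV, y₁ = fun y =>
      ((z y).1, Function.update (z y).2 l (x y)) := ⟨_, rfl⟩
    obtain ⟨s₁, hs₁⟩ : ∃ s₁ : Λ → LV, s₁ = fun s =>
      ((z' s).1, Function.update (z' s).2 l (x' s)) := ⟨_, rfl⟩
    have hPy : ∀ y, P (y₁ y) = P (z y) := fun y => h.loc _ _ (by rw [hy₁]) fun j hj => by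
      rw [hy₁]
      exact Function.update_of_ne (by omega) _ _
    have hy2 : ∀ y, (y₁ y).2 l = x y := fun y => by
      rw [hy₁]
      exact Function.update_self _ _ _
    refine ⟨y₁, s₁, Q, B', fun ω hω => hB ω (hB' ω hω), ?_, ?_⟩
    · have h5 : (0 : ℝ) ≤ Pe p B' := Pe_nonneg hp _
      have h6 : ((c₀ * 5 ^ E.card : ℕ) : ℝ) ≤ c := by
        rw [hc]
        push_cast
        have : (0 : ℝ) ≤ N := Nat.cast_nonneg _
        have : (0 : ℝ) ≤ N₃ := Nat.cast_nonneg _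
        have : (0 : ℝ) ≤ K₂ := Nat.cast_nonneg _
        have : (0 : ℝ) ≤ K₂ * c₀ := by positivity
        linarith
      calc Pe p A ≤ c₀ * Pe p B := hPe
        _ ≤ c₀ * (5 ^ E.card * Pe p B') := mul_le_mul_of_nonneg_left hPe' (by positivity)
        _ = ((c₀ * 5 ^ E.card : ℕ) : ℝ) * Pe p B' := by
            push_cast
            ring
        _ ≤ c * Pe p B' := mul_le_mul_of_nonneg_right h6 h5
    refine ⟨fun w j => ?_, fun w j => ?_, fun w => ?_, fun y => ?_, fun s => ?_,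
      fun w w' h1 h2 => ?_, fun ω hω => ?_, fun ω hω => ⟨?_, fun j hj1 hjl ρ hρ b hb => ?_⟩,
      fun y j k hk => ?_, fun y y' h1 j hj h2 S' hS' h3 k => ?_⟩
    · -- tri
      show (Q w j).vars ⊆ range j
      by_cases hj : j = l
      · subst hj
        rw [hQl]
        refine AdxRow.vars_bnd (m := j) ?_ fun k hk => ?_
        · rw [hE]
          exact rp_vars _ _
        · refine AdxRow.vars_mul_le (AdxRow.vars_C_le _) (AdxRow.vars_sub_le
            (AdxRow.vars_X_le hk) ((h.tri w k).trans (Finset.range_mono (by omega))))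
      · rw [hQj w j hj]
        exact h.tri w j
    · -- degree
      by_cases hj : j = l
      · subst hj
        rw [hQl]
        refine (Dgb.deg_bind (B := c₀) fun k hk => ?_).trans ?_
        · refine (totalDegree_mul _ _).trans ?_
          rw [totalDegree_C, zero_add]
          refine (totalDegree_sub _ _).trans (max_le ?_ (h.deg w k))
          rw [totalDegree_X]
          exact hc₀
        · rw [hE]
          refine (Nat.mul_le_mul_right _ (rp_deg _ _)).trans ?_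
          rw [hc]
          omega
      · rw [hQj w j hj]
        exact (h.deg w j).trans hcc₀
    · rw [hQj w 0 (by omega)]
      exact h.zero w
    · rw [hy₁]
      exact h.fst y
    · rw [hs₁]
      exact h.fst' s
    · -- locality
      have hP : P w = P w' := h.loc w w' h1 fun j hj => h2 j (by omega)
      funext j
      by_cases hj : j = l
      · subst hj
        rw [hQl, hQl, hP, h2 j (by omega)]
      · rw [hQj w j hj, hQj w' j hj, hP]
    · rw [hy₁, hs₁]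
      show ((z (pt ω)).1, Function.update (z (pt ω)).2 l (x (pt ω))) =
        ((z' (ln ω)).1, Function.update (z' (ln ω)).2 l (x' (ln ω)))
      rw [h.cls ω (hB' ω hω), hxx ω hω]
    · rw [hQj _ 0 (by omega), hPy]
      exact (h.near ω (hB' ω hω)).1
    · -- the distance
      have hnear := h.near ω (hB' ω hω)
      obtain ⟨Θ, hΘ⟩ : ∃ Θ, Θ = 2 * c₀ * S * ρ := ⟨_, rfl⟩
      have hΘ1 : 1 ≤ Θ := by
        rw [hΘ]
        nlinarith
      have hΘc : Θ ≤ c * S * ρ := by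
        rw [hΘ]
        have h1 : (2 : ℝ) * c₀ ≤ c := by
          rw [hc]
          push_cast
          have : (0 : ℝ) ≤ N := Nat.cast_nonneg _
          have : (0 : ℝ) ≤ N₃ := Nat.cast_nonneg _
          have : (0 : ℝ) ≤ K₂ := Nat.cast_nonneg _
          have : (0 : ℝ) ≤ K₂ * c₀ := by positivity
          have : (0 : ℝ) ≤ c₀ * 5 ^ E.card := by positivity
          linarith
        have h2 : (0 : ℝ) ≤ S * ρ := by positivity
        calc 2 * c₀ * S * ρ = 2 * c₀ * (S * ρ) := by ring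
          _ ≤ c * (S * ρ) := mul_le_mul_of_nonneg_right h1 h2
          _ = c * S * ρ := by ring
      rcases Nat.lt_succ_iff_lt_or_eq.1 hjl with h1 | rfl
      · rw [hQj _ j (by omega), hPy]
        refine (hnear.2 j hj1 h1 ρ hρ b hb).trans (div_le_div_of_nonneg_right ?_ (by positivity))
        refine pow_le_of (by nlinarith) ?_ hcc₀
        refine le_trans ?_ hΘc
        rw [hΘ]
        nlinarith
      · rw [hQl, hPy, hy2, hrp, Pool.SYS35.eval_bind]
        have e1 : (fun m => eval b (MvPolynomial.C ((2 : ℝ) ^ g m) * (X m - P (z (pt ω)) m))) =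
            nc g (P (z (pt ω))) b := by
          funext m
          rw [map_mul, map_sub, eval_C, eval_X]
          rfl
        rw [e1, eval_nat (h.tri (z (pt ω))) g b (G (pt ω) j), ← map_sub]
        have e2 : bind₁ (nuc g (P (z (pt ω)))) (G (pt ω) j) = f (pt ω) := by rw [hf]
        rw [e2]
        have hb' := hnear.box' hc₀ hS hρ hb
        have h3 : ∀ m < j, |nc g (P (z (pt ω))) b m| ≤ Θ ^ c₀ := fun m hm => nc_le.2 (by
          rw [hΘ]
          exact hb' m hm)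
        have h4 : (rp E D (fun k => ⌊(f (pt ω)).coeff k / D⌋) - f (pt ω)).vars ⊆ range j :=
          AdxRow.vars_sub_le (by
            rw [hE]
            exact rp_vars _ _) (hfd _).1
        have h5 : (rp E D (fun k => ⌊(f (pt ω)).coeff k / D⌋) - f (pt ω)).totalDegree ≤ K₂ :=
          (totalDegree_sub _ _).trans (max_le (by
            rw [hE]
            exact rp_deg _ _) (hfd _).2)
        refine (eval_le (one_le_pow₀ hΘ1) h4 h5 h3).trans ?_
        have h6 : n1 (rp E D (fun k => ⌊(f (pt ω)).coeff k / D⌋) - f (pt ω)) ≤ E.card * D := by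
          rw [hE]
          exact rp_near hD0 (hfd _).1 (hfd _).2
        have h7 : (0 : ℝ) < 2 ^ g j := by positivity
        have hSΘ : S ≤ Θ := by
          rw [hΘ]
          nlinarith
        have hΘΘ : Θ₀ ≤ Θ := by
          rw [hΘ₀, hΘ]
          nlinarith
        have h2Θ : (2 : ℝ) ≤ Θ := by
          rw [hΘ]
          nlinarith
        calc n1 (rp E D (fun k => ⌊(f (pt ω)).coeff k / D⌋) - f (pt ω)) * (Θ ^ c₀) ^ K₂
            ≤ E.card * D * (Θ ^ c₀) ^ K₂ := mul_le_mul_of_nonneg_right h6 (by positivity)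
          _ = (E.card * C₂ * C₁) * S * (Θ₀ ^ cc c₀ j) ^ K₁ * (Θ ^ c₀) ^ K₂ / 2 ^ g j := by
              rw [hD]
              ring
          _ ≤ Θ ^ e * Θ * (Θ ^ cc c₀ j) ^ K₁ * (Θ ^ c₀) ^ K₂ / 2 ^ g j := by
              refine div_le_div_of_nonneg_right ?_ h7.le
              refine mul_le_mul_of_nonneg_right ?_ (by positivity)
              refine mul_le_mul ?_ ?_ (by positivity) (by positivity)
              · refine mul_le_mul ?_ hSΘ (by positivity) (by positivity)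
                exact he.le.trans (pow_le_pow_left₀ (by norm_num) h2Θ _)
              · exact pow_le_pow_left₀ (by positivity) (pow_le_pow_left₀ (by positivity) hΘΘ _) _
          _ = Θ ^ N / 2 ^ g j := by
              rw [hN]
              congr 1
              rw [← pow_mul, ← pow_mul, pow_add, pow_add, pow_add, pow_one]
          _ ≤ (c * S * ρ) ^ c / 2 ^ g j := by
              refine div_le_div_of_nonneg_right (pow_le_of hΘ1 hΘc ?_) h7.le
              rw [hc]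
              nlinarith [Nat.zero_le (c₀ * 5 ^ E.card), Nat.zero_le (K₂ * c₀)]
    · -- the support
      rw [hy₁]
      show Function.update (z y).2 l (x y) j k = 0
      by_cases hj : j = l
      · subst hj
        rw [Function.update_self, hx]
        refine if_neg fun hk' => ?_
        rw [hE] at hk'
        rcases hk with hk | hk | hk
        · exact hk (ex_monoK hcK₂ hk')
        · omega
        · omega
      · rw [Function.update_of_ne hj]
        refine h.supp y j k ?_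
        rcases hk with hk | hk | hk
        · exact Or.inl fun hk' => hk (ex_monoK hcc₀ hk')
        · exact Or.inr (Or.inl hk)
        · exact Or.inr (Or.inr (by omega))
    · -- separation
      have h1' : (z y).1 = (z y').1 := by
        rw [hy₁] at h1
        exact h1
      have hzj : ∀ y m, m ≠ l → (y₁ y).2 m = (z y).2 m := fun y m hm => by
        rw [hy₁]
        exact Function.update_of_ne hm _ _
      have h2' : ∀ k < j, (z y).2 k = (z y').2 k := fun m hm => by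
        have h4 := h2 m hm
        rwa [hzj _ m (by omega), hzj _ m (by omega)] at h4
      rcases Nat.lt_succ_iff_lt_or_eq.1 hj with h4 | rfl
      · rw [hzj _ j (by omega), hzj _ j (by omega)]
        refine (h.sep y y' h1' j h4 h2' S' hS' (fun b hb => ?_) k).trans ?_
        · have h5 := h3 b (fun m hm => by
            have h6 := hb m hm
            rw [hQj _ m (by omega), hPy]
            exact h6)
          rwa [hQj _ j (by omega), hQj _ j (by omega), hPy, hPy] at h5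
        · have h5 : (c₀ : ℝ) ≤ c := by exact_mod_cast hcc₀
          exact mul_le_mul_of_nonneg_right h5 hS'
      · have hPP : P (z y') = P (z y) := (h.loc _ _ h1' h2').symm
        obtain ⟨Φ, hΦ⟩ : ∃ Φ, Φ = P (z y) := ⟨_, rfl⟩
        have hΦt : TriN Φ := by
          rw [hΦ]
          exact h.tri _
        have hW := hcube (rp E D (x y) - rp E D (x y')) (S' / 2 ^ g j)
          (AdxRow.vars_sub_le (by
            rw [hE]
            exact rp_vars _ _) (by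
            rw [hE]
            exact rp_vars _ _))
          ((totalDegree_sub _ _).trans (max_le (by
            rw [hE]
            exact rp_deg _ _) (by
            rw [hE]
            exact rp_deg _ _))) fun u hu => by
          have h5 := h3 (fun m => eval u (nuc g Φ m)) (fun m hm => by
            rw [hQj _ m (by omega), hPy, ← hΦ]
            exact box_nuc hΦt g u hu m hm)
          rw [hQl, hQl, hy2, hy2, hPy, hPy, hPP, ← hΦ, Pool.SYS35.eval_bind,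
            Pool.SYS35.eval_bind] at h5
          have e1 : (fun m => eval (fun m => eval u (nuc g Φ m))
              (MvPolynomial.C ((2 : ℝ) ^ g m) * (X m - Φ m))) = u := by
            refine Eq.trans ?_ (nc_nuc hΦt g u)
            funext m
            rw [map_mul, map_sub, eval_C, eval_X]
            rfl
          rw [e1] at h5
          rw [map_sub]
          exact h5
        rw [hy2, hy2]
        by_cases hk : k ∈ E
        · have h5 := (coeff_le _ k).trans hW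
          rw [coeff_sub, coeff_rp, coeff_rp, if_pos hk, if_pos hk, ← mul_sub, abs_mul,
            abs_of_pos hD0] at h5
          have h6 : 1 / 2 ^ g j ≤ D := by
            rw [hD]
            have h7 : (1 : ℝ) ≤ (Θ₀ ^ cc c₀ j) ^ K₁ := one_le_pow₀ (one_le_pow₀ hΘ₀1)
            have h8 : (1 : ℝ) / 2 ^ g j ≤ S / 2 ^ g j := div_le_div_of_nonneg_right hS
              (by positivity)
            have h9 : (0 : ℝ) ≤ S / 2 ^ g j := by positivity
            have h10 : S / 2 ^ g j ≤ C₁ * (S / 2 ^ g j) * (Θ₀ ^ cc c₀ j) ^ K₁ := by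
              have : S / 2 ^ g j ≤ C₁ * (S / 2 ^ g j) := by nlinarith
              have : C₁ * (S / 2 ^ g j) ≤ C₁ * (S / 2 ^ g j) * (Θ₀ ^ cc c₀ j) ^ K₁ :=
                le_mul_of_one_le_right (by positivity) h7
              linarith
            have h11 : (0 : ℝ) ≤ C₁ * (S / 2 ^ g j) * (Θ₀ ^ cc c₀ j) ^ K₁ := by positivity
            nlinarith
          have h7 : (0 : ℝ) < 2 ^ g j := by positivity
          rw [Int.cast_sub]
          obtain ⟨d, hd⟩ : ∃ d : ℝ, d = |(x y k : ℝ) - x y' k| := ⟨_, rfl⟩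
          rw [← hd] at h5 ⊢
          have hd0 : 0 ≤ d := by
            rw [hd]
            exact abs_nonneg _
          have h8 : 1 / 2 ^ g j * d ≤ C₃ * (S' / 2 ^ g j) :=
            (mul_le_mul_of_nonneg_right h6 hd0).trans h5
          rw [div_mul_eq_mul_div, one_mul, mul_div_assoc', div_le_div_iff_of_pos_right h7] at h8
          exact h8.trans (mul_le_mul_of_nonneg_right hcC₃ hS')
        · have h5 : ∀ y, x y k = 0 := fun y => by
            rw [hx]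
            exact if_neg hk
          rw [h5, h5, sub_self, Int.cast_zero, abs_zero]
          positivity

/-- **Exact closed labels of one level.** The samples fit, and the line fits on the natural
box. -/
structure Lev {Ω Y Λ : Type} (n c : ℕ) (L : ℝ) (X : Ω → ℕ → ℝ) (B : Ω → Prop) (pt : Ω → Y)
    (ln : Ω → Λ) (τ : Y → ℝ) (τ' : Λ → ℝ) (g : ℕ → ℕ) (R : Λ → ℕ → PN) (z : Y → LV)
    (z' : Λ → LV) (P : LV → ℕ → PN) : Prop where
  tri : ∀ v, TriN (P v)
  deg : ∀ v j, (P v j).totalDegree ≤ c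
  zero : ∀ v, P v 0 = MvPolynomial.C v.1
  fst : ∀ y, (z y).1 = τ y
  fst' : ∀ s, (z' s).1 = τ' s
  cls : ∀ ω, B ω → z (pt ω) = z' (ln ω)
  hgt : ∀ ω, B ω → ∀ i ≤ n, |X ω i - eval (X ω) (P (z (pt ω)) i)| ≤ 1 / 2 ^ g i
  line : ∀ ω, B ω → ∀ i, 1 ≤ i → i ≤ n → ∀ b : ℕ → ℝ, Bx g (P (z (pt ω))) i b →
    |eval b (R (ln ω) i) - eval b (P (z (pt ω)) i)| ≤ L / 2 ^ g i
  supp : ∀ y j k, (k ∉ ex j c ∨ j = 0 ∨ n < j) → (z y).2 j k = 0
  sep : ∀ y y', (z y).1 = (z y').1 → ∀ j ≤ n, (∀ k < j, (z y).2 k = (z y').2 k) →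
    ∀ S' : ℝ, 0 ≤ S' → (∀ b : ℕ → ℝ, Bx g (P (z y)) j b →
      |eval b (P (z y) j) - eval b (P (z y') j)| ≤ S' / 2 ^ g j) →
    ∀ k, |(((z y).2 j k - (z y').2 j k : ℤ) : ℝ)| ≤ L * S'

theorem Lev.sub {Ω Y Λ : Type} {n c : ℕ} {L : ℝ} {X : Ω → ℕ → ℝ} {B B' : Ω → Prop} {pt : Ω → Y}
    {ln : Ω → Λ} {τ : Y → ℝ} {τ' : Λ → ℝ} {g : ℕ → ℕ} {R : Λ → ℕ → PN} {z : Y → LV}
    {z' : Λ → LV} {P : LV → ℕ → PN} (h : Lev n c L X B pt ln τ τ' g R z z' P)
    (hB : ∀ ω, B' ω → B ω) : Lev n c L X B' pt ln τ τ' g R z z' P :=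
  ⟨h.tri, h.deg, h.zero, h.fst, h.fst', fun ω hω => h.cls ω (hB ω hω),
    fun ω hω => h.hgt ω (hB ω hω), fun ω hω => h.line ω (hB ω hω), h.supp, h.sep⟩

theorem Raw.sub {Ω Y Λ : Type} {n K : ℕ} {S : ℝ} {A A' : Ω → Prop} {pt : Ω → Y} {ln : Ω → Λ}
    {τ : Y → ℝ} {τ' : Λ → ℝ} {g : ℕ → ℕ} {G : Y → ℕ → PN} {R : Λ → ℕ → PN}
    (h : Raw n K S A pt ln τ τ' g G R) (hA : ∀ ω, A' ω → A ω) :
    Raw n K S A' pt ln τ τ' g G R :=
  ⟨h.G_tri, h.G_deg, h.R_tri, h.R_deg, h.G_zero, fun ω hω => h.time ω (hA ω hω),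
    fun ω hω => h.near ω (hA ω hω)⟩

/-- The precisions after the construction: `c` digits less, except for the time. -/
def gs (c : ℕ) (g : ℕ → ℕ) (i : ℕ) : ℕ := if i = 0 then g 0 else g i - c

theorem cc_le (c : ℕ) : ∀ n : ℕ, ∃ M : ℕ, ∀ i ≤ n, cc c i ≤ M := by
  intro n
  refine ⟨∑ j ∈ range (n + 1), cc c j, fun i hi => ?_⟩
  exact Finset.single_le_sum (f := cc c) (fun _ _ => Nat.zero_le _) (mem_range.2 (by omega))

/-- **Exact closed labels of one level.** -/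
theorem clo (n K : ℕ) : ∃ a c : ℕ, 1 ≤ c ∧ ∀ (Ω Y Λ : Type) [Fintype Ω] (p : Ω → ℝ) (s : ℕ)
    (A : Ω → Prop) (pt : Ω → Y) (ln : Ω → Λ) (τ : Y → ℝ) (τ' : Λ → ℝ) (g : ℕ → ℕ)
    (G : Y → ℕ → PN) (R : Λ → ℕ → PN) (X : Ω → ℕ → ℝ), IsLaw p →
    Raw n K (2 ^ s) A pt ln τ τ' g G R →
    (∀ ω, A ω → |X ω 0 - eval (X ω) (G (pt ω) 0)| ≤ 1 / 2 ^ g 0) →
    (∀ ω, A ω → ∀ i, 1 ≤ i → i ≤ n → |X ω i - eval (X ω) (G (pt ω) i)| ≤ 2 ^ s / 2 ^ g i) →
    (∀ i, 1 ≤ i → i ≤ n → a * (s + 1) ≤ g i) →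
    ∃ (z : Y → LV) (z' : Λ → LV) (P : LV → ℕ → PN) (B : Ω → Prop), (∀ ω, B ω → A ω) ∧
      Pe p A ≤ c * Pe p B ∧
      Lev n c (2 ^ (c * (s + 1))) X B pt ln τ τ' (gs (a * (s + 1)) g) R z z' P ∧
      ∀ ω, B ω → Nr c (2 ^ s) g (P (z (pt ω))) (G (pt ω)) (n + 1) := by
  obtain ⟨c, hc, hcore⟩ := core n K (n + 1) le_rfl
  obtain ⟨C₁, hC₁, hdil⟩ := dil n K
  obtain ⟨K₁, hK₁⟩ : ∃ K₁, K₁ = K * (K + 1) ^ (n + 1) := ⟨_, rfl⟩
  rw [← hK₁] at hdil
  obtain ⟨M, hM⟩ := cc_le c n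
  obtain ⟨e, he⟩ := pow_unbounded_of_one_lt C₁ (one_lt_two (α := ℝ))
  obtain ⟨a, ha⟩ : ∃ a, a = c * c + 2 * c + 1 := ⟨_, rfl⟩
  obtain ⟨q, hq⟩ : ∃ q, q = (c + 2 + a) * M := ⟨_, rfl⟩
  obtain ⟨d, hd⟩ : ∃ d, d = 2 + e + q * K₁ + c * (c + 1 + q) + a := ⟨_, rfl⟩
  have h2c : (c : ℝ) ≤ 2 ^ c := by exact_mod_cast Nat.lt_two_pow_self.le
  have hc' : (1 : ℝ) ≤ c := by exact_mod_cast hc
  refine ⟨a, c + d, by omega, ?_⟩
  intro Ω Y Λ _ p s A pt ln τ τ' g G R X hp hR hX0 hX hg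
  have hS : (1 : ℝ) ≤ 2 ^ s := one_le_pow₀ (by norm_num)
  obtain ⟨z, z', P, B, hB, hPe, h⟩ := hcore Ω Y Λ p (2 ^ s) A pt ln τ τ' g G R hp hS hR
  obtain ⟨sh, hsh⟩ : ∃ sh, sh = a * (s + 1) := ⟨_, rfl⟩
  rw [← hsh] at hg ⊢
  have hshift : ∀ i, 1 ≤ i → i ≤ n → ∀ x : ℝ, 0 ≤ x → x ≤ 2 ^ sh →
      x / 2 ^ g i ≤ 1 / 2 ^ gs sh g i := by
    intro i h1 hi x hx0 hx
    have h2 : gs sh g i = g i - sh := if_neg (by omega)
    rw [h2, div_le_div_iff₀ (by positivity) (by positivity), one_mul]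
    calc x * 2 ^ (g i - sh) ≤ 2 ^ sh * 2 ^ (g i - sh) :=
          mul_le_mul_of_nonneg_right hx (by positivity)
      _ = 2 ^ g i := by
          rw [← pow_add]
          congr 1
          have := hg i h1 hi
          omega
  have hshift' : ∀ i ≤ n, (1 : ℝ) / 2 ^ gs sh g i ≤ 2 ^ sh / 2 ^ g i := by
    intro i hi
    by_cases h0 : i = 0
    · subst h0
      rw [show gs sh g 0 = g 0 from if_pos rfl]
      exact div_le_div_of_nonneg_right (one_le_pow₀ (by norm_num)) (by positivity)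
    · have h2 : gs sh g i = g i - sh := if_neg h0
      rw [h2, div_le_div_iff₀ (by positivity) (by positivity), one_mul, ← pow_add]
      refine le_of_eq ?_
      congr 1
      have := hg i (by omega) hi
      omega
  refine ⟨z, z', P, B, hB, ?_, ⟨h.tri, fun v j => (h.deg v j).trans (by omega), h.zero, h.fst,
    h.fst', h.cls, fun ω hω i hi => ?_, fun ω hω i hi1 hi b hb => ?_, fun y j k hk =>
    h.supp y j k (hk.imp (fun h1 h2 => h1 (ex_monoK (by omega) h2)) fun h1 =>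
      h1.imp_right fun h2 => h2), fun y y' h1 j hj h2 S' hS' h3 k => ?_⟩,
    fun ω hω => (h.near ω hω).mono_c hc hS (by omega)⟩
  · refine hPe.trans (mul_le_mul_of_nonneg_right ?_ (Pe_nonneg hp _))
    push_cast
    have : (0 : ℝ) ≤ d := Nat.cast_nonneg _
    linarith
  · -- the samples
    rcases Nat.eq_zero_or_pos i with rfl | hi1
    · rw [(h.near ω hω).1, show gs sh g 0 = g 0 from if_pos rfl]
      exact hX0 ω (hB ω hω)
    · have hbox : Bxr (2 ^ s) g (G (pt ω)) i (X ω) := by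
        intro j hj
        rcases Nat.eq_zero_or_pos j with rfl | hj1
        · exact (hX0 ω (hB ω hω)).trans (div_le_div_of_nonneg_right hS (by positivity))
        · exact hX ω (hB ω hω) j hj1 (by omega)
      have h1 := (h.near ω hω).2 i hi1 (by omega) (2 ^ s) hS (X ω) hbox
      have h2 := hX ω (hB ω hω) i hi1 hi
      have h3 : |X ω i - eval (X ω) (P (z (pt ω)) i)| ≤ |X ω i - eval (X ω) (G (pt ω) i)| +
          |eval (X ω) (P (z (pt ω)) i) - eval (X ω) (G (pt ω) i)| := by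
        have := abs_add_le (X ω i - eval (X ω) (G (pt ω) i))
          (-(eval (X ω) (P (z (pt ω)) i) - eval (X ω) (G (pt ω) i)))
        rw [abs_neg] at this
        refine le_trans (le_of_eq ?_) this
        congr 1
        ring
      refine (h3.trans (add_le_add h2 h1)).trans ?_
      rw [← add_div]
      refine hshift i hi1 hi _ (by positivity) ?_
      have e1 : ((c : ℝ) * 2 ^ s * 2 ^ s) ^ c ≤ 2 ^ (c * (c + 2 * s)) := by
        rw [mul_comm c (c + 2 * s), pow_mul]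
        refine pow_le_pow_left₀ (by positivity) ?_ _
        calc (c : ℝ) * 2 ^ s * 2 ^ s ≤ 2 ^ c * 2 ^ s * 2 ^ s := by gcongr
          _ = 2 ^ (c + 2 * s) := by rw [← pow_add, ← pow_add]; congr 1; ring
      have e2 : (2 : ℝ) ^ s ≤ 2 ^ (c * (c + 2 * s)) := by
        refine pow_le_pow_right₀ (by norm_num) ?_
        nlinarith
      calc (2 : ℝ) ^ s + (c * 2 ^ s * 2 ^ s) ^ c ≤ 2 ^ (c * (c + 2 * s)) +
            2 ^ (c * (c + 2 * s)) := add_le_add e2 e1
        _ = 2 ^ (c * (c + 2 * s) + 1) := by rw [pow_succ]; ring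
        _ ≤ 2 ^ sh := by
            refine pow_le_pow_right₀ (by norm_num) ?_
            rw [hsh, ha]
            nlinarith [Nat.zero_le (c * c * s), Nat.zero_le (2 * c)]
  · -- the line
    have hb1 : Bxr (2 ^ sh) g (P (z (pt ω))) i b := fun j hj =>
      (hb j hj).trans (hshift' j (by omega))
    have hsh1 : (1 : ℝ) ≤ 2 ^ sh := one_le_pow₀ (by norm_num)
    have hb2 := ((h.near ω hω).mono (i' := i) (by omega)).box hc hS hsh1 hb1 i le_rfl
    obtain ⟨ρ, hρ⟩ : ∃ ρ : ℝ, ρ = (2 * c * 2 ^ s * 2 ^ sh) ^ cc c i := ⟨_, rfl⟩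
    rw [← hρ] at hb2
    have hb3 : (1 : ℝ) ≤ 2 * c * 2 ^ s * 2 ^ sh := by
      have h1 : (1 : ℝ) ≤ 2 * c := by linarith
      have h2 : (1 : ℝ) ≤ 2 * c * 2 ^ s := by nlinarith
      nlinarith
    have hρ1 : 1 ≤ ρ := by
      rw [hρ]
      exact one_le_pow₀ hb3
    have hρ2 : ρ ≤ 2 ^ (q * (s + 1)) := by
      have e1 : (2 : ℝ) * c * 2 ^ s * 2 ^ sh ≤ 2 ^ ((c + 2 + a) * (s + 1)) := by
        calc (2 : ℝ) * c * 2 ^ s * 2 ^ sh ≤ 2 * 2 ^ c * 2 ^ s * 2 ^ sh := by gcongr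
          _ = 2 ^ (1 + c + s + sh) := by rw [pow_add, pow_add, pow_add, pow_one]
          _ ≤ 2 ^ ((c + 2 + a) * (s + 1)) := by
              refine pow_le_pow_right₀ (by norm_num) ?_
              rw [hsh]
              nlinarith [Nat.zero_le (c * s)]
      rw [hρ, hq]
      calc ((2 : ℝ) * c * 2 ^ s * 2 ^ sh) ^ cc c i ≤ (2 ^ ((c + 2 + a) * (s + 1))) ^ M :=
            pow_le_of hb3 e1 (hM i hi)
        _ = 2 ^ ((c + 2 + a) * M * (s + 1)) := by
            rw [← pow_mul]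
            congr 1
            ring
    have h1 := (h.near ω hω).2 i hi1 (by omega) ρ hρ1 b hb2
    have h2 := hdil (G (pt ω)) g (G (pt ω) i - R (ln ω) i) i (2 ^ s / 2 ^ g i) ρ (hR.G_tri _)
      (hR.G_deg _) hi (AdxRow.vars_sub_le (hR.G_tri _ i) (hR.R_tri _ i))
      ((totalDegree_sub _ _).trans (max_le (hR.G_deg _ _) (hR.R_deg _ _))) hρ1
      (fun b' hb' => by
        rw [map_sub]
        exact hR.near ω (hB ω hω) i hi1 hi b' hb') b hb2
    rw [map_sub] at h2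
    have h3 : |eval b (R (ln ω) i) - eval b (P (z (pt ω)) i)| ≤
        |eval b (G (pt ω) i) - eval b (R (ln ω) i)| +
          |eval b (P (z (pt ω)) i) - eval b (G (pt ω) i)| := by
      have := abs_add_le (eval b (G (pt ω) i) - eval b (R (ln ω) i))
        (eval b (P (z (pt ω)) i) - eval b (G (pt ω) i))
      refine le_trans (le_of_eq ?_) this
      rw [← abs_neg]
      congr 1
      ring
    have h4 : C₁ * (2 ^ s / 2 ^ g i) * ρ ^ K₁ ≤ 2 ^ (d * (s + 1) - 1) / 2 ^ g i := by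
      rw [mul_div_assoc', div_mul_eq_mul_div]
      refine div_le_div_of_nonneg_right ?_ (by positivity)
      calc C₁ * 2 ^ s * ρ ^ K₁ ≤ 2 ^ e * 2 ^ s * (2 ^ (q * (s + 1))) ^ K₁ := by
            have : 0 ≤ C₁ := by linarith
            gcongr
        _ = 2 ^ (e + s + q * (s + 1) * K₁) := by rw [← pow_mul, pow_add, pow_add]
        _ ≤ 2 ^ (d * (s + 1) - 1) := by
            refine pow_le_pow_right₀ (by norm_num) ?_
            have : e + s + q * (s + 1) * K₁ + 1 ≤ d * (s + 1) := by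
              rw [hd]
              nlinarith [Nat.zero_le (e * s), Nat.zero_le (c * (c + 1 + q) * (s + 1)),
                Nat.zero_le (a * (s + 1))]
            omega
    have h5 : ((c : ℝ) * 2 ^ s * ρ) ^ c / 2 ^ g i ≤ 2 ^ (d * (s + 1) - 1) / 2 ^ g i := by
      refine div_le_div_of_nonneg_right ?_ (by positivity)
      calc ((c : ℝ) * 2 ^ s * ρ) ^ c ≤ (2 ^ c * 2 ^ s * 2 ^ (q * (s + 1))) ^ c := by
            gcongr
        _ = 2 ^ (c * (c + s + q * (s + 1))) := by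
            rw [← pow_add, ← pow_add, ← pow_mul]
            congr 1
            ring
        _ ≤ 2 ^ (d * (s + 1) - 1) := by
            refine pow_le_pow_right₀ (by norm_num) ?_
            have : c * (c + s + q * (s + 1)) + 1 ≤ d * (s + 1) := by
              rw [hd]
              nlinarith [Nat.zero_le (e * (s + 1)), Nat.zero_le (q * K₁ * (s + 1)),
                Nat.zero_le (c * c * s), Nat.zero_le (c * s), Nat.zero_le (a * (s + 1))]
            omega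
    have hds : 1 ≤ d * (s + 1) := by
      rw [hd]
      nlinarith [Nat.zero_le (e * (s + 1)), Nat.zero_le (q * K₁ * (s + 1)),
        Nat.zero_le (c * (c + 1 + q) * (s + 1)), Nat.zero_le (a * (s + 1))]
    refine (h3.trans (add_le_add (h2.trans h4) (h1.trans h5))).trans ?_
    calc (2 : ℝ) ^ (d * (s + 1) - 1) / 2 ^ g i + 2 ^ (d * (s + 1) - 1) / 2 ^ g i
        = 2 ^ (d * (s + 1)) / 2 ^ g i := by
          rw [← add_div, ← two_mul, ← pow_succ', Nat.sub_add_cancel hds]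
      _ ≤ 2 ^ ((c + d) * (s + 1)) / 2 ^ gs sh g i := by
          have e1 : gs sh g i ≤ g i := by
            unfold gs
            split_ifs with h0
            · rw [h0]
            · exact Nat.sub_le _ _
          have e2 : d * (s + 1) ≤ (c + d) * (s + 1) := Nat.mul_le_mul_right _ (by omega)
          exact div_le_div₀ (by positivity) (pow_le_pow_right₀ (by norm_num) e2)
            (by positivity) (pow_le_pow_right₀ (by norm_num) e1)
  · -- separation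
    have e1 : ∀ m, gs sh g m ≤ g m := fun m => by
      unfold gs
      split_ifs with h0
      · rw [h0]
      · exact Nat.sub_le _ _
    refine (h.sep y y' h1 j (by omega) h2 (2 ^ sh * S') (by positivity) (fun b hb => ?_) k).trans ?_
    · refine (h3 b fun m hm => (hb m hm).trans ?_).trans ?_
      · exact div_le_div_of_nonneg_left one_pos.le (by positivity)
          (pow_le_pow_right₀ (by norm_num) (e1 m))
      · have h4 := mul_le_mul_of_nonneg_left (hshift' j hj) hS'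
        rw [mul_one_div] at h4
        refine h4.trans (le_of_eq ?_)
        ring
    · rw [← mul_assoc]
      refine mul_le_mul_of_nonneg_right ?_ hS'
      calc (c : ℝ) * 2 ^ sh ≤ 2 ^ c * 2 ^ sh := mul_le_mul_of_nonneg_right h2c (by positivity)
        _ = 2 ^ (c + sh) := by rw [pow_add]
        _ ≤ 2 ^ ((c + d) * (s + 1)) := by
            refine pow_le_pow_right₀ (by norm_num) ?_
            rw [hsh]
            have e2 : a ≤ d := by
              rw [hd]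
              omega
            nlinarith [Nat.mul_le_mul_right (s + 1) e2, Nat.zero_le (c * s)]

/-- **Exact closed labels of all levels**, on one event. -/
theorem clo_all (n K : ℕ) : ∃ a c : ℕ, 1 ≤ c ∧ ∀ (M : ℕ) (Ω Y Λ : Type) [Fintype Ω] (p : Ω → ℝ)
    (s : ℕ) (A : Ω → Prop) (pt : Ω → Y) (ln : ℕ → Ω → Λ) (τ : ℕ → Y → ℝ) (τ' : ℕ → Λ → ℝ)
    (g : ℕ → ℕ → ℕ) (G : ℕ → Y → ℕ → PN) (R : ℕ → Λ → ℕ → PN) (X : Ω → ℕ → ℝ), IsLaw p →
    (∀ k ≤ M, Raw n K (2 ^ s) A pt (ln k) (τ k) (τ' k) (g k) (G k) (R k)) →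
    (∀ k ≤ M, ∀ ω, A ω → |X ω 0 - eval (X ω) (G k (pt ω) 0)| ≤ 1 / 2 ^ g k 0) →
    (∀ k ≤ M, ∀ ω, A ω → ∀ i, 1 ≤ i → i ≤ n →
      |X ω i - eval (X ω) (G k (pt ω) i)| ≤ 2 ^ s / 2 ^ g k i) →
    (∀ k ≤ M, ∀ i, 1 ≤ i → i ≤ n → a * (s + 1) ≤ g k i) →
    ∃ (z : ℕ → Y → LV) (z' : ℕ → Λ → LV) (P : ℕ → LV → ℕ → PN) (B : Ω → Prop),
      (∀ ω, B ω → A ω) ∧ Pe p A ≤ c ^ (M + 1) * Pe p B ∧
      ∀ k ≤ M, Lev n c (2 ^ (c * (s + 1))) X B pt (ln k) (τ k) (τ' k)
        (gs (a * (s + 1)) (g k)) (R k) (z k) (z' k) (P k) ∧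
        ∀ ω, B ω → Nr c (2 ^ s) (g k) (P k (z k (pt ω))) (G k (pt ω)) (n + 1) := by
  classical
  obtain ⟨a, c, hc, hclo⟩ := clo n K
  refine ⟨a, c, hc, fun M => ?_⟩
  intro Ω Y Λ _ p s A pt ln τ τ' g G R X hp hR hX0 hX hg
  induction M with
  | zero =>
    obtain ⟨z, z', P, B, h1, h2, h3⟩ := hclo Ω Y Λ p s A pt (ln 0) (τ 0) (τ' 0) (g 0) (G 0) (R 0)
      X hp (hR 0 le_rfl) (hX0 0 le_rfl) (hX 0 le_rfl) (hg 0 le_rfl)
    refine ⟨fun _ => z, fun _ => z', fun _ => P, B, h1, ?_, fun k hk => ?_⟩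
    · rw [zero_add, pow_one]
      exact h2
    · obtain rfl : k = 0 := by omega
      exact h3
  | succ M ih =>
    obtain ⟨z, z', P, B, h1, h2, h3⟩ := ih (fun k hk => hR k (by omega))
      (fun k hk => hX0 k (by omega)) (fun k hk => hX k (by omega)) (fun k hk => hg k (by omega))
    obtain ⟨w, w', Q, B', h4, h5, h6⟩ := hclo Ω Y Λ p s B pt (ln (M + 1)) (τ (M + 1))
      (τ' (M + 1)) (g (M + 1)) (G (M + 1)) (R (M + 1)) X hp ((hR _ le_rfl).sub h1)
      (fun ω hω => hX0 _ le_rfl ω (h1 ω hω)) (fun ω hω => hX _ le_rfl ω (h1 ω hω))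
      (hg _ le_rfl)
    refine ⟨fun k => if k = M + 1 then w else z k, fun k => if k = M + 1 then w' else z' k,
      fun k => if k = M + 1 then Q else P k, B', fun ω hω => h1 ω (h4 ω hω), ?_, fun k hk => ?_⟩
    · refine h2.trans ?_
      rw [pow_succ (c : ℝ) (M + 1), mul_assoc]
      exact mul_le_mul_of_nonneg_left h5 (pow_nonneg (Nat.cast_nonneg c) _)
    · by_cases hk' : k = M + 1
      · subst hk'
        simp only [if_true]
        exact h6
      · simp only [if_neg hk']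
        exact ⟨(h3 k (by omega)).1.sub h4, fun ω hω => (h3 k (by omega)).2 ω (h4 ω hω)⟩

end CLO

end Pool.STAT
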