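import Pool.Agent.H63.STAT.Lab2

/-!
# Chains of universal degree for one member, with abstract numbers

`lab2_mem`: the theorem `lab2` for one family, with arbitrary numbers `b k l` at the points
`(a - κ k, w - κ k)` of a path. The numbers grow at least like the radius along the path and at
most linearly from the end of the path.
-/

set_option autoImplicit false

namespace Pool.STAT

open Finset MvPolynomial
open Pool.Agent.H49.Ent Pool.Agent.H32.Dense Pool.STK Pool.KS3 Pool.KA Pool.KSAT Pool.PB Pool.GEN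
open Pool.K2S Pool.S6C
open Pool.CHT (fl_add big)
open Pool.TRC31 (timeF)
open Pool.FLF (Fam.sub)

namespace CLO

/-- Only the precisions of the coordinates of the chain matter. -/
theorem chok_congr {m J : ℕ} {F : Fam m J} {c : ℕ → Fin m} {r : ℕ} {K : ℕ → ℕ} {a w e : ℕ}
    {g g' : ℕ → ℕ} {A : F.Ω → Prop} {G : PtT F → ℕ → MvPolynomial (Option (Fin m)) ℝ}
    {H : LnT F → ℕ → MvPolynomial (Option (Fin m)) ℝ} (h : ChOK F c r K a w e g A G H)
    (hg : ∀ l < r, g l = g' l) : ChOK F c r K a w e g' A G H := by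
  have hb : ∀ {y : PtT F} {t : ℝ} {i : ℕ} {b : Option (Fin m) → ℝ}, i < r →
      NBx c (G y) g' a t i b → NBx c (G y) g a t i b := fun hi hb =>
    ⟨hb.1, fun l hl => by rw [hg l (hl.trans hi)]; exact hb.2 l hl⟩
  have hn : ∀ l i, i < r → nlp g l i = nlp g' l i := by
    intro l i hi
    unfold nlp
    rw [hg i hi, Finset.sup_congr rfl fun j hj => hg j ((Finset.mem_Icc.1 hj).2.trans_lt hi)]
  exact ⟨h.degG, h.degH, h.depG, h.depH, fun ω hω i hi => by rw [← hg i hi]; exact h.pos ω hω i hi,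
    fun ω hω i hi b hbx => by rw [← hg i hi]; exact h.agr ω hω i hi b (hb hi hbx),
    fun ω hω i hi b hbx l hl => by rw [← hn l i hi]; exact h.lip ω hω i hi b (hb hi hbx) l hl⟩

/-- **Chains of universal degree**, for one family and abstract numbers. -/
theorem lab2_mem (n S : ℕ) (hn : 1 ≤ n) (hS : 1 ≤ S) : ∃ (D : ℕ) (C : ℝ), 1 ≤ C ∧
    ∀ {a w v ε : ℝ}, 0 < v → v < w → w ≤ a → a < 1 → 0 ≤ ε →
    ∀ de : ℕ → ℝ, 0 < de 0 → C * ε < de 0 → (∀ l, l + 1 < n → C * de l < de (l + 1)) →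
    (∀ l < n, de l < a) → ∃ φ μ σ : ℝ, 0 < φ ∧ 0 < μ ∧ 0 < σ ∧ C * σ ≤ (C + 1) * de 0 ∧
    φ ≤ de 0 / 8 ∧ σ ≤ de 0 / 2 ∧
    ∀ (N : ℕ) (κ : ℕ → ℝ), κ N = 0 → κ 0 ≤ w - v → 1 ≤ S * κ 0 →
    (∀ k < N, κ (k + 1) ≤ κ k ∧ κ k ≤ κ (k + 1) + μ) → ∀ b : ℕ → ℕ → ℝ,
    (∀ k ≤ N, ∀ l < n, a - κ k ≤ b k l) → (∀ l < n, b N l ≤ 1) →
    (∀ k ≤ N, ∀ k' ≤ k, ∀ l < n, b k' l + (κ k' - κ k) ≤ b k l) →
    (∀ k ≤ N, ∀ l < n, b N l ≤ b k l + S * κ k + ε) →
    ∀ K : ℕ, ∃ (η : ℝ) (J₀ : ℕ), 0 < η ∧ ∀ {m J : ℕ}, J₀ ≤ J → ∀ (F : Fam m J) (c : ℕ → Fin m)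
      (d : ℕ → ℝ) (e : ℝ) (B : F.Ω → Prop)
      (G : ℕ → PtT F → ℕ → MvPolynomial (Option (Fin m)) ℝ)
      (H : ℕ → LnT F → ℕ → MvPolynomial (Option (Fin m)) ℝ), Inj c n → 0 ≤ e →
      (∀ l < n, 0 ≤ d l ∧ d l ≤ φ) →
      Pool.TRC.Jat F c n K (N + 1) (fun k => ⌊(a - κ k) * J⌋₊) (fun k => ⌊(w - κ k) * J⌋₊)
        ⌊e * J⌋₊ (fun k l => ⌊(b k l - d l) * J⌋₊) ⌊φ * J⌋₊ B G H →
      ∀ hB : 0 < Pe F.p B, (Fam.sub F B hB).Tm (η * J) →
      ∃ (B' : F.Ω → Prop) (Gt : PtT F → ℕ → PN) (R : LnT F → ℕ → PN), (∀ ω, B' ω → B ω) ∧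
        Pe F.p B ≤ 2 * Pe F.p B' ∧
        ChOK F c n (fun _ => D) ⌊a * J⌋₊ ⌊w * J⌋₊ ⌊(e + C * de (n - 1)) * J⌋₊
          (fun l => ⌊(b N l - de l) * J⌋₊) B' (fun y i => tb c (Gt y (i + 1)))
          (fun l i => tb c (R l (i + 1))) ∧
        ∀ ω, B' ω → ∀ i < n, ∀ x : ℕ → ℝ,
          Bx (gg ⌊a * J⌋₊ (fun l => ⌊(b N l - d l) * J⌋₊)) (Gs c n ⌊a * J⌋₊ (G N) (ptr F J ω))
            (i + 1) x →
          |eval x (Gs c n ⌊a * J⌋₊ (G N) (ptr F J ω) (i + 1)) - eval x (Gt (ptr F J ω) (i + 1))| ≤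
            2 ^ ⌊σ * J⌋₊ / 2 ^ ⌊(b N i - d i) * J⌋₊ := by
  classical
  obtain ⟨D, c₀, hc₀, hfam⟩ := lab2_fam n S hS
  have hc1 : (1 : ℝ) ≤ c₀ := by exact_mod_cast hc₀
  refine ⟨D, 2 * c₀ ^ 2 + 2 * c₀, by nlinarith, ?_⟩
  intro a w v ε hv0 hvw hwa ha hε de hde0 hdeε hdes hdea
  obtain ⟨σ, x, φ, μ, hσ0, hσc, hx0, hσx, hφ0, hφ1, hφ2, hφ3, hμ0, hμ1⟩ :=
    lab_consts hc₀ hde0 hε hv0 hdeε
  obtain ⟨C, hC⟩ : ∃ C : ℝ, C = 2 * c₀ ^ 2 + 2 * c₀ := ⟨_, rfl⟩
  rw [← hC] at hdeε hdes ⊢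
  have hCc : (c₀ : ℝ) + 1 ≤ C := by
    rw [hC]
    nlinarith
  have hSr : (1 : ℝ) ≤ S := by exact_mod_cast hS
  have hσd : σ ≤ de 0 / 2 := by
    have : σ ≤ c₀ * σ := by nlinarith
    linarith
  have hσC : C * σ ≤ (C + 1) * de 0 := by
    have h1 : C * σ = (2 * c₀ + 2) * (c₀ * σ) := by
      rw [hC]
      ring
    rw [h1, hσc]
    nlinarith
  have hdmono := de_mono (by linarith : (1 : ℝ) ≤ C) hde0 hdes
  have hd0 : ∀ l < n, de 0 ≤ de l := fun l hl => hdmono 0 l (Nat.zero_le _) hl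
  have hdn : ∀ l < n, de l ≤ de (n - 1) := fun l hl => hdmono l (n - 1) (by omega) (by omega)
  refine ⟨φ, μ, σ, hφ0, hμ0, hσ0, hσC, hφ2, hσd, ?_⟩
  intro N κ hκN hκW hκ0 hκs b hblow hbup hbmono hbsl K
  have hκm : ∀ k j, k ≤ j → j ≤ N → κ j ≤ κ k := by
    intro k j hkj
    induction j with
    | zero =>
      intro _
      have : k = 0 := by omega
      rw [this]
    | succ j ih =>
      intro hj
      rcases Nat.lt_or_ge k (j + 1) with h1 | h1
      · exact (hκs j (by omega)).1.trans (ih (by omega) (by omega))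
      · have : k = j + 1 := by omega
        rw [this]
  have hκn : ∀ k ≤ N, 0 ≤ κ k := fun k hk => by
    have := hκm k N hk le_rfl
    rwa [hκN] at this
  have hw0 : ∀ k ≤ N, v ≤ w - κ k := fun k hk => by
    have := hκm 0 k (Nat.zero_le _) hk
    linarith
  have ha1 : ∀ k ≤ N, a - κ k ≤ 1 := fun k hk => by
    have := hκn k hk
    linarith
  have hwk : ∀ k ≤ N, w - κ k ≤ a - κ k := fun k _ => by linarith
  obtain ⟨C', hfam⟩ := hfam K N
  have hC'0 : (0 : ℝ) ≤ C' := Nat.cast_nonneg C'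
  have hw1 : w < 1 := hwa.trans_lt ha
  obtain ⟨η, hη0, hη1, hη2⟩ := eta_ex (C := C') hx0 (by linarith : 0 < 1 - w)
  obtain ⟨J₁, hJ₁⟩ := big (C' + 1 : ℝ) (show 0 < v / 2 by positivity)
  obtain ⟨J₂, hJ₂⟩ := big (C' : ℝ) (show 0 < (1 - w) / 2 by linarith)
  obtain ⟨J₃, hJ₃⟩ := big ((c₀ : ℝ) * (S + 3 + C') + C' + 1) (show 0 < x / 2 by positivity)
  obtain ⟨J₄, hJ₄⟩ := big ((c₀ : ℝ) * 4 + C' + 2) (show 0 < de 0 / 4 by positivity)
  refine ⟨η, max (max J₁ J₂) (max J₃ J₄), hη0, ?_⟩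
  intro m J hJ F c d e B G H hinj he0 hdd hJat' hB hTm
  have hJ0 : (0 : ℝ) ≤ J := Nat.cast_nonneg J
  have b1 := hJ₁ J (((le_max_left _ _).trans (le_max_left _ _)).trans hJ)
  have b2 := hJ₂ J (((le_max_right _ _).trans (le_max_left _ _)).trans hJ)
  have b3 := hJ₃ J (((le_max_left _ _).trans (le_max_right _ _)).trans hJ)
  have b4 := hJ₄ J (((le_max_right _ _).trans (le_max_right _ _)).trans hJ)
  have b4' : (c₀ : ℝ) * 4 + 2 ≤ de 0 / 4 * J := by linarith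
  obtain ⟨al, hal⟩ : ∃ al : ℕ → ℕ, al = fun k => ⌊(a - κ k) * J⌋₊ := ⟨_, rfl⟩
  obtain ⟨om, hom⟩ : ∃ om : ℕ → ℕ, om = fun k => ⌊(w - κ k) * J⌋₊ := ⟨_, rfl⟩
  obtain ⟨g, hg⟩ : ∃ g : ℕ → ℕ → ℕ, g = fun k l => ⌊(b k l - d l) * J⌋₊ := ⟨_, rfl⟩
  rw [← hal, ← hom, ← hg] at hJat'
  have hd1 : ∀ l < n, d l ≤ φ := fun l hl => (hdd l hl).2
  have hd2 : ∀ l < n, 0 ≤ d l := fun l hl => (hdd l hl).1
  have hbd : ∀ k ≤ N, ∀ l < n, v / 2 ≤ b k l - d l := by
    intro k hk l hl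
    have h1 := hblow k hk l hl
    have h2 := hw0 k hk
    have h3 := hd1 l hl
    have h4 := hwk k hk
    linarith
  have fle : ∀ y : ℝ, 0 ≤ y → ((⌊y * J⌋₊ : ℕ) : ℝ) ≤ y * J := fun y hy =>
    Nat.floor_le (mul_nonneg hy hJ0)
  have fge : ∀ y : ℝ, y * J < ((⌊y * J⌋₊ : ℕ) : ℝ) + 1 := fun y => Nat.lt_floor_add_one _
  obtain ⟨u, hu⟩ : ∃ u, u = ⌊(φ + ε) * J⌋₊ + S + 2 + C' := ⟨_, rfl⟩
  have hur : (φ + ε) * J ≤ ⌊(φ + ε) * J⌋₊ + 1 := (fge _).le
  have hεJ0 : 0 ≤ ε * (J : ℝ) := mul_nonneg hε hJ0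
  have hSκ : (1 : ℝ) * J ≤ S * κ 0 * J := mul_le_mul_of_nonneg_right hκ0 hJ0
  have hu' : (u : ℝ) = (⌊(φ + ε) * J⌋₊ : ℕ) + S + 2 + C' := by
    rw [hu]
    push_cast
    ring
  have hφJ : φ * (J : ℝ) ≤ (φ + ε) * J := mul_le_mul_of_nonneg_right (by linarith) hJ0
  have hεJ : ε * (J : ℝ) ≤ (φ + ε) * J := mul_le_mul_of_nonneg_right (by linarith) hJ0
  have hur1 : φ * (J : ℝ) + 1 ≤ u := by
    rw [hu']
    linarith
  have hur2 : ε * (J : ℝ) + S + 1 ≤ u := by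
    rw [hu']
    linarith
  obtain ⟨ℓ, hℓ⟩ : ∃ ℓ : ℕ → ℕ, ℓ = fun l => g N l - ⌊(b N l - de l) * J⌋₊ := ⟨_, rfl⟩
  have hdede : ∀ l < n, d l ≤ de l := fun l hl => by
    have h1 := hd1 l hl
    have h2 := hd0 l hl
    linarith
  have hx1 : ∀ l < n, ⌊(b N l - de l) * J⌋₊ ≤ g N l := by
    intro l hl
    rw [hg]
    have := hdede l hl
    exact Nat.floor_le_floor (mul_le_mul_of_nonneg_right (by linarith) hJ0)
  have hba : ∀ l < n, a ≤ b N l := fun l hl => by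
    have h1 := hblow N le_rfl l hl
    rw [hκN] at h1
    linarith
  have hℓr : ∀ l < n, (de l - d l) * J - 1 ≤ ℓ l ∧ (ℓ l : ℝ) ≤ (de l - d l) * J + 1 := by
    intro l hl
    have h1 : (ℓ l : ℝ) = (⌊(b N l - d l) * J⌋₊ : ℕ) - (⌊(b N l - de l) * J⌋₊ : ℕ) := by
      have h2 := hx1 l hl
      rw [hℓ]
      show ((g N l - ⌊(b N l - de l) * J⌋₊ : ℕ) : ℝ) = _
      rw [Nat.cast_sub h2, hg]
    have h3 := fle (b N l - d l) (by
      have := hbd N le_rfl l hl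
      linarith)
    have h4 := fge (b N l - d l)
    have h5 := fle (b N l - de l) (by
      have := hdea l hl
      have := hba l hl
      linarith)
    have h6 := fge (b N l - de l)
    rw [h1]
    constructor <;> linarith
  obtain ⟨L, hL⟩ : ∃ L, L = ⌊de (n - 1) * J + 1⌋₊ := ⟨_, rfl⟩
  have hden : 0 < de (n - 1) := hde0.trans_le (hd0 (n - 1) (by omega))
  have hLr : (L : ℝ) ≤ de (n - 1) * J + 1 := by
    rw [hL]
    exact Nat.floor_le (by positivity)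
  obtain ⟨s, hs⟩ : ∃ s, s = ⌊σ * J⌋₊ := ⟨_, rfl⟩
  have hsr : (s : ℝ) ≤ σ * J := by
    rw [hs]
    exact fle σ hσ0.le
  have hsr' : σ * J < s + 1 := by
    rw [hs]
    exact fge σ
  have haN : al N = ⌊a * J⌋₊ := by
    rw [hal]
    show ⌊(a - κ N) * J⌋₊ = _
    rw [hκN, sub_zero]
  have hoN : om N = ⌊w * J⌋₊ := by
    rw [hom]
    show ⌊(w - κ N) * J⌋₊ = _
    rw [hκN, sub_zero]
  have hoNJ : om N ≤ J := by
    rw [hoN]
    exact Pool.LBT.fl_le' hw1.le J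
  have homm : ∀ k ≤ N, om k ≤ om N := by
    intro k hk
    rw [hom]
    refine Nat.floor_le_floor (mul_le_mul_of_nonneg_right ?_ hJ0)
    have := hκm k N hk le_rfl
    linarith
  obtain ⟨B', Gt, R, k1, k2, k3, k4⟩ := hfam m J F c al om ⌊e * J⌋₊ g ⌊φ * J⌋₊ (⌊μ * J⌋₊ + 1) u
    s ℓ L B G H (η * J) hJat' hinj
    (by
      rw [haN]
      exact Pool.LBT.fl_le' ha.le J)
    (fun k hk => by
      rw [hom, hal]
      exact Nat.floor_le_floor (mul_le_mul_of_nonneg_right (hwk k hk) hJ0))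
    (fun k hk => by
      obtain ⟨h1, h2⟩ := hκs k hk
      rw [hom]
      refine ⟨Nat.floor_le_floor (mul_le_mul_of_nonneg_right (by linarith) hJ0), ?_⟩
      refine fl_add ?_
      have h3 := mul_le_mul_of_nonneg_right h2 hJ0
      linarith)
    (fun k hk => by
      obtain ⟨h1, h2⟩ := hκs k hk
      rw [hal]
      refine ⟨Nat.floor_le_floor (mul_le_mul_of_nonneg_right (by linarith) hJ0), ?_⟩
      refine fl_add ?_
      have h3 := mul_le_mul_of_nonneg_right h2 hJ0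
      linarith)
    (fun k hk k' hk' l hl => by
      have h1 := hbmono k hk k' hk' l hl
      have h2 := hbd k' (hk'.trans hk) l hl
      have h3 := hw0 k hk
      have h4 := hwk k hk
      have h5 := hκm k' k hk' hk
      have hu1 : 1 ≤ u := by rw [hu]; omega
      have h7 := mul_le_mul_of_nonneg_right h1 hJ0
      refine ⟨?_, ?_, ?_⟩
      · have h6 := fl2 (x := (b k' l - d l) * J) (y := (a - κ k) * J) (z := (b k l - d l) * J)
          (t := (a - κ k') * J) (mul_nonneg (by linarith) hJ0) (mul_nonneg (by linarith) hJ0)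
          (by linarith)
        rw [hg, hal]
        show ⌊(b k' l - d l) * J⌋₊ + ⌊(a - κ k) * J⌋₊ ≤ ⌊(b k l - d l) * J⌋₊ +
          ⌊(a - κ k') * J⌋₊ + u
        omega
      · have h6 := fl2 (x := (b k' l - d l) * J) (y := (w - κ k) * J) (z := (b k l - d l) * J)
          (t := (w - κ k') * J) (mul_nonneg (by linarith) hJ0) (mul_nonneg (by linarith) hJ0)
          (by linarith)
        rw [hg, hom]
        show ⌊(b k' l - d l) * J⌋₊ + ⌊(w - κ k) * J⌋₊ ≤ ⌊(b k l - d l) * J⌋₊ +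
          ⌊(w - κ k') * J⌋₊ + u
        omega
      · rw [hg]
        exact Nat.floor_le_floor (mul_le_mul_of_nonneg_right (by linarith) hJ0))
    (fun k hk l hl => by
      have h1 := mul_le_mul_of_nonneg_right (hblow k hk l hl) hJ0
      have h2 := mul_le_mul_of_nonneg_right (hd1 l hl) hJ0
      have h3 := hw0 k hk
      have h4 := hwk k hk
      rw [hal, hg]
      refine le_num (r := φ * J) (mul_nonneg (by linarith) hJ0) ?_ hur1
      linarith)
    (fun k hk l hl => by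
      have h1 := mul_le_mul_of_nonneg_right (hbsl k hk l hl) hJ0
      have h2 := hbd N le_rfl l hl
      have h3 := hw0 k hk
      have h4 := hwk k hk
      rw [hal, hom, hg]
      constructor
      · refine slp_num (r := ε * J) (mul_nonneg (by linarith) hJ0)
          (mul_nonneg (by linarith) hJ0) ?_ hur2
        rw [hκN]
        linarith
      · refine slp_num (r := ε * J) (mul_nonneg (by linarith) hJ0)
          (mul_nonneg (by linarith) hJ0) ?_ hur2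
        rw [hκN]
        linarith)
    (fun l hl => by
      have h1 := hbup l hl
      have h2 := hbd N le_rfl l hl
      have h3 := hd2 l hl
      have h4 := hw0 0 (Nat.zero_le _)
      have h5 := hwk 0 (Nat.zero_le _)
      have h10 : (b N l - d l) * J ≤ 1 * J := mul_le_mul_of_nonneg_right (by linarith) hJ0
      have h6 := hεJ0
      rw [hal, hom, hg]
      constructor
      · have h7 := slp_num (S := S) (u := u) (x := (b N l - d l) * J) (y := 0)
          (A := (a - κ 0) * J) (B := (a - κ N) * J) (r := ε * J) (mul_nonneg (by linarith) hJ0)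
          (mul_nonneg (by linarith) hJ0) (by
            rw [hκN]
            linarith) hur2
        rw [Nat.floor_zero, Nat.zero_add] at h7
        exact h7
      · have h7 := slp_num (S := S) (u := u) (x := (b N l - d l) * J) (y := 0)
          (A := (w - κ 0) * J) (B := (w - κ N) * J) (r := ε * J) (mul_nonneg (by linarith) hJ0)
          (mul_nonneg (by linarith) hJ0) (by
            rw [hκN]
            linarith) hur2
        rw [Nat.floor_zero, Nat.zero_add] at h7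
        exact h7)
    (fun k hk l hl => by
      have h1 := hbd k hk l hl
      have h2 := fge (b k l - d l)
      have h3 : v / 2 * J ≤ (b k l - d l) * J := mul_le_mul_of_nonneg_right h1 hJ0
      have h5 : ((C' : ℕ) : ℝ) < ((g k l + 1 : ℕ) : ℝ) := by
        rw [hg]
        push_cast
        linarith
      have h6 : C' < g k l + 1 := by exact_mod_cast h5
      omega)
    (by
      have h1 : ⌊φ * J⌋₊ ≤ ⌊(φ + ε) * J⌋₊ := Nat.floor_le_floor hφJ
      omega)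
    hB (by positivity)
    (fun k hk => by
      have h1 := homm k hk
      exact timeF hB hTm (by omega))
    (by
      rw [Nat.cast_sub hoNJ, hoN]
      have h1 := fle w (by linarith)
      have h2 : C' * (η * J) ≤ (1 - w) / 2 * J := by
        rw [← mul_assoc]
        exact mul_le_mul_of_nonneg_right hη2 hJ0
      linarith)
    (by
      rw [hs, hu]
      exact loss_num hφ0.le hε hμ0.le hσx hφ1 hμ1 hη1 b3)
    (fun i hi => by
      rw [hℓ]
      exact Nat.sub_le _ _)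
    (fun i hi => by
      rw [hL]
      refine Nat.le_floor ?_
      have h1 := (hℓr i hi).2
      have h2 := mul_nonneg (hd2 i hi) hJ0
      have h3 := mul_le_mul_of_nonneg_right (hdn i hi) hJ0
      linarith)
    (by
      have h3 := loss_zero hc1 hσc hsr (hℓr 0 (by omega)).1 (hd1 0 (by omega)) hφ2 b4'
      exact_mod_cast h3)
    (fun i hi => by
      have h3 := loss_succ hc1 hσc hsr (hℓr (i + 1) hi).1 (hℓr i (by omega)).2
        (hd2 i (by omega)) (hd1 (i + 1) hi) hφ2 hde0 (hd0 i (by omega)) hCc (hdes i hi) b4'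
      exact_mod_cast h3)
  have hE : ⌊e * J⌋₊ + c₀ * (L + s + 1) + C' ≤ ⌊(e + C * de (n - 1)) * J⌋₊ :=
    grad_num hc1 hσc hsr hLr hde0 (hd0 (n - 1) (by omega)) hCc he0 b4
  refine ⟨B', Gt, R, k1, k2, ?_, ?_⟩
  · rw [haN, hoN] at k3
    refine chok_congr (k3.mono le_rfl (fun _ => le_rfl) le_rfl hE) fun l hl => ?_
    have h2 := hx1 l hl
    rw [hℓ]
    show g N l - (g N l - ⌊(b N l - de l) * J⌋₊) = ⌊(b N l - de l) * J⌋₊
    omega
  · rw [haN, hs, hg] at k4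
    exact k4

end CLO

end Pool.STAT
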