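import Pool.Agent.H63.STAT.CloL

/-!
# The gradients of the exact labels

The closed polynomials of `clo_fam` have natural gradients on their dilated natural boxes, as the
polynomials of the chains.
-/

set_option autoImplicit false

namespace Pool.STAT

open Finset MvPolynomial
open Pool.Agent.H49.Ent Pool.Agent.H32.Dense Pool.STK Pool.KS3 Pool.KA Pool.KSAT Pool.PB Pool.GEN
open Pool.K2S

variable {m J : ℕ}

namespace CLO

/-- The gradients on dilated natural boxes, with one constant for all numbers of variables. -/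
theorem ngd (n K₀ : ℕ) : ∃ (C : ℝ) (K₁ : ℕ), 0 ≤ C ∧ ∀ i ≤ n, ∀ (Φ : ℕ → PN) (g : ℕ → ℕ) (D : PN)
    (S T ρ : ℝ) (l : ℕ) (b : ℕ → ℝ), TriN Φ → (∀ j < i, (Φ j).totalDegree ≤ K₀) →
    D.totalDegree ≤ K₀ → D.vars ⊆ range i → (∀ b, Bx g Φ i b → |eval b D| ≤ S) → 0 ≤ S →
    1 ≤ ρ → (∀ j < i, |b j - eval b (Φ j)| ≤ ρ / 2 ^ g j) → 0 ≤ T → (l < i → 2 ^ g l ≤ T) →
    (∀ j, l < j → j < i → 2 ^ g j * |eval b (pderiv l (Φ j))| ≤ T) →
    |eval b (pderiv l D)| ≤ C * S * ρ ^ K₁ * T := by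
  choose C hC0 K₁ h using fun i => NL.nat_grad_dil i K₀
  refine ⟨∑ i ∈ range (n + 1), C i, ∑ i ∈ range (n + 1), K₁ i,
    Finset.sum_nonneg fun i _ => hC0 i, ?_⟩
  intro i hi Φ g D S T ρ l b h1 h2 h3 h4 h5 h6 h7 h8 h9 h10 h11
  have e1 : C i ≤ ∑ i ∈ range (n + 1), C i :=
    Finset.single_le_sum (f := C) (fun j _ => hC0 j) (mem_range.2 (by omega))
  have e2 : K₁ i ≤ ∑ i ∈ range (n + 1), K₁ i :=
    Finset.single_le_sum (f := K₁) (fun j _ => Nat.zero_le _) (mem_range.2 (by omega))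
  have e3 := hC0 i
  refine (h i Φ g D S T ρ l b h1 h2 h3 h4 h5 h6 h7 h8 h9 h10 h11).trans ?_
  have e4 : ρ ^ K₁ i ≤ ρ ^ ∑ i ∈ range (n + 1), K₁ i := pow_le_pow_right₀ h7 e2
  have e5 : 0 ≤ ρ := by linarith
  have e6 : 0 ≤ ∑ i ∈ range (n + 1), C i := e3.trans e1
  exact mul_le_mul_of_nonneg_right (mul_le_mul (mul_le_mul_of_nonneg_right e1 h6) e4
    (by positivity) (by positivity)) h9

/-- The natural exponents do not change if all precisions decrease by `sh`. -/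
theorem nlp_sh {g γ : ℕ → ℕ} {n sh l j : ℕ} (hγ : ∀ i, 1 ≤ i → i ≤ n → γ i = g (i - 1) - sh)
    (hsh : ∀ i < n, sh ≤ g i) (hl : l < j) (hj : j < n) :
    nlp g l j ≤ nlp γ (l + 1) (j + 1) := by
  obtain ⟨q, hq, hq2⟩ := Finset.exists_mem_eq_sup (Finset.Icc l j) ⟨l, Finset.mem_Icc.2
    ⟨le_rfl, hl.le⟩⟩ g
  have h1 := Finset.mem_Icc.1 hq
  have h2 : γ (q + 1) ≤ (Finset.Icc (l + 1) (j + 1)).sup γ :=
    Finset.le_sup (f := γ) (Finset.mem_Icc.2 ⟨by omega, by omega⟩)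
  have h3 := hγ (q + 1) (by omega) (by omega)
  have h4 := hγ (j + 1) (by omega) (by omega)
  have h5 := hsh q (by omega)
  have h6 := hsh j hj
  rw [Nat.add_sub_cancel] at h3 h4
  unfold nlp
  rw [hq2]
  omega

/-- **The gradients of the exact labels of one level**, on the natural boxes dilated by `2`. -/
theorem lip_lev (n K K' s₀ sh : ℕ) (hK' : 1 ≤ K') : ∃ c₃ : ℕ, ∀ (m J M w₀ z k e : ℕ)
    (F : Fam m J) (c : ℕ → Fin m) (Kv : ℕ → ℕ) (g : ℕ → ℕ) (γ : ℕ → ℕ → ℕ) (A B : F.Ω → Prop)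
    (G : PtT F → ℕ → MvPolynomial (Option (Fin m)) ℝ)
    (H : LnT F → ℕ → MvPolynomial (Option (Fin m)) ℝ) (C : CDat F) (C₁ : ℝ), k ≤ M →
    w₀ + k * z ≤ J → Inj c n → (∀ i < n, Kv i ≤ K) →
    ChOK F c n Kv (w₀ + k * z) w₀ e g A G H → Sub B A →
    C.Cnd (fun i => c (i - 1)) n K' w₀ z M γ C₁ B → (∀ i, 1 ≤ i → i ≤ n → γ k i = g (i - 1) - sh) →
    (∀ i < n, sh ≤ g i) →
    (∀ ω, B ω → Nr K' (2 ^ s₀) (gg (w₀ + k * z) g) (C.Ph w₀ z k ω)
      (Gs c n (w₀ + k * z) G (ptr F J ω)) (n + 1)) →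
    ∀ ω, B ω → ∀ l j, 1 ≤ l → l < j → j ≤ n → ∀ b : ℕ → ℝ,
      Bxr 2 (CDat.g0 w₀ z γ k) (C.Ph w₀ z k ω) j b →
      |eval b (pderiv l (C.Ph w₀ z k ω j))| ≤ 2 ^ (e + c₃ + nlp (γ k) l j) := by
  obtain ⟨C₁, hC₁, hdil⟩ := dil n K
  obtain ⟨K₁, hK₁⟩ : ∃ K₁, K₁ = K * (K + 1) ^ (n + 1) := ⟨_, rfl⟩
  rw [← hK₁] at hdil
  obtain ⟨Cg, Kg, hCg, hng⟩ := ngd n (max K K')
  obtain ⟨M', hM'⟩ := cc_le K' n
  obtain ⟨R, hR⟩ : ∃ R : ℝ, R = (2 * K' * 2 ^ s₀ * 2 ^ (sh + 1)) ^ M' := ⟨_, rfl⟩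
  have hKr : (1 : ℝ) ≤ K' := by exact_mod_cast hK'
  have hs1 : (1 : ℝ) ≤ 2 ^ s₀ := one_le_pow₀ (by norm_num)
  have hRb : (1 : ℝ) ≤ 2 * K' * 2 ^ s₀ * 2 ^ (sh + 1) := by
    have h2 : (1 : ℝ) ≤ 2 ^ (sh + 1) := one_le_pow₀ (by norm_num)
    have h3 : (1 : ℝ) ≤ 2 * K' := by linarith
    have h4 : (1 : ℝ) ≤ 2 * K' * 2 ^ s₀ := by nlinarith
    nlinarith
  have hR1 : 1 ≤ R := by
    rw [hR]
    exact one_le_pow₀ hRb
  obtain ⟨U, hU⟩ : ∃ U : ℝ, U = C₁ * (R + 1) ^ K₁ := ⟨_, rfl⟩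
  have hU1 : 1 ≤ U := by
    rw [hU]
    have h1 : (1 : ℝ) ≤ (R + 1) ^ K₁ := one_le_pow₀ (by linarith)
    nlinarith
  obtain ⟨S, hS⟩ : ∃ S : ℝ, S = (K' * 2 ^ s₀ * 2) ^ K' := ⟨_, rfl⟩
  have hS0 : 0 ≤ S := by
    rw [hS]
    positivity
  obtain ⟨c₃, hc₃⟩ := pow_unbounded_of_one_lt (U * (1 + Cg * S * (R + 1) ^ Kg))
    (one_lt_two (α := ℝ))
  refine ⟨c₃, ?_⟩
  intro m J M w₀ z k e F c Kv g γ A B G H C C₁' hk ha hc hKv h hB hC hγ hsh hN ω hω l j hl hlj hj b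
    hb
  obtain ⟨a, haa⟩ : ∃ a, a = w₀ + k * z := ⟨_, rfl⟩
  rw [← haa] at ha h hN
  have hGK : ∀ y, ∀ i < n, (G y i).totalDegree ≤ K := fun y i hi => (h.degG y i).trans (hKv i hi)
  obtain ⟨Φ, hΦ⟩ : ∃ Φ, Φ = sy c n (F.t ω) (G (ptr F J ω)) := ⟨_, rfl⟩
  have hΦt : TriN Φ := by
    rw [hΦ]
    exact sy_tri
  have hΦd : ∀ i, (Φ i).totalDegree ≤ K := by
    rw [hΦ]
    exact sy_deg (hGK _)
  have h0s : (0 : ℝ) < 2 ^ a := by positivity
  have hg0 : gg a g 0 = a := if_pos rfl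
  have hgj : ∀ i, 1 ≤ i → gg a g i = g (i - 1) := fun i hi => if_neg (by omega)
  -- the point is in the dilated box of the chain
  have hb1 : Bxr (2 ^ (sh + 1)) (gg a g) (C.Ph w₀ z k ω) j b := by
    intro i hi
    have h1 := hb i hi
    rcases Nat.eq_zero_or_pos i with rfl | hi0
    · have h2 : CDat.g0 w₀ z γ k 0 = a := by
        rw [haa]
        exact if_pos rfl
      rw [h2] at h1
      rw [hg0]
      refine h1.trans (div_le_div_of_nonneg_right ?_ h0s.le)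
      exact le_self_pow₀ (by norm_num) (by omega)
    · have h2 : CDat.g0 w₀ z γ k i = g (i - 1) - sh := by
        rw [← hγ i hi0 (by omega)]
        exact if_neg (by omega)
      rw [h2] at h1
      rw [hgj i hi0]
      refine h1.trans ?_
      rw [div_le_div_iff₀ (by positivity) (by positivity), ← pow_succ', ← pow_add]
      exact pow_le_pow_right₀ (by norm_num) (by omega)
  have hb2 : Bxr R (gg a g) (Gs c n a G (ptr F J ω)) j b := by
    have h1 := ((hN ω hω).mono (i' := j) (by omega)).box hK' hs1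
      (one_le_pow₀ (by norm_num : (1 : ℝ) ≤ 2)) hb1 j le_rfl
    refine h1.mono ?_ le_rfl
    rw [hR]
    exact pow_le_pow_right₀ hRb (hM' j hj)
  have hcell : ∀ x : ℝ, ∀ ρ : ℝ, |x - (F.T1 a ω : ℝ) / 2 ^ a| ≤ ρ / 2 ^ a →
      |x - F.t ω| ≤ (ρ + 1) / 2 ^ a := by
    intro x ρ hx
    have h4 := t_cell F ha ω
    rw [add_div]
    rw [abs_le] at hx h4 ⊢
    constructor <;> linarith [hx.1, hx.2, h4.1, h4.2]
  have hcell' : ∀ x : ℝ, |x - F.t ω| ≤ 1 / 2 ^ a → |x - (F.T1 a ω : ℝ) / 2 ^ a| ≤ 2 / 2 ^ a := by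
    intro x hx
    have h4 := t_cell F ha ω
    have h5 : (2 : ℝ) / 2 ^ a = 1 / 2 ^ a + 1 / 2 ^ a := by ring
    rw [h5]
    rw [abs_le] at hx h4 ⊢
    constructor <;> linarith [hx.1, hx.2, h4.1, h4.2]
  have hGs0 : Gs c n a G (ptr F J ω) 0 = MvPolynomial.C ((F.T1 a ω : ℝ) / 2 ^ a) := by
    unfold Gs
    rw [sy_zero, tp_eq]
  have hb3 : ∀ i < j, |b i - eval b (Φ i)| ≤ (R + 1) / 2 ^ gg a g i := by
    intro i hi
    rcases Nat.eq_zero_or_pos i with rfl | hi0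
    · have h1 := hb2 0 hi
      rw [hGs0, eval_C, hg0] at h1
      rw [hΦ, sy_zero, eval_C, hg0]
      exact hcell _ _ h1
    · have h1 := hb2 i hi
      obtain ⟨i, rfl⟩ : ∃ i', i = i' + 1 := ⟨i - 1, by omega⟩
      unfold Gs at h1
      rw [hΦ]
      rw [sy_succ (by omega)] at h1 ⊢
      exact h1.trans (div_le_div_of_nonneg_right (by linarith) (by positivity))
  -- the gradients of the chain
  obtain ⟨l, rfl⟩ : ∃ l', l = l' + 1 := ⟨l - 1, by omega⟩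
  have hGr : ∀ q, l < q → q + 1 ≤ j →
      |eval b (pderiv (l + 1) (Φ (q + 1)))| ≤ U * 2 ^ (e + nlp g l q) := by
    intro q hq1 hq2
    have h1 : Φ (q + 1) = tr c q (G (ptr F J ω) q) := by
      rw [hΦ]
      exact sy_succ (by omega)
    rw [h1]
    have h2 := hdil Φ (gg a g) (pderiv (l + 1) (tr c q (G (ptr F J ω) q))) (q + 1)
      (2 ^ (e + nlp g l q)) (R + 1) hΦt hΦd (by omega) ((NEAR.vars_pd _ _).trans (tr_vars _ _ _))
      (NEAR.deg_pd ((tr_deg _ _ _).trans (hGK _ _ (by omega))) _) (by linarith)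
      (fun b' hb' => by
        rw [hΦ] at hb'
        have h5 := nbx_of_bxr hc (h.depG _) (by omega) hb'
        rw [pd_trL hc (by omega) (by omega) (h.depG _ q)]
        exact h.lip ω (hB ω hω) q (by omega) _ h5 l (by omega)) b
      (fun i hi => hb3 i (by omega))
    refine h2.trans (le_of_eq ?_)
    rw [hU]
    ring
  -- the polynomials
  have hPG : C.Ph w₀ z k ω j = C.G k (C.li k (slam F (w₀ + k * z) ω)) j := if_neg (by omega)
  obtain ⟨q, rfl⟩ : ∃ q, j = q + 1 := ⟨j - 1, by omega⟩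
  obtain ⟨D, hD⟩ : ∃ D, D = C.Ph w₀ z k ω (q + 1) - Φ (q + 1) := ⟨_, rfl⟩
  have hGsj : Gs c n a G (ptr F J ω) (q + 1) = Φ (q + 1) := by
    rw [hΦ]
    unfold Gs
    rw [sy_succ (by omega), sy_succ (by omega)]
  have hDv : D.vars ⊆ range (q + 1) := by
    rw [hD]
    refine AdxRow.vars_sub_le ?_ (hΦt _)
    rw [hPG]
    exact hC.tri k hk _ _ (by omega) hj
  have hDd : D.totalDegree ≤ max K K' := by
    rw [hD]
    refine (totalDegree_sub _ _).trans (max_le ?_ ((hΦd _).trans (le_max_left _ _)))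
    rw [hPG]
    exact (hC.deg k hk _ _ (by omega) hj).trans (le_max_right _ _)
  have hDs : ∀ b, Bx (gg a g) Φ (q + 1) b → |eval b D| ≤ S / 2 ^ g q := by
    intro b' hb'
    have h1 : Bxr 2 (gg a g) (Gs c n a G (ptr F J ω)) (q + 1) b' := by
      intro i hi
      have h2 := hb' i hi
      rcases Nat.eq_zero_or_pos i with rfl | hi0
      · rw [hΦ, sy_zero, eval_C, hg0] at h2
        rw [hGs0, eval_C, hg0]
        exact hcell' _ h2
      · obtain ⟨i, rfl⟩ : ∃ i', i = i' + 1 := ⟨i - 1, by omega⟩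
        rw [hΦ] at h2
        unfold Gs
        rw [sy_succ (by omega)] at h2 ⊢
        exact h2.trans (div_le_div_of_nonneg_right (by norm_num) (by positivity))
    have h2 := (hN ω hω).2 (q + 1) (by omega) (by omega) 2 (by norm_num) b' h1
    rw [hGsj, hgj (q + 1) (by omega), Nat.add_sub_cancel, ← hS] at h2
    rw [hD, map_sub]
    exact h2
  have hsup : ∀ r, r ≤ q → (Finset.Icc l r).sup g ≤ (Finset.Icc l q).sup g := fun r hr =>
    Finset.sup_mono (Finset.Icc_subset_Icc le_rfl hr)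
  have hgs : ∀ r, l ≤ r → r ≤ q → g r ≤ (Finset.Icc l q).sup g := fun r h1 h2 =>
    Finset.le_sup (f := g) (Finset.mem_Icc.2 ⟨h1, h2⟩)
  have hD1 := hng (q + 1) hj Φ (gg a g) D (S / 2 ^ g q) (U * 2 ^ (e + (Finset.Icc l q).sup g))
    (R + 1) (l + 1) b hΦt (fun i _ => (hΦd i).trans (le_max_left _ _)) hDd hDv hDs (by positivity)
    (by linarith) hb3 (by positivity) (fun h1 => by
      rw [hgj (l + 1) (by omega), Nat.add_sub_cancel]
      have h2 : (2 : ℝ) ^ g l ≤ 2 ^ (e + (Finset.Icc l q).sup g) :=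
        pow_le_pow_right₀ (by norm_num) (by
          have := hgs l le_rfl (by omega)
          omega)
      have h3 : (0 : ℝ) < 2 ^ (e + (Finset.Icc l q).sup g) := by positivity
      nlinarith)
    (fun i hi1 hi2 => by
      obtain ⟨i, rfl⟩ : ∃ i', i = i' + 1 := ⟨i - 1, by omega⟩
      rw [hgj (i + 1) (by omega), Nat.add_sub_cancel]
      have h2 := hGr i (by omega) (by omega)
      have h3 : (0 : ℝ) < 2 ^ g i := by positivity
      refine (mul_le_mul_of_nonneg_left h2 h3.le).trans ?_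
      have h4 : (2 : ℝ) ^ g i * (U * 2 ^ (e + nlp g l i)) = U * 2 ^ (g i + (e + nlp g l i)) := by
        rw [pow_add]
        ring
      rw [h4]
      refine mul_le_mul_of_nonneg_left (pow_le_pow_right₀ (by norm_num) ?_) (by linarith)
      have h5 : g i ≤ (Finset.Icc l i).sup g :=
        Finset.le_sup (f := g) (Finset.mem_Icc.2 ⟨by omega, le_rfl⟩)
      have h6 := hsup i (by omega)
      unfold nlp
      omega)
  have hE : (0 : ℝ) < 2 ^ (e + nlp g l q) := by positivity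
  have hD2 : Cg * (S / 2 ^ g q) * (R + 1) ^ Kg * (U * 2 ^ (e + (Finset.Icc l q).sup g)) =
      U * (Cg * S * (R + 1) ^ Kg) * 2 ^ (e + nlp g l q) := by
    have h1 : (2 : ℝ) ^ (e + (Finset.Icc l q).sup g) = 2 ^ g q * 2 ^ (e + nlp g l q) := by
      rw [← pow_add]
      congr 1
      have h2 := hgs q (by omega) le_rfl
      unfold nlp
      omega
    rw [h1]
    have h3 : (2 : ℝ) ^ g q ≠ 0 := by positivity
    field_simp
  rw [hD2] at hD1
  have hP1 : eval b (pderiv (l + 1) (C.Ph w₀ z k ω (q + 1))) =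
      eval b (pderiv (l + 1) (Φ (q + 1))) + eval b (pderiv (l + 1) D) := by
    rw [hD, map_sub, map_sub]
    ring
  rw [hP1]
  refine (abs_add_le _ _).trans ((add_le_add (hGr q (by omega) le_rfl) hD1).trans ?_)
  calc U * 2 ^ (e + nlp g l q) + U * (Cg * S * (R + 1) ^ Kg) * 2 ^ (e + nlp g l q) =
        U * (1 + Cg * S * (R + 1) ^ Kg) * 2 ^ (e + nlp g l q) := by ring
    _ ≤ 2 ^ c₃ * 2 ^ (e + nlp g l q) := mul_le_mul_of_nonneg_right hc₃.le hE.le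
    _ = 2 ^ (e + c₃ + nlp g l q) := by rw [← pow_add]; congr 1; ring
    _ ≤ 2 ^ (e + c₃ + nlp (γ k) (l + 1) (q + 1)) := by
        refine pow_le_pow_right₀ (by norm_num) (Nat.add_le_add_left ?_ _)
        exact nlp_sh (n := n) hγ hsh (by omega) (by omega)

/-- **From chains to exact labels**: `clo_fam` with the variation `Vr` in small cells and with the
gradients on the dilated natural boxes. -/
theorem clo_lip (n K : ℕ) : ∃ (sh K' s₀ c₁ : ℕ) (C₁ L : ℝ), 0 ≤ C₁ ∧ 1 ≤ L ∧ 1 ≤ K' ∧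
    ∀ (m J M w₀ z : ℕ) (F : Fam m J) (c : ℕ → Fin m) (Kv : ℕ → ℕ → ℕ) (e : ℕ → ℕ)
    (g : ℕ → ℕ → ℕ) (A : F.Ω → Prop) (G : ℕ → PtT F → ℕ → MvPolynomial (Option (Fin m)) ℝ)
    (H : ℕ → LnT F → ℕ → MvPolynomial (Option (Fin m)) ℝ), 1 ≤ z → w₀ + M * z ≤ J → Inj c n →
    (∀ k ≤ M, ∀ i < n, Kv k i ≤ K) → (∀ k ≤ M, ∀ i < n, sh ≤ g k i) →
    (∀ k ≤ M, ChOK F c n (Kv k) (w₀ + k * z) w₀ (e k) (g k) A (G k) (H k)) →
    ∃ (C : CDat F) (B : F.Ω → Prop), Sub B A ∧ Pe F.p A ≤ K' ^ (M + 1) * Pe F.p B ∧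
      C.Cnd (fun i => c (i - 1)) n K' w₀ z M (fun k i => g k (i - 1) - sh) C₁ B ∧
      C.R = Hs c n (H M) ∧
      (∀ k ≤ M, ∀ ω, B ω → ∀ i, 1 ≤ i → i ≤ n → ∀ b : ℕ → ℝ,
        Bx (CDat.g0 w₀ z (fun k i => g k (i - 1) - sh) k) (C.Ph w₀ z k ω) i b →
        |eval b (Hs c n (H k) (slam F w₀ ω) i) - eval b (C.Ph w₀ z k ω i)| ≤
          Real.exp (C₁ * z) / 2 ^ (g k (i - 1) - sh)) ∧
      (∀ k ≤ M, ∀ ω, B ω → Nr K' (2 ^ s₀) (gg (w₀ + k * z) (g k)) (C.Ph w₀ z k ω)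
        (Gs c n (w₀ + k * z) (G k) (ptr F J ω)) (n + 1)) ∧
      (∀ k ≤ M, ∀ y : ℕ, (∀ i < n, e k + g k i + y + c₁ ≤ J) →
        C.Vr (fun i => c (i - 1)) n w₀ z k (fun k i => g k (i - 1) - sh) y L B) ∧
      ∀ k ≤ M, ∀ ω, B ω → ∀ l j, 1 ≤ l → l < j → j ≤ n → ∀ b : ℕ → ℝ,
        Bxr 2 (CDat.g0 w₀ z (fun k i => g k (i - 1) - sh) k) (C.Ph w₀ z k ω) j b →
        |eval b (pderiv l (C.Ph w₀ z k ω j))| ≤
          2 ^ (e k + c₁ + nlp (fun i => g k (i - 1) - sh) l j) := by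
  obtain ⟨sh, K', s₀, C₁, hC₁, hK', h⟩ := clo_fam n K
  obtain ⟨c₁, L, hL, hv⟩ := vr_lev n K K' s₀ sh hK'
  obtain ⟨c₃, hl⟩ := lip_lev n K K' s₀ sh hK'
  refine ⟨sh, K', s₀, c₁ + c₃, C₁, L, hC₁, hL, hK', ?_⟩
  intro m J M w₀ z F c Kv e g A G H hz hM hc hKv hg hCh
  obtain ⟨C, B, h1, h2, h3, h4, h5, h6⟩ := h m J M w₀ z F c Kv e g A G H hz hM hc hKv hg hCh
  have hak : ∀ k ≤ M, w₀ + k * z ≤ J := fun k hk => by
    have : k * z ≤ M * z := Nat.mul_le_mul_right _ hk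
    omega
  refine ⟨C, B, h1, h2, h3, h4, h5, h6, fun k hk y hy => ?_,
    fun k hk ω hω l j hl1 hlj hj b hb => ?_⟩
  · exact hv m J M w₀ z k (e k) y F c (Kv k) (g k) _ A B (G k) (H k) C C₁ hk (hak k hk) hc
      (hKv k hk) (hCh k hk) h1 h3 (fun i _ _ => rfl) (h6 k hk) fun i hi => by
        have := hy i hi
        omega
  · refine (hl m J M w₀ z k (e k) F c (Kv k) (g k) _ A B (G k) (H k) C C₁ hk (hak k hk) hc
      (hKv k hk) (hCh k hk) h1 h3 (fun i _ _ => rfl) (hg k hk) (h6 k hk) ω hω l j hl1 hlj hj b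
      hb).trans ?_
    exact pow_le_pow_right₀ (by norm_num) (by omega)

end CLO

end Pool.STAT
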