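import Pool.Agent.H63.STAT.CloF
import Pool.Agent.H90.STAT.Near
import Pool.Agent.H77.STAT.RowF
import Pool.Agent.H74.STAT.NGrad

/-!
# The variation of the exact labels

The gradients of the chains of two-sided labels give the variation of the exact labels of
`clo_fam` in small cells: the condition `Vr` of the rows.
-/

set_option autoImplicit false

namespace Pool.STAT

open Finset MvPolynomial
open Pool.Agent.H49.Ent Pool.Agent.H32.Dense Pool.STK Pool.KS3 Pool.KA Pool.KSAT Pool.PB Pool.GEN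
open Pool.K2S

variable {m J : ℕ}

namespace CLO

/-- The derivatives of a translated polynomial. -/
theorem pd_trL {c : ℕ → Fin m} {n i l : ℕ} (hc : Inj c n) (hi : i ≤ n) (hl : l < i)
    {G : MvPolynomial (Option (Fin m)) ℝ} (hG : DepC c i G) (b : ℕ → ℝ) :
    eval b (pderiv (l + 1) (tr c i G)) =
      eval (fun o => eval b (vr c i o)) (pderiv (some (c l)) G) := by
  classical
  obtain ⟨B, hB⟩ : ∃ B : Option (Fin m) → ℝ, B = fun o => eval b (vr c i o) := ⟨_, rfl⟩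
  rw [← hB]
  have hBl : ∀ l < i, B (some (c l)) = b (l + 1) := by
    intro l hl
    rw [hB]
    show eval b (vr c i (some (c l))) = _
    rw [vr_some hc hi hl, eval_X]
  have key : ∀ s, eval (Function.update b (l + 1) s) (tr c i G) =
      eval (Function.update B (some (c l)) s) G := by
    intro s
    refine eval_tr hc hi hG ?_ fun l' hl' => ?_
    · rw [Function.update_of_ne (Option.some_ne_none _).symm,
        Function.update_of_ne (by omega : (0 : ℕ) ≠ l + 1), hB]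
      show eval b (X 0) = _
      rw [eval_X]
    · by_cases h : l' = l
      · subst h
        rw [Function.update_self, Function.update_self]
      · have h1 : some (c l') ≠ some (c l) := fun h' =>
          h (hc l' (hl'.trans_le hi) l (hl.trans_le hi) (Option.some.inj h'))
        rw [Function.update_of_ne h1, Function.update_of_ne (by omega : l' + 1 ≠ l + 1),
          hBl l' hl']
  have h1 := NL.hasDerivAt_upd (tr c i G) b (l + 1) (b (l + 1))
  have h2 := NL.hasDerivAt_upd G B (some (c l)) (b (l + 1))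
  simp only [key] at h1
  have h3 := h1.unique h2
  rw [Function.update_eq_self] at h3
  rw [h3]
  have h4 : Function.update B (some (c l)) (b (l + 1)) = B := by
    rw [← hBl l hl, Function.update_eq_self]
  rw [h4]

/-- **The variation of the exact labels of one level.** -/
theorem vr_lev (n K K' s₀ sh : ℕ) (hK' : 1 ≤ K') : ∃ (c₁ : ℕ) (L : ℝ), 1 ≤ L ∧
    ∀ (m J M w₀ z k e y : ℕ)
    (F : Fam m J) (c : ℕ → Fin m) (Kv : ℕ → ℕ) (g : ℕ → ℕ) (γ : ℕ → ℕ → ℕ) (A B : F.Ω → Prop)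
    (G : PtT F → ℕ → MvPolynomial (Option (Fin m)) ℝ)
    (H : LnT F → ℕ → MvPolynomial (Option (Fin m)) ℝ) (C : CDat F) (C₁ : ℝ), k ≤ M →
    w₀ + k * z ≤ J → Inj c n → (∀ i < n, Kv i ≤ K) →
    ChOK F c n Kv (w₀ + k * z) w₀ e g A G H → Sub B A →
    C.Cnd (fun i => c (i - 1)) n K' w₀ z M γ C₁ B → (∀ i, 1 ≤ i → i ≤ n → γ k i = g (i - 1) - sh) →
    (∀ ω, B ω → Nr K' (2 ^ s₀) (gg (w₀ + k * z) g) (C.Ph w₀ z k ω)
      (Gs c n (w₀ + k * z) G (ptr F J ω)) (n + 1)) →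
    (∀ i < n, e + g i + y + c₁ ≤ J) →
    C.Vr (fun i => c (i - 1)) n w₀ z k γ y L B := by
  obtain ⟨C₁, hC₁, hdil⟩ := dil n K
  obtain ⟨K₁, hK₁⟩ : ∃ K₁, K₁ = K * (K + 1) ^ (n + 1) := ⟨_, rfl⟩
  rw [← hK₁] at hdil
  obtain ⟨M', hM'⟩ := cc_le K' n
  obtain ⟨R, hR⟩ : ∃ R : ℝ, R = (2 * K' * 2 ^ s₀ * 2 ^ (sh + 1)) ^ M' := ⟨_, rfl⟩
  have hKr : (1 : ℝ) ≤ K' := by exact_mod_cast hK'
  have hRb : (1 : ℝ) ≤ 2 * K' * 2 ^ s₀ * 2 ^ (sh + 1) := by
    have h1 : (1 : ℝ) ≤ 2 ^ s₀ := one_le_pow₀ (by norm_num)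
    have h2 : (1 : ℝ) ≤ 2 ^ (sh + 1) := one_le_pow₀ (by norm_num)
    have h3 : (1 : ℝ) ≤ 2 * K' := by linarith
    have h4 : (1 : ℝ) ≤ 2 * K' * 2 ^ s₀ := by nlinarith
    nlinarith
  have hR1 : 1 ≤ R := by
    rw [hR]
    exact one_le_pow₀ hRb
  obtain ⟨c₂, hc₂⟩ := pow_unbounded_of_one_lt (C₁ * (R + 1) ^ K₁) (one_lt_two (α := ℝ))
  obtain ⟨S, hS⟩ : ∃ S : ℝ, S = (K' * 2 ^ s₀ * R) ^ K' := ⟨_, rfl⟩
  have hS0 : 0 ≤ S := by
    rw [hS]
    positivity
  obtain ⟨L, hL, hnear⟩ := NEAR.near n (max K K') hS0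
  refine ⟨c₂, L, hL, ?_⟩
  intro m J M w₀ z k e y F c Kv g γ A B G H C C₁' hk ha hc hKv h hB hC hγ hN hJ
  obtain ⟨a, haa⟩ : ∃ a, a = w₀ + k * z := ⟨_, rfl⟩
  rw [← haa] at ha h hN
  obtain ⟨N, hNs⟩ : ∃ N, N = (Finset.range n).sup g := ⟨_, rfl⟩
  have hgN : ∀ i < n, g i ≤ N := fun i hi => by
    rw [hNs]
    exact Finset.le_sup (f := g) (mem_range.2 hi)
  intro ω ω' hω hω' hlab hT i hi1 hi hX
  have hGK : ∀ y, ∀ i < n, (G y i).totalDegree ≤ K := fun y i hi => (h.degG y i).trans (hKv i hi)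
  -- the closed system with the exact time
  obtain ⟨P, hP⟩ : ∃ P : ℕ → PN, P = fun j => if j = 0 then MvPolynomial.C (F.t ω) else
    if j ≤ n then C.Ph w₀ z k ω j else 0 := ⟨_, rfl⟩
  have hP0 : P 0 = MvPolynomial.C (F.t ω) := by
    rw [hP]
    exact if_pos rfl
  have hPj : ∀ j, 1 ≤ j → j ≤ n → P j = C.Ph w₀ z k ω j := fun j h1 h2 => by
    rw [hP]
    show (if j = 0 then MvPolynomial.C (F.t ω) else if j ≤ n then C.Ph w₀ z k ω j else 0) = _
    rw [if_neg (by omega), if_pos h2]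
  have hPG : ∀ j, 1 ≤ j → j ≤ n → C.Ph w₀ z k ω j = C.G k (C.li k (slam F (w₀ + k * z) ω)) j :=
    fun j h1 h2 => if_neg (by omega)
  obtain ⟨g', hg'⟩ : ∃ g' : ℕ → ℕ, g' = fun j => if j = 0 then a else g (j - 1) - sh := ⟨_, rfl⟩
  have hg0 : g' 0 = a := by
    rw [hg']
    exact if_pos rfl
  have hgj : ∀ j, 1 ≤ j → g' j = g (j - 1) - sh := fun j h1 => by
    rw [hg']
    exact if_neg (by omega)
  have h0s : (0 : ℝ) < 2 ^ a := by positivity
  -- the boxes
  have hbox : ∀ j ≤ n, ∀ b : ℕ → ℝ, Bx g' P j b →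
      Bxr (2 ^ (sh + 1)) (gg a g) (C.Ph w₀ z k ω) j b := by
    intro j hj b hb l hl
    have h1 := hb l hl
    rcases Nat.eq_zero_or_pos l with rfl | hl0
    · rw [hP0, eval_C, hg0] at h1
      have h2 : C.Ph w₀ z k ω 0 = MvPolynomial.C ((F.T1 a ω : ℝ) / 2 ^ a) := by
        rw [haa]
        exact if_pos rfl
      have h3 : gg a g 0 = a := if_pos rfl
      rw [h2, eval_C, h3]
      have h4 := t_cell F ha ω
      have h5 : |b 0 - (F.T1 a ω : ℝ) / 2 ^ a| ≤ 1 / 2 ^ a + 1 / 2 ^ a := by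
        rw [abs_le] at h1 h4 ⊢
        constructor <;> linarith [h1.1, h1.2, h4.1, h4.2]
      refine h5.trans ?_
      rw [← add_div]
      refine div_le_div_of_nonneg_right ?_ h0s.le
      have : (1 : ℝ) ≤ 2 ^ sh := one_le_pow₀ (by norm_num)
      rw [pow_succ]
      linarith
    · rw [hPj l hl0 (by omega), hgj l hl0] at h1
      have h3 : gg a g l = g (l - 1) := if_neg (by omega)
      rw [h3]
      refine h1.trans ?_
      rw [div_le_div_iff₀ (by positivity) (by positivity), one_mul, ← pow_add]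
      exact pow_le_pow_right₀ (by norm_num) (by omega)
  have hbox2 : ∀ j ≤ n, ∀ b : ℕ → ℝ, Bx g' P j b →
      Bxr R (gg a g) (Gs c n a G (ptr F J ω)) j b := by
    intro j hj b hb
    have h1 := ((hN ω hω).mono (i' := j) (by omega)).box hK' (one_le_pow₀ (by norm_num))
      (one_le_pow₀ (by norm_num : (1 : ℝ) ≤ 2)) (hbox j hj b hb) j le_rfl
    refine h1.mono ?_ le_rfl
    rw [hR]
    exact pow_le_pow_right₀ hRb (hM' j hj)
  have hbox3 : ∀ j ≤ n, ∀ b : ℕ → ℝ, Bx g' P j b →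
      Bxr (R + 1) (gg a g) (sy c n (F.t ω) (G (ptr F J ω))) j b := by
    intro j hj b hb l hl
    rcases Nat.eq_zero_or_pos l with rfl | hl0
    · have h1 := hb 0 hl
      rw [hP0, eval_C, hg0] at h1
      have h3 : gg a g 0 = a := if_pos rfl
      rw [sy_zero, eval_C, h3]
      refine h1.trans (div_le_div_of_nonneg_right ?_ h0s.le)
      linarith
    · have h1 := hbox2 j hj b hb l hl
      obtain ⟨l, rfl⟩ : ∃ l', l = l' + 1 := ⟨l - 1, by omega⟩
      unfold Gs at h1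
      rw [sy_succ (by omega)] at h1 ⊢
      exact h1.trans (div_le_div_of_nonneg_right (by linarith) (by positivity))
  -- the data
  have hdat : NEAR.Dat n (max K K') S P (Gs c n a G (ptr F J ω)) g'
      (cx F (fun i => c (i - 1)) ω) (fun j => e + (N - g (j - 1)) + c₂) J y := by
    refine ⟨fun j => ?_, fun j => ?_, fun j _ _ => sy_tri j, fun j _ _ =>
      (sy_deg (hGK _) j).trans (le_max_left _ _), ?_, fun j hj1 hj => ?_, fun j hj1 hj b hb => ?_,
      fun j hj1 hj b hb l hl1 hl => ?_, fun j hj1 hj => ?_⟩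
    · rw [hP]
      show (if j = 0 then MvPolynomial.C (F.t ω) else
        if j ≤ n then C.Ph w₀ z k ω j else 0).vars ⊆ range j
      split_ifs with h1 h2
      · rw [vars_C]
        exact Finset.empty_subset _
      · rw [hPG j (by omega) h2]
        exact hC.tri k hk _ j (by omega) h2
      · rw [vars_0]
        exact Finset.empty_subset _
    · rw [hP]
      show (if j = 0 then MvPolynomial.C (F.t ω) else
        if j ≤ n then C.Ph w₀ z k ω j else 0).totalDegree ≤ _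
      split_ifs with h1 h2
      · rw [totalDegree_C]
        exact Nat.zero_le _
      · rw [hPG j (by omega) h2]
        exact (hC.deg k hk _ j (by omega) h2).trans (le_max_right _ _)
      · rw [totalDegree_zero]
        exact Nat.zero_le _
    · rw [hP0]
      exact congrArg MvPolynomial.C (if_pos rfl).symm
    · have h1 := hC.pos k hk ω hω j hj1 hj
      have h2 : cx F (fun i => c (i - 1)) ω j = F.x ω (c (j - 1)) := if_neg (by omega)
      rw [hγ j hj1 hj] at h1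
      rw [hPj j hj1 hj, hgj j hj1, h2]
      exact h1
    · -- near
      have h1 := (hN ω hω).2 j hj1 (by omega) R hR1 b (hbox2 j hj b hb)
      have h3 : gg a g j = g (j - 1) := if_neg (by omega)
      rw [hPj j hj1 hj, hgj j hj1, abs_sub_comm]
      rw [h3, ← hS] at h1
      refine h1.trans (div_le_div_of_nonneg_left hS0 (by positivity)
        (pow_le_pow_right₀ (by norm_num) (Nat.sub_le _ _)))
    · -- the gradients
      obtain ⟨j, rfl⟩ : ∃ j', j = j' + 1 := ⟨j - 1, by omega⟩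
      obtain ⟨l, rfl⟩ : ∃ l', l = l' + 1 := ⟨l - 1, by omega⟩
      have h1 : Gs c n a G (ptr F J ω) (j + 1) = tr c j (G (ptr F J ω) j) := sy_succ (by omega)
      rw [h1]
      have h2 := hdil (sy c n (F.t ω) (G (ptr F J ω))) (gg a g)
        (pderiv (l + 1) (tr c j (G (ptr F J ω) j))) (j + 1) (2 ^ (e + nlp g l j)) (R + 1) sy_tri
        (sy_deg (hGK _)) hj ((NEAR.vars_pd _ _).trans (tr_vars _ _ _))
        (NEAR.deg_pd ((tr_deg _ _ _).trans (hGK _ _ (by omega))) _) (by linarith)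
        (fun b' hb' => by
          have h5 := nbx_of_bxr hc (h.depG _) (by omega) hb'
          rw [pd_trL hc (by omega) (by omega) (h.depG _ j)]
          exact h.lip ω (hB ω hω) j (by omega) _ h5 l (by omega)) b (hbox3 (j + 1) hj b hb)
      refine h2.trans ?_
      have h3 : e + nlp g l j ≤ e + (N - g (j + 1 - 1)) := by
        have h4 : (Finset.Icc l j).sup g ≤ N := Finset.sup_le fun q hq => hgN q (by
          have := (Finset.mem_Icc.1 hq).2
          omega)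
        have h5 : j + 1 - 1 = j := rfl
        unfold nlp
        rw [h5]
        omega
      calc C₁ * 2 ^ (e + nlp g l j) * (R + 1) ^ K₁ =
            C₁ * (R + 1) ^ K₁ * 2 ^ (e + nlp g l j) := by ring
        _ ≤ 2 ^ c₂ * 2 ^ (e + (N - g (j + 1 - 1))) := by
            refine mul_le_mul hc₂.le (pow_le_pow_right₀ (by norm_num) h3) (by positivity)
              (by positivity)
        _ = 2 ^ (e + (N - g (j + 1 - 1)) + c₂) := by rw [← pow_add]; congr 1; ring
    · rw [hgj j hj1]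
      have h1 := hgN (j - 1) (by omega)
      obtain ⟨q, hq, hqN⟩ : ∃ q < n, N = g q := by
        obtain ⟨q, hq, hq2⟩ := Finset.exists_mem_eq_sup (Finset.range n)
          ⟨j - 1, mem_range.2 (by omega)⟩ g
        exact ⟨q, mem_range.1 hq, hNs.trans hq2⟩
      have h2 := hJ q hq
      show g (j - 1) - sh + y + (e + (N - g (j - 1)) + c₂) ≤ J
      omega
  -- the variation
  obtain ⟨b, hb⟩ : ∃ b : ℕ → ℝ, b = fun j => if j < i then cx F (fun i => c (i - 1)) ω' j
    else cx F (fun i => c (i - 1)) ω j := ⟨_, rfl⟩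
  have hb1 : b 0 = cx F (fun i => c (i - 1)) ω 0 := by
    rw [hb]
    show (if 0 < i then cx F (fun i => c (i - 1)) ω' 0 else _) = _
    rw [if_pos (by omega)]
    show F.t ω' = F.t ω
    unfold Fam.t
    rw [hT]
  have hb2 : ∀ j ≤ n, |b j - cx F (fun i => c (i - 1)) ω j| ≤ 1 / 2 ^ J := by
    intro j hj
    rcases Nat.eq_zero_or_pos j with rfl | hj1
    · rw [hb1, sub_self, abs_zero]
      positivity
    · rw [hb]
      show |(if j < i then cx F (fun i => c (i - 1)) ω' j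
        else cx F (fun i => c (i - 1)) ω j) - _| ≤ _
      split_ifs with h1
      · have h2 : ∀ ω, cx F (fun i => c (i - 1)) ω j = F.x ω (c (j - 1)) :=
          fun ω => if_neg (by omega)
        rw [h2, h2]
        have h3 : ⌊(2 : ℝ) ^ J * F.x ω (c (j - 1))⌋ = ⌊(2 : ℝ) ^ J * F.x ω' (c (j - 1))⌋ :=
          hX j hj1 h1
        have h4 := Int.abs_sub_lt_one_of_floor_eq_floor h3
        have h5 : (0 : ℝ) < 2 ^ J := by positivity
        rw [← mul_sub, abs_mul, abs_of_pos h5] at h4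
        rw [le_div_iff₀ h5, abs_sub_comm, mul_comm]
        exact h4.le
      · rw [sub_self, abs_zero]
        positivity
  have h1 := hnear P (Gs c n a G (ptr F J ω)) g' (cx F (fun i => c (i - 1)) ω)
    (fun j => e + (N - g (j - 1)) + c₂) J y hdat b hb1 hb2 i hi
  rw [hPj i hi1 hi, hgj i hi1] at h1
  have h2 : eval b (C.Ph w₀ z k ω i) =
      eval (cx F (fun i => c (i - 1)) ω') (C.Ph w₀ z k ω i) := by
    refine AdxRow.evl_congr fun j hj => ?_
    rw [hPG i hi1 hi] at hj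
    have h3 := mem_range.1 (hC.tri k hk _ i hi1 hi hj)
    rw [hb]
    exact if_pos h3
  rw [h2] at h1
  rw [abs_sub_comm, hγ i hi1 hi]
  exact h1

/-- **From chains to exact labels, with the variation** (rows N1 and 332): `clo_fam`, and for all
levels `k` and all `y` with `e k + g k i + y + c₁ ≤ J` the condition `Vr`. -/
theorem clo_vr (n K : ℕ) : ∃ (sh K' s₀ c₁ : ℕ) (C₁ L : ℝ), 0 ≤ C₁ ∧ 1 ≤ L ∧ 1 ≤ K' ∧
    ∀ (m J M w₀ z : ℕ) (F : Fam m J) (c : ℕ → Fin m) (Kv : ℕ → ℕ → ℕ) (e : ℕ → ℕ)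
    (g : ℕ → ℕ → ℕ) (A : F.Ω → Prop) (G : ℕ → PtT F → ℕ → MvPolynomial (Option (Fin m)) ℝ)
    (H : ℕ → LnT F → ℕ → MvPolynomial (Option (Fin m)) ℝ), 1 ≤ z → w₀ + M * z ≤ J → Inj c n →
    (∀ k ≤ M, ∀ i < n, Kv k i ≤ K) → (∀ k ≤ M, ∀ i < n, sh ≤ g k i) →
    (∀ k ≤ M, ChOK F c n (Kv k) (w₀ + k * z) w₀ (e k) (g k) A (G k) (H k)) →
    ∃ (C : CDat F) (B : F.Ω → Prop), Sub B A ∧ Pe F.p A ≤ K' ^ (M + 1) * Pe F.p B ∧
      C.Cnd (fun i => c (i - 1)) n K' w₀ z M (fun k i => g k (i - 1) - sh) C₁ B ∧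
      C.R = Hs c n (H M) ∧
      (∀ k ≤ M, ∀ ω, B ω → ∀ i, 1 ≤ i → i ≤ n → ∀ b : ℕ → ℝ,
        Bx (CDat.g0 w₀ z (fun k i => g k (i - 1) - sh) k) (C.Ph w₀ z k ω) i b →
        |eval b (Hs c n (H k) (slam F w₀ ω) i) - eval b (C.Ph w₀ z k ω i)| ≤
          Real.exp (C₁ * z) / 2 ^ (g k (i - 1) - sh)) ∧
      (∀ k ≤ M, ∀ ω, B ω → Nr K' (2 ^ s₀) (gg (w₀ + k * z) (g k)) (C.Ph w₀ z k ω)
        (Gs c n (w₀ + k * z) (G k) (ptr F J ω)) (n + 1)) ∧
      ∀ k ≤ M, ∀ y : ℕ, (∀ i < n, e k + g k i + y + c₁ ≤ J) →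
        C.Vr (fun i => c (i - 1)) n w₀ z k (fun k i => g k (i - 1) - sh) y L B := by
  obtain ⟨sh, K', s₀, C₁, hC₁, hK', h⟩ := clo_fam n K
  obtain ⟨c₁, L, hL, hv⟩ := vr_lev n K K' s₀ sh hK'
  refine ⟨sh, K', s₀, c₁, C₁, L, hC₁, hL, hK', ?_⟩
  intro m J M w₀ z F c Kv e g A G H hz hM hc hKv hg hCh
  obtain ⟨C, B, h1, h2, h3, h4, h5, h6⟩ := h m J M w₀ z F c Kv e g A G H hz hM hc hKv hg hCh
  refine ⟨C, B, h1, h2, h3, h4, h5, h6, fun k hk y hy => ?_⟩
  have hak : w₀ + k * z ≤ J := by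
    have : k * z ≤ M * z := Nat.mul_le_mul_right _ hk
    omega
  exact hv m J M w₀ z k (e k) y F c (Kv k) (g k) _ A B (G k) (H k) C C₁ hk hak hc (hKv k hk)
    (hCh k hk) h1 h3 (fun i _ _ => rfl) (h6 k hk) hy

end CLO

end Pool.STAT
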