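import Pool.Agent.H63.STAT.CloG
import Pool.Agent.H31.STAT.Wid

/-!
# From truncated systems to chains

`pack`: a system `Gt` of the point and a system `R` of the line, both of degree at most `D`, which
are near on the natural boxes, and such that `Gt` is near the point side of a chain of any degree
`K`, form a chain of degree `D`. The constants of the exponents depend on `D` only; the constant
`s₁` depends on `K`. The precisions decrease by `ℓ i` digits, where `ℓ` is increasing.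
-/

set_option autoImplicit false

namespace Pool.STAT

open Finset MvPolynomial
open Pool.Agent.H49.Ent Pool.Agent.H32.Dense Pool.STK Pool.KS3 Pool.KA Pool.KSAT Pool.PB Pool.GEN
open Pool.K2S

variable {m J : ℕ}

namespace CLO

/-! ### Back to the coordinates of the family -/

/-- The variables. -/
noncomputable def bk (c : ℕ → Fin m) (i : ℕ) : MvPolynomial (Option (Fin m)) ℝ :=
  if i = 0 then X none else X (some (c (i - 1)))

/-- The translation of a polynomial. -/
noncomputable def tb (c : ℕ → Fin m) (P : PN) : MvPolynomial (Option (Fin m)) ℝ :=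
  bind₁ (bk c) P

/-- The point in the coordinates of the chain. -/
def pb (c : ℕ → Fin m) (b : Option (Fin m) → ℝ) (i : ℕ) : ℝ :=
  if i = 0 then b none else b (some (c (i - 1)))

theorem pb_zero (c : ℕ → Fin m) (b : Option (Fin m) → ℝ) : pb c b 0 = b none := if_pos rfl

theorem pb_succ (c : ℕ → Fin m) (b : Option (Fin m) → ℝ) (l : ℕ) :
    pb c b (l + 1) = b (some (c l)) := if_neg (by omega)

theorem eval_tb (c : ℕ → Fin m) (P : PN) (b : Option (Fin m) → ℝ) :
    eval b (tb c P) = eval (pb c b) P := by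
  unfold tb
  rw [AdxRow.evl_bnd]
  congr 2
  funext i
  unfold bk pb
  split_ifs <;> rw [eval_X]

theorem tb_deg (c : ℕ → Fin m) (P : PN) : (tb c P).totalDegree ≤ P.totalDegree := by
  unfold tb
  rw [← aeval_eq_bind₁, aeval_def, eval₂_eq]
  refine totalDegree_finsetSum_le fun d hd => ?_
  refine (totalDegree_mul _ _).trans ?_
  have h0 : (algebraMap ℝ (MvPolynomial (Option (Fin m)) ℝ) (coeff d P)).totalDegree = 0 := by
    rw [algebraMap_eq, totalDegree_C]
  rw [h0, zero_add]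
  refine (totalDegree_finsetProd _ _).trans ?_
  have h1 : ∀ i ∈ d.support, ((bk c i) ^ d i).totalDegree ≤ d i := by
    intro i _
    refine (totalDegree_pow _ _).trans ?_
    have h2 : (bk c i).totalDegree ≤ 1 := by
      unfold bk
      split_ifs <;> exact (totalDegree_X _).le
    calc d i * _ ≤ d i * 1 := Nat.mul_le_mul_left _ h2
      _ = d i := Nat.mul_one _
  refine (Finset.sum_le_sum h1).trans ?_
  exact le_totalDegree hd

theorem tb_dep (c : ℕ → Fin m) {P : PN} {i : ℕ} (hP : P.vars ⊆ range (i + 1)) :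
    DepC c i (tb c P) := by
  intro b b' h0 h
  rw [eval_tb, eval_tb]
  refine AdxRow.evl_congr fun l hl => ?_
  have hl' := mem_range.1 (hP hl)
  rcases Nat.eq_zero_or_pos l with rfl | h1
  · rw [pb_zero, pb_zero, h0]
  · obtain ⟨l, rfl⟩ : ∃ l', l = l' + 1 := ⟨l - 1, by omega⟩
    rw [pb_succ, pb_succ]
    exact h l (by omega)

/-- The derivatives of a translated polynomial. -/
theorem pd_tb {c : ℕ → Fin m} {n i l : ℕ} (hc : Inj c n) (hi : i ≤ n) (hl : l < i) {P : PN}
    (hP : P.vars ⊆ range (i + 1)) (b : Option (Fin m) → ℝ) :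
    eval b (pderiv (some (c l)) (tb c P)) = eval (pb c b) (pderiv (l + 1) P) := by
  classical
  have key : ∀ s, eval (Function.update b (some (c l)) s) (tb c P) =
      eval (Function.update (pb c b) (l + 1) s) P := by
    intro s
    rw [eval_tb]
    refine AdxRow.evl_congr fun j hj => ?_
    have hj' := mem_range.1 (hP hj)
    rcases Nat.eq_zero_or_pos j with rfl | h1
    · rw [pb_zero, Function.update_of_ne (Option.some_ne_none _).symm,
        Function.update_of_ne (by omega : (0 : ℕ) ≠ l + 1), pb_zero]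
    · obtain ⟨j, rfl⟩ : ∃ j', j = j' + 1 := ⟨j - 1, by omega⟩
      rw [pb_succ]
      by_cases h : j = l
      · subst h
        rw [Function.update_self, Function.update_self]
      · have h2 : some (c j) ≠ some (c l) := fun h' =>
          h (hc j (by omega) l (by omega) (Option.some.inj h'))
        rw [Function.update_of_ne h2, Function.update_of_ne (by omega : j + 1 ≠ l + 1), pb_succ]
  have h1 := NL.hasDerivAt_upd (tb c P) b (some (c l)) (pb c b (l + 1))
  have h2 := NL.hasDerivAt_upd P (pb c b) (l + 1) (pb c b (l + 1))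
  simp only [key] at h1
  have h3 := h1.unique h2
  have h4 : Function.update b (some (c l)) (pb c b (l + 1)) = b := by
    rw [pb_succ, Function.update_eq_self]
  rw [Function.update_eq_self, h4] at h3
  exact h3

/-! ### Widening in natural coordinates -/

/-- **Widening.** A polynomial which is bounded on the natural box of a system `Ψ` is bounded on
the dilated natural boxes of the system `Φ`, if the systems are near on the natural boxes of `Ψ`.
Only the degrees of `Φ` and of the polynomial count. -/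
theorem wid_sys (n D : ℕ) : ∃ Cc : ℕ, 1 ≤ Cc ∧ ∀ (Φ Ψ : ℕ → PN) (γ : ℕ → ℕ) (Q : PN) (i : ℕ)
    (R S : ℝ), TriN Φ → TriN Ψ → (∀ j, (Φ j).totalDegree ≤ D) → i ≤ n → Q.vars ⊆ range i →
    Q.totalDegree ≤ D → 1 ≤ R → 0 ≤ S →
    (∀ j < i, ∀ b : ℕ → ℝ, Bx γ Ψ j b → |eval b (Ψ j) - eval b (Φ j)| ≤ R / 2 ^ γ j) →
    (∀ b : ℕ → ℝ, Bx γ Ψ i b → |eval b Q| ≤ S) →
    ∀ b : ℕ → ℝ, Bxr R γ Φ i b → |eval b Q| ≤ (Cc * R) ^ Cc * S := by
  obtain ⟨K₁, hK₁⟩ : ∃ K₁, K₁ = D * (D + 1) ^ (n + 1) := ⟨_, rfl⟩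
  choose Cc hCc hw using fun i => Pool.TRC31.wid i K₁
  have hsum : ∀ i ≤ n, Cc i ≤ ∑ j ∈ range (n + 1), Cc j := fun i hi =>
    Finset.single_le_sum (f := Cc) (fun j _ => Nat.zero_le _) (mem_range.2 (by omega))
  refine ⟨∑ j ∈ range (n + 1), Cc j, (hCc 0).trans (hsum 0 (Nat.zero_le _)), ?_⟩
  intro Φ Ψ γ Q i R S hΦ hΨ hΦD hi hv hQ hR hS hdel hb
  obtain ⟨f1, f2⟩ := nat_deg hΦ hΦD γ hi hv hQ
  rw [← hK₁] at f2
  -- the point with given natural coordinates
  obtain ⟨pt, hpt⟩ : ∃ pt : (ℕ → ℝ) → ℕ → ℝ, pt = fun y j => eval y (nuc γ Φ j) := ⟨_, rfl⟩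
  have hnc : ∀ y, nc γ Φ (pt y) = y := fun y => by
    rw [hpt]
    exact nc_nuc hΦ γ y
  obtain ⟨del, hdl⟩ : ∃ del : ℕ → (ℕ → ℝ) → ℝ, del = fun j y =>
    (2 : ℝ) ^ γ j * (eval (pt y) (Ψ j) - eval (pt y) (Φ j)) := ⟨_, rfl⟩
  have hbox : ∀ (i : ℕ) (y : ℕ → ℝ), (∀ l < i, |y l - del l y| ≤ 1) → Bx γ Ψ i (pt y) := by
    intro i y hy l hl
    have h1 := hy l hl
    have h2 : y l - del l y = (2 : ℝ) ^ γ l * (pt y l - eval (pt y) (Ψ l)) := by
      have h3 : y l = (2 : ℝ) ^ γ l * (pt y l - eval (pt y) (Φ l)) := by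
        have h4 : nc γ Φ (pt y) l = y l := by rw [hnc]
        exact h4.symm
      rw [hdl]
      show y l - (2 : ℝ) ^ γ l * (eval (pt y) (Ψ l) - eval (pt y) (Φ l)) = _
      rw [h3]
      ring
    have h0 : (0 : ℝ) < 2 ^ γ l := by positivity
    rw [h2, abs_mul, abs_of_pos h0] at h1
    rw [le_div_iff₀ h0, mul_comm]
    exact h1
  have hpc : ∀ (j : ℕ) (y y' : ℕ → ℝ), (∀ l < j, y l = y' l) → ∀ l < j, pt y l = pt y' l := by
    intro j y y' h l hl
    rw [hpt]
    refine AdxRow.evl_congr fun k hk => h k ?_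
    have := mem_range.1 (AdxRow.nuc_vars hΦ γ l hk)
    omega
  intro b hbR
  have h1 := hw i (bind₁ (nuc γ Φ) Q) R S del hR f1 f2 (fun j y y' h => by
      rw [hdl]
      show (2 : ℝ) ^ γ j * (eval (pt y) (Ψ j) - eval (pt y) (Φ j)) =
        2 ^ γ j * (eval (pt y') (Ψ j) - eval (pt y') (Φ j))
      rw [AdxRow.evl_congr (P := Ψ j) fun l hl => hpc j y y' h l (mem_range.1 (hΨ j hl)),
        AdxRow.evl_congr (P := Φ j) fun l hl => hpc j y y' h l (mem_range.1 (hΦ j hl))])
    (fun j hj y hy => by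
      have h2 := hdel j hj (pt y) (hbox j y hy)
      have h0 : (0 : ℝ) < 2 ^ γ j := by positivity
      rw [hdl]
      show |(2 : ℝ) ^ γ j * (eval (pt y) (Ψ j) - eval (pt y) (Φ j))| ≤ R
      rw [abs_mul, abs_of_pos h0]
      rw [le_div_iff₀ h0, mul_comm] at h2
      exact h2)
    (fun y hy => by
      have h2 := hb (pt y) (hbox i y hy)
      have h3 : eval y (bind₁ (nuc γ Φ) Q) = eval (pt y) Q := by
        rw [Pool.SYS35.eval_bind, hpt]
      rw [h3]
      exact h2)
    (nc γ Φ b) (fun j hj => nc_le.2 (hbR j hj))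
  rw [← eval_nat hΦ γ b Q] at h1
  refine h1.trans (mul_le_mul_of_nonneg_right ?_ hS)
  have hc1 : (1 : ℝ) ≤ Cc i := by exact_mod_cast hCc i
  have hc2 : (Cc i : ℝ) ≤ ((∑ j ∈ range (n + 1), Cc j : ℕ) : ℝ) := by exact_mod_cast hsum i hi
  have h2 : (1 : ℝ) ≤ Cc i * R := by nlinarith
  refine (pow_le_pow_right₀ h2 (hsum i hi)).trans ?_
  exact pow_le_pow_left₀ (by linarith) (mul_le_mul_of_nonneg_right hc2 (by linarith)) _

/-! ### The chain -/

/-- **From truncated systems to chains.** The precisions decrease by `ℓ i` digits; the losses `ℓ`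
are increasing, each one is at least a constant times the loss before it. -/
theorem pack (n D : ℕ) : ∃ c : ℕ, 1 ≤ c ∧ ∀ K : ℕ, ∃ s₁ : ℕ,
    ∀ (m J a w v ep s : ℕ) (F : Fam m J) (e : ℕ → Fin m) (Kv : ℕ → ℕ) (g ℓ : ℕ → ℕ) (L : ℕ)
    (A : F.Ω → Prop) (G : PtT F → ℕ → MvPolynomial (Option (Fin m)) ℝ)
    (H : LnT F → ℕ → MvPolynomial (Option (Fin m)) ℝ) (Gt : PtT F → ℕ → PN)
    (R : LnT F → ℕ → PN), a ≤ J → Inj e n → (∀ i < n, Kv i ≤ K) → ChOK F e n Kv a v ep g A G H →
    (∀ x, TriN (Gt x)) → (∀ x i, (Gt x i).totalDegree ≤ D) →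
    (∀ x, Gt x 0 = MvPolynomial.C (tp a x)) →
    (∀ l, TriN (R l)) → (∀ l i, (R l i).totalDegree ≤ D) →
    (∀ ω, A ω → ∀ i, 1 ≤ i → i ≤ n → ∀ b : ℕ → ℝ,
      Bx (gg a g) (Gs e n a G (ptr F J ω)) i b →
      |eval b (Gs e n a G (ptr F J ω) i) - eval b (Gt (ptr F J ω) i)| ≤ 2 ^ s / 2 ^ g (i - 1)) →
    (∀ ω, A ω → ∀ i, 1 ≤ i → i ≤ n →
      |F.x ω (e (i - 1)) - eval (cx F (fun i => e (i - 1)) ω) (Gt (ptr F J ω) i)| ≤
        2 ^ s / 2 ^ g (i - 1)) →
    (∀ ω, A ω → ∀ i, 1 ≤ i → i ≤ n → ∀ b : ℕ → ℝ, Bx (gg a g) (Gt (ptr F J ω)) i b →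
      |eval b (R (slam F w ω) i) - eval b (Gt (ptr F J ω) i)| ≤ 2 ^ s / 2 ^ g (i - 1)) →
    (∀ i < n, ℓ i ≤ g i) → (∀ i < n, ℓ i ≤ L) → c * (s + 1) ≤ ℓ 0 →
    (∀ i, i + 1 < n → c * (ℓ i + s + 1) ≤ ℓ (i + 1)) →
    ChOK F e n (fun _ => D) a w (ep + c * (L + s + 1) + s₁) (fun i => g i - ℓ i) A
      (fun y i => tb e (Gt y (i + 1))) (fun l i => tb e (R l (i + 1))) := by
  classical
  obtain ⟨C₀, hC₀, hdilD⟩ := dil n D
  obtain ⟨K₁, hK₁⟩ : ∃ K₁, K₁ = D * (D + 1) ^ (n + 1) := ⟨_, rfl⟩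
  rw [← hK₁] at hdilD
  obtain ⟨e₀, he₀⟩ := pow_unbounded_of_one_lt C₀ (one_lt_two (α := ℝ))
  obtain ⟨Cw, hCw, hwid⟩ := wid_sys n D
  obtain ⟨q₀, hq₀⟩ := pow_unbounded_of_one_lt (Cw : ℝ) (one_lt_two (α := ℝ))
  obtain ⟨c, hcd⟩ : ∃ c, c = (q₀ + 2) * Cw + K₁ + e₀ + 2 := ⟨_, rfl⟩
  refine ⟨c, by omega, fun K => ?_⟩
  obtain ⟨C₂, hC₂, hdil⟩ := dil n K
  obtain ⟨K₂, hK₂⟩ : ∃ K₂, K₂ = K * (K + 1) ^ (n + 1) := ⟨_, rfl⟩
  rw [← hK₂] at hdil
  obtain ⟨Cg, Kg, hCg, hng⟩ := ngd n (max K D)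
  obtain ⟨U, hU⟩ : ∃ U : ℝ, U = C₂ * 2 ^ K₂ := ⟨_, rfl⟩
  have hU1 : 1 ≤ U := by
    rw [hU]
    have h1 : (1 : ℝ) ≤ 2 ^ K₂ := one_le_pow₀ (by norm_num)
    nlinarith
  obtain ⟨s₁, hs₁⟩ := pow_unbounded_of_one_lt (U * (1 + Cg)) (one_lt_two (α := ℝ))
  refine ⟨s₁, ?_⟩
  intro m J a w v ep s F e Kv g ℓ L A G H Gt R haJ hc hKv h hGt hGtd hGt0 hRt hRd hnear hpos
    hline hg hL hl0 hls
  have hGK : ∀ y, ∀ i < n, (G y i).totalDegree ≤ K := fun y i hi => (h.degG y i).trans (hKv i hi)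
  have hg0 : gg a g 0 = a := if_pos rfl
  have hgj : ∀ i, gg a g (i + 1) = g i := fun i => if_neg (by omega)
  have hs0 : (1 : ℝ) ≤ 2 ^ s := one_le_pow₀ (by norm_num)
  -- the losses
  have hc2 : 2 ≤ c := by rw [hcd]; omega
  have hcs : 2 * (s + 1) ≤ c * (s + 1) := Nat.mul_le_mul_right _ hc2
  have hstep : ∀ i, i + 1 < n → ℓ i ≤ ℓ (i + 1) := by
    intro i hi
    have h1 := hls i hi
    have h2 : 1 * (ℓ i + s + 1) ≤ c * (ℓ i + s + 1) := Nat.mul_le_mul_right _ (by omega)
    omega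
  have hmono : ∀ i j, i ≤ j → j < n → ℓ i ≤ ℓ j := by
    intro i j hij
    induction j with
    | zero =>
      intro _
      have : i = 0 := by omega
      rw [this]
    | succ j ih =>
      intro hj
      rcases Nat.lt_or_ge i (j + 1) with h1 | h1
      · exact (ih (by omega) (by omega)).trans (hstep j hj)
      · have : i = j + 1 := by omega
        rw [this]
  have hcell : ∀ ω, ∀ x : ℝ, |x - F.t ω| ≤ 1 / 2 ^ a → |x - tp a (ptr F J ω)| ≤ 2 / 2 ^ a := by
    intro ω x hx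
    have h4 := t_cell F haJ ω
    rw [tp_eq]
    have h5 : (2 : ℝ) / 2 ^ a = 1 / 2 ^ a + 1 / 2 ^ a := by ring
    rw [h5]
    rw [abs_le] at hx h4 ⊢
    constructor <;> linarith [hx.1, hx.2, h4.1, h4.2]
  -- the dilations
  obtain ⟨rd, hrd⟩ : ∃ rd : ℕ → ℕ, rd = fun i => if i = 0 then 1 else ℓ (i - 1) := ⟨_, rfl⟩
  have hrd0 : rd 0 = 1 := by rw [hrd]; exact if_pos rfl
  have hrdS : ∀ i, rd (i + 1) = ℓ i := fun i => by rw [hrd]; exact if_neg (by omega)
  have hrd1 : ∀ i < n, 1 ≤ rd i := by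
    intro i hi
    rcases Nat.eq_zero_or_pos i with rfl | hi1
    · rw [hrd0]
    · obtain ⟨i, rfl⟩ : ∃ i', i = i' + 1 := ⟨i - 1, by omega⟩
      rw [hrdS]
      have h1 := hmono 0 i (Nat.zero_le _) (by omega)
      omega
  -- the natural boxes of the new chain are in dilated natural boxes of the point side
  have hbox : ∀ ω, ∀ i < n, ∀ b : Option (Fin m) → ℝ,
      NBx e (fun i => tb e (Gt (ptr F J ω) (i + 1))) (fun i => g i - ℓ i) a (F.t ω) i b →
      Bxr (2 ^ rd i) (gg a g) (Gt (ptr F J ω)) (i + 1) (pb e b) := by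
    intro ω i hi b hb j hj
    rcases Nat.eq_zero_or_pos j with rfl | hj1
    · rw [pb_zero, hGt0, eval_C, hg0]
      refine (hcell ω _ hb.1).trans (div_le_div_of_nonneg_right ?_ (by positivity))
      calc (2 : ℝ) = 2 ^ 1 := (pow_one 2).symm
        _ ≤ 2 ^ rd i := pow_le_pow_right₀ (by norm_num) (hrd1 i hi)
    · obtain ⟨j, rfl⟩ : ∃ j', j = j' + 1 := ⟨j - 1, by omega⟩
      obtain ⟨i, rfl⟩ : ∃ i', i = i' + 1 := ⟨i - 1, by omega⟩
      have h1 := hb.2 j (by omega)
      rw [pb_succ, hgj, hrdS]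
      simp only at h1
      rw [eval_tb] at h1
      refine h1.trans ?_
      have h2 := hg j (by omega)
      have h3 := hmono j i (by omega) (by omega)
      rw [div_le_div_iff₀ (by positivity) (by positivity), one_mul, ← pow_add]
      exact pow_le_pow_right₀ (by norm_num) (by omega)
  refine ⟨fun y i => (tb_deg _ _).trans (hGtd y _), fun l i => (tb_deg _ _).trans (hRd l _),
    fun y i => tb_dep e (hGt y _), fun l i => tb_dep e (hRt l _), ?_, ?_, ?_⟩
  · -- the positions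
    intro ω hω i hi
    have hX : pb e (bt F ω) = cx F (fun i => e (i - 1)) ω := by
      funext j
      rcases Nat.eq_zero_or_pos j with rfl | hj
      · rw [pb_zero]
        exact (if_pos rfl).symm
      · obtain ⟨j, rfl⟩ : ∃ j', j = j' + 1 := ⟨j - 1, by omega⟩
        rw [pb_succ]
        exact (if_neg (by omega)).symm
    have h1 := hpos ω hω (i + 1) (by omega) (by omega)
    rw [Nat.add_sub_cancel] at h1
    show |F.x ω (e i) - eval (bt F ω) (tb e (Gt (ptr F J ω) (i + 1)))| ≤ _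
    rw [eval_tb, hX]
    refine h1.trans ?_
    have h2 := hg i hi
    have h3 := hmono 0 i (Nat.zero_le _) hi
    show _ ≤ 1 / 2 ^ (g i - ℓ i)
    rw [div_le_div_iff₀ (by positivity) (by positivity), one_mul, ← pow_add]
    exact pow_le_pow_right₀ (by norm_num) (by omega)
  · -- the two sides
    intro ω hω i hi b hb
    have h1 := hbox ω i hi b hb
    show |eval b (tb e (Gt (ptr F J ω) (i + 1))) - eval b (tb e (R (slam F w ω) (i + 1)))| ≤
      1 / 2 ^ (g i - ℓ i)
    rw [eval_tb, eval_tb, abs_sub_comm, ← map_sub]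
    have h2 := hdilD (Gt (ptr F J ω)) (gg a g) (R (slam F w ω) (i + 1) - Gt (ptr F J ω) (i + 1))
      (i + 1) (2 ^ s / 2 ^ g i) (2 ^ rd i) (hGt _) (hGtd _) (by omega)
      (AdxRow.vars_sub_le (hRt _ _) (hGt _ _))
      ((totalDegree_sub _ _).trans (max_le (hRd _ _) (hGtd _ _)))
      (one_le_pow₀ (by norm_num)) (fun b' hb' => by
        rw [map_sub]
        exact hline ω hω (i + 1) (by omega) (by omega) b' hb') (pb e b) h1
    refine h2.trans ?_
    have h3 := hg i hi
    rw [← pow_mul]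
    have h5 : e₀ + s + rd i * K₁ ≤ ℓ i := by
      rcases Nat.eq_zero_or_pos i with rfl | hi1
      · rw [hrd0]
        refine le_trans ?_ hl0
        rw [hcd]
        nlinarith [Nat.zero_le ((q₀ + 2) * Cw * (s + 1)), Nat.zero_le (K₁ * s),
          Nat.zero_le (e₀ * s)]
      · obtain ⟨i, rfl⟩ : ∃ i', i = i' + 1 := ⟨i - 1, by omega⟩
        rw [hrdS]
        refine le_trans ?_ (hls i hi)
        rw [hcd]
        nlinarith [Nat.zero_le ((q₀ + 2) * Cw * (ℓ i + s + 1)), Nat.zero_le (K₁ * s),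
          Nat.zero_le (e₀ * s), Nat.zero_le (e₀ * ℓ i)]
    have h6 : C₀ * (2 ^ s / 2 ^ g i) * 2 ^ (rd i * K₁) ≤
        2 ^ (e₀ + s + rd i * K₁) / 2 ^ g i := by
      rw [pow_add, pow_add]
      have h7 : C₀ * (2 ^ s / 2 ^ g i) * 2 ^ (rd i * K₁) =
        C₀ * 2 ^ s * 2 ^ (rd i * K₁) / 2 ^ g i := by ring
      rw [h7]
      refine div_le_div_of_nonneg_right ?_ (by positivity)
      refine mul_le_mul_of_nonneg_right ?_ (by positivity)
      exact mul_le_mul_of_nonneg_right he₀.le (by positivity)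
    refine h6.trans ?_
    rw [div_le_div_iff₀ (by positivity) (by positivity), one_mul, ← pow_add]
    exact pow_le_pow_right₀ (by norm_num) (by omega)
  · -- the gradients
    intro ω hω i hi b hb l hl
    have h1 := hbox ω i hi b hb
    obtain ⟨Φ, hΦ⟩ : ∃ Φ, Φ = Gt (ptr F J ω) := ⟨_, rfl⟩
    obtain ⟨Ψ, hΨ⟩ : ∃ Ψ, Ψ = Gs e n a G (ptr F J ω) := ⟨_, rfl⟩
    have hΦt : TriN Φ := by rw [hΦ]; exact hGt _
    have hΨt : TriN Ψ := by rw [hΨ]; exact sy_tri
    have hΦd : ∀ i, (Φ i).totalDegree ≤ D := by rw [hΦ]; exact hGtd _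
    have hΨd : ∀ i, (Ψ i).totalDegree ≤ K := by rw [hΨ]; exact sy_deg (hGK _)
    have hΨj : ∀ j < n, Ψ (j + 1) = tr e j (G (ptr F J ω) j) := by
      intro j hj
      rw [hΨ]
      unfold Gs
      rw [sy_succ hj]
    have hnr : ∀ j ≤ n, ∀ x : ℕ → ℝ, Bx (gg a g) Ψ j x →
        |eval x (Ψ j) - eval x (Φ j)| ≤ 2 ^ s / 2 ^ gg a g j := by
      intro j hj x hx
      rcases Nat.eq_zero_or_pos j with rfl | hj1
      · have h2 : Ψ 0 = MvPolynomial.C (tp a (ptr F J ω)) := by
          rw [hΨ]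
          exact sy_zero
        rw [h2, hΦ, hGt0, sub_self, abs_zero]
        positivity
      · obtain ⟨j, rfl⟩ : ∃ j', j = j' + 1 := ⟨j - 1, by omega⟩
        rw [hgj, hΨ, hΦ]
        rw [hΨ] at hx
        exact hnear ω hω (j + 1) (by omega) hj x hx
    -- the gradients of the point side of the old chain, on its natural boxes
    have hGr : ∀ q, l < q → q < n → ∀ x : ℕ → ℝ, Bx (gg a g) Ψ (q + 1) x →
        |eval x (pderiv (l + 1) (Ψ (q + 1)))| ≤ U * 2 ^ (ep + nlp g l q) := by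
      intro q hq1 hq2 x hx
      rw [hΨj q hq2]
      rw [hΨ] at hx
      have h3 := bxr_cell haJ ω (by omega) hx
      have h2 := hdil (sy e n (F.t ω) (G (ptr F J ω))) (gg a g)
        (pderiv (l + 1) (tr e q (G (ptr F J ω) q))) (q + 1) (2 ^ (ep + nlp g l q)) 2 sy_tri
        (sy_deg (hGK _)) (by omega) ((NEAR.vars_pd _ _).trans (tr_vars _ _ _))
        (NEAR.deg_pd ((tr_deg _ _ _).trans (hGK _ _ hq2)) _) (by norm_num)
        (fun b' hb' => by
          have h5 := nbx_of_bxr hc (h.depG _) hq2 hb'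
          rw [pd_trL hc (by omega) (by omega) (h.depG _ q)]
          exact h.lip ω hω q hq2 _ h5 l (by omega)) x h3
      refine h2.trans (le_of_eq ?_)
      rw [hU]
      ring
    have hsup : ∀ r, r ≤ i → (Finset.Icc l r).sup g ≤ (Finset.Icc l i).sup g := fun r hr =>
      Finset.sup_mono (Finset.Icc_subset_Icc le_rfl hr)
    have hgs : ∀ r, l ≤ r → r ≤ i → g r ≤ (Finset.Icc l i).sup g := fun r h1 h2 =>
      Finset.le_sup (f := g) (Finset.mem_Icc.2 ⟨h1, h2⟩)
    have hE : (0 : ℝ) < 2 ^ (ep + nlp g l i) := by positivity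
    -- the gradients of the truncated system, on the natural boxes of the point side
    have hΦG : ∀ x : ℕ → ℝ, Bx (gg a g) Ψ (i + 1) x →
        |eval x (pderiv (l + 1) (Φ (i + 1)))| ≤ 2 ^ (s₁ + s) * 2 ^ (ep + nlp g l i) := by
      intro x hx
      obtain ⟨Df, hDf⟩ : ∃ Df, Df = Φ (i + 1) - Ψ (i + 1) := ⟨_, rfl⟩
      have hDv : Df.vars ⊆ range (i + 1) := by
        rw [hDf]
        exact AdxRow.vars_sub_le (hΦt _) (hΨt _)
      have hDd : Df.totalDegree ≤ max K D := by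
        rw [hDf]
        exact (totalDegree_sub _ _).trans (max_le ((hΦd _).trans (le_max_right _ _))
          ((hΨd _).trans (le_max_left _ _)))
      have hD1 := hng (i + 1) (by omega) Ψ (gg a g) Df (2 ^ s / 2 ^ g i)
        (U * 2 ^ (ep + (Finset.Icc l i).sup g)) 1 (l + 1) x hΨt
        (fun j _ => (hΨd j).trans (le_max_left _ _)) hDd hDv
        (fun b' hb' => by
          have h2 := hnr (i + 1) (by omega) b' hb'
          rw [hDf, map_sub, abs_sub_comm, ← hgj i]
          exact h2) (by positivity) le_rfl (fun j hj => hx j hj) (by positivity)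
        (fun h1 => by
          rw [hgj l]
          have h2 : (2 : ℝ) ^ g l ≤ 2 ^ (ep + (Finset.Icc l i).sup g) :=
            pow_le_pow_right₀ (by norm_num) (by
              have := hgs l le_rfl (by omega)
              omega)
          have h3 : (0 : ℝ) < 2 ^ (ep + (Finset.Icc l i).sup g) := by positivity
          nlinarith)
        (fun j hj1 hj2 => by
          obtain ⟨j, rfl⟩ : ∃ j', j = j' + 1 := ⟨j - 1, by omega⟩
          rw [hgj j]
          have h2 := hGr j (by omega) (by omega) x fun r hr => hx r (by omega)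
          have h3 : (0 : ℝ) < 2 ^ g j := by positivity
          refine (mul_le_mul_of_nonneg_left h2 h3.le).trans ?_
          have h4 : (2 : ℝ) ^ g j * (U * 2 ^ (ep + nlp g l j)) =
              U * 2 ^ (g j + (ep + nlp g l j)) := by
            rw [pow_add]
            ring
          rw [h4]
          refine mul_le_mul_of_nonneg_left (pow_le_pow_right₀ (by norm_num) ?_) (by linarith)
          have h5 : g j ≤ (Finset.Icc l j).sup g :=
            Finset.le_sup (f := g) (Finset.mem_Icc.2 ⟨by omega, le_rfl⟩)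
          have h6 := hsup j (by omega)
          unfold nlp
          omega)
      have hD2 : Cg * (2 ^ s / 2 ^ g i) * 1 ^ Kg * (U * 2 ^ (ep + (Finset.Icc l i).sup g)) =
          U * Cg * 2 ^ s * 2 ^ (ep + nlp g l i) := by
        have h1 : (2 : ℝ) ^ (ep + (Finset.Icc l i).sup g) = 2 ^ g i * 2 ^ (ep + nlp g l i) := by
          rw [← pow_add]
          congr 1
          have h2 := hgs i (by omega) le_rfl
          unfold nlp
          omega
        rw [h1, one_pow]
        have h3 : (2 : ℝ) ^ g i ≠ 0 := by positivity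
        field_simp
      rw [hD2] at hD1
      have hP1 : eval x (pderiv (l + 1) (Φ (i + 1))) =
          eval x (pderiv (l + 1) (Ψ (i + 1))) + eval x (pderiv (l + 1) Df) := by
        rw [hDf, map_sub, map_sub]
        ring
      rw [hP1]
      refine (abs_add_le _ _).trans ((add_le_add (hGr i hl hi x hx) hD1).trans ?_)
      calc U * 2 ^ (ep + nlp g l i) + U * Cg * 2 ^ s * 2 ^ (ep + nlp g l i) ≤
            U * 2 ^ s * 2 ^ (ep + nlp g l i) + U * Cg * 2 ^ s * 2 ^ (ep + nlp g l i) := by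
              refine add_le_add ?_ le_rfl
              refine mul_le_mul_of_nonneg_right ?_ hE.le
              nlinarith
        _ = U * (1 + Cg) * 2 ^ s * 2 ^ (ep + nlp g l i) := by ring
        _ ≤ 2 ^ s₁ * 2 ^ s * 2 ^ (ep + nlp g l i) := by
              refine mul_le_mul_of_nonneg_right ?_ hE.le
              exact mul_le_mul_of_nonneg_right hs₁.le (by positivity)
        _ = 2 ^ (s₁ + s) * 2 ^ (ep + nlp g l i) := by rw [pow_add 2 s₁ s]
    -- widening
    obtain ⟨rx, hrx⟩ : ∃ rx, rx = L + s + 1 := ⟨_, rfl⟩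
    have hrd2 : rd i ≤ rx := by
      rw [hrx]
      rcases Nat.eq_zero_or_pos i with rfl | hi1
      · omega
      · obtain ⟨i, rfl⟩ : ∃ i', i = i' + 1 := ⟨i - 1, by omega⟩
        rw [hrdS]
        have := hL i (by omega)
        omega
    have hsx : s ≤ rx := by omega
    have h2 := hwid Φ Ψ (gg a g) (pderiv (l + 1) (Φ (i + 1))) (i + 1) (2 ^ rx)
      (2 ^ (s₁ + s) * 2 ^ (ep + nlp g l i)) hΦt hΨt hΦd (by omega)
      ((NEAR.vars_pd _ _).trans (hΦt _)) (NEAR.deg_pd (hΦd _) _) (one_le_pow₀ (by norm_num))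
      (by positivity) (fun j hj x hx => (hnr j (by omega) x hx).trans
        (div_le_div_of_nonneg_right (pow_le_pow_right₀ (by norm_num) hsx) (by positivity)))
      hΦG (pb e b) (by
        rw [← hΦ] at h1
        exact h1.mono (pow_le_pow_right₀ (by norm_num) hrd2) le_rfl)
    show |eval b (pderiv (some (e l)) (tb e (Gt (ptr F J ω) (i + 1))))| ≤
      2 ^ (ep + c * (L + s + 1) + s₁ + nlp (fun i => g i - ℓ i) l i)
    rw [pd_tb hc (by omega) hl (hGt _ _), ← hΦ]
    refine h2.trans ?_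
    have h3 : ((Cw : ℝ) * 2 ^ rx) ^ Cw ≤ 2 ^ ((q₀ + rx) * Cw) := by
      rw [pow_mul]
      refine pow_le_pow_left₀ (by positivity) ?_ _
      rw [pow_add]
      exact mul_le_mul_of_nonneg_right hq₀.le (by positivity)
    refine (mul_le_mul_of_nonneg_right h3 (by positivity)).trans ?_
    rw [← pow_add, ← pow_add]
    refine pow_le_pow_right₀ (by norm_num) ?_
    have h4 : nlp g l i ≤ nlp (fun i => g i - ℓ i) l i := by
      obtain ⟨q, hq, hq2⟩ := Finset.exists_mem_eq_sup (Finset.Icc l i) ⟨l, Finset.mem_Icc.2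
        ⟨le_rfl, hl.le⟩⟩ g
      have e1 := Finset.mem_Icc.1 hq
      have e2 : g q - ℓ q ≤ (Finset.Icc l i).sup (fun i => g i - ℓ i) :=
        Finset.le_sup (f := fun i => g i - ℓ i) hq
      have e3 := hmono q i e1.2 hi
      have e4 := hg i hi
      unfold nlp
      rw [hq2]
      show g q - g i ≤ (Finset.Icc l i).sup (fun i => g i - ℓ i) - (g i - ℓ i)
      omega
    have h5 : (q₀ + rx) * Cw + s ≤ c * (L + s + 1) := by
      rw [hrx, hcd]
      nlinarith [Nat.zero_le (q₀ * Cw * (L + s)), Nat.zero_le (Cw * (L + s + 1)),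
        Nat.zero_le ((K₁ + e₀) * (L + s + 1))]
    omega

end CLO

end Pool.STAT
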