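import Pool.Agent.H33.TRC.TrcJ
import Pool.Agent.H63.STAT.Pack

/-!
# Chains of universal degree at one point: families

`lab2_fam`: chains of two-sided labels at finitely many radii `al k` and windows `om k`, `k ≤ N`,
which increase together, with the comparisons on the finer boxes, give one chain of two-sided
labels with the radius `al N` and the window `om N` whose degree depends only on the slope `S`.
-/

set_option autoImplicit false

namespace Pool.STAT

open Finset MvPolynomial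
open Pool.Agent.H49.Ent Pool.Agent.H32.Dense Pool.STK Pool.KS3 Pool.KA Pool.KSAT Pool.PB Pool.GEN
open Pool.K2S Pool.TRC

namespace CLO

/-- **Chains of universal degree at one point**, for one family. -/
theorem lab2_fam (n S : ℕ) (hS : 1 ≤ S) : ∃ D c : ℕ, 1 ≤ c ∧ ∀ K N : ℕ, ∃ C : ℕ,
    ∀ (d J : ℕ) (F : Fam d J) (e : ℕ → Fin d) (al om : ℕ → ℕ) (ee : ℕ) (g : ℕ → ℕ → ℕ)
    (u₀ h u s : ℕ) (ℓ : ℕ → ℕ) (L : ℕ) (A : F.Ω → Prop)
    (G : ℕ → PtT F → ℕ → MvPolynomial (Option (Fin d)) ℝ)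
    (H : ℕ → LnT F → ℕ → MvPolynomial (Option (Fin d)) ℝ) (θ : ℝ),
    Jat F e n K (N + 1) al om ee g u₀ A G H → Inj e n → al N ≤ J → (∀ k ≤ N, om k ≤ al k) →
    (∀ k < N, om k ≤ om (k + 1) ∧ om (k + 1) ≤ om k + h) →
    (∀ k < N, al k ≤ al (k + 1) ∧ al (k + 1) ≤ al k + h) →
    (∀ k ≤ N, ∀ k' ≤ k, ∀ l < n, g k' l + al k ≤ g k l + al k' + u ∧
      g k' l + om k ≤ g k l + om k' + u ∧ g k' l ≤ g k l) →
    (∀ k ≤ N, ∀ l < n, al k ≤ g k l + u) →
    (∀ k ≤ N, ∀ l < n, g N l + S * al k ≤ g k l + S * al N + u ∧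
      g N l + S * om k ≤ g k l + S * om N + u) →
    (∀ l < n, g N l + S * al 0 ≤ S * al N + u ∧ g N l + S * om 0 ≤ S * om N + u) →
    (∀ k ≤ N, ∀ l < n, C ≤ g k l) → u₀ + C ≤ u → 0 < Pe F.p A → 0 ≤ θ →
    (∀ k ≤ N, TimeS F A (om k) (J - om N) θ) → C * (θ + 1) ≤ (J - om N : ℕ) →
    (c : ℝ) * (h + u) + C * (θ + 1) ≤ s →
    (∀ i < n, ℓ i ≤ g N i) → (∀ i < n, ℓ i ≤ L) → c * (s + 1) ≤ ℓ 0 →
    (∀ i, i + 1 < n → c * (ℓ i + s + 1) ≤ ℓ (i + 1)) →
    ∃ (B : F.Ω → Prop) (Gt : PtT F → ℕ → PN) (R : LnT F → ℕ → PN), (∀ ω, B ω → A ω) ∧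
      Pe F.p A ≤ 2 * Pe F.p B ∧
      ChOK F e n (fun _ => D) (al N) (om N) (ee + c * (L + s + 1) + C) (fun i => g N i - ℓ i) B
        (fun y i => tb e (Gt y (i + 1))) (fun l i => tb e (R l (i + 1))) ∧
      (∀ ω, B ω → ∀ i < n, ∀ b : ℕ → ℝ,
        Bx (gg (al N) (g N)) (Gs e n (al N) (G N) (ptr F J ω)) (i + 1) b →
        |eval b (Gs e n (al N) (G N) (ptr F J ω) (i + 1)) - eval b (Gt (ptr F J ω) (i + 1))| ≤
          2 ^ s / 2 ^ g N i) := by
  obtain ⟨c₁, htrc⟩ := trc_fam n S hS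
  obtain ⟨D, hD⟩ : ∃ D, D = (S + 1) ^ (n + 1) ^ 2 := ⟨_, rfl⟩
  rw [← hD] at htrc
  obtain ⟨c₂, hc₂, hpack⟩ := pack n D
  refine ⟨D, max c₁ c₂, le_trans hc₂ (le_max_right _ _), fun K N => ?_⟩
  obtain ⟨s₀, hs₀, hlvl⟩ := lvl_of n K
  obtain ⟨C₁, hC₁⟩ := htrc K (N + 1) s₀
  obtain ⟨s₁, hs₁⟩ := hpack K
  obtain ⟨C, hC⟩ : ∃ C, C = C₁ + s₁ + s₀ + 1 := ⟨_, rfl⟩
  have hCC₁ : (C₁ : ℝ) ≤ C := by
    rw [hC]
    push_cast
    have : (0 : ℝ) ≤ s₁ := Nat.cast_nonneg _
    have : (0 : ℝ) ≤ s₀ := Nat.cast_nonneg _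
    linarith
  refine ⟨C, ?_⟩
  intro d J F e al om ee g u₀ h u s ℓ L A G H θ hJat hinj haJ hoa hom hal hlaw hag hsl hsl0 hCg hu
    hA hθ htm hCJ hs hℓg hℓL hℓ0 hℓs
  have hmA : ∀ k j, k ≤ j → j ≤ N → al k ≤ al j := by
    intro k j hkj
    induction j with
    | zero =>
      intro _
      have : k = 0 := by omega
      rw [this]
    | succ j ih =>
      intro hj
      rcases Nat.lt_or_ge k (j + 1) with h1 | h1
      · exact (ih (by omega) (by omega)).trans (hal j (by omega)).1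
      · have : k = j + 1 := by omega
        rw [this]
  have haJ' : ∀ k ≤ N, al k ≤ J := fun k hk => (hmA k N hk le_rfl).trans haJ
  have hL := hlvl d J (N + 1) F e al om ee g u₀ h u (al 0) (om 0) A G H hJat hinj
    (fun k hk => haJ' k (by omega)) (haJ' 0 (Nat.zero_le _)) (hoa 0 (Nat.zero_le _))
    (fun k hk => hoa k (by omega)) (fun k hk => (hom k (by omega)).1)
    (fun _ => ⟨le_rfl, le_rfl, by omega⟩) (fun k hk => hal k (by omega))
    (fun k hk k' hk' l hl => ⟨(hlaw k (by omega) k' hk' l hl).1,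
      (hlaw k (by omega) k' hk' l hl).2.2⟩)
    (fun k hk l hl => by
      have := hag k (by omega) l hl
      omega) (by omega)
  have hw : wtop (N + 1) (om N) (shl (om 0) om) = shl (om 0) om := by
    funext k
    unfold wtop
    split_ifs with hk
    · rw [hk]
      rfl
    · rfl
  have hTms : Tms n S (N + 1) (shl (om 0) om) (wtop (N + 1) (om N) (shl (om 0) om)) (jg g) h u := by
    rw [hw]
    refine ⟨?_, ?_, ?_, ?_⟩
    · rintro (_ | k) hk
      · exact ⟨le_rfl, Nat.le_add_right _ _⟩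
      · exact hom k (by omega)
    · rintro (_ | k) hk (_ | k') hk' l h1 h2
      · show 0 + om 0 ≤ 0 + om 0 + u
        omega
      · omega
      · show 0 + om k ≤ g k (l - 1) + om 0 + u
        have h3 := hag k (by omega) (l - 1) (by omega)
        have h4 := hoa k (by omega)
        omega
      · exact (hlaw k (by omega) k' (by omega) (l - 1) (by omega)).2.1
    · rintro (_ | k) hk l h1 h2
      · show g N (l - 1) + S * om 0 ≤ 0 + S * om N + u
        have := (hsl0 (l - 1) (by omega)).2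
        omega
      · exact (hsl k (by omega) (l - 1) (by omega)).2
    · intro k _
      rw [Nat.add_comm]
  have hSlp : Pool.TRC.Slp n S (shl (al 0) al) (jg g) u (N + 1) := by
    rintro (_ | k) hk l h1 h2
    · show g N (l - 1) + S * al 0 ≤ 0 + S * al N + u
      have := (hsl0 (l - 1) (by omega)).1
      omega
    · exact (hsl k (by omega) (l - 1) (by omega)).1
  have hs' : ((c₁ : ℕ) : ℝ) * (h + u + (0 : ℕ)) + C₁ * (θ + 1) ≤ s := by
    refine le_trans ?_ hs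
    have e1 : (c₁ : ℝ) ≤ (max c₁ c₂ : ℕ) := by exact_mod_cast le_max_left c₁ c₂
    have e2 : (0 : ℝ) ≤ (h : ℝ) + u := by positivity
    have e3 := mul_le_mul_of_nonneg_right e1 e2
    have e4 := mul_le_mul_of_nonneg_right hCC₁ (by linarith : 0 ≤ θ + 1)
    push_cast at e3 ⊢
    linarith
  obtain ⟨B, G', H', R, k1, k2, k3, k4, k5, k6, k7, k8, -⟩ := hC₁ d J F (fun i => e (i - 1)) (al N)
    (om N) 0 0 (shl (al 0) al) (shl (om 0) om) (shl (om 0) om) (jg g) (fun _ => jg g (N + 1)) h u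
    0 s (fun _ => N + 1) A (jG F e n (N + 1) (al 0) al G) (jH F e n (N + 1) H) θ hL
    (fun k _ => ⟨le_rfl, hSlp, by
      show al N ≤ al N + k * 0
      omega⟩) rfl (by
      show al N + 0 * 0 ≤ J
      omega) hTms le_rfl (hoa N le_rfl) (by
      rintro (_ | k) hk1 hk2 i hi1 hi2
      · omega
      · show s₀ + 1 ≤ g k (i - 1)
        have := hCg k (by omega) (i - 1) (by omega)
        omega) hA hθ (by
      rintro (_ | k) hk
      · exact htm 0 (Nat.zero_le _)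
      · exact htm k (by omega)) (by
      refine le_trans (mul_le_mul_of_nonneg_right hCC₁ (by linarith)) hCJ)
    (fun k _ i _ _ => ⟨le_rfl, by omega⟩) hs'
  have hRaw := k3 0 le_rfl
  have ea : al N + 0 * 0 = al N := by omega
  rw [ea] at hRaw
  have hg0 : CDat.g0 (al N) 0 (fun _ => jg g (N + 1)) 0 = gg (al N) (g N) := by
    funext i
    unfold CDat.g0 gg
    split_ifs
    · exact ea
    · rfl
  have hnr : ∀ ω, B ω → ∀ i, 1 ≤ i → i ≤ n → ∀ b : ℕ → ℝ,
      Bx (gg (al N) (g N)) (Gs e n (al N) (G N) (ptr F J ω)) i b →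
      |eval b (Gs e n (al N) (G N) (ptr F J ω) i) - eval b (G' 0 (ptr F J ω) i)| ≤
        2 ^ s / 2 ^ g N (i - 1) := by
    intro ω hω i hi1 hi b hb
    have h1 := k8 0 le_rfl ω hω i hi1 hi b
    have h2 : jG F e n (N + 1) (al 0) al G (N + 1) = Gs e n (al N) (G N) :=
      jG_succ (Nat.lt_succ_self N)
    rw [h2] at h1
    refine h1 ?_
    rw [gg_tus] at hb
    exact hb
  refine ⟨B, G' 0, R, k1, k2, ?_, fun ω hω i hi b hb => ?_⟩
  · refine (hs₁ d J (al N) (om N) (om N) ee s F e (fun _ => K) (g N) ℓ L B (G N) (H N) (G' 0) R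
      haJ hinj (fun _ _ => le_rfl) ((hJat.ok N (Nat.lt_succ_self N)).sub k1) hRaw.G_tri
      hRaw.G_deg hRaw.G_zero k5 k6 hnr (fun ω hω i hi1 hi => ?_) (fun ω hω i hi1 hi b hb => ?_)
      hℓg hℓL ?_ (fun i hi => ?_)).mono le_rfl (fun _ => le_rfl) le_rfl ?_
    · exact k4 0 le_rfl ω hω i hi1 hi
    · refine k7 ω hω i hi1 hi b ?_
      rw [hg0]
      exact hb
    · exact (Nat.mul_le_mul_right _ (le_max_right c₁ c₂)).trans hℓ0
    · exact (Nat.mul_le_mul_right _ (le_max_right c₁ c₂)).trans (hℓs i hi)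
    · have h1 := Nat.mul_le_mul_right (L + s + 1) (le_max_right c₁ c₂)
      omega
  · exact hnr ω hω (i + 1) (by omega) (by omega) b hb

end CLO

end Pool.STAT
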